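import Pool.Agent.Helper533.Polar.Conv2
open MeasureTheory Filter Topology Set
open scoped ENNReal NNReal RealInnerProductSpace

namespace Pool.Agent.Helper533.Polar

variable {n : ℕ} {p α β : ℝ} {w : Sp n → ℝ} {𝒜 : Sp n → Sp n → Sp n} {Ω : Set (Sp n)}

theorem isHarmonic_of_LH (hp : 1 < p) (hw : Stmt.IsAdmissible p w)
    [IsFiniteMeasureOnCompacts (Stmt.wm w)]
    {G : Set (Sp n)} (hG : IsOpen G) {h : Sp n → ℝ} {H : Sp n → Sp n}
    (hc : ContinuousOn h (closure G)) (hLH : LH p (Stmt.wm w) G h H)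
    (hint : ∀ φ, Cc G φ → ∫ x, ⟪(w x)⁻¹ • 𝒜 x (H x), gradient φ x⟫ ∂(Stmt.wm w) = 0) :
    Stmt.IsHarmonic 𝒜 p w G h := by
  refine ⟨hc.mono subset_closure, H, LH.toH1Loc hp hG hLH, fun φ hφ => ?_⟩
  have h1 := hint φ (isTest_iff.1 hφ)
  have h2 := integral_wm hw (fun x => ⟪𝒜 x (H x), gradient φ x⟫)
  rw [← h2, ← h1]
  congr 1
  ext x
  rw [real_inner_smul_left]

theorem cmpSuper_of (hp : 1 < p) (hw : Stmt.IsAdmissible p w)
    [IsFiniteMeasureOnCompacts (Stmt.wm w)] {u : Sp n → ℝ}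
    (hu : Stmt.IsSuperharmonic 𝒜 p w Ω u) :
    CmpSuper (fun x ξ => (w x)⁻¹ • 𝒜 x ξ) p (Stmt.wm w) Ω u := by
  intro G hG hGc hGΩ h H hc hLH hint hb
  exact hu.comparison G hG hGc hGΩ h hc (isHarmonic_of_LH hp hw hG hc hLH hint) hb

theorem cmpSuper_neg_of (hp : 1 < p) (hw : Stmt.IsAdmissible p w)
    [IsFiniteMeasureOnCompacts (Stmt.wm w)] (hA : Stmt.IsOperator p α β w 𝒜) {v : Sp n → ℝ}
    (hv : Stmt.IsSubharmonic 𝒜 p w Ω v) :
    CmpSuper (fun x ξ => (w x)⁻¹ • 𝒜 x ξ) p (Stmt.wm w) Ω (fun x => - v x) := by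
  intro G hG hGc hGΩ h H hc hLH hint hb
  have hodd := ae_wm hw hA.homogeneous
  have hneg : Stmt.IsHarmonic 𝒜 p w G (fun x => (-1 : ℝ) * h x) := by
    refine isHarmonic_of_LH (H := fun x => (-1 : ℝ) • H x) hp hw hG (hc.const_mul (-1)) (hLH.const_mul (-1)) ?_
    intro φ hφ
    have h1 : ∫ x, ⟪(w x)⁻¹ • 𝒜 x ((-1 : ℝ) • H x), gradient φ x⟫ ∂(Stmt.wm w)
        = ∫ x, - ⟪(w x)⁻¹ • 𝒜 x (H x), gradient φ x⟫ ∂(Stmt.wm w) := by
      apply integral_congr_ae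
      filter_upwards [hodd] with x hx
      rw [hx (-1) (H x) (by norm_num)]
      simp only [abs_neg, abs_one, Real.one_rpow, mul_one, neg_smul, one_smul, smul_neg,
        inner_neg_left]
    rw [h1, integral_neg, hint φ hφ, neg_zero]
  have h2 := hv.comparison G hG hGc hGΩ (fun x => (-1 : ℝ) * h x) (hc.const_mul (-1)) hneg
    (fun x hx => by have := hb x hx; linarith)
  intro x hx
  have h3 := h2 x hx
  simp only at h3 ⊢
  linarith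

theorem final_theorem (hn : 2 ≤ n) (hp : 1 < p) (hw : Stmt.IsAdmissible p w)
    (hA : Stmt.IsOperator p α β w 𝒜) (hΩ : IsOpen Ω) (hΩb : Bornology.IsBounded Ω)
    {x₀ : Sp n} (hcap : Stmt.cap p (Stmt.wm w) {x₀} = 0) {u v : Sp n → ℝ}
    (hu : Stmt.IsSuperharmonic 𝒜 p w Ω u) (hv : Stmt.IsSubharmonic 𝒜 p w Ω v)
    (hub : ∃ M : ℝ, ∀ x ∈ Ω, |u x| ≤ M) (hvb : ∃ M : ℝ, ∀ x ∈ Ω, |v x| ≤ M)
    (hbd : ∀ y ∈ frontier Ω, y ≠ x₀ → limsup v (𝓝[Ω] y) ≤ liminf u (𝓝[Ω] y)) :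
    ∀ x ∈ Ω, v x ≤ u x := by
  obtain ⟨Cd0, -, -, -, -, hfin⟩ := wm_basic hp hw
  haveI := hfin
  obtain ⟨Cd, θ, Cs, lam, Cp, hadm⟩ := adm_of_isAdmissible hp hw
  obtain ⟨M1, hM1⟩ := hub
  obtain ⟨M2, hM2⟩ := hvb
  have hα : 0 < α := hA.alpha_pos
  have hβ : 0 < β := lt_of_lt_of_le hα hA.alpha_le_beta
  set m : ℝ := max (max M1 M2) 0 with hm
  have hmM1 : M1 ≤ m := (le_max_left M1 M2).trans (le_max_left _ _)
  have hmM2 : M2 ≤ m := (le_max_right M1 M2).trans (le_max_left _ _)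
  have hm0 : 0 ≤ m := le_max_right _ _
  have hmu : ∀ x ∈ Ω, |u x| ≤ m := fun x hx => (hM1 x hx).trans hmM1
  have hmv : ∀ x ∈ Ω, |v x| ≤ m := fun x hx => (hM2 x hx).trans hmM2
  have hne : Ωᶜ.Nonempty := by
    haveI : Nonempty (Fin n) := ⟨⟨0, by omega⟩⟩
    haveI : Nontrivial (Sp n) := inferInstance
    by_contra hcon
    rw [not_nonempty_iff_eq_empty, compl_empty_iff] at hcon
    rw [hcon] at hΩb
    exact NormedSpace.unbounded_univ ℝ (Sp n) hΩb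
  refine main_internal (m := m) hp hα hβ (op_of_isOperator hp hw hA) hadm hΩ hΩb hne hm0 hmu hmv
    hu.lsc hv.usc (cmpSuper_of hp hw hu) (cmpSuper_neg_of hp hw hA hv) (x0 := x₀) ?_
    (cap_cutoffs hp hcap)
  intro y hy hyx e he
  have h0 := hbd y hy hyx
  have hvbd : IsBoundedUnder (· ≤ ·) (𝓝[Ω] y) v := by
    refine ⟨m, ?_⟩
    rw [eventually_map]
    filter_upwards [self_mem_nhdsWithin] with x hx using (abs_le.1 (hmv x hx)).2
  have hubd : IsBoundedUnder (· ≥ ·) (𝓝[Ω] y) u := by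
    refine ⟨-m, ?_⟩
    rw [eventually_map]
    filter_upwards [self_mem_nhdsWithin] with x hx using (abs_le.1 (hmu x hx)).1
  have h1 : ∀ᶠ x in 𝓝[Ω] y, v x < limsup v (𝓝[Ω] y) + e / 2 :=
    eventually_lt_of_limsup_lt (by linarith) hvbd
  have h2 : ∀ᶠ x in 𝓝[Ω] y, liminf u (𝓝[Ω] y) - e / 2 < u x :=
    eventually_lt_of_lt_liminf (by linarith) hubd
  have h3 : ∀ᶠ x in 𝓝[Ω] y, v x < u x + e := by
    filter_upwards [h1, h2] with x hx1 hx2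
    linarith
  rw [Metric.nhdsWithin_basis_ball.eventually_iff] at h3
  obtain ⟨r, hr, h4⟩ := h3
  exact ⟨r, hr, fun x hxΩ hxb => h4 ⟨hxb, hxΩ⟩⟩

end Pool.Agent.Helper533.Polar
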