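import Mathlib
open MeasureTheory Filter Topology Set
open scoped ENNReal NNReal RealInnerProductSpace

namespace Pool.Agent.Helper533.Polar

-- job 4558
section


variable {α F : Type*} [MeasurableSpace α] {μ : Measure α} [NormedAddCommGroup F]
  [InnerProductSpace ℝ F] [FiniteDimensional ℝ F]


theorem psi_nonneg {p : ℝ} (hp : 1 < p) (a b : F) :
    0 ≤ (‖a‖ ^ p + ‖b‖ ^ p) / 2 - ‖(2⁻¹ : ℝ) • (a + b)‖ ^ p := by
  have h1 : ‖(2⁻¹ : ℝ) • (a + b)‖ ≤ 2⁻¹ * ‖a‖ + 2⁻¹ * ‖b‖ := by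
    rw [norm_smul, Real.norm_of_nonneg (by norm_num : (0 : ℝ) ≤ 2⁻¹)]
    have := norm_add_le a b
    nlinarith
  have h2 : ‖(2⁻¹ : ℝ) • (a + b)‖ ^ p ≤ (2⁻¹ * ‖a‖ + 2⁻¹ * ‖b‖) ^ p :=
    Real.rpow_le_rpow (norm_nonneg _) h1 (by linarith)
  have h3 := (convexOn_rpow hp.le).2 (norm_nonneg a : ‖a‖ ∈ Ici 0) (norm_nonneg b : ‖b‖ ∈ Ici 0)
    (by norm_num : (0 : ℝ) ≤ 2⁻¹) (by norm_num : (0 : ℝ) ≤ 2⁻¹) (by norm_num)
  simp only [smul_eq_mul] at h3
  linarith

theorem psi_pos {p : ℝ} (hp : 1 < p) {a b : F} (hab : a ≠ b) :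
    0 < (‖a‖ ^ p + ‖b‖ ^ p) / 2 - ‖(2⁻¹ : ℝ) • (a + b)‖ ^ p := by
  by_cases h : ‖a‖ = ‖b‖
  · have h1 : ‖(2⁻¹ : ℝ) • (a + b)‖ < ‖a‖ := by
      have := (norm_midpoint_lt_iff h).2 hab
      rwa [one_div] at this
    have h2 : ‖(2⁻¹ : ℝ) • (a + b)‖ ^ p < ‖a‖ ^ p :=
      Real.rpow_lt_rpow (norm_nonneg _) h1 (by linarith)
    rw [← h]
    linarith
  · have h1 : ‖(2⁻¹ : ℝ) • (a + b)‖ ≤ 2⁻¹ * ‖a‖ + 2⁻¹ * ‖b‖ := by
      rw [norm_smul, Real.norm_of_nonneg (by norm_num : (0 : ℝ) ≤ 2⁻¹)]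
      have := norm_add_le a b
      nlinarith
    have h2 : ‖(2⁻¹ : ℝ) • (a + b)‖ ^ p ≤ (2⁻¹ * ‖a‖ + 2⁻¹ * ‖b‖) ^ p :=
      Real.rpow_le_rpow (norm_nonneg _) h1 (by linarith)
    have h3 := (strictConvexOn_rpow hp).2 (norm_nonneg a : ‖a‖ ∈ Ici 0)
      (norm_nonneg b : ‖b‖ ∈ Ici 0) h
      (by norm_num : (0 : ℝ) < 2⁻¹) (by norm_num : (0 : ℝ) < 2⁻¹) (by norm_num)
    simp only [smul_eq_mul] at h3
    linarith

theorem psi_min {p : ℝ} (hp : 1 < p) {η : ℝ} (hη : 0 < η) :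
    ∃ c : ℝ, 0 < c ∧ ∀ a b : F, ‖a‖ ^ p + ‖b‖ ^ p = 1 → η ≤ ‖a - b‖ ^ p →
      c ≤ (‖a‖ ^ p + ‖b‖ ^ p) / 2 - ‖(2⁻¹ : ℝ) • (a + b)‖ ^ p := by
  have hp0 : 0 < p := by linarith
  have hc : ∀ f : F × F → F, Continuous f → Continuous (fun z => ‖f z‖ ^ p) := by
    intro f hf
    exact hf.norm.rpow_const (fun _ => Or.inr hp0.le)
  have c1 := hc _ continuous_fst
  have c2 := hc _ continuous_snd
  have c3 := hc (fun z => z.1 - z.2) (continuous_fst.sub continuous_snd)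
  have c4 := hc (fun z => (2⁻¹ : ℝ) • (z.1 + z.2))
    ((continuous_fst.add continuous_snd).const_smul _)
  set S : Set (F × F) := {z | ‖z.1‖ ^ p + ‖z.2‖ ^ p = 1 ∧ η ≤ ‖z.1 - z.2‖ ^ p} with hS
  have hcl : IsClosed S :=
    (isClosed_eq (c1.add c2) continuous_const).inter (isClosed_le continuous_const c3)
  have hle : ∀ z ∈ S, ‖z.1‖ ≤ 1 ∧ ‖z.2‖ ≤ 1 := by
    rintro z ⟨h1, -⟩
    have h2 : 0 ≤ ‖z.1‖ ^ p := by positivity
    have h3 : 0 ≤ ‖z.2‖ ^ p := by positivity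
    constructor
    · by_contra h
      push Not at h
      have := Real.one_lt_rpow h hp0
      linarith
    · by_contra h
      push Not at h
      have := Real.one_lt_rpow h hp0
      linarith
  haveI : ProperSpace (F × F) := FiniteDimensional.proper ℝ (F × F)
  have hbd : Bornology.IsBounded S := by
    refine (Metric.isBounded_closedBall (x := (0 : F × F)) (r := 1)).subset ?_
    intro z hz
    rw [mem_closedBall_zero_iff, Prod.norm_def]
    exact max_le (hle z hz).1 (hle z hz).2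
  have hcomp : IsCompact S := Metric.isCompact_of_isClosed_isBounded hcl hbd
  rcases S.eq_empty_or_nonempty with he | hne
  · refine ⟨1, one_pos, fun a b h1 h2 => ?_⟩
    have : (a, b) ∈ S := ⟨h1, h2⟩
    rw [he] at this
    exact absurd this (by simp)
  · obtain ⟨z, hz, hmin⟩ := hcomp.exists_isMinOn hne
      (((c1.add c2).div_const 2).sub c4).continuousOn
    refine ⟨_, psi_pos hp (a := z.1) (b := z.2) ?_, fun a b h1 h2 => ?_⟩
    · intro h
      have h2 := hz.2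
      rw [h, sub_self, norm_zero, Real.zero_rpow hp0.ne'] at h2
      linarith
    · exact hmin (⟨h1, h2⟩ : (a, b) ∈ S)

/-- pointwise (uniform convexity of `|.|^p` by compactness) -/
theorem clarkson_pointwise {p : ℝ} (hp : 1 < p) {η : ℝ} (hη : 0 < η) :
    ∃ C : ℝ, 0 ≤ C ∧ ∀ a b : F, ‖a - b‖ ^ p ≤ η * (‖a‖ ^ p + ‖b‖ ^ p)
      + C * ((‖a‖ ^ p + ‖b‖ ^ p) / 2 - ‖(2⁻¹ : ℝ) • (a + b)‖ ^ p) := by
  have hp0 : 0 < p := by linarith
  obtain ⟨c, hc, hmin⟩ := psi_min (F := F) hp hη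
  refine ⟨2 ^ p / c, by positivity, fun a b => ?_⟩
  have hψ := psi_nonneg hp a b
  have hN0 : 0 ≤ ‖a‖ ^ p + ‖b‖ ^ p := by positivity
  by_cases h : ‖a - b‖ ^ p ≤ η * (‖a‖ ^ p + ‖b‖ ^ p)
  · have : 0 ≤ 2 ^ p / c * ((‖a‖ ^ p + ‖b‖ ^ p) / 2 - ‖(2⁻¹ : ℝ) • (a + b)‖ ^ p) := by positivity
    linarith
  push Not at h
  set N := ‖a‖ ^ p + ‖b‖ ^ p with hN
  have hNpos : 0 < N := by
    rcases hN0.lt_or_eq with h1 | h1
    · exact h1
    · exfalso
      have ha : 0 ≤ ‖a‖ ^ p := by positivity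
      have hb : 0 ≤ ‖b‖ ^ p := by positivity
      have ha' : ‖a‖ ^ p = 0 := by linarith
      have hb' : ‖b‖ ^ p = 0 := by linarith
      rw [Real.rpow_eq_zero (norm_nonneg _) hp0.ne', norm_eq_zero] at ha' hb'
      rw [ha', hb', sub_zero, norm_zero, Real.zero_rpow hp0.ne', ← h1] at h
      linarith
  set t : ℝ := N ^ (-p⁻¹) with ht
  have htpos : 0 < t := Real.rpow_pos_of_pos hNpos _
  have htp : t ^ p = N⁻¹ := by
    rw [ht, ← Real.rpow_mul hNpos.le]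
    have : -p⁻¹ * p = -1 := by field_simp
    rw [this, Real.rpow_neg_one]
  have hsc : ∀ v : F, ‖t • v‖ ^ p = N⁻¹ * ‖v‖ ^ p := by
    intro v
    rw [norm_smul, Real.norm_of_nonneg htpos.le, Real.mul_rpow htpos.le (norm_nonneg _), htp]
  have e1 : ‖t • a‖ ^ p + ‖t • b‖ ^ p = 1 := by
    rw [hsc, hsc, ← mul_add, ← hN, inv_mul_cancel₀ hNpos.ne']
  have e2 : η ≤ ‖t • a - t • b‖ ^ p := by
    rw [← smul_sub, hsc, ← div_eq_inv_mul, le_div_iff₀ hNpos]
    exact h.le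
  have e3 := hmin (t • a) (t • b) e1 e2
  rw [hsc, hsc, ← smul_add, smul_comm, hsc] at e3
  have e4 : c * N ≤ N / 2 - ‖(2⁻¹ : ℝ) • (a + b)‖ ^ p := by
    have h5 := mul_le_mul_of_nonneg_right e3 hNpos.le
    have h6 : ((N⁻¹ * ‖a‖ ^ p + N⁻¹ * ‖b‖ ^ p) / 2 - N⁻¹ * ‖(2⁻¹ : ℝ) • (a + b)‖ ^ p) * N =
        N / 2 - ‖(2⁻¹ : ℝ) • (a + b)‖ ^ p := by
      rw [← mul_add, ← hN]
      field_simp
    linarith
  have e5 : ‖a - b‖ ^ p ≤ 2 ^ p * N := by
    have h6 : ‖a - b‖ ≤ 2 * max ‖a‖ ‖b‖ := by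
      have := norm_sub_le a b
      have h7 := le_max_left ‖a‖ ‖b‖
      have h8 := le_max_right ‖a‖ ‖b‖
      linarith
    have h7 : ‖a - b‖ ^ p ≤ (2 * max ‖a‖ ‖b‖) ^ p :=
      Real.rpow_le_rpow (norm_nonneg _) h6 hp0.le
    have h8 : (2 * max ‖a‖ ‖b‖) ^ p = 2 ^ p * (max ‖a‖ ‖b‖) ^ p :=
      Real.mul_rpow (by norm_num) (le_max_of_le_left (norm_nonneg _))
    have h9 : (max ‖a‖ ‖b‖) ^ p ≤ N := by
      have ha : 0 ≤ ‖a‖ ^ p := by positivity
      have hb : 0 ≤ ‖b‖ ^ p := by positivity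
      rcases max_choice ‖a‖ ‖b‖ with h10 | h10
      · rw [h10]; linarith
      · rw [h10]; linarith
    calc ‖a - b‖ ^ p ≤ 2 ^ p * (max ‖a‖ ‖b‖) ^ p := by rw [← h8]; exact h7
      _ ≤ 2 ^ p * N := by gcongr
  have e6 : 2 ^ p * N ≤ 2 ^ p / c * (N / 2 - ‖(2⁻¹ : ℝ) • (a + b)‖ ^ p) := by
    calc 2 ^ p * N = 2 ^ p / c * (c * N) := by field_simp
      _ ≤ _ := by gcongr
  have : 0 ≤ η * N := by positivity
  linarith

theorem norm_rpow_eq {p : ℝ} (hp : 1 < p) [Fact (1 ≤ ENNReal.ofReal p)]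
    (a : Lp F (ENNReal.ofReal p) μ) : ‖a‖ ^ p = ∫ x, ‖a x‖ ^ p ∂μ := by
  have hp0 : 0 < p := by linarith
  have h1 : ENNReal.ofReal p ≠ 0 := by
    rw [Ne, ENNReal.ofReal_eq_zero]; linarith
  have h2 := (Lp.memLp a).eLpNorm_eq_integral_rpow_norm h1 ENNReal.ofReal_ne_top
  rw [ENNReal.toReal_ofReal hp0.le] at h2
  have h3 : 0 ≤ ∫ x, ‖a x‖ ^ p ∂μ := integral_nonneg (fun x => by positivity)
  rw [Lp.norm_def, h2, ENNReal.toReal_ofReal (by positivity), ← Real.rpow_mul h3,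
    inv_mul_cancel₀ hp0.ne', Real.rpow_one]

theorem integrable_rpow {p : ℝ} (hp : 1 < p) [Fact (1 ≤ ENNReal.ofReal p)]
    (a : Lp F (ENNReal.ofReal p) μ) : Integrable (fun x => ‖a x‖ ^ p) μ := by
  have hp0 : 0 < p := by linarith
  have h1 : ENNReal.ofReal p ≠ 0 := by
    rw [Ne, ENNReal.ofReal_eq_zero]; linarith
  have h2 := (Lp.memLp a).integrable_norm_rpow h1 ENNReal.ofReal_ne_top
  rwa [ENNReal.toReal_ofReal hp0.le] at h2

/-- integrated version in `Lp` -/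
theorem clarkson_Lp {p : ℝ} (hp : 1 < p) [Fact (1 ≤ ENNReal.ofReal p)] {η : ℝ} (hη : 0 < η) :
    ∃ C : ℝ, 0 ≤ C ∧ ∀ a b : Lp F (ENNReal.ofReal p) μ, ‖a - b‖ ^ p ≤ η * (‖a‖ ^ p + ‖b‖ ^ p)
      + C * ((‖a‖ ^ p + ‖b‖ ^ p) / 2 - ‖(2⁻¹ : ℝ) • (a + b)‖ ^ p) := by
  obtain ⟨C, hC, h⟩ := clarkson_pointwise (F := F) hp hη
  refine ⟨C, hC, fun a b => ?_⟩
  have ia := integrable_rpow hp a
  have ib := integrable_rpow hp b
  have iab := integrable_rpow hp (a - b)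
  have im := integrable_rpow hp ((2⁻¹ : ℝ) • (a + b))
  have i1 : Integrable (fun x => ‖a x‖ ^ p + ‖b x‖ ^ p) μ := ia.add ib
  have i2 : Integrable (fun x => η * (‖a x‖ ^ p + ‖b x‖ ^ p)) μ := i1.const_mul η
  have i3 : Integrable (fun x => (‖a x‖ ^ p + ‖b x‖ ^ p) / 2) μ := i1.div_const 2
  have i4 : Integrable (fun x => (‖a x‖ ^ p + ‖b x‖ ^ p) / 2 -
    ‖((2⁻¹ : ℝ) • (a + b) : Lp F (ENNReal.ofReal p) μ) x‖ ^ p) μ := i3.sub im
  have i5 : Integrable (fun x => C * ((‖a x‖ ^ p + ‖b x‖ ^ p) / 2 -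
    ‖((2⁻¹ : ℝ) • (a + b) : Lp F (ENNReal.ofReal p) μ) x‖ ^ p)) μ := i4.const_mul C
  rw [norm_rpow_eq hp, norm_rpow_eq hp a, norm_rpow_eq hp b, norm_rpow_eq hp ((2⁻¹ : ℝ) • (a + b))]
  have e1 : η * (∫ x, ‖a x‖ ^ p ∂μ + ∫ x, ‖b x‖ ^ p ∂μ) +
      C * ((∫ x, ‖a x‖ ^ p ∂μ + ∫ x, ‖b x‖ ^ p ∂μ) / 2 -
        ∫ x, ‖((2⁻¹ : ℝ) • (a + b) : Lp F (ENNReal.ofReal p) μ) x‖ ^ p ∂μ) =
      ∫ x, (η * (‖a x‖ ^ p + ‖b x‖ ^ p) + C * ((‖a x‖ ^ p + ‖b x‖ ^ p) / 2 -
        ‖((2⁻¹ : ℝ) • (a + b) : Lp F (ENNReal.ofReal p) μ) x‖ ^ p)) ∂μ := by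
    rw [integral_add i2 i5, integral_const_mul, integral_const_mul, integral_add ia ib,
      integral_sub i3 im, integral_div, integral_add ia ib]
  rw [e1]
  refine integral_mono_ae iab (i2.add i5) ?_
  filter_upwards [Lp.coeFn_sub a b, Lp.coeFn_smul (2⁻¹ : ℝ) (a + b), Lp.coeFn_add a b]
    with x h1 h2 h3
  have h4 := h (a x) (b x)
  simp only [h1, h2, Pi.sub_apply, Pi.smul_apply, h3, Pi.add_apply]
  exact h4


end

-- job 4559
section


/-- Intersection property from a uniform convexity inequality. -/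
theorem inter_of_clarkson {X : Type*} [NormedAddCommGroup X] [NormedSpace ℝ X] [CompleteSpace X]
    {p : ℝ} (hp : 1 < p)
    (hUC : ∀ η : ℝ, 0 < η → ∃ C : ℝ, 0 ≤ C ∧ ∀ a b : X, ‖a - b‖ ^ p ≤ η * (‖a‖ ^ p + ‖b‖ ^ p)
      + C * ((‖a‖ ^ p + ‖b‖ ^ p) / 2 - ‖(2⁻¹ : ℝ) • (a + b)‖ ^ p))
    {ι : Type*} [Nonempty ι] (C : ι → Set X) (hcl : ∀ i, IsClosed (C i))
    (hcv : ∀ i, Convex ℝ (C i)) (hdir : ∀ i j, ∃ k, C k ⊆ C i ∩ C j)
    (hne : ∀ i, (C i).Nonempty) (hb : ∃ i, Bornology.IsBounded (C i)) :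
    (⋂ i, C i).Nonempty := by
  classical
  obtain ⟨i0, hi0⟩ := hb
  obtain ⟨R, hR⟩ := hi0.exists_norm_le
  have hle : ∀ i, ∀ x ∈ C i, Metric.infDist 0 (C i) ≤ ‖x‖ := by
    intro i x hx
    have := Metric.infDist_le_dist_of_mem (x := (0 : X)) hx
    rwa [dist_zero_left] at this
  have hdR : ∀ i, Metric.infDist 0 (C i) ≤ R := by
    intro i
    obtain ⟨k, hk⟩ := hdir i i0
    obtain ⟨x, hx⟩ := hne k
    exact (hle i x (hk hx).1).trans (hR x (hk hx).2)
  have hbdd : BddAbove (range fun i => Metric.infDist (0 : X) (C i)) := by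
    refine ⟨R, ?_⟩
    rintro _ ⟨i, rfl⟩
    exact hdR i
  set D := sSup (range fun i => Metric.infDist (0 : X) (C i)) with hD
  have hdD : ∀ i, Metric.infDist (0 : X) (C i) ≤ D := fun i => le_csSup hbdd ⟨i, rfl⟩
  have hD0 : 0 ≤ D := by
    obtain ⟨i⟩ := ‹Nonempty ι›
    exact Metric.infDist_nonneg.trans (hdD i)
  have hp0 : 0 < p := by linarith
  -- key estimate
  have key : ∀ δ : ℝ, 0 < δ → ∃ ε0 : ℝ, 0 < ε0 ∧ ∀ i, ∀ a ∈ C i, ∀ b ∈ C i,
      D - ε0 ≤ Metric.infDist 0 (C i) → ‖a‖ ≤ D + ε0 → ‖b‖ ≤ D + ε0 → ‖a - b‖ < δ := by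
    intro δ hδ
    have hδp : 0 < δ ^ p := Real.rpow_pos_of_pos hδ p
    have hDp : 0 ≤ D ^ p := Real.rpow_nonneg hD0 p
    set η : ℝ := δ ^ p / (2 * (D ^ p + D ^ p + 1)) with hη
    have hη0 : 0 < η := by positivity
    obtain ⟨K, hK0, hK⟩ := hUC η hη0
    have hcont : Continuous (fun ε : ℝ => η * ((D + ε) ^ p + (D + ε) ^ p) +
        K * (((D + ε) ^ p + (D + ε) ^ p) / 2 - (max (D - ε) 0) ^ p)) := by
      have h1 : Continuous (fun x : ℝ => x ^ p) := Real.continuous_rpow_const hp0.le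
      have h2 : Continuous (fun ε : ℝ => (D + ε) ^ p) := h1.comp (by fun_prop)
      have h3 : Continuous (fun ε : ℝ => (max (D - ε) 0) ^ p) := h1.comp (by fun_prop)
      fun_prop
    have h0 : η * ((D + 0) ^ p + (D + 0) ^ p) +
        K * (((D + 0) ^ p + (D + 0) ^ p) / 2 - (max (D - 0) 0) ^ p) < δ ^ p := by
      rw [add_zero, sub_zero, max_eq_left hD0]
      have h1 : (D ^ p + D ^ p) / 2 - D ^ p = 0 := by ring
      rw [h1, mul_zero, add_zero]
      have h2 : η * (2 * (D ^ p + D ^ p + 1)) = δ ^ p := by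
        rw [hη]
        field_simp
      nlinarith
    have hev := (hcont.tendsto 0).eventually (gt_mem_nhds h0)
    obtain ⟨ε1, hε1, hball⟩ := Metric.eventually_nhds_iff.1 hev
    refine ⟨ε1 / 2, by positivity, ?_⟩
    intro i a ha b hb' hdi hna hnb
    have hf := hball (y := ε1 / 2) (by
      rw [Real.dist_eq, sub_zero, abs_of_pos (by positivity)]
      linarith)
    have hmid : (2⁻¹ : ℝ) • (a + b) ∈ C i := by
      have := hcv i ha hb' (by norm_num : (0 : ℝ) ≤ 2⁻¹) (by norm_num : (0 : ℝ) ≤ 2⁻¹) (by norm_num)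
      rwa [← smul_add] at this
    have hmn : max (D - ε1 / 2) 0 ≤ ‖(2⁻¹ : ℝ) • (a + b)‖ :=
      max_le (hdi.trans (hle i _ hmid)) (norm_nonneg _)
    have hmp : (max (D - ε1 / 2) 0) ^ p ≤ ‖(2⁻¹ : ℝ) • (a + b)‖ ^ p :=
      Real.rpow_le_rpow (le_max_right _ _) hmn hp0.le
    have hap : ‖a‖ ^ p ≤ (D + ε1 / 2) ^ p := Real.rpow_le_rpow (norm_nonneg _) hna hp0.le
    have hbp : ‖b‖ ^ p ≤ (D + ε1 / 2) ^ p := Real.rpow_le_rpow (norm_nonneg _) hnb hp0.le
    have h1 := hK a b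
    have h2 : ‖a - b‖ ^ p < δ ^ p := by
      refine lt_of_le_of_lt (h1.trans ?_) hf
      apply add_le_add
      · apply mul_le_mul_of_nonneg_left _ hη0.le
        linarith
      · apply mul_le_mul_of_nonneg_left _ hK0
        linarith
    exact (Real.rpow_lt_rpow_iff (norm_nonneg _) hδ.le hp0).1 h2
  -- choice of indices
  have hj : ∀ m : ℕ, ∃ j, D - 1 / ((m : ℝ) + 1) < Metric.infDist 0 (C j) := by
    intro m
    have h1 : D - 1 / ((m : ℝ) + 1) < D := by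
      have : 0 < 1 / ((m : ℝ) + 1) := by positivity
      linarith
    obtain ⟨_, ⟨j, rfl⟩, hj⟩ := exists_lt_of_lt_csSup (range_nonempty _) h1
    exact ⟨j, hj⟩
  choose j hj using hj
  choose dir hdir' using hdir
  let s : ℕ → ι := fun m => Nat.rec (j 0) (fun m i => dir i (j (m + 1))) m
  have hs0 : s 0 = j 0 := rfl
  have hss : ∀ m, s (m + 1) = dir (s m) (j (m + 1)) := fun m => rfl
  have hmono : ∀ m, C (s (m + 1)) ⊆ C (s m) := by
    intro m
    rw [hss]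
    exact (hdir' _ _).trans inter_subset_left
  have hanti : Antitone (fun m => C (s m)) := antitone_nat_of_succ_le hmono
  have hinf : ∀ {i i'}, C i ⊆ C i' → Metric.infDist 0 (C i') ≤ Metric.infDist 0 (C i) := by
    intro i i' h
    exact Metric.infDist_le_infDist_of_subset h (hne i)
  have hsd : ∀ m : ℕ, D - 1 / ((m : ℝ) + 1) < Metric.infDist 0 (C (s m)) := by
    intro m
    cases m with
    | zero => exact hj 0
    | succ m =>
      refine lt_of_lt_of_le (hj (m + 1)) (hinf ?_)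
      rw [hss]
      exact (hdir' _ _).trans inter_subset_right
  have happ : ∀ i (ε : ℝ), 0 < ε → ∃ x ∈ C i, ‖x‖ ≤ D + ε := by
    intro i ε hε
    have h1 : Metric.infDist 0 (C i) < D + ε := by
      have := hdD i
      linarith
    obtain ⟨x, hx, hx'⟩ := (Metric.infDist_lt_iff (hne i)).1 h1
    rw [dist_zero_left] at hx'
    exact ⟨x, hx, hx'.le⟩
  have hx : ∀ m : ℕ, ∃ x ∈ C (s m), ‖x‖ ≤ D + 1 / ((m : ℝ) + 1) := fun m =>
    happ (s m) _ (by positivity)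
  choose x hxC hxn using hx
  have hinv : ∀ {M m : ℕ}, M ≤ m → 1 / ((m : ℝ) + 1) ≤ 1 / ((M : ℝ) + 1) := by
    intro M m h
    apply one_div_le_one_div_of_le (by positivity)
    have : (M : ℝ) ≤ m := by exact_mod_cast h
    linarith
  have hcau : CauchySeq x := by
    rw [Metric.cauchySeq_iff]
    intro δ hδ
    obtain ⟨ε0, hε0, hkey⟩ := key δ hδ
    obtain ⟨M, hM⟩ := exists_nat_one_div_lt hε0
    refine ⟨M, fun m hm n hn => ?_⟩
    rw [dist_eq_norm]
    apply hkey (s M) _ (hanti hm (hxC m)) _ (hanti hn (hxC n))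
    · have := hsd M
      linarith
    · have := hxn m
      have := hinv hm
      linarith
    · have := hxn n
      have := hinv hn
      linarith
  obtain ⟨x0, hx0⟩ := cauchySeq_tendsto_of_complete hcau
  refine ⟨x0, mem_iInter.2 fun i => ?_⟩
  rw [← (hcl i).closure_eq, Metric.mem_closure_iff]
  intro δ hδ
  obtain ⟨ε0, hε0, hkey⟩ := key (δ / 2) (by positivity)
  obtain ⟨M, hM⟩ := exists_nat_one_div_lt hε0
  rw [Metric.tendsto_atTop] at hx0
  obtain ⟨N, hN⟩ := hx0 (δ / 2) (by positivity)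
  set m := max M N with hm
  obtain ⟨y, hy, hyn⟩ := happ (dir i (s m)) ε0 hε0
  have hy2 := hdir' i (s m) hy
  refine ⟨y, hy2.1, ?_⟩
  have h1 := hN m (le_max_right _ _)
  have h2 : ‖x m - y‖ < δ / 2 := by
    apply hkey (s m) _ (hxC m) _ hy2.2
    · have := hsd m
      have := hinv (le_max_left M N)
      linarith
    · have := hxn m
      have := hinv (le_max_left M N)
      linarith
    · exact hyn
  calc dist x0 y ≤ dist x0 (x m) + dist (x m) y := dist_triangle _ _ _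
    _ < δ / 2 + δ / 2 := by
      rw [dist_comm x0, dist_eq_norm (x m) y]
      exact add_lt_add h1 h2
    _ = δ := by ring


end

-- job 4560
section


/-- A matrix game with `m i j + m j i ≥ 0` has a good mixed strategy. -/
theorem matrix_game {ι : Type*} [Fintype ι] [Nonempty ι] (m : ι → ι → ℝ)
    (hm : ∀ i j, 0 ≤ m i j + m j i) :
    ∃ l : ι → ℝ, l ∈ stdSimplex ℝ ι ∧ ∀ i, 0 ≤ ∑ j, l j * m i j := by
  classical
  by_contra hcon
  push Not at hcon
  set F : (ι → ℝ) →ₗ[ℝ] (ι → ℝ) := (Matrix.of m).mulVecLin with hF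
  have hFa : ∀ l i, F l i = ∑ j, l j * m i j := by
    intro l i
    rw [hF, Matrix.mulVecLin_apply, Matrix.mulVec, dotProduct]
    exact Finset.sum_congr rfl fun j _ => by rw [Matrix.of_apply]; ring
  have hcx : Convex ℝ (F '' stdSimplex ℝ ι) := (convex_stdSimplex ℝ ι).linear_image F
  have hcp : IsCompact (F '' stdSimplex ℝ ι) :=
    (isCompact_stdSimplex ℝ ι).image (LinearMap.continuous_of_finiteDimensional F)
  have hQc : Convex ℝ {y : ι → ℝ | ∀ i, 0 ≤ y i} := by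
    intro x hx y hy a b ha hb _ i
    have h1 := hx i
    have h2 := hy i
    rw [Pi.add_apply, Pi.smul_apply, Pi.smul_apply, smul_eq_mul, smul_eq_mul]
    positivity
  have hQcl : IsClosed {y : ι → ℝ | ∀ i, 0 ≤ y i} := by
    have : {y : ι → ℝ | ∀ i, 0 ≤ y i} = ⋂ i, {y : ι → ℝ | 0 ≤ y i} := by
      ext y; simp
    rw [this]
    exact isClosed_iInter fun i => isClosed_le continuous_const (continuous_apply i)
  have hdis : Disjoint (F '' stdSimplex ℝ ι) {y : ι → ℝ | ∀ i, 0 ≤ y i} := by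
    rw [Set.disjoint_left]
    rintro _ ⟨l, hl, rfl⟩ hy
    obtain ⟨i, hi⟩ := hcon l hl
    have := hy i
    rw [hFa] at this
    linarith
  obtain ⟨f, u, v, h1, h2, h3⟩ := geometric_hahn_banach_compact_closed hcx hcp hQc hQcl hdis
  have hv : v < 0 := by
    have := h3 0 (fun i => le_rfl)
    rwa [map_zero] at this
  have hfs : ∀ y : ι → ℝ, f y = ∑ i, y i * f (fun j => if i = j then 1 else 0) := by
    intro y
    have := LinearMap.pi_apply_eq_sum_univ (f : (ι → ℝ) →ₗ[ℝ] ℝ) y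
    simpa [smul_eq_mul] using this
  set mu : ι → ℝ := fun i => f (fun j => if i = j then 1 else 0) with hmu
  have hmu0 : ∀ i, 0 ≤ mu i := by
    intro i
    by_contra hneg
    push Not at hneg
    have ht : 0 < v / mu i := div_pos_of_neg_of_neg hv hneg
    have h4 := h3 ((v / mu i) • (fun j => if i = j then (1 : ℝ) else 0)) (by
      intro j
      rw [Pi.smul_apply, smul_eq_mul]
      split_ifs <;> simp [ht.le])
    rw [map_smul, smul_eq_mul] at h4
    have h5 : v / mu i * mu i = v := div_mul_cancel₀ v hneg.ne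
    change v < v / mu i * mu i at h4
    rw [h5] at h4
    exact lt_irrefl _ h4
  have hsum0 : 0 ≤ ∑ i, mu i := Finset.sum_nonneg fun i _ => hmu0 i
  have hsne : ∑ i, mu i ≠ 0 := by
    intro h0
    have h4 : ∀ i, mu i = 0 := by
      intro i
      exact (Finset.sum_eq_zero_iff_of_nonneg (fun i _ => hmu0 i)).1 h0 i (Finset.mem_univ i)
    obtain ⟨i0⟩ := (inferInstance : Nonempty ι)
    have h5 := h1 (F (Pi.single i0 1)) ⟨_, single_mem_stdSimplex ℝ i0, rfl⟩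
    rw [hfs] at h5
    have h6 : ∑ i, F (Pi.single i0 1) i * f (fun j => if i = j then 1 else 0) = 0 :=
      Finset.sum_eq_zero fun i _ => by
        have := h4 i
        rw [hmu] at this
        beta_reduce at this
        rw [this, mul_zero]
    rw [h6] at h5
    linarith
  have hs : 0 < ∑ i, mu i := lt_of_le_of_ne hsum0 hsne.symm
  set s := ∑ i, mu i with hsdef
  have hnu : (fun i => mu i / s) ∈ stdSimplex ℝ ι := by
    refine ⟨fun i => div_nonneg (hmu0 i) hs.le, ?_⟩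
    rw [← Finset.sum_div]
    exact div_self hsne
  have h4 := h1 (F (fun i => mu i / s)) ⟨_, hnu, rfl⟩
  rw [hfs] at h4
  have h5 : ∑ i, F (fun i => mu i / s) i * mu i = (∑ i, ∑ j, mu i * mu j * m i j) / s := by
    rw [Finset.sum_div]
    refine Finset.sum_congr rfl fun i _ => ?_
    rw [hFa, Finset.sum_mul, Finset.sum_div]
    refine Finset.sum_congr rfl fun j _ => ?_
    ring
  change ∑ i, F (fun i => mu i / s) i * mu i < u at h4
  rw [h5] at h4
  have h6 : 0 ≤ ∑ i, ∑ j, mu i * mu j * m i j := by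
    have h7 : 2 * ∑ i, ∑ j, mu i * mu j * m i j = ∑ i, ∑ j, mu i * mu j * (m i j + m j i) := by
      have h8 : ∑ i, ∑ j, mu i * mu j * m i j = ∑ i, ∑ j, mu i * mu j * m j i := by
        rw [Finset.sum_comm]
        refine Finset.sum_congr rfl fun i _ => Finset.sum_congr rfl fun j _ => ?_
        ring
      calc 2 * ∑ i, ∑ j, mu i * mu j * m i j
          = ∑ i, ∑ j, mu i * mu j * m i j + ∑ i, ∑ j, mu i * mu j * m j i := by rw [← h8]; ring
        _ = _ := by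
          rw [← Finset.sum_add_distrib]
          refine Finset.sum_congr rfl fun i _ => ?_
          rw [← Finset.sum_add_distrib]
          refine Finset.sum_congr rfl fun j _ => ?_
          ring
    have h9 : 0 ≤ ∑ i, ∑ j, mu i * mu j * (m i j + m j i) :=
      Finset.sum_nonneg fun i _ => Finset.sum_nonneg fun j _ =>
        mul_nonneg (mul_nonneg (hmu0 i) (hmu0 j)) (hm i j)
    linarith
  have h7 : 0 ≤ (∑ i, ∑ j, mu i * mu j * m i j) / s := div_nonneg h6 hs.le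
  linarith


end

-- job 4561
section


/-- intersection property of a Banach space -/
def InterProp (X : Type) [NormedAddCommGroup X] [NormedSpace ℝ X] : Prop :=
  ∀ (ι : Type) (_ : Nonempty ι) (C : ι → Set X), (∀ i, IsClosed (C i)) →
    (∀ i, Convex ℝ (C i)) → (∀ i j, ∃ k, C k ⊆ C i ∩ C j) →
    (∀ i, (C i).Nonempty) → (∃ i, Bornology.IsBounded (C i)) → (⋂ i, C i).Nonempty

/-- TARGET 1: variational inequality on a bounded closed convex set, monotone hemicontinuous `T`. -/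
theorem vi_bounded {X : Type} [NormedAddCommGroup X] [NormedSpace ℝ X] (hX : InterProp X)
    (T : X → (X →L[ℝ] ℝ)) (hmono : ∀ V W, 0 ≤ (T V - T W) (V - W))
    (hhemi : ∀ W V : X, Tendsto (fun t : ℝ => T (W + t • (V - W)) (V - W)) (𝓝[>] 0)
      (𝓝 (T W (V - W))))
    (K : Set X) (hKc : IsClosed K) (hKv : Convex ℝ K) (hKn : K.Nonempty)
    (hKb : Bornology.IsBounded K) :
    ∃ W ∈ K, ∀ V ∈ K, 0 ≤ T W (V - W) := by
  classical
  let C : {s : Finset X // (↑s : Set X) ⊆ K} → Set X :=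
    fun s => {W | W ∈ K ∧ ∀ V ∈ s.1, 0 ≤ T V (V - W)}
  have hC : (⋂ i, C i).Nonempty := by
    refine hX {s : Finset X // (↑s : Set X) ⊆ K} ⟨⟨∅, by simp⟩⟩ C ?_ ?_ ?_ ?_ ?_
    · intro s
      have : C s = K ∩ ⋂ V ∈ s.1, {W | 0 ≤ T V (V - W)} := by ext W; simp [C]
      rw [this]
      refine hKc.inter (isClosed_biInter fun V _ => isClosed_le continuous_const (by fun_prop))
    · intro s W1 h1 W2 h2 a b ha hb hab
      refine ⟨hKv h1.1 h2.1 ha hb hab, fun V hV => ?_⟩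
      have e : T V (V - (a • W1 + b • W2)) = a * T V (V - W1) + b * T V (V - W2) := by
        simp only [map_sub, map_add, map_smul, smul_eq_mul]
        have : T V V = (a + b) * T V V := by rw [hab, one_mul]
        linear_combination this
      rw [e]
      have := mul_nonneg ha (h1.2 V hV)
      have := mul_nonneg hb (h2.2 V hV)
      linarith
    · intro s t
      refine ⟨⟨s.1 ∪ t.1, ?_⟩, ?_⟩
      · rw [Finset.coe_union]; exact union_subset s.2 t.2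
      · intro W hW
        exact ⟨⟨hW.1, fun V hV => hW.2 V (Finset.mem_union_left _ hV)⟩,
          ⟨hW.1, fun V hV => hW.2 V (Finset.mem_union_right _ hV)⟩⟩
    · intro s
      rcases s.1.eq_empty_or_nonempty with h0 | h0
      · obtain ⟨W, hW⟩ := hKn
        exact ⟨W, hW, by rw [h0]; simp⟩
      · have : Nonempty s.1 := h0.to_subtype
        obtain ⟨l, hl, hl2⟩ := matrix_game (ι := s.1) (fun i j => T i.1 (i.1 - j.1)) (by
          intro i j
          have := hmono i.1 j.1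
          have e : T j.1 (j.1 - i.1) = - T j.1 (i.1 - j.1) := by rw [← map_neg, neg_sub]
          rw [e]
          have e2 : (T i.1 - T j.1) (i.1 - j.1) = T i.1 (i.1 - j.1) - T j.1 (i.1 - j.1) := rfl
          rw [e2] at this
          linarith)
        refine ⟨∑ j, l j • j.1, hKv.sum_mem (fun i _ => hl.1 i) hl.2 (fun i _ => s.2 i.2), ?_⟩
        intro V hV
        have := hl2 ⟨V, hV⟩
        have e : T V (V - ∑ j, l j • j.1) = ∑ j, l j * T V (V - j.1) := by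
          simp only [map_sub, map_sum, map_smul, smul_eq_mul, mul_sub, Finset.sum_sub_distrib]
          rw [← Finset.sum_mul, hl.2, one_mul]
        rw [e]
        exact this
    · exact ⟨⟨∅, by simp⟩, hKb.subset (fun W hW => hW.1)⟩
  obtain ⟨W, hW⟩ := hC
  rw [mem_iInter] at hW
  have hWK : W ∈ K := (hW ⟨∅, by simp⟩).1
  have hm : ∀ V ∈ K, 0 ≤ T V (V - W) := fun V hV =>
    (hW ⟨{V}, by simpa using hV⟩).2 V (by simp)
  refine ⟨W, hWK, fun V hV => ?_⟩
  refine ge_of_tendsto (hhemi W V) ?_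
  have h1 : ∀ᶠ t : ℝ in 𝓝[>] 0, t < 1 := by
    filter_upwards [Ioo_mem_nhdsGT (show (0:ℝ) < 1 by norm_num)] with t ht using ht.2
  filter_upwards [h1, self_mem_nhdsWithin] with t ht1 ht0
  have ht0' : 0 < t := ht0
  have hmem : W + t • (V - W) ∈ K := by
    have := hKv hWK hV (show (0:ℝ) ≤ 1 - t by linarith) ht0'.le (by ring)
    have e : (1 - t) • W + t • V = W + t • (V - W) := by
      rw [sub_smul, one_smul, smul_sub]; abel
    rwa [e] at this
  have h2 := hm _ hmem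
  have e2 : W + t • (V - W) - W = t • (V - W) := by abel
  rw [e2, map_smul, smul_eq_mul] at h2
  exact nonneg_of_mul_nonneg_right h2 ht0'

/-- TARGET 2: unbounded closed convex set with coercivity. -/
theorem vi_exists {X : Type} [NormedAddCommGroup X] [NormedSpace ℝ X] (hX : InterProp X)
    (T : X → (X →L[ℝ] ℝ)) (hmono : ∀ V W, 0 ≤ (T V - T W) (V - W))
    (hhemi : ∀ W V : X, Tendsto (fun t : ℝ => T (W + t • (V - W)) (V - W)) (𝓝[>] 0)
      (𝓝 (T W (V - W))))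
    (K : Set X) (hKc : IsClosed K) (hKv : Convex ℝ K) (V0 : X) (hV0 : V0 ∈ K)
    (R : ℝ) (hcoer : ∀ W ∈ K, R ≤ ‖W‖ → 0 < T W (W - V0)) :
    ∃ W ∈ K, ∀ V ∈ K, 0 ≤ T W (V - W) := by
  set R1 : ℝ := max R ‖V0‖ + 1 with hR1
  have hR : R < R1 := lt_of_le_of_lt (le_max_left _ _) (by rw [hR1]; linarith)
  have hV0n : ‖V0‖ < R1 := lt_of_le_of_lt (le_max_right _ _) (by rw [hR1]; linarith)
  obtain ⟨W, hWK1, hW⟩ := vi_bounded hX T hmono hhemi (K ∩ Metric.closedBall 0 R1)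
    (hKc.inter Metric.isClosed_closedBall) (hKv.inter (convex_closedBall _ _))
    ⟨V0, hV0, by rw [mem_closedBall_zero_iff]; exact hV0n.le⟩
    (Metric.isBounded_closedBall.subset inter_subset_right)
  have hWn : ‖W‖ < R1 := by
    by_contra hcon
    push Not at hcon
    have h1 := hcoer W hWK1.1 (hR.le.trans hcon)
    have h2 := hW V0 ⟨hV0, by rw [mem_closedBall_zero_iff]; exact hV0n.le⟩
    have e : T W (V0 - W) = - T W (W - V0) := by rw [← map_neg, neg_sub]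
    rw [e] at h2
    linarith
  refine ⟨W, hWK1.1, fun V hV => ?_⟩
  -- choose a small step
  have hpos : 0 < R1 - ‖W‖ := by linarith
  obtain ⟨t, ht0, ht1, ht2⟩ : ∃ t : ℝ, 0 < t ∧ t ≤ 1 ∧ t * ‖V - W‖ ≤ R1 - ‖W‖ := by
    refine ⟨min 1 ((R1 - ‖W‖) / (‖V - W‖ + 1)), by positivity, min_le_left _ _, ?_⟩
    have h3 : 0 < ‖V - W‖ + 1 := by positivity
    calc min 1 ((R1 - ‖W‖) / (‖V - W‖ + 1)) * ‖V - W‖
        ≤ ((R1 - ‖W‖) / (‖V - W‖ + 1)) * (‖V - W‖ + 1) := by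
          apply mul_le_mul (min_le_right _ _) (by linarith) (norm_nonneg _) (by positivity)
      _ = R1 - ‖W‖ := by field_simp
  have hmem : W + t • (V - W) ∈ K := by
    have := hKv hWK1.1 hV (show (0:ℝ) ≤ 1 - t by linarith) ht0.le (by ring)
    have e : (1 - t) • W + t • V = W + t • (V - W) := by
      rw [sub_smul, one_smul, smul_sub]; abel
    rwa [e] at this
  have hball : W + t • (V - W) ∈ Metric.closedBall (0:X) R1 := by
    rw [mem_closedBall_zero_iff]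
    calc ‖W + t • (V - W)‖ ≤ ‖W‖ + ‖t • (V - W)‖ := norm_add_le _ _
      _ = ‖W‖ + t * ‖V - W‖ := by rw [norm_smul, Real.norm_of_nonneg ht0.le]
      _ ≤ R1 := by linarith
  have h2 := hW _ ⟨hmem, hball⟩
  have e2 : W + t • (V - W) - W = t • (V - W) := by abel
  rw [e2, map_smul, smul_eq_mul] at h2
  exact nonneg_of_mul_nonneg_right h2 ht0


end

-- job 4562
section


/-- fast geometric convergence -/
theorem fast_geom {C b θ : ℝ} (hC : 0 < C) (hb : 1 < b) (hθ : 0 < θ) :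
    ∃ e0 : ℝ, 0 < e0 ∧ ∀ Y : ℕ → ℝ, (∀ k, 0 ≤ Y k) → Y 0 ≤ e0 →
      (∀ k, Y (k + 1) ≤ C * b ^ k * (Y k) ^ (1 + θ)) → Tendsto Y atTop (𝓝 0) := by
  have hb0 : 0 < b := by linarith
  set r : ℝ := b ^ (-1 / θ) with hr
  set e0 : ℝ := C ^ (-1 / θ) * b ^ (-1 / θ ^ 2) with he0
  have hr0 : 0 < r := Real.rpow_pos_of_pos hb0 _
  have hr1 : r < 1 := Real.rpow_lt_one_of_one_lt_of_neg hb (div_neg_of_neg_of_pos (by norm_num) hθ)
  have he : 0 < e0 := mul_pos (Real.rpow_pos_of_pos hC _) (Real.rpow_pos_of_pos hb0 _)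
  have hrθ : r ^ θ = b⁻¹ := by
    rw [hr, ← Real.rpow_mul hb0.le, div_mul_cancel₀ _ hθ.ne', Real.rpow_neg_one]
  have heθ : C * e0 ^ θ = r := by
    rw [he0, Real.mul_rpow (Real.rpow_nonneg hC.le _) (Real.rpow_nonneg hb0.le _),
      ← Real.rpow_mul hC.le, ← Real.rpow_mul hb0.le, div_mul_cancel₀ _ hθ.ne', Real.rpow_neg_one,
      ← mul_assoc, mul_inv_cancel₀ hC.ne', one_mul, hr]
    congr 1
    field_simp
  refine ⟨e0, he, fun Y hY0 hY1 hY => ?_⟩
  have key : ∀ k, Y k ≤ e0 * r ^ k := by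
    intro k
    induction k with
    | zero => simpa using hY1
    | succ k ih =>
      refine (hY k).trans ?_
      have h1 : (Y k) ^ (1 + θ) ≤ (e0 * r ^ k) ^ (1 + θ) :=
        Real.rpow_le_rpow (hY0 k) ih (by linarith)
      have h2 : (e0 * r ^ k) ^ (1 + θ) = (e0 * r ^ k) * (e0 ^ θ * (b⁻¹) ^ k) := by
        have hp : 0 < e0 * r ^ k := mul_pos he (pow_pos hr0 k)
        rw [Real.rpow_add hp, Real.rpow_one, Real.mul_rpow he.le (pow_nonneg hr0.le k)]
        congr 2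
        rw [← hrθ, ← Real.rpow_natCast r k, ← Real.rpow_mul hr0.le, ← Real.rpow_natCast (r ^ θ) k,
          ← Real.rpow_mul hr0.le, mul_comm]
      calc C * b ^ k * (Y k) ^ (1 + θ) ≤ C * b ^ k * ((e0 * r ^ k) * (e0 ^ θ * (b⁻¹) ^ k)) := by
            rw [← h2]
            exact mul_le_mul_of_nonneg_left h1 (by positivity)
        _ = (C * e0 ^ θ) * (e0 * r ^ k) * (b ^ k * (b⁻¹) ^ k) := by ring
        _ = e0 * r ^ (k + 1) := by
            rw [heθ, ← mul_pow, mul_inv_cancel₀ hb0.ne', one_pow]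
            ring
  have hlim : Tendsto (fun k : ℕ => e0 * r ^ k) atTop (𝓝 0) := by
    have := (tendsto_pow_atTop_nhds_zero_of_lt_one hr0.le hr1).const_mul e0
    simpa using this
  exact squeeze_zero hY0 key hlim


end

end Pool.Agent.Helper533.Polar

namespace Pool.Agent.Helper533.Polar

theorem interProp_Lp {α F : Type} [MeasurableSpace α] {μ : Measure α} [NormedAddCommGroup F]
    [InnerProductSpace ℝ F] [FiniteDimensional ℝ F] {p : ℝ} (hp : 1 < p)
    [Fact (1 ≤ ENNReal.ofReal p)] : InterProp (Lp F (ENNReal.ofReal p) μ) := by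
  haveI : CompleteSpace F := FiniteDimensional.complete ℝ F
  have hUC : ∀ η : ℝ, 0 < η → ∃ C : ℝ, 0 ≤ C ∧ ∀ a b : Lp F (ENNReal.ofReal p) μ,
      ‖a - b‖ ^ p ≤ η * (‖a‖ ^ p + ‖b‖ ^ p)
      + C * ((‖a‖ ^ p + ‖b‖ ^ p) / 2 - ‖(2⁻¹ : ℝ) • (a + b)‖ ^ p) := by
    intro η hη
    exact clarkson_Lp hp hη
  intro ι hι C h1 h2 h3 h4 h5
  exact inter_of_clarkson hp hUC C h1 h2 h3 h4 h5

end Pool.Agent.Helper533.Polar
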