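import Pool.Agent.Helper533.Polar.Base3
open MeasureTheory Filter Topology Set
open scoped ENNReal NNReal RealInnerProductSpace

namespace Pool.Agent.Helper533.Polar

/-- internal form of the properties of the measure that are used -/
structure Adm {n : ℕ} (p : ℝ) (μ : Measure (Sp n)) (Cd θ Cs lam Cp : ℝ) : Prop where
  one_le_Cd : 1 ≤ Cd
  theta_pos : 0 < θ
  Cs_pos : 0 < Cs
  one_le_lam : 1 ≤ lam
  Cp_pos : 0 < Cp
  pos : ∀ (x : Sp n) (r : ℝ), 0 < r → 0 < μ (Metric.ball x r)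
  fin : ∀ (x : Sp n) (r : ℝ), μ (Metric.ball x r) < ∞
  dbl : ∀ (x : Sp n) (r : ℝ), 0 < r → μ.real (Metric.ball x (2 * r)) ≤ Cd * μ.real (Metric.ball x r)
  sob : ∀ (x : Sp n) (r : ℝ), 0 < r → ∀ (f : Sp n → ℝ) (F : Sp n → Sp n),
    H0 p μ (Metric.ball x r) f F →
    ∫ y, |f y| ^ p ∂μ ≤ Cs * r ^ p * (μ.real {y | f y ≠ 0} / μ.real (Metric.ball x r)) ^ θ *
      ∫ y, ‖F y‖ ^ p ∂μ
  poi : ∀ (x : Sp n) (r : ℝ), 0 < r → ∀ (f : Sp n → ℝ) (F : Sp n → Sp n), H0 p μ univ f F →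
    ∫ y in Metric.ball x r, |f y - (⨍ z in Metric.ball x r, f z ∂μ)| ∂μ ≤
      Cp * r * μ.real (Metric.ball x r) * ((μ.real (Metric.ball x (lam * r)))⁻¹ *
        ∫ y in Metric.ball x (lam * r), ‖F y‖ ^ p ∂μ) ^ (1 / p)

end Pool.Agent.Helper533.Polar
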