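import Pool.Agent.Helper533.Polar.Defs
open MeasureTheory Filter Topology Set
open scoped ENNReal NNReal RealInnerProductSpace

namespace Pool.Agent.Helper533.Polar

variable {n : ℕ} {D D' G : Set (Sp n)} {p : ℝ} {μ : Measure (Sp n)} {φ ψ u v f g : Sp n → ℝ}
  {U V : Sp n → Sp n} {x : Sp n}

theorem grad_add (hf : DifferentiableAt ℝ f x) (hg : DifferentiableAt ℝ g x) :
    gradient (fun y => f y + g y) x = gradient f x + gradient g x := by
  apply HasGradientAt.gradient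
  rw [hasGradientAt_iff_hasFDerivAt, map_add]
  exact hf.hasGradientAt.hasFDerivAt.add hg.hasGradientAt.hasFDerivAt

theorem grad_sub (hf : DifferentiableAt ℝ f x) (hg : DifferentiableAt ℝ g x) :
    gradient (fun y => f y - g y) x = gradient f x - gradient g x := by
  apply HasGradientAt.gradient
  rw [hasGradientAt_iff_hasFDerivAt, map_sub]
  exact hf.hasGradientAt.hasFDerivAt.sub hg.hasGradientAt.hasFDerivAt

theorem grad_const_mul (c : ℝ) (hf : DifferentiableAt ℝ f x) :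
    gradient (fun y => c * f y) x = c • gradient f x := by
  apply HasGradientAt.gradient
  rw [hasGradientAt_iff_hasFDerivAt, (InnerProductSpace.toDual ℝ (Sp n)).map_smul]
  exact hf.hasGradientAt.hasFDerivAt.const_mul c

theorem grad_mul (hf : DifferentiableAt ℝ f x) (hg : DifferentiableAt ℝ g x) :
    gradient (fun y => f y * g y) x = f x • gradient g x + g x • gradient f x := by
  apply HasGradientAt.gradient
  rw [hasGradientAt_iff_hasFDerivAt, map_add, (InnerProductSpace.toDual ℝ (Sp n)).map_smul,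
    (InnerProductSpace.toDual ℝ (Sp n)).map_smul]
  exact hf.hasGradientAt.hasFDerivAt.mul hg.hasGradientAt.hasFDerivAt

theorem grad_comp {β : ℝ → ℝ} (hf : DifferentiableAt ℝ f x) (hb : DifferentiableAt ℝ β (f x)) :
    gradient (fun y => β (f y)) x = deriv β (f x) • gradient f x := by
  apply HasGradientAt.gradient
  rw [hasGradientAt_iff_hasFDerivAt, (InnerProductSpace.toDual ℝ (Sp n)).map_smul]
  exact (hb.hasDerivAt.comp_hasFDerivAt x hf.hasGradientAt.hasFDerivAt)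

theorem Cc.diff (h : Cc D φ) (x : Sp n) : DifferentiableAt ℝ φ x :=
  (h.smooth.differentiable (by simp)) x

theorem Cc.cont (h : Cc D φ) : Continuous φ := h.smooth.continuous

theorem Cc.cont_grad (h : Cc D φ) : Continuous (gradient φ) := by
  have h1 : Continuous (fderiv ℝ φ) := h.smooth.continuous_fderiv (by simp)
  exact ((InnerProductSpace.toDual ℝ (Sp n)).symm.continuous).comp h1

theorem grad_zero_of_notMem (h : x ∉ tsupport φ) : gradient φ x = 0 := by
  have : fderiv ℝ φ x = 0 := by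
    by_contra hc
    exact h (support_fderiv_subset ℝ hc)
  simp [gradient, this]

theorem zero_of_notMem (h : x ∉ tsupport φ) : φ x = 0 := by
  by_contra hc
  exact h (subset_tsupport φ hc)

theorem Cc.comp_grad (h : Cc D φ) : HasCompactSupport (gradient φ) := by
  apply HasCompactSupport.of_support_subset_isCompact h.comp
  intro x hx
  by_contra hc
  exact hx (grad_zero_of_notMem hc)

theorem Cc.memLp [IsFiniteMeasureOnCompacts μ] (h : Cc D φ) (q : ℝ≥0∞) : MemLp φ q μ :=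
  h.cont.memLp_of_hasCompactSupport h.comp

theorem Cc.memLp_grad [IsFiniteMeasureOnCompacts μ] (h : Cc D φ) (q : ℝ≥0∞) :
    MemLp (gradient φ) q μ :=
  h.cont_grad.memLp_of_hasCompactSupport h.comp_grad

theorem Cc.mono (h : Cc D φ) (hD : D ⊆ D') : Cc D' φ := ⟨h.smooth, h.comp, h.supp.trans hD⟩

theorem Cc.zero : Cc D (fun _ => (0 : ℝ)) :=
  ⟨contDiff_const, HasCompactSupport.zero, by simp [tsupport]⟩

theorem Cc.add (h : Cc D φ) (h' : Cc D ψ) : Cc D (fun x => φ x + ψ x) :=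
  ⟨h.smooth.add h'.smooth, h.comp.add h'.comp,
    (tsupport_add φ ψ).trans (union_subset h.supp h'.supp)⟩

theorem Cc.const_mul (c : ℝ) (h : Cc D φ) : Cc D (fun x => c * φ x) :=
  ⟨contDiff_const.mul h.smooth, h.comp.mul_left, (tsupport_mul_subset_right).trans h.supp⟩

theorem Cc.neg (h : Cc D φ) : Cc D (fun x => - φ x) := by
  have := h.const_mul (-1)
  simpa using this

theorem Cc.sub (h : Cc D φ) (h' : Cc D ψ) : Cc D (fun x => φ x - ψ x) := by
  have := h.add h'.neg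
  simpa [sub_eq_add_neg] using this

/-- product of a test function and a smooth function -/
theorem Cc.mul_smooth (h : Cc D φ) (h' : ContDiff ℝ (⊤ : ℕ∞) ψ) : Cc D (fun x => φ x * ψ x) :=
  ⟨h.smooth.mul h', h.comp.mul_right, (tsupport_mul_subset_left).trans h.supp⟩

theorem Cc.mul (h : Cc D φ) (h' : Cc D' ψ) : Cc (D ∩ D') (fun x => φ x * ψ x) :=
  ⟨h.smooth.mul h'.smooth, h.comp.mul_right,
    subset_inter ((tsupport_mul_subset_left).trans h.supp)
      ((tsupport_mul_subset_right).trans h'.supp)⟩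

theorem Cc.comp_fun (h : Cc D φ) {β : ℝ → ℝ} (hβ : ContDiff ℝ (⊤ : ℕ∞) β) (h0 : β 0 = 0) :
    Cc D (fun x => β (φ x)) := by
  refine ⟨hβ.comp h.smooth, h.comp.comp_left h0, ?_⟩
  refine (closure_mono ?_).trans h.supp
  intro x hx
  rw [Function.mem_support] at hx ⊢
  intro h1
  apply hx
  rw [h1, h0]

theorem H0.of_Cc [IsFiniteMeasureOnCompacts μ] (h : Cc D φ) : H0 p μ D φ (gradient φ) :=
  ⟨h.memLp _, h.memLp_grad _, fun ε _ => ⟨φ, h, by simp, by simp⟩⟩

theorem H0.mono (h : H0 p μ D u U) (hD : D ⊆ D') : H0 p μ D' u U :=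
  ⟨h.mu, h.mU, fun ε hε => by
    obtain ⟨φ, h1, h2, h3⟩ := h.app ε hε
    exact ⟨φ, h1.mono hD, h2, h3⟩⟩

theorem H0.congr (h : H0 p μ D u U) (hu : u =ᵐ[μ] v) (hU : U =ᵐ[μ] V) : H0 p μ D v V := by
  refine ⟨h.mu.ae_eq hu, h.mU.ae_eq hU, fun ε hε => ?_⟩
  obtain ⟨φ, h1, h2, h3⟩ := h.app ε hε
  refine ⟨φ, h1, ?_, ?_⟩
  · rwa [eLpNorm_congr_ae (g := fun x => u x - φ x)]
    filter_upwards [hu] with x hx
    rw [hx]
  · rwa [eLpNorm_congr_ae (g := fun x => U x - gradient φ x)]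
    filter_upwards [hU] with x hx
    rw [hx]

/-- closedness of `H0` -/
theorem H0.lim [IsFiniteMeasureOnCompacts μ] (hp : 1 ≤ p) (hu : MemLp u (ENNReal.ofReal p) μ) (hU : MemLp U (ENNReal.ofReal p) μ)
    (h : ∀ ε : ℝ≥0∞, ε ≠ 0 → ∃ v V, H0 p μ D v V ∧
      eLpNorm (fun x => u x - v x) (ENNReal.ofReal p) μ ≤ ε ∧
      eLpNorm (fun x => U x - V x) (ENNReal.ofReal p) μ ≤ ε) : H0 p μ D u U := by
  refine ⟨hu, hU, fun ε hε => ?_⟩
  have hp' : (1 : ℝ≥0∞) ≤ ENNReal.ofReal p := by simpa using ENNReal.ofReal_le_ofReal hp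
  have hε2 : ε / 2 ≠ 0 := by simp [hε]
  obtain ⟨v, V, hv, h1, h2⟩ := h (ε / 2) hε2
  obtain ⟨φ, h3, h4, h5⟩ := hv.app (ε / 2) hε2
  refine ⟨φ, h3, ?_, ?_⟩
  · have e : (fun x => u x - φ x) = (fun x => u x - v x) + (fun x => v x - φ x) := by
      ext x; simp
    rw [e]
    refine (eLpNorm_add_le (hu.sub hv.mu).1 (hv.mu.sub (h3.memLp _)).1 hp').trans ?_
    calc _ ≤ ε / 2 + ε / 2 := add_le_add h1 h4
      _ = ε := ENNReal.add_halves ε
  · have e : (fun x => U x - gradient φ x) = (fun x => U x - V x) + (fun x => V x - gradient φ x) := by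
      ext x; simp
    rw [e]
    refine (eLpNorm_add_le (hU.sub hv.mU).1 (hv.mU.sub (h3.memLp_grad _)).1 hp').trans ?_
    calc _ ≤ ε / 2 + ε / 2 := add_le_add h2 h5
      _ = ε := ENNReal.add_halves ε

theorem H0.add [IsFiniteMeasureOnCompacts μ] (hp : 1 ≤ p) (h : H0 p μ D u U) (h' : H0 p μ D v V) :
    H0 p μ D (fun x => u x + v x) (fun x => U x + V x) := by
  refine ⟨h.mu.add h'.mu, h.mU.add h'.mU, fun ε hε => ?_⟩
  have hp' : (1 : ℝ≥0∞) ≤ ENNReal.ofReal p := by simpa using ENNReal.ofReal_le_ofReal hp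
  have hε2 : ε / 2 ≠ 0 := by simp [hε]
  obtain ⟨φ, h1, h2, h3⟩ := h.app (ε / 2) hε2
  obtain ⟨ψ, h4, h5, h6⟩ := h'.app (ε / 2) hε2
  refine ⟨fun x => φ x + ψ x, h1.add h4, ?_, ?_⟩
  · have e : (fun x => u x + v x - (φ x + ψ x)) = (fun x => u x - φ x) + (fun x => v x - ψ x) := by
      ext x; simp; ring
    rw [e]
    refine (eLpNorm_add_le (h.mu.sub (h1.memLp _)).1 (h'.mu.sub (h4.memLp _)).1 hp').trans ?_
    calc _ ≤ ε / 2 + ε / 2 := add_le_add h2 h5
      _ = ε := ENNReal.add_halves ε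
  · have e : (fun x => U x + V x - gradient (fun x => φ x + ψ x) x)
        = (fun x => U x - gradient φ x) + (fun x => V x - gradient ψ x) := by
      ext1 x
      rw [grad_add (h1.diff x) (h4.diff x)]
      simp only [Pi.add_apply]
      abel
    rw [e]
    refine (eLpNorm_add_le (h.mU.sub (h1.memLp_grad _)).1 (h'.mU.sub (h4.memLp_grad _)).1 hp').trans ?_
    calc _ ≤ ε / 2 + ε / 2 := add_le_add h3 h6
      _ = ε := ENNReal.add_halves ε

theorem H0.zero : H0 p μ D (fun _ => (0 : ℝ)) (fun _ => (0 : Sp n)) :=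
  ⟨MemLp.zero', MemLp.zero', fun ε _ => ⟨fun _ => 0, Cc.zero, by simp, by simp [gradient]⟩⟩

theorem H0.const_mul [IsFiniteMeasureOnCompacts μ] (c : ℝ) (h : H0 p μ D u U) :
    H0 p μ D (fun x => c * u x) (fun x => c • U x) := by
  rcases eq_or_ne c 0 with hc | hc
  · subst hc
    simpa using H0.zero
  refine ⟨h.mu.const_mul c, h.mU.const_smul c, fun ε hε => ?_⟩
  have hc' : (‖c‖ₑ) ≠ 0 := by simpa using hc
  have hc'' : (‖c‖ₑ) ≠ ∞ := by simp
  have hε2 : ε / ‖c‖ₑ ≠ 0 := by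
    simp [ENNReal.div_eq_zero_iff, hε, hc'']
  obtain ⟨φ, h1, h2, h3⟩ := h.app (ε / ‖c‖ₑ) hε2
  refine ⟨fun x => c * φ x, h1.const_mul c, ?_, ?_⟩
  · have e : (fun x => c * u x - c * φ x) = c • (fun x => u x - φ x) := by
      ext x; simp; ring
    rw [e, eLpNorm_const_smul]
    calc _ ≤ ‖c‖ₑ * (ε / ‖c‖ₑ) := by gcongr
      _ = ε := ENNReal.mul_div_cancel hc' hc''
  · have e : (fun x => c • U x - gradient (fun x => c * φ x) x)
        = c • (fun x => U x - gradient φ x) := by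
      ext1 x
      rw [grad_const_mul c (h1.diff x)]
      simp [smul_sub]
    rw [e, eLpNorm_const_smul]
    calc _ ≤ ‖c‖ₑ * (ε / ‖c‖ₑ) := by gcongr
      _ = ε := ENNReal.mul_div_cancel hc' hc''

theorem H0.neg [IsFiniteMeasureOnCompacts μ] (h : H0 p μ D u U) :
    H0 p μ D (fun x => - u x) (fun x => - U x) := by
  have := h.const_mul (-1)
  simpa using this

theorem H0.sub [IsFiniteMeasureOnCompacts μ] (hp : 1 ≤ p) (h : H0 p μ D u U) (h' : H0 p μ D v V) :
    H0 p μ D (fun x => u x - v x) (fun x => U x - V x) := by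
  have := h.add hp h'.neg
  simpa [sub_eq_add_neg] using this

/-- approximating sequence, with norm and a.e. convergence -/
theorem H0.seq [IsFiniteMeasureOnCompacts μ] (hp : 1 ≤ p) (h : H0 p μ D u U) :
    ∃ φ : ℕ → Sp n → ℝ, (∀ j, Cc D (φ j)) ∧
      Tendsto (fun j => eLpNorm (fun x => u x - φ j x) (ENNReal.ofReal p) μ) atTop (𝓝 0) ∧
      Tendsto (fun j => eLpNorm (fun x => U x - gradient (φ j) x) (ENNReal.ofReal p) μ) atTop (𝓝 0) ∧
      (∀ᵐ x ∂μ, Tendsto (fun j => φ j x) atTop (𝓝 (u x))) ∧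
      (∀ᵐ x ∂μ, Tendsto (fun j => gradient (φ j) x) atTop (𝓝 (U x))) := by
  have hp0 : ENNReal.ofReal p ≠ 0 := by
    rw [Ne, ENNReal.ofReal_eq_zero, not_le]; linarith
  have h1 : ∀ j : ℕ, ∃ φ : Sp n → ℝ, Cc D φ ∧
    eLpNorm (fun x => u x - φ x) (ENNReal.ofReal p) μ ≤ ((j : ℝ≥0∞) + 1)⁻¹ ∧
    eLpNorm (fun x => U x - gradient φ x) (ENNReal.ofReal p) μ ≤ ((j : ℝ≥0∞) + 1)⁻¹ := fun j =>
      h.app _ (by simp)
  choose φ hφ h2 h3 using h1
  have hlim : Tendsto (fun j : ℕ => ((j : ℝ≥0∞) + 1)⁻¹) atTop (𝓝 0) := by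
    have := (tendsto_add_atTop_iff_nat (f := fun j : ℕ => ((j : ℝ≥0∞))⁻¹) 1).2 ENNReal.tendsto_inv_nat_nhds_zero
    simpa using this
  have h4 : Tendsto (fun j => eLpNorm (fun x => u x - φ j x) (ENNReal.ofReal p) μ) atTop (𝓝 0) :=
    tendsto_of_tendsto_of_tendsto_of_le_of_le tendsto_const_nhds hlim (fun _ => zero_le) h2
  have h5 : Tendsto (fun j => eLpNorm (fun x => U x - gradient (φ j) x) (ENNReal.ofReal p) μ) atTop (𝓝 0) :=
    tendsto_of_tendsto_of_tendsto_of_le_of_le tendsto_const_nhds hlim (fun _ => zero_le) h3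
  have h4' : Tendsto (fun j => eLpNorm (φ j - u) (ENNReal.ofReal p) μ) atTop (𝓝 0) := by
    refine h4.congr fun j => ?_
    rw [← eLpNorm_neg]
    congr 1
    ext x; simp
  have m1 : TendstoInMeasure μ φ atTop u :=
    tendstoInMeasure_of_tendsto_eLpNorm hp0 (fun j => (hφ j).cont.aestronglyMeasurable) h.mu.1 h4'
  obtain ⟨ns, hns, hae⟩ := m1.exists_seq_tendsto_ae
  have h5' : Tendsto (fun j => eLpNorm (gradient (φ (ns j)) - U) (ENNReal.ofReal p) μ) atTop (𝓝 0) := by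
    refine (h5.comp hns.tendsto_atTop).congr fun j => ?_
    simp only [Function.comp]
    rw [← eLpNorm_neg]
    congr 1
    ext1 x; simp
  have m2 : TendstoInMeasure μ (fun j => gradient (φ (ns j))) atTop U :=
    tendstoInMeasure_of_tendsto_eLpNorm hp0
      (fun j => (hφ (ns j)).cont_grad.aestronglyMeasurable) h.mU.1 h5'
  obtain ⟨ms, hms, hae2⟩ := m2.exists_seq_tendsto_ae
  refine ⟨fun j => φ (ns (ms j)), fun j => hφ _, ?_, ?_, ?_, ?_⟩
  · exact (h4.comp hns.tendsto_atTop).comp hms.tendsto_atTop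
  · exact (h5.comp hns.tendsto_atTop).comp hms.tendsto_atTop
  · filter_upwards [hae] with x hx
    exact hx.comp hms.tendsto_atTop
  · exact hae2

end Pool.Agent.Helper533.Polar
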