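import Pool.Agent.Helper533.Polar.Base
open MeasureTheory Filter Topology Set
open scoped ENNReal NNReal RealInnerProductSpace

namespace Pool.Agent.Helper533.Polar

variable {n : ℕ} {D D' G K : Set (Sp n)} {p : ℝ} {μ : Measure (Sp n)} {φ ψ u v f g : Sp n → ℝ}
  {U V : Sp n → Sp n} {x : Sp n}

/-- smooth cutoff functions -/
theorem exists_cutoff (hK : IsCompact K) (hG : IsOpen G) (hKG : K ⊆ G) :
    ∃ η : Sp n → ℝ, Cc G η ∧ (∀ x, 0 ≤ η x ∧ η x ≤ 1) ∧
      ∃ W : Set (Sp n), IsOpen W ∧ K ⊆ W ∧ W ⊆ G ∧ ∀ x ∈ W, η x = 1 := by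
  obtain ⟨V1, hV1, hKV1, hVc, hcomp⟩ := exists_open_between_and_isCompact_closure hK hG hKG
  obtain ⟨f, hf1, hf0, hf⟩ := exists_contMDiffMap_one_nhds_of_subset_interior
    (modelWithCornersSelf ℝ (Sp n)) (s := K) (t := V1) (n := ⊤) hK.isClosed
    (by rwa [hV1.interior_eq])
  have hsm : ContDiff ℝ (⊤ : ℕ∞) f := f.contMDiff.contDiff
  have hsupp : tsupport f ⊆ closure V1 := by
    apply closure_mono
    intro x hx
    by_contra hc
    exact hx (hf0 x hc)
  refine ⟨f, ⟨hsm, HasCompactSupport.intro hcomp ?_, hsupp.trans hVc⟩, fun x => hf x, ?_⟩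
  · intro x hx
    exact hf0 x (fun h => hx (subset_closure h))
  · rw [eventually_nhdsSet_iff_exists] at hf1
    obtain ⟨W, hW1, hW2, hW3⟩ := hf1
    refine ⟨W ∩ G, hW1.inter hG, subset_inter hW2 hKG, inter_subset_right, fun x hx => hW3 x hx.1⟩

theorem grad_zero_of_const_on {W : Set (Sp n)} (hW : IsOpen W) {c : ℝ} (h : ∀ x ∈ W, φ x = c)
    (hx : x ∈ W) : gradient φ x = 0 := by
  have : φ =ᶠ[𝓝 x] fun _ => c := by
    filter_upwards [hW.mem_nhds hx] with y hy using h y hy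
  rw [this.gradient_eq]
  simp [gradient]

/-- dominated convergence in `L^q` -/
theorem Lp_dct {F : Type*} [NormedAddCommGroup F] {q : ℝ≥0∞} (hq : q ≠ 0) (hq' : q ≠ ∞)
    {f : ℕ → Sp n → F} {g : Sp n → ℝ} (hg : MemLp g q μ)
    (hf : ∀ j, AEStronglyMeasurable (f j) μ) (hb : ∀ j, ∀ᵐ x ∂μ, ‖f j x‖ ≤ g x)
    (hlim : ∀ᵐ x ∂μ, Tendsto (fun j => f j x) atTop (𝓝 0)) :
    Tendsto (fun j => eLpNorm (f j) q μ) atTop (𝓝 0) := by
  have hqr : 0 < q.toReal := ENNReal.toReal_pos hq hq'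
  simp only [eLpNorm_eq_lintegral_rpow_enorm_toReal hq hq']
  have h1 : Tendsto (fun j => ∫⁻ x, ‖f j x‖ₑ ^ q.toReal ∂μ) atTop (𝓝 (∫⁻ x, 0 ∂μ)) := by
    apply tendsto_lintegral_of_dominated_convergence' (fun x => ‖g x‖ₑ ^ q.toReal)
    · intro j
      exact (hf j).enorm.pow_const _
    · intro j
      filter_upwards [hb j] with x hx
      gcongr
      rw [← ofReal_norm, ← ofReal_norm]
      apply ENNReal.ofReal_le_ofReal
      exact hx.trans (le_abs_self _)
    · exact (lintegral_rpow_enorm_lt_top_of_eLpNorm_lt_top hq hq' hg.2).ne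
    · filter_upwards [hlim] with x hx
      have h2 : Tendsto (fun j => ‖f j x‖ₑ) atTop (𝓝 0) := by
        have := hx.enorm
        simpa using this
      have h3 := h2.ennrpow_const q.toReal
      simpa [ENNReal.zero_rpow_of_pos hqr] using h3
  have h2 := h1.ennrpow_const (1 / q.toReal)
  have h3 : (0 : ℝ≥0∞) ^ q.toReal⁻¹ = 0 := ENNReal.zero_rpow_of_pos (by positivity)
  simpa [h3] using h2

end Pool.Agent.Helper533.Polar
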