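import Pool.Agent.Helper533.Polar.Base2
open MeasureTheory Filter Topology Set
open scoped ENNReal NNReal RealInnerProductSpace

namespace Pool.Agent.Helper533.Polar

section


/-- primitive of the smooth transition function -/
noncomputable def BB (x : ℝ) : ℝ := ∫ t in (0:ℝ)..x, Real.smoothTransition t

theorem BB_hasDerivAt (x : ℝ) : HasDerivAt BB (Real.smoothTransition x) x :=
  (Real.smoothTransition.continuous.integral_hasStrictDerivAt 0 x).hasDerivAt

theorem BB_deriv : deriv BB = Real.smoothTransition := by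
  ext x; exact (BB_hasDerivAt x).deriv

theorem BB_contDiff : ContDiff ℝ (⊤ : ℕ∞) BB := by
  rw [contDiff_infty_iff_deriv]
  refine ⟨fun x => (BB_hasDerivAt x).differentiableAt, ?_⟩
  rw [BB_deriv]
  exact Real.smoothTransition.contDiff

theorem BB_nonpos {x : ℝ} (hx : x ≤ 0) : BB x = 0 := by
  unfold BB
  rw [intervalIntegral.integral_symm]
  have : ∫ t in x..0, Real.smoothTransition t = ∫ t in x..0, (0:ℝ) := by
    refine intervalIntegral.integral_congr fun t ht => ?_
    rw [uIcc_of_le hx] at ht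
    exact Real.smoothTransition.zero_of_nonpos ht.2
  rw [this]; simp

theorem BB_nonneg (x : ℝ) : 0 ≤ BB x := by
  rcases le_total x 0 with h | h
  · rw [BB_nonpos h]
  · exact intervalIntegral.integral_nonneg h fun t _ => Real.smoothTransition.nonneg t

theorem BB_int (a b : ℝ) : IntervalIntegrable Real.smoothTransition volume a b :=
  Real.smoothTransition.continuous.intervalIntegrable _ _

theorem BB_le {x : ℝ} (hx : 0 ≤ x) : BB x ≤ x := by
  have h := intervalIntegral.integral_mono_on hx (BB_int 0 x) (intervalIntegrable_const (c := (1:ℝ)))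
    (fun t _ => Real.smoothTransition.le_one t)
  simp only [intervalIntegral.integral_const, sub_zero, smul_eq_mul, mul_one] at h
  exact h

theorem BB_ge (x : ℝ) : x - 1 ≤ BB x := by
  rcases le_total x 1 with h | h
  · have := BB_nonneg x
    linarith
  · have h1 := intervalIntegral.integral_add_adjacent_intervals (BB_int 0 1) (BB_int 1 x)
    have h2 : ∫ t in (1:ℝ)..x, Real.smoothTransition t = ∫ t in (1:ℝ)..x, (1:ℝ) := by
      refine intervalIntegral.integral_congr fun t ht => ?_
      rw [uIcc_of_le h] at ht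
      exact Real.smoothTransition.one_of_one_le ht.1
    have h3 := BB_nonneg 1
    unfold BB at h3 ⊢
    rw [← h1, h2]
    simp
    exact h3

theorem exists_profile (k : ℝ) (hk : 0 ≤ k) : ∃ β : ℕ → ℝ → ℝ,
    (∀ j, ContDiff ℝ (⊤ : ℕ∞) (β j)) ∧ (∀ j, β j 0 = 0) ∧ (∀ j s, 0 ≤ β j s) ∧
    (∀ j s, 0 ≤ deriv (β j) s ∧ deriv (β j) s ≤ 1) ∧
    (∀ s, Tendsto (fun j => β j s) atTop (𝓝 (max (s - k) 0))) ∧
    (∀ s, Tendsto (fun j => deriv (β j) s) atTop (𝓝 (if k < s then 1 else 0))) ∧
    (∀ j s, s ≤ k → β j s = 0 ∧ deriv (β j) s = 0) := by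
  set β : ℕ → ℝ → ℝ := fun j s => ((j : ℝ) + 1)⁻¹ * BB (((j : ℝ) + 1) * (s - k)) with hβ
  have hder : ∀ j s, HasDerivAt (β j) (Real.smoothTransition (((j : ℝ) + 1) * (s - k))) s := by
    intro j s
    have h1 : HasDerivAt (fun s : ℝ => ((j : ℝ) + 1) * (s - k)) (((j : ℝ) + 1) * 1) s :=
      ((hasDerivAt_id s).sub_const k).const_mul _
    have h2 := ((BB_hasDerivAt (((j : ℝ) + 1) * (s - k))).comp s h1).const_mul (((j : ℝ) + 1)⁻¹)
    refine h2.congr_deriv ?_
    have : ((j : ℝ) + 1) ≠ 0 := by positivity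
    field_simp
  have hderiv : ∀ j s, deriv (β j) s = Real.smoothTransition (((j : ℝ) + 1) * (s - k)) :=
    fun j s => (hder j s).deriv
  have hz : ∀ j s, s ≤ k → β j s = 0 ∧ deriv (β j) s = 0 := by
    intro j s hs
    have h1 : ((j : ℝ) + 1) * (s - k) ≤ 0 :=
      mul_nonpos_of_nonneg_of_nonpos (by positivity) (by linarith)
    refine ⟨?_, ?_⟩
    · simp only [hβ]
      rw [BB_nonpos h1, mul_zero]
    · rw [hderiv, Real.smoothTransition.zero_of_nonpos h1]
  have hnn : ∀ j s, 0 ≤ β j s := fun j s => mul_nonneg (by positivity) (BB_nonneg _)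
  refine ⟨β, ?_, ?_, hnn, ?_, ?_, ?_, hz⟩
  · intro j
    simp only [hβ]
    exact contDiff_const.mul (BB_contDiff.comp (by fun_prop))
  · intro j
    exact (hz j 0 hk).1
  · intro j s
    rw [hderiv]
    exact ⟨Real.smoothTransition.nonneg _, Real.smoothTransition.le_one _⟩
  · intro s
    have hlow : ∀ j : ℕ, max (s - k) 0 - ((j : ℝ) + 1)⁻¹ ≤ β j s := by
      intro j
      have hj : (0:ℝ) < (j : ℝ) + 1 := by positivity
      rcases le_total s k with h | h
      · rw [max_eq_right (by linarith)]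
        have := hnn j s
        have : 0 < ((j : ℝ) + 1)⁻¹ := by positivity
        linarith
      · rw [max_eq_left (by linarith)]
        have h1 := BB_ge (((j : ℝ) + 1) * (s - k))
        have h2 := mul_le_mul_of_nonneg_left h1 (inv_pos.2 hj).le
        have h3 : ((j : ℝ) + 1)⁻¹ * (((j : ℝ) + 1) * (s - k) - 1) = s - k - ((j : ℝ) + 1)⁻¹ := by
          field_simp
        rw [h3] at h2
        exact h2
    have hup : ∀ j : ℕ, β j s ≤ max (s - k) 0 := by
      intro j
      have hj : (0:ℝ) < (j : ℝ) + 1 := by positivity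
      rcases le_total s k with h | h
      · rw [(hz j s h).1]; exact le_max_right _ _
      · rw [max_eq_left (by linarith)]
        have h1 := BB_le (show 0 ≤ ((j : ℝ) + 1) * (s - k) from mul_nonneg hj.le (by linarith))
        have h2 := mul_le_mul_of_nonneg_left h1 (inv_pos.2 hj).le
        have h3 : ((j : ℝ) + 1)⁻¹ * (((j : ℝ) + 1) * (s - k)) = s - k := by
          field_simp
        rw [h3] at h2
        exact h2
    refine tendsto_of_tendsto_of_tendsto_of_le_of_le ?_ tendsto_const_nhds hlow hup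
    have h1 : Tendsto (fun j : ℕ => ((j : ℝ) + 1)⁻¹) atTop (𝓝 0) := by
      have := tendsto_one_div_add_atTop_nhds_zero_nat (𝕜 := ℝ)
      simpa using this
    have h2 := (tendsto_const_nhds (x := max (s - k) 0) (f := (atTop : Filter ℕ))).sub h1
    simpa using h2
  · intro s
    simp only [hderiv]
    split_ifs with h
    · have h1 : ∀ᶠ j : ℕ in atTop, Real.smoothTransition (((j : ℝ) + 1) * (s - k)) = 1 := by
        obtain ⟨N, hN⟩ := exists_nat_gt (1 / (s - k))
        filter_upwards [eventually_ge_atTop N] with j hj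
        refine Real.smoothTransition.one_of_one_le ?_
        have hs : 0 < s - k := by linarith
        rw [div_lt_iff₀ hs] at hN
        have hj' : (N : ℝ) ≤ j := by exact_mod_cast hj
        nlinarith
      exact tendsto_const_nhds.congr' (h1.mono fun j hj => hj.symm)
    · have h1 : ∀ j : ℕ, Real.smoothTransition (((j : ℝ) + 1) * (s - k)) = 0 := by
        intro j
        refine Real.smoothTransition.zero_of_nonpos ?_
        exact mul_nonpos_of_nonneg_of_nonpos (by positivity) (by linarith)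
      simp only [h1]
      exact tendsto_const_nhds

/-- more general: any smooth `β` with `β 0 = 0` agrees on `[-C, C]` with one with bounded values and derivative -/
theorem exists_clip_fun' (C : ℝ) (hC : 0 ≤ C) (β : ℝ → ℝ) (U : Set ℝ) (hU : IsOpen U) (hCU : Icc (-C) C ⊆ U)
    (hβ : ContDiffOn ℝ (⊤ : ℕ∞) β U) (h0 : β 0 = 0) :
    ∃ τ : ℝ → ℝ, ∃ C' : ℝ, ContDiff ℝ (⊤ : ℕ∞) τ ∧ τ 0 = 0 ∧
    (∀ s, |s| ≤ C → τ s = β s ∧ deriv τ s = deriv β s) ∧ (∀ s, |τ s| ≤ C') ∧ (∀ s, |deriv τ s| ≤ C') := by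
  obtain ⟨δ, hδ, hδU⟩ := (isCompact_Icc (a := -C) (b := C)).exists_cthickening_subset_open hU hCU
  have hball : Metric.closedBall (0:ℝ) (C + δ) ⊆ U := by
    intro x hx
    apply hδU
    rw [Metric.mem_closedBall, Real.dist_eq, sub_zero] at hx
    rw [show Icc (-C) C = Metric.closedBall (0:ℝ) C by rw [Real.closedBall_eq_Icc]; simp]
    rw [cthickening_closedBall hδ.le hC, Metric.mem_closedBall, Real.dist_eq, sub_zero]
    linarith
  let f : ContDiffBump (0:ℝ) := ⟨C + δ / 3, C + δ, by positivity, by linarith⟩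
  have hfsm : ContDiff ℝ (⊤ : ℕ∞) f := f.contDiff
  have hfcs : HasCompactSupport f := f.hasCompactSupport
  have hts : tsupport f ⊆ U := by
    rw [f.tsupport_eq]; exact hball
  set τ : ℝ → ℝ := fun s => f s * β s with hτ
  have hτs : ContDiff ℝ (⊤ : ℕ∞) τ := by
    rw [contDiff_iff_contDiffAt]
    intro s
    by_cases hs : s ∈ U
    · exact hfsm.contDiffAt.mul (hβ.contDiffAt (hU.mem_nhds hs))
    · have h1 : s ∉ tsupport f := fun h => hs (hts h)
      have h2 : τ =ᶠ[𝓝 s] fun _ => 0 := by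
        have := notMem_tsupport_iff_eventuallyEq.1 h1
        filter_upwards [this] with y hy
        simp only [hτ, hy, Pi.zero_apply, zero_mul]
      exact contDiffAt_const.congr_of_eventuallyEq h2
  have hτc : HasCompactSupport τ := hfcs.mul_right
  obtain ⟨C1, hC1⟩ := hτs.continuous.bounded_above_of_compact_support hτc
  have hd : Continuous (deriv τ) := hτs.continuous_deriv (by simp)
  obtain ⟨C2, hC2⟩ := hd.bounded_above_of_compact_support hτc.deriv
  refine ⟨τ, max C1 C2, hτs, by simp [hτ, h0], ?_, ?_, ?_⟩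
  · intro s hs
    have h1 : τ =ᶠ[𝓝 s] β := by
      have h2 : Metric.ball (0:ℝ) (C + δ / 3) ∈ 𝓝 s := by
        refine Metric.isOpen_ball.mem_nhds ?_
        rw [Metric.mem_ball, Real.dist_eq, sub_zero]
        linarith
      filter_upwards [h2] with y hy
      simp only [hτ]
      rw [f.one_of_mem_closedBall (Metric.ball_subset_closedBall hy), one_mul]
    exact ⟨h1.eq_of_nhds, h1.deriv_eq⟩
  · intro s
    exact (hC1 s).trans (le_max_left _ _)
  · intro s
    exact (hC2 s).trans (le_max_right _ _)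

/-- a smooth bounded clip function -/
theorem exists_clip (C : ℝ) (hC : 0 ≤ C) : ∃ τ : ℝ → ℝ, ∃ C' : ℝ, ContDiff ℝ (⊤ : ℕ∞) τ ∧ τ 0 = 0 ∧
    (∀ s, |s| ≤ C → τ s = s ∧ deriv τ s = 1) ∧ (∀ s, |τ s| ≤ C') ∧ (∀ s, |deriv τ s| ≤ C') := by
  obtain ⟨τ, C', h1, h2, h3, h4, h5⟩ := exists_clip_fun' C hC (fun s => s) univ isOpen_univ
    (subset_univ _) contDiffOn_id rfl
  refine ⟨τ, C', h1, h2, fun s hs => ?_, h4, h5⟩
  have h6 := h3 s hs
  rw [deriv_id''] at h6
  exact h6

/-- more general: any smooth `β` with `β 0 = 0` agrees on `[-C, C]` with one with bounded values and derivative -/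
theorem exists_clip_fun (C : ℝ) (hC : 0 ≤ C) (β : ℝ → ℝ) (U : Set ℝ) (hU : IsOpen U) (hCU : Icc (-C) C ⊆ U)
    (hβ : ContDiffOn ℝ (⊤ : ℕ∞) β U) (h0 : β 0 = 0) :
    ∃ τ : ℝ → ℝ, ∃ C' : ℝ, ContDiff ℝ (⊤ : ℕ∞) τ ∧ τ 0 = 0 ∧
    (∀ s, |s| ≤ C → τ s = β s ∧ deriv τ s = deriv β s) ∧ (∀ s, |τ s| ≤ C') ∧ (∀ s, |deriv τ s| ≤ C') :=
  exists_clip_fun' C hC β U hU hCU hβ h0


end

section


variable {n : ℕ} {D D' G K : Set (Sp n)} {p : ℝ} {μ : Measure (Sp n)} {φ ψ u v f g : Sp n → ℝ}
  {U V : Sp n → Sp n} {x : Sp n}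

theorem lip_of_deriv {β : ℝ → ℝ} (hβ : ContDiff ℝ (⊤ : ℕ∞) β) {C : ℝ} (hC : ∀ s, |deriv β s| ≤ C)
    (s t : ℝ) : |β s - β t| ≤ C * |s - t| := by
  have hd : Differentiable ℝ β := hβ.differentiable (by simp)
  have := Convex.norm_image_sub_le_of_norm_deriv_le (f := β) (C := C) (s := univ) (x := t) (y := s)
    (fun x _ => hd x) (fun x _ => by rw [Real.norm_eq_abs]; exact hC x) convex_univ (mem_univ _)
    (mem_univ _)
  simpa [Real.norm_eq_abs] using this

theorem exists_le_of_tendsto {a b : ℕ → ℝ≥0∞} (ha : Tendsto a atTop (𝓝 0))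
    (hb : Tendsto b atTop (𝓝 0)) {ε : ℝ≥0∞} (hε : ε ≠ 0) : ∃ j, a j ≤ ε ∧ b j ≤ ε := by
  have h : ∀ᶠ j in atTop, a j < ε := ha.eventually (gt_mem_nhds (pos_iff_ne_zero.2 hε))
  have h' : ∀ᶠ j in atTop, b j < ε := hb.eventually (gt_mem_nhds (pos_iff_ne_zero.2 hε))
  obtain ⟨j, hj, hj'⟩ := (h.and h').exists
  exact ⟨j, hj.le, hj'.le⟩

/-- chain rule, smooth outer function -/
theorem H0.chain [IsFiniteMeasureOnCompacts μ] (hp : 1 < p) {β : ℝ → ℝ}
    (hβ : ContDiff ℝ (⊤ : ℕ∞) β) (h0 : β 0 = 0) {C : ℝ} (hC : ∀ s, |deriv β s| ≤ C)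
    (h : H0 p μ D u U) : H0 p μ D (fun x => β (u x)) (fun x => deriv β (u x) • U x) := by
  have hP1 : (1 : ℝ≥0∞) ≤ ENNReal.ofReal p := by simpa using ENNReal.ofReal_le_ofReal hp.le
  have hP0 : ENNReal.ofReal p ≠ 0 := (zero_lt_one.trans_le hP1).ne'
  have hPt : ENNReal.ofReal p ≠ ∞ := ENNReal.ofReal_ne_top
  have hC0 : 0 ≤ C := (abs_nonneg _).trans (hC 0)
  have hcont : Continuous β := hβ.continuous
  have hcd : Continuous (deriv β) := hβ.continuous_deriv (by simp)
  have hdiff : Differentiable ℝ β := hβ.differentiable (by simp)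
  have hm1 : AEStronglyMeasurable (fun x => β (u x)) μ := hcont.comp_aestronglyMeasurable h.mu.1
  have hm2 : AEStronglyMeasurable (fun x => deriv β (u x)) μ :=
    hcd.comp_aestronglyMeasurable h.mu.1
  have hm3 : AEStronglyMeasurable (fun x => deriv β (u x) • U x) μ := hm2.smul h.mU.1
  refine ⟨h.mu.of_le_mul (c := C) hm1 ?_, h.mU.of_le_mul (c := C) hm3 ?_, fun ε hε => ?_⟩
  · filter_upwards with x
    have := lip_of_deriv hβ hC (u x) 0
    simpa [h0, Real.norm_eq_abs] using this
  · filter_upwards with x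
    rw [norm_smul, Real.norm_eq_abs]
    exact mul_le_mul_of_nonneg_right (hC _) (norm_nonneg _)
  · obtain ⟨φ, hφ, h1, h2, h3, h4⟩ := H0.seq hp.le h
    have t1 : Tendsto (fun j => eLpNorm (fun x => β (u x) - β (φ j x)) (ENNReal.ofReal p) μ) atTop
        (𝓝 0) := by
      have hle : ∀ j, eLpNorm (fun x => β (u x) - β (φ j x)) (ENNReal.ofReal p) μ ≤
          ENNReal.ofReal C * eLpNorm (fun x => u x - φ j x) (ENNReal.ofReal p) μ := fun j =>
        eLpNorm_le_mul_eLpNorm_of_ae_le_mul (by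
          filter_upwards with x
          simpa [Real.norm_eq_abs] using lip_of_deriv hβ hC (u x) (φ j x)) _
      have hlim : Tendsto (fun j => ENNReal.ofReal C *
          eLpNorm (fun x => u x - φ j x) (ENNReal.ofReal p) μ) atTop (𝓝 0) := by
        have := ENNReal.Tendsto.const_mul (a := ENNReal.ofReal C) h1 (Or.inr ENNReal.ofReal_ne_top)
        simpa using this
      exact tendsto_of_tendsto_of_tendsto_of_le_of_le tendsto_const_nhds hlim (fun _ => zero_le) hle
    have s1 : Tendsto (fun j => ENNReal.ofReal C *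
        eLpNorm (fun x => U x - gradient (φ j) x) (ENNReal.ofReal p) μ) atTop (𝓝 0) := by
      have := ENNReal.Tendsto.const_mul (a := ENNReal.ofReal C) h2 (Or.inr ENNReal.ofReal_ne_top)
      simpa using this
    have hmj : ∀ j, AEStronglyMeasurable (fun x => (deriv β (u x) - deriv β (φ j x)) • U x) μ :=
      fun j => (hm2.sub (hcd.comp_aestronglyMeasurable (hφ j).cont.aestronglyMeasurable)).smul h.mU.1
    have s2 : Tendsto (fun j => eLpNorm (fun x => (deriv β (u x) - deriv β (φ j x)) • U x)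
        (ENNReal.ofReal p) μ) atTop (𝓝 0) := by
      refine Lp_dct hP0 hPt (g := fun x => 2 * C * ‖U x‖) (h.mU.norm.const_mul (2 * C)) hmj ?_ ?_
      · intro j
        filter_upwards with x
        rw [norm_smul, Real.norm_eq_abs]
        refine mul_le_mul_of_nonneg_right ?_ (norm_nonneg _)
        calc |deriv β (u x) - deriv β (φ j x)| ≤ |deriv β (u x)| + |deriv β (φ j x)| := abs_sub _ _
          _ ≤ C + C := add_le_add (hC _) (hC _)
          _ = 2 * C := by ring
      · filter_upwards [h3] with x hx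
        have h5 : Tendsto (fun j => deriv β (u x) - deriv β (φ j x)) atTop (𝓝 0) := by
          have := (hcd.tendsto (u x)).comp hx
          have h6 := this.const_sub (deriv β (u x))
          simpa using h6
        have h6 := h5.smul_const (U x)
        simpa using h6
    have t2 : Tendsto (fun j => eLpNorm (fun x => deriv β (u x) • U x -
        gradient (fun y => β (φ j y)) x) (ENNReal.ofReal p) μ) atTop (𝓝 0) := by
      have hle : ∀ j, eLpNorm (fun x => deriv β (u x) • U x -
          gradient (fun y => β (φ j y)) x) (ENNReal.ofReal p) μ ≤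
          ENNReal.ofReal C * eLpNorm (fun x => U x - gradient (φ j) x) (ENNReal.ofReal p) μ +
          eLpNorm (fun x => (deriv β (u x) - deriv β (φ j x)) • U x) (ENNReal.ofReal p) μ := by
        intro j
        have hmA : AEStronglyMeasurable (fun x => deriv β (φ j x) • (U x - gradient (φ j) x)) μ :=
          (hcd.comp_aestronglyMeasurable (hφ j).cont.aestronglyMeasurable).smul
            (h.mU.1.sub (hφ j).cont_grad.aestronglyMeasurable)
        have e : (fun x => deriv β (u x) • U x - gradient (fun y => β (φ j y)) x) =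
            (fun x => deriv β (φ j x) • (U x - gradient (φ j) x)) +
            (fun x => (deriv β (u x) - deriv β (φ j x)) • U x) := by
          ext1 x
          rw [grad_comp ((hφ j).diff x) (hdiff _)]
          simp only [Pi.add_apply, smul_sub, sub_smul]
          abel
        rw [e]
        refine (eLpNorm_add_le hmA (hmj j) hP1).trans ?_
        gcongr
        refine eLpNorm_le_mul_eLpNorm_of_ae_le_mul ?_ _
        filter_upwards with x
        rw [norm_smul, Real.norm_eq_abs]
        exact mul_le_mul_of_nonneg_right (hC _) (norm_nonneg _)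
      have hlim := s1.add s2
      rw [add_zero] at hlim
      exact tendsto_of_tendsto_of_tendsto_of_le_of_le tendsto_const_nhds hlim (fun _ => zero_le) hle
    obtain ⟨j, hj1, hj2⟩ := exists_le_of_tendsto t1 t2 hε
    exact ⟨fun x => β (φ j x), (hφ j).comp_fun hβ h0, hj1, hj2⟩

/-- chain rule, limit of smooth outer functions -/
theorem H0.chain_lim [IsFiniteMeasureOnCompacts μ] (hp : 1 < p) {β b : ℝ → ℝ} {βk : ℕ → ℝ → ℝ}
    (hβ : ∀ k, ContDiff ℝ (⊤ : ℕ∞) (βk k)) (h0 : ∀ k, βk k 0 = 0) {C : ℝ}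
    (hC : ∀ k s, |deriv (βk k) s| ≤ C)
    (hl : ∀ s, Tendsto (fun k => βk k s) atTop (𝓝 (β s)))
    (hl' : ∀ s, Tendsto (fun k => deriv (βk k) s) atTop (𝓝 (b s)))
    (h : H0 p μ D u U) : H0 p μ D (fun x => β (u x)) (fun x => b (u x) • U x) := by
  have hP1 : (1 : ℝ≥0∞) ≤ ENNReal.ofReal p := by simpa using ENNReal.ofReal_le_ofReal hp.le
  have hP0 : ENNReal.ofReal p ≠ 0 := (zero_lt_one.trans_le hP1).ne'
  have hPt : ENNReal.ofReal p ≠ ∞ := ENNReal.ofReal_ne_top
  have hk : ∀ k, H0 p μ D (fun x => βk k (u x)) (fun x => deriv (βk k) (u x) • U x) :=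
    fun k => H0.chain hp (hβ k) (h0 k) (hC k) h
  have hm1 : AEStronglyMeasurable (fun x => β (u x)) μ :=
    aestronglyMeasurable_of_tendsto_ae atTop (fun k => (hk k).mu.1) (by
      filter_upwards with x using hl (u x))
  have hm2 : AEStronglyMeasurable (fun x => b (u x) • U x) μ :=
    aestronglyMeasurable_of_tendsto_ae atTop (fun k => (hk k).mU.1) (by
      filter_upwards with x using (hl' (u x)).smul_const (U x))
  have hb : ∀ s, |b s| ≤ C := fun s =>
    le_of_tendsto (hl' s).abs (Eventually.of_forall fun k => hC k s)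
  have hkb : ∀ k s, |βk k s| ≤ C * |s| := by
    intro k s
    have := lip_of_deriv (hβ k) (hC k) s 0
    simpa [h0] using this
  have hbb : ∀ s, |β s| ≤ C * |s| := fun s =>
    le_of_tendsto (hl s).abs (Eventually.of_forall fun k => hkb k s)
  have mu1 : MemLp (fun x => β (u x)) (ENNReal.ofReal p) μ :=
    h.mu.of_le_mul (c := C) hm1 (by filter_upwards with x using hbb (u x))
  have mU1 : MemLp (fun x => b (u x) • U x) (ENNReal.ofReal p) μ :=
    h.mU.of_le_mul (c := C) hm2 (by
      filter_upwards with x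
      rw [norm_smul, Real.norm_eq_abs]
      exact mul_le_mul_of_nonneg_right (hb _) (norm_nonneg _))
  refine H0.lim hp.le mu1 mU1 fun ε hε => ?_
  have t1 : Tendsto (fun k => eLpNorm (fun x => β (u x) - βk k (u x)) (ENNReal.ofReal p) μ) atTop
      (𝓝 0) := by
    refine Lp_dct hP0 hPt (g := fun x => 2 * C * ‖u x‖) (h.mu.norm.const_mul (2 * C))
      (fun k => hm1.sub (hk k).mu.1) ?_ ?_
    · intro k
      filter_upwards with x
      rw [Real.norm_eq_abs, Real.norm_eq_abs]
      calc |β (u x) - βk k (u x)| ≤ |β (u x)| + |βk k (u x)| := abs_sub _ _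
        _ ≤ C * |u x| + C * |u x| := add_le_add (hbb _) (hkb _ _)
        _ = 2 * C * |u x| := by ring
    · filter_upwards with x
      have := (hl (u x)).const_sub (β (u x))
      simpa using this
  have t2 : Tendsto (fun k => eLpNorm (fun x => b (u x) • U x - deriv (βk k) (u x) • U x)
      (ENNReal.ofReal p) μ) atTop (𝓝 0) := by
    refine Lp_dct hP0 hPt (g := fun x => 2 * C * ‖U x‖) (h.mU.norm.const_mul (2 * C))
      (fun k => hm2.sub (hk k).mU.1) ?_ ?_
    · intro k
      filter_upwards with x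
      rw [← sub_smul, norm_smul, Real.norm_eq_abs]
      refine mul_le_mul_of_nonneg_right ?_ (norm_nonneg _)
      calc |b (u x) - deriv (βk k) (u x)| ≤ |b (u x)| + |deriv (βk k) (u x)| := abs_sub _ _
        _ ≤ C + C := add_le_add (hb _) (hC _ _)
        _ = 2 * C := by ring
    · filter_upwards with x
      have h1 := ((hl' (u x)).const_sub (b (u x))).smul_const (U x)
      simpa [sub_smul] using h1
  obtain ⟨k, hk1, hk2⟩ := exists_le_of_tendsto t1 t2 hε
  exact ⟨_, _, hk k, hk1, hk2⟩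


end

section


variable {n : ℕ} {D D' G K : Set (Sp n)} {p : ℝ} {μ : Measure (Sp n)} {φ ψ u v f g : Sp n → ℝ}
  {U V : Sp n → Sp n} {x : Sp n}

theorem tend_bdd_smul {F : Type*} [NormedAddCommGroup F] [NormedSpace ℝ F] {q : ℝ≥0∞}
    {a : ℕ → Sp n → ℝ} {W : ℕ → Sp n → F} {c : ℝ}
    (ha : ∀ j, ∀ᵐ x ∂μ, |a j x| ≤ c) (hW : Tendsto (fun j => eLpNorm (W j) q μ) atTop (𝓝 0)) :
    Tendsto (fun j => eLpNorm (fun x => a j x • W j x) q μ) atTop (𝓝 0) := by
  have h1 : ∀ j, eLpNorm (fun x => a j x • W j x) q μ ≤ ENNReal.ofReal c * eLpNorm (W j) q μ := by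
    intro j
    refine eLpNorm_le_mul_eLpNorm_of_ae_le_mul ?_ q
    filter_upwards [ha j] with x hx
    rw [norm_smul, Real.norm_eq_abs]
    exact mul_le_mul_of_nonneg_right hx (norm_nonneg _)
  have h2 : Tendsto (fun j => ENNReal.ofReal c * eLpNorm (W j) q μ) atTop (𝓝 0) := by
    have := ENNReal.Tendsto.const_mul (a := ENNReal.ofReal c) hW (Or.inr ENNReal.ofReal_ne_top)
    simpa using this
  exact tendsto_of_tendsto_of_tendsto_of_le_of_le tendsto_const_nhds h2 (fun _ => zero_le) h1

theorem tend_dct_smul {F : Type*} [NormedAddCommGroup F] [NormedSpace ℝ F] {q : ℝ≥0∞} (hq : q ≠ 0) (hq' : q ≠ ∞)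
    {a : ℕ → Sp n → ℝ} {W : Sp n → F} {c : ℝ} (hm : ∀ j, AEStronglyMeasurable (a j) μ)
    (ha : ∀ j, ∀ᵐ x ∂μ, |a j x| ≤ c) (hW : MemLp W q μ)
    (hlim : ∀ᵐ x ∂μ, Tendsto (fun j => a j x) atTop (𝓝 0)) :
    Tendsto (fun j => eLpNorm (fun x => a j x • W x) q μ) atTop (𝓝 0) := by
  refine Lp_dct hq hq' (g := fun x => c * ‖W x‖) (hW.norm.const_mul c) (fun j => (hm j).smul hW.1) (fun j => ?_) ?_
  · filter_upwards [ha j] with x hx
    rw [norm_smul, Real.norm_eq_abs]
    exact mul_le_mul_of_nonneg_right hx (norm_nonneg _)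
  · filter_upwards [hlim] with x hx
    have := hx.smul_const (W x)
    simpa using this

theorem tend_add {F : Type*} [NormedAddCommGroup F] {q : ℝ≥0∞} (hq : 1 ≤ q)
    {f g : ℕ → Sp n → F} (hf : ∀ j, AEStronglyMeasurable (f j) μ) (hg : ∀ j, AEStronglyMeasurable (g j) μ)
    (h1 : Tendsto (fun j => eLpNorm (f j) q μ) atTop (𝓝 0)) (h2 : Tendsto (fun j => eLpNorm (g j) q μ) atTop (𝓝 0)) :
    Tendsto (fun j => eLpNorm (fun x => f j x + g j x) q μ) atTop (𝓝 0) := by
  have h3 : Tendsto (fun j => eLpNorm (f j) q μ + eLpNorm (g j) q μ) atTop (𝓝 0) := by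
    have := h1.add h2
    simpa using this
  exact tendsto_of_tendsto_of_tendsto_of_le_of_le tendsto_const_nhds h3 (fun _ => zero_le)
    (fun j => eLpNorm_add_le (hf j) (hg j) hq)

theorem lip_of_deriv_bdd {τ : ℝ → ℝ} {C' : ℝ} (hτ : ContDiff ℝ (⊤ : ℕ∞) τ) (hd : ∀ s, |deriv τ s| ≤ C') (s t : ℝ) :
    |τ s - τ t| ≤ C' * |s - t| := by
  have := Convex.norm_image_sub_le_of_norm_deriv_le (f := τ) (C := C') (s := univ) (x := t) (y := s)
    (fun x _ => (hτ.differentiable (by simp)) x) (fun x _ => by rw [Real.norm_eq_abs]; exact hd x) convex_univ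
    (mem_univ _) (mem_univ _)
  simpa [Real.norm_eq_abs] using this

/-- TARGET: approximating sequence which is uniformly bounded when `u` is bounded -/
theorem H0.seq_bdd [IsFiniteMeasureOnCompacts μ] (hp : 1 < p) (h : H0 p μ D u U) {C : ℝ}
    (hC : 0 ≤ C) (hu : ∀ᵐ x ∂μ, |u x| ≤ C) :
    ∃ φ : ℕ → Sp n → ℝ, ∃ C' : ℝ, (∀ j, Cc D (φ j)) ∧ (∀ j x, |φ j x| ≤ C') ∧
      Tendsto (fun j => eLpNorm (fun x => u x - φ j x) (ENNReal.ofReal p) μ) atTop (𝓝 0) ∧
      Tendsto (fun j => eLpNorm (fun x => U x - gradient (φ j) x) (ENNReal.ofReal p) μ) atTop (𝓝 0) ∧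
      (∀ᵐ x ∂μ, Tendsto (fun j => φ j x) atTop (𝓝 (u x))) ∧
      (∀ᵐ x ∂μ, Tendsto (fun j => gradient (φ j) x) atTop (𝓝 (U x))) := by
  have hq1 : (1 : ℝ≥0∞) ≤ ENNReal.ofReal p := by simpa using ENNReal.ofReal_le_ofReal hp.le
  have hq0 : ENNReal.ofReal p ≠ 0 := (lt_of_lt_of_le zero_lt_one hq1).ne'
  have hqt : ENNReal.ofReal p ≠ ∞ := ENNReal.ofReal_ne_top
  obtain ⟨φ, hφ, h1, h2, h3, h4⟩ := Pool.Agent.Helper533.Polar.H0.seq hp.le h
  obtain ⟨τ, C', hτ, hτ0, hτC, hτb, hτd⟩ := exists_clip C hC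
  have hdc : Continuous (deriv τ) := hτ.continuous_deriv (by simp)
  have hgr : ∀ j x, gradient (fun x => τ (φ j x)) x = deriv τ (φ j x) • gradient (φ j) x := fun j x =>
    grad_comp ((hφ j).diff x) ((hτ.differentiable (by simp)) _)
  refine ⟨fun j x => τ (φ j x), C', fun j => (hφ j).comp_fun hτ hτ0, fun j x => hτb _, ?_, ?_, ?_, ?_⟩
  · have h5 : ∀ j, eLpNorm (fun x => u x - τ (φ j x)) (ENNReal.ofReal p) μ ≤
        ENNReal.ofReal C' * eLpNorm (fun x => u x - φ j x) (ENNReal.ofReal p) μ := by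
      intro j
      refine eLpNorm_le_mul_eLpNorm_of_ae_le_mul ?_ _
      filter_upwards [hu] with x hx
      have e : u x - τ (φ j x) = τ (u x) - τ (φ j x) := by rw [(hτC _ hx).1]
      rw [e]
      exact lip_of_deriv_bdd hτ hτd _ _
    have h6 : Tendsto (fun j => ENNReal.ofReal C' * eLpNorm (fun x => u x - φ j x) (ENNReal.ofReal p) μ) atTop (𝓝 0) := by
      have := ENNReal.Tendsto.const_mul (a := ENNReal.ofReal C') h1 (Or.inr ENNReal.ofReal_ne_top)
      simpa using this
    exact tendsto_of_tendsto_of_tendsto_of_le_of_le tendsto_const_nhds h6 (fun _ => zero_le) h5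
  · have h5 : Tendsto (fun j => eLpNorm (fun x => deriv τ (φ j x) • (U x - gradient (φ j) x)) (ENNReal.ofReal p) μ)
        atTop (𝓝 0) := tend_bdd_smul (fun j => Eventually.of_forall fun x => hτd _) h2
    have h6 : Tendsto (fun j => eLpNorm (fun x => (1 - deriv τ (φ j x)) • U x) (ENNReal.ofReal p) μ)
        atTop (𝓝 0) := by
      refine tend_dct_smul hq0 hqt (c := 1 + C') (fun j => ?_) (fun j => ?_) h.mU ?_
      · exact (continuous_const.sub (hdc.comp (hφ j).cont)).aestronglyMeasurable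
      · refine Eventually.of_forall fun x => ?_
        calc |1 - deriv τ (φ j x)| ≤ |(1 : ℝ)| + |deriv τ (φ j x)| := abs_sub _ _
          _ ≤ 1 + C' := by rw [abs_one]; linarith [hτd (φ j x)]
      · filter_upwards [h3, hu] with x hx hx'
        have h7 : Tendsto (fun j => deriv τ (φ j x)) atTop (𝓝 (deriv τ (u x))) := (hdc.tendsto _).comp hx
        rw [(hτC _ hx').2] at h7
        have h8 := (tendsto_const_nhds (x := (1 : ℝ))).sub h7
        simpa using h8
    have h7 := tend_add hq1 (fun j => ?_) (fun j => ?_) h5 h6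
    · refine h7.congr fun j => ?_
      refine eLpNorm_congr_ae (Eventually.of_forall fun x => ?_)
      show deriv τ (φ j x) • (U x - gradient (φ j) x) + (1 - deriv τ (φ j x)) • U x = U x - gradient (fun x => τ (φ j x)) x
      rw [hgr, smul_sub, sub_smul, one_smul]
      abel
    · exact (hdc.comp (hφ j).cont).aestronglyMeasurable.smul (h.mU.sub ((hφ j).memLp_grad _)).1
    · exact (continuous_const.sub (hdc.comp (hφ j).cont)).aestronglyMeasurable.smul h.mU.1
  · filter_upwards [h3, hu] with x hx hx'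
    have h7 : Tendsto (fun j => τ (φ j x)) atTop (𝓝 (τ (u x))) := (hτ.continuous.tendsto _).comp hx
    rwa [(hτC _ hx').1] at h7
  · filter_upwards [h3, h4, hu] with x hx hx2 hx'
    have h7 : Tendsto (fun j => deriv τ (φ j x)) atTop (𝓝 (deriv τ (u x))) := (hdc.tendsto _).comp hx
    rw [(hτC _ hx').2] at h7
    have h8 := h7.smul hx2
    rw [one_smul] at h8
    refine h8.congr fun j => ?_
    rw [hgr]

/-- TARGET: product rule for bounded functions -/
theorem H0.mul_bdd [IsFiniteMeasureOnCompacts μ] (hp : 1 < p) (h : H0 p μ D u U)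
    (h' : H0 p μ D' v V) {C : ℝ} (hu : ∀ᵐ x ∂μ, |u x| ≤ C) (hv : ∀ᵐ x ∂μ, |v x| ≤ C) :
    H0 p μ (D ∩ D') (fun x => u x * v x) (fun x => u x • V x + v x • U x) := by
  have hq1 : (1 : ℝ≥0∞) ≤ ENNReal.ofReal p := by simpa using ENNReal.ofReal_le_ofReal hp.le
  have hq0 : ENNReal.ofReal p ≠ 0 := (lt_of_lt_of_le zero_lt_one hq1).ne'
  have hqt : ENNReal.ofReal p ≠ ∞ := ENNReal.ofReal_ne_top
  have hu' : ∀ᵐ x ∂μ, |u x| ≤ max C 0 := hu.mono fun x hx => hx.trans (le_max_left _ _)
  have hv' : ∀ᵐ x ∂μ, |v x| ≤ max C 0 := hv.mono fun x hx => hx.trans (le_max_left _ _)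
  obtain ⟨φ, C1, hφ, hφb, f1, f2, f3, f4⟩ := H0.seq_bdd hp h (le_max_right C 0) hu'
  obtain ⟨ψ, C2, hψ, hψb, g1, g2, g3, g4⟩ := H0.seq_bdd hp h' (le_max_right C 0) hv'
  have mφ : ∀ j, AEStronglyMeasurable (φ j) μ := fun j => (hφ j).cont.aestronglyMeasurable
  have mψ : ∀ j, AEStronglyMeasurable (ψ j) μ := fun j => (hψ j).cont.aestronglyMeasurable
  have m1 : ∀ j, AEStronglyMeasurable (fun x => u x - φ j x) μ := fun j => h.mu.1.sub (mφ j)
  have m2 : ∀ j, AEStronglyMeasurable (fun x => v x - ψ j x) μ := fun j => h'.mu.1.sub (mψ j)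
  have m3 : ∀ j, AEStronglyMeasurable (fun x => U x - gradient (φ j) x) μ := fun j =>
    h.mU.1.sub (hφ j).cont_grad.aestronglyMeasurable
  have m4 : ∀ j, AEStronglyMeasurable (fun x => V x - gradient (ψ j) x) μ := fun j =>
    h'.mU.1.sub (hψ j).cont_grad.aestronglyMeasurable
  have hT : Tendsto (fun j => eLpNorm (fun x => u x * v x - φ j x * ψ j x) (ENNReal.ofReal p) μ) atTop (𝓝 0) := by
    have h1 : Tendsto (fun j => eLpNorm (fun x => φ j x • (v x - ψ j x)) (ENNReal.ofReal p) μ) atTop (𝓝 0) :=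
      tend_bdd_smul (fun j => Eventually.of_forall fun x => hφb j x) g1
    have h2 : Tendsto (fun j => eLpNorm (fun x => v x • (u x - φ j x)) (ENNReal.ofReal p) μ) atTop (𝓝 0) :=
      tend_bdd_smul (a := fun _ => v) (fun j => hv) f1
    have h3 := tend_add hq1 (fun j => (mφ j).smul (m2 j)) (fun j => h'.mu.1.smul (m1 j)) h1 h2
    refine h3.congr fun j => ?_
    refine eLpNorm_congr_ae (Eventually.of_forall fun x => ?_)
    show φ j x • (v x - ψ j x) + v x • (u x - φ j x) = u x * v x - φ j x * ψ j x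
    simp only [smul_eq_mul]
    ring
  have hG : Tendsto (fun j => eLpNorm (fun x => (u x • V x + v x • U x) - gradient (fun x => φ j x * ψ j x) x)
      (ENNReal.ofReal p) μ) atTop (𝓝 0) := by
    have h1 : Tendsto (fun j => eLpNorm (fun x => φ j x • (V x - gradient (ψ j) x)) (ENNReal.ofReal p) μ) atTop (𝓝 0) :=
      tend_bdd_smul (fun j => Eventually.of_forall fun x => hφb j x) g2
    have h2 : Tendsto (fun j => eLpNorm (fun x => (u x - φ j x) • V x) (ENNReal.ofReal p) μ) atTop (𝓝 0) := by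
      refine tend_dct_smul hq0 hqt (c := C + C1) m1 (fun j => ?_) h'.mU ?_
      · filter_upwards [hu] with x hx
        exact (abs_sub _ _).trans (add_le_add hx (hφb j x))
      · filter_upwards [f3] with x hx
        have := (tendsto_const_nhds (x := u x)).sub hx
        simpa using this
    have h3 : Tendsto (fun j => eLpNorm (fun x => ψ j x • (U x - gradient (φ j) x)) (ENNReal.ofReal p) μ) atTop (𝓝 0) :=
      tend_bdd_smul (fun j => Eventually.of_forall fun x => hψb j x) f2
    have h4 : Tendsto (fun j => eLpNorm (fun x => (v x - ψ j x) • U x) (ENNReal.ofReal p) μ) atTop (𝓝 0) := by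
      refine tend_dct_smul hq0 hqt (c := C + C2) m2 (fun j => ?_) h.mU ?_
      · filter_upwards [hv] with x hx
        exact (abs_sub _ _).trans (add_le_add hx (hψb j x))
      · filter_upwards [g3] with x hx
        have := (tendsto_const_nhds (x := v x)).sub hx
        simpa using this
    have h5 := tend_add hq1 (fun j => (mφ j).smul (m4 j)) (fun j => (m1 j).smul h'.mU.1) h1 h2
    have h6 := tend_add hq1 (fun j => (mψ j).smul (m3 j)) (fun j => (m2 j).smul h.mU.1) h3 h4
    have h7 := tend_add hq1 (fun j => ((mφ j).smul (m4 j)).add ((m1 j).smul h'.mU.1))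
      (fun j => ((mψ j).smul (m3 j)).add ((m2 j).smul h.mU.1)) h5 h6
    refine h7.congr fun j => ?_
    refine eLpNorm_congr_ae (Eventually.of_forall fun x => ?_)
    show (φ j x • (V x - gradient (ψ j) x) + (u x - φ j x) • V x) +
      (ψ j x • (U x - gradient (φ j) x) + (v x - ψ j x) • U x) =
      (u x • V x + v x • U x) - gradient (fun x => φ j x * ψ j x) x
    rw [grad_mul ((hφ j).diff x) ((hψ j).diff x)]
    simp only [smul_sub, sub_smul]
    abel
  refine ⟨?_, ?_, fun ε hε => ?_⟩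
  · refine h'.mu.of_le_mul (c := C) (h.mu.1.mul h'.mu.1) ?_
    filter_upwards [hu] with x hx
    rw [norm_mul, Real.norm_eq_abs (u x)]
    exact mul_le_mul_of_nonneg_right hx (norm_nonneg _)
  · refine MemLp.add ?_ ?_
    · refine h'.mU.of_le_mul (c := C) (h.mu.1.smul h'.mU.1) ?_
      filter_upwards [hu] with x hx
      rw [norm_smul, Real.norm_eq_abs (u x)]
      exact mul_le_mul_of_nonneg_right hx (norm_nonneg _)
    · refine h.mU.of_le_mul (c := C) (h'.mu.1.smul h.mU.1) ?_
      filter_upwards [hv] with x hx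
      rw [norm_smul, Real.norm_eq_abs (v x)]
      exact mul_le_mul_of_nonneg_right hx (norm_nonneg _)
  · obtain ⟨j, hj1, hj2⟩ := ((ENNReal.tendsto_nhds_zero.1 hT ε (pos_iff_ne_zero.2 hε)).and
      (ENNReal.tendsto_nhds_zero.1 hG ε (pos_iff_ne_zero.2 hε))).exists
    exact ⟨fun x => φ j x * ψ j x, (hφ j).mul (hψ j), hj1, hj2⟩


end

section


variable {n : ℕ} {D D' G K : Set (Sp n)} {p : ℝ} {μ : Measure (Sp n)} {φ ψ u v f g : Sp n → ℝ}
  {U V : Sp n → Sp n} {x : Sp n}

/-- TARGET: product with a test function -/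
theorem H0.mul_Cc [IsFiniteMeasureOnCompacts μ] (hp : 1 < p) (h : H0 p μ D u U) {η : Sp n → ℝ}
    (hη : Cc G η) :
    H0 p μ (D ∩ G) (fun x => η x * u x) (fun x => η x • U x + u x • gradient η x) := by
  obtain ⟨C0, hC0⟩ := hη.cont.bounded_above_of_compact_support hη.comp
  obtain ⟨C1, hC1⟩ := hη.cont_grad.bounded_above_of_compact_support hη.comp_grad
  set C : ℝ := max 1 (max C0 C1) with hC
  have hC1' : 1 ≤ C := le_max_left _ _
  have hη0 : ∀ x, ‖η x‖ ≤ C := fun x => (hC0 x).trans ((le_max_left _ _).trans (le_max_right _ _))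
  have hη1 : ∀ x, ‖gradient η x‖ ≤ C := fun x =>
    (hC1 x).trans ((le_max_right _ _).trans (le_max_right _ _))
  have b1 : ∀ (v : Sp n → ℝ), ∀ᵐ x ∂μ, ‖η x * v x‖ ≤ C * ‖v x‖ := fun v =>
    Eventually.of_forall fun x => by
      rw [norm_mul]
      exact mul_le_mul_of_nonneg_right (hη0 x) (norm_nonneg _)
  have b2 : ∀ (V : Sp n → Sp n), ∀ᵐ x ∂μ, ‖η x • V x‖ ≤ C * ‖V x‖ := fun V =>
    Eventually.of_forall fun x => by
      rw [norm_smul]
      exact mul_le_mul_of_nonneg_right (hη0 x) (norm_nonneg _)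
  have b3 : ∀ (v : Sp n → ℝ), ∀ᵐ x ∂μ, ‖v x • gradient η x‖ ≤ C * ‖v x‖ := fun v =>
    Eventually.of_forall fun x => by
      rw [norm_smul, mul_comm]
      exact mul_le_mul_of_nonneg_right (hη1 x) (norm_nonneg _)
  have m0 : AEStronglyMeasurable η μ := hη.cont.aestronglyMeasurable
  have m1 : AEStronglyMeasurable (gradient η) μ := hη.cont_grad.aestronglyMeasurable
  have hp' : (1 : ℝ≥0∞) ≤ ENNReal.ofReal p := by
    simpa using ENNReal.ofReal_le_ofReal hp.le
  have M1 : ∀ v : Sp n → ℝ, MemLp v (ENNReal.ofReal p) μ →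
      MemLp (fun x => η x * v x) (ENNReal.ofReal p) μ := fun v hv =>
    hv.of_le_mul (m0.mul hv.1) (b1 v)
  have M2 : ∀ V : Sp n → Sp n, MemLp V (ENNReal.ofReal p) μ →
      MemLp (fun x => η x • V x) (ENNReal.ofReal p) μ := fun V hV =>
    hV.of_le_mul (m0.smul hV.1) (b2 V)
  have M3 : ∀ v : Sp n → ℝ, MemLp v (ENNReal.ofReal p) μ →
      MemLp (fun x => v x • gradient η x) (ENNReal.ofReal p) μ := fun v hv =>
    hv.of_le_mul (hv.1.smul m1) (b3 v)
  refine ⟨M1 u h.mu, (M2 U h.mU).add (M3 u h.mu), fun ε hε => ?_⟩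
  have hCpos : ENNReal.ofReal C ≠ 0 := by
    rw [Ne, ENNReal.ofReal_eq_zero, not_le]; linarith
  have hCtop : ENNReal.ofReal C ≠ ∞ := ENNReal.ofReal_ne_top
  have hδ : ε / 2 / ENNReal.ofReal C ≠ 0 := by
    simp [ENNReal.div_eq_zero_iff, hε]
  obtain ⟨φ, h1, h2, h3⟩ := h.app (ε / 2 / ENNReal.ofReal C) hδ
  have hCd : ENNReal.ofReal C * (ε / 2 / ENNReal.ofReal C) = ε / 2 :=
    ENNReal.mul_div_cancel hCpos hCtop
  refine ⟨fun x => η x * φ x, by rw [inter_comm]; exact hη.mul h1, ?_, ?_⟩
  · have e : (fun x => η x * u x - η x * φ x) = fun x => η x * (u x - φ x) := by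
      ext x; ring
    rw [e]
    refine (eLpNorm_le_mul_eLpNorm_of_ae_le_mul (b1 fun x => u x - φ x) _).trans ?_
    calc ENNReal.ofReal C * eLpNorm (fun x => u x - φ x) (ENNReal.ofReal p) μ
        ≤ ENNReal.ofReal C * (ε / 2 / ENNReal.ofReal C) := by gcongr
      _ = ε / 2 := hCd
      _ ≤ ε := ENNReal.half_le_self
  · have e : (fun x => η x • U x + u x • gradient η x - gradient (fun x => η x * φ x) x) =
        (fun x => η x • (U x - gradient φ x)) + fun x => (u x - φ x) • gradient η x := by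
      ext1 x
      rw [grad_mul (hη.diff x) (h1.diff x)]
      simp only [Pi.add_apply, smul_sub, sub_smul]
      abel
    rw [e]
    have mU : MemLp (fun x => U x - gradient φ x) (ENNReal.ofReal p) μ :=
      h.mU.sub (h1.memLp_grad _)
    have mu : MemLp (fun x => u x - φ x) (ENNReal.ofReal p) μ := h.mu.sub (h1.memLp _)
    refine (eLpNorm_add_le (M2 _ mU).1 (M3 _ mu).1 hp').trans ?_
    have e1 : eLpNorm (fun x => η x • (U x - gradient φ x)) (ENNReal.ofReal p) μ ≤ ε / 2 := by
      refine (eLpNorm_le_mul_eLpNorm_of_ae_le_mul (b2 fun x => U x - gradient φ x) _).trans ?_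
      calc ENNReal.ofReal C * eLpNorm (fun x => U x - gradient φ x) (ENNReal.ofReal p) μ
          ≤ ENNReal.ofReal C * (ε / 2 / ENNReal.ofReal C) := by gcongr
        _ = ε / 2 := hCd
    have e2 : eLpNorm (fun x => (u x - φ x) • gradient η x) (ENNReal.ofReal p) μ ≤ ε / 2 := by
      refine (eLpNorm_le_mul_eLpNorm_of_ae_le_mul (b3 fun x => u x - φ x) _).trans ?_
      calc ENNReal.ofReal C * eLpNorm (fun x => u x - φ x) (ENNReal.ofReal p) μ
          ≤ ENNReal.ofReal C * (ε / 2 / ENNReal.ofReal C) := by gcongr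
        _ = ε / 2 := hCd
    calc _ ≤ ε / 2 + ε / 2 := add_le_add e1 e2
      _ = ε := ENNReal.add_halves ε

/-- TARGET: an element of `H0` vanishes outside `D` -/
theorem H0.zero_outside [IsFiniteMeasureOnCompacts μ] (hp : 1 < p) (h : H0 p μ D u U) :
    ∀ᵐ x ∂μ, x ∉ D → u x = 0 ∧ U x = 0 := by
  obtain ⟨φ, hφ, -, -, h1, h2⟩ := h.seq hp.le
  filter_upwards [h1, h2] with x hx1 hx2 hxD
  have hn : ∀ j, x ∉ tsupport (φ j) := fun j hj => hxD ((hφ j).supp hj)
  constructor
  · refine tendsto_nhds_unique hx1 ?_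
    simp only [zero_of_notMem (hn _)]
    exact tendsto_const_nhds
  · refine tendsto_nhds_unique hx2 ?_
    simp only [grad_zero_of_notMem (hn _)]
    exact tendsto_const_nhds


end

section


variable {n : ℕ} {D D' G G' K : Set (Sp n)} {p : ℝ} {μ : Measure (Sp n)} {φ ψ u v f g : Sp n → ℝ}
  {U V F : Sp n → Sp n} {x : Sp n}

/-- elements of `H0` are in the local class of every set -/
theorem H0.toLH [IsFiniteMeasureOnCompacts μ] (hp : 1 < p) (h : H0 p μ D u U) : LH p μ G u U := by
  intro η hη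
  exact (h.mul_Cc hp hη).mono inter_subset_right

theorem LH.mono (h : LH p μ G u U) (hG : G' ⊆ G) (hp : 1 < p) (hG' : IsOpen G')
    [IsFiniteMeasureOnCompacts μ] : LH p μ G' u U := by
  intro η hη
  obtain ⟨η', h1, -, W, hW, hKW, hWG, hW1⟩ := exists_cutoff hη.comp hG' hη.supp
  have h2 := (h η (hη.mono hG)).mul_Cc hp h1
  refine (h2.mono inter_subset_right).congr (Eventually.of_forall fun x => ?_)
    (Eventually.of_forall fun x => ?_)
  · show η' x * (η x * u x) = η x * u x
    by_cases hx : x ∈ tsupport η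
    · rw [hW1 x (hKW hx), one_mul]
    · rw [zero_of_notMem hx, zero_mul, mul_zero]
  · show η' x • (η x • U x + u x • gradient η x) + (η x * u x) • gradient η' x =
      η x • U x + u x • gradient η x
    by_cases hx : x ∈ tsupport η
    · rw [hW1 x (hKW hx), grad_zero_of_const_on hW hW1 (hKW hx), one_smul, smul_zero, add_zero]
    · rw [zero_of_notMem hx, grad_zero_of_notMem hx, zero_smul, smul_zero, add_zero, smul_zero,
        zero_mul, zero_smul, add_zero]

theorem LH.congr (h : LH p μ G u U) (hu : ∀ᵐ x ∂μ, x ∈ G → u x = v x)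
    (hU : ∀ᵐ x ∂μ, x ∈ G → U x = V x) : LH p μ G v V := by
  intro η hη
  refine (h η hη).congr ?_ ?_
  · filter_upwards [hu] with x hx
    by_cases hxG : x ∈ G
    · simp only [hx hxG]
    · have e1 : η x = 0 := zero_of_notMem (fun h' => hxG (hη.supp h'))
      simp only [e1, zero_mul]
  · filter_upwards [hu, hU] with x hx hx'
    by_cases hxG : x ∈ G
    · simp only [hx hxG, hx' hxG]
    · have e1 : η x = 0 := zero_of_notMem (fun h' => hxG (hη.supp h'))
      have e2 : gradient η x = 0 := grad_zero_of_notMem (fun h' => hxG (hη.supp h'))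
      simp only [e1, e2, zero_smul, smul_zero]

theorem LH.of_smooth [IsFiniteMeasureOnCompacts μ] (h : ContDiff ℝ (⊤ : ℕ∞) φ) :
    LH p μ G φ (gradient φ) := by
  intro η hη
  have h1 := H0.of_Cc (p := p) (μ := μ) (hη.mul_smooth h)
  refine h1.congr (Eventually.of_forall fun x => rfl) (Eventually.of_forall fun x => ?_)
  show gradient (fun x => η x * φ x) x = _
  rw [grad_mul (hη.diff x) ((h.differentiable (by simp)) x)]

theorem LH.const [IsFiniteMeasureOnCompacts μ] (c : ℝ) : LH p μ G (fun _ => c) (fun _ => 0) := by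
  have h := LH.of_smooth (p := p) (μ := μ) (G := G) (φ := fun _ : Sp n => c) contDiff_const
  have e : gradient (fun _ : Sp n => c) = fun _ => (0 : Sp n) := by
    funext x
    simp [gradient]
  rw [e] at h
  exact h

theorem LH.add [IsFiniteMeasureOnCompacts μ] (hp : 1 < p) (h : LH p μ G u U) (h' : LH p μ G v V) :
    LH p μ G (fun x => u x + v x) (fun x => U x + V x) := by
  intro η hη
  refine ((h η hη).add hp.le (h' η hη)).congr (Eventually.of_forall fun x => ?_)
    (Eventually.of_forall fun x => ?_)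
  · show η x * u x + η x * v x = η x * (u x + v x)
    ring
  · show (η x • U x + u x • gradient η x) + (η x • V x + v x • gradient η x) =
      η x • (U x + V x) + (u x + v x) • gradient η x
    module

theorem LH.const_mul [IsFiniteMeasureOnCompacts μ] (c : ℝ) (h : LH p μ G u U) :
    LH p μ G (fun x => c * u x) (fun x => c • U x) := by
  intro η hη
  refine ((h η hη).const_mul c).congr (Eventually.of_forall fun x => ?_)
    (Eventually.of_forall fun x => ?_)
  · show c * (η x * u x) = η x * (c * u x)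
    ring
  · show c • (η x • U x + u x • gradient η x) = η x • (c • U x) + (c * u x) • gradient η x
    module

theorem LH.sub [IsFiniteMeasureOnCompacts μ] (hp : 1 < p) (h : LH p μ G u U) (h' : LH p μ G v V) :
    LH p μ G (fun x => u x - v x) (fun x => U x - V x) := by
  intro η hη
  refine ((h η hη).sub hp.le (h' η hη)).congr (Eventually.of_forall fun x => ?_)
    (Eventually.of_forall fun x => ?_)
  · show η x * u x - η x * v x = η x * (u x - v x)
    ring
  · show (η x • U x + u x • gradient η x) - (η x • V x + v x • gradient η x) =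
      η x • (U x - V x) + (u x - v x) • gradient η x
    module

/-- a local function which vanishes outside a compact subset of `G` is in `H0 G` -/
theorem LH.toH0 [IsFiniteMeasureOnCompacts μ] (h : LH p μ G u U) (hG : IsOpen G) (hK : IsCompact K)
    (hKG : K ⊆ G) (hu : ∀ᵐ x ∂μ, x ∉ K → u x = 0) (hU : ∀ᵐ x ∂μ, x ∉ K → U x = 0) :
    H0 p μ G u U := by
  obtain ⟨η, h1, -, W, hW, hKW, hWG, hW1⟩ := exists_cutoff hK hG hKG
  refine (h η h1).congr ?_ ?_
  · filter_upwards [hu] with x hx
    by_cases hxK : x ∈ K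
    · rw [hW1 x (hKW hxK), one_mul]
    · rw [hx hxK, mul_zero]
  · filter_upwards [hu, hU] with x hx hx'
    by_cases hxK : x ∈ K
    · rw [hW1 x (hKW hxK), grad_zero_of_const_on hW hW1 (hKW hxK), one_smul, smul_zero, add_zero]
    · rw [hx hxK, hx' hxK, smul_zero, zero_smul, add_zero]


end

section


variable {n : ℕ} {D D' G G' K : Set (Sp n)} {p : ℝ} {μ : Measure (Sp n)} {φ ψ u v f g : Sp n → ℝ}
  {U V F : Sp n → Sp n} {x : Sp n}

/-- chain rule in the local class -/
theorem LH.chain_lim [IsFiniteMeasureOnCompacts μ] (hp : 1 < p) (hG : IsOpen G) {β b : ℝ → ℝ}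
    {βk : ℕ → ℝ → ℝ} (hβ : ∀ k, ContDiff ℝ (⊤ : ℕ∞) (βk k)) {C : ℝ}
    (hC : ∀ k s, |deriv (βk k) s| ≤ C)
    (hl : ∀ s, Tendsto (fun k => βk k s) atTop (𝓝 (β s)))
    (hl' : ∀ s, Tendsto (fun k => deriv (βk k) s) atTop (𝓝 (b s)))
    (h : LH p μ G u U) : LH p μ G (fun x => β (u x)) (fun x => b (u x) • U x) := by
  intro η hη
  obtain ⟨θ, hθ, hθ01, W, hWo, hKW, hWG, hθ1⟩ := exists_cutoff (K := tsupport η) hη.comp hG hη.supp
  have h1 := h θ hθ
  have h2 : H0 p μ G (fun x => β (θ x * u x) - β 0)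
      (fun x => b (θ x * u x) • (θ x • U x + u x • gradient θ x)) := by
    refine H0.chain_lim hp (β := fun s => β s - β 0) (b := b)
      (βk := fun k s => βk k s - βk k 0) (fun k => (hβ k).sub contDiff_const)
      (fun k => sub_self _) (C := C) (fun k s => ?_) (fun s => (hl s).sub (hl 0)) (fun s => ?_) h1
    · rw [deriv_sub_const]
      exact hC k s
    · simp only [deriv_sub_const]
      exact hl' s
  have h3 := H0.mul_Cc hp h2 hη
  have h4 := H0.const_mul (p := p) (μ := μ) (β 0) (H0.of_Cc (p := p) (μ := μ) hη)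
  have h5 := (h3.mono inter_subset_left).add hp.le h4
  refine h5.congr (Eventually.of_forall fun x => ?_) (Eventually.of_forall fun x => ?_)
  · by_cases hx : x ∈ tsupport η
    · have h6 := hθ1 x (hKW hx)
      show η x * (β (θ x * u x) - β 0) + β 0 * η x = η x * β (u x)
      rw [h6, one_mul]
      ring
    · have h6 := zero_of_notMem hx
      show η x * (β (θ x * u x) - β 0) + β 0 * η x = η x * β (u x)
      rw [h6]
      ring
  · by_cases hx : x ∈ tsupport η
    · have h6 := hθ1 x (hKW hx)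
      have h7 := grad_zero_of_const_on hWo hθ1 (hKW hx)
      show η x • (b (θ x * u x) • (θ x • U x + u x • gradient θ x)) +
        (β (θ x * u x) - β 0) • gradient η x + β 0 • gradient η x =
        η x • (b (u x) • U x) + β (u x) • gradient η x
      rw [h6, h7, one_mul]
      module
    · have h6 := zero_of_notMem hx
      have h7 := grad_zero_of_notMem hx
      show η x • (b (θ x * u x) • (θ x • U x + u x • gradient θ x)) +
        (β (θ x * u x) - β 0) • gradient η x + β 0 • gradient η x =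
        η x • (b (u x) • U x) + β (u x) • gradient η x
      rw [h6, h7]
      simp

/-- product rule for bounded functions in the local class -/
theorem LH.mul [IsFiniteMeasureOnCompacts μ] (hp : 1 < p) (hG : IsOpen G) (h : LH p μ G u U)
    (h' : LH p μ G v V) {C : ℝ} (hu : ∀ᵐ x ∂μ, x ∈ G → |u x| ≤ C)
    (hv : ∀ᵐ x ∂μ, x ∈ G → |v x| ≤ C) :
    LH p μ G (fun x => u x * v x) (fun x => u x • V x + v x • U x) := by
  intro η hη
  obtain ⟨θ, hθ, hθ01, W, hWo, hKW, hWG, hθ1⟩ := exists_cutoff (K := tsupport η) hη.comp hG hη.supp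
  have h1 := h η hη
  have h2 := h' θ hθ
  obtain ⟨Cη, hCη⟩ := hη.comp.exists_bound_of_continuous hη.cont
  have hCη0 : 0 ≤ Cη := (norm_nonneg _).trans (hCη 0)
  have hb1 : ∀ᵐ x ∂μ, |η x * u x| ≤ max (Cη * |C|) |C| := by
    filter_upwards [hu] with x hx
    refine le_max_of_le_left ?_
    by_cases hxG : x ∈ G
    · rw [abs_mul]
      have h3 := hCη x
      rw [Real.norm_eq_abs] at h3
      exact mul_le_mul h3 ((hx hxG).trans (le_abs_self C)) (abs_nonneg _) hCη0
    · rw [zero_of_notMem (fun h3 => hxG (hη.supp h3)), zero_mul, abs_zero]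
      positivity
  have hb2 : ∀ᵐ x ∂μ, |θ x * v x| ≤ max (Cη * |C|) |C| := by
    filter_upwards [hv] with x hx
    refine le_max_of_le_right ?_
    by_cases hxG : x ∈ G
    · rw [abs_mul]
      have h3 : |θ x| ≤ 1 := by
        rw [abs_of_nonneg (hθ01 x).1]
        exact (hθ01 x).2
      calc |θ x| * |v x| ≤ 1 * |C| :=
            mul_le_mul h3 ((hx hxG).trans (le_abs_self C)) (abs_nonneg _) zero_le_one
        _ = |C| := one_mul _
    · rw [zero_of_notMem (fun h3 => hxG (hθ.supp h3)), zero_mul, abs_zero]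
      positivity
  have h3 := H0.mul_bdd hp h1 h2 hb1 hb2
  refine (h3.mono inter_subset_left).congr (Eventually.of_forall fun x => ?_)
    (Eventually.of_forall fun x => ?_)
  · by_cases hx : x ∈ tsupport η
    · have h6 := hθ1 x (hKW hx)
      show (η x * u x) * (θ x * v x) = η x * (u x * v x)
      rw [h6]
      ring
    · have h6 := zero_of_notMem hx
      show (η x * u x) * (θ x * v x) = η x * (u x * v x)
      rw [h6]
      ring
  · by_cases hx : x ∈ tsupport η
    · have h6 := hθ1 x (hKW hx)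
      have h7 := grad_zero_of_const_on hWo hθ1 (hKW hx)
      show (η x * u x) • (θ x • V x + v x • gradient θ x) +
        (θ x * v x) • (η x • U x + u x • gradient η x) =
        η x • (u x • V x + v x • U x) + (u x * v x) • gradient η x
      rw [h6, h7]
      module
    · have h6 := zero_of_notMem hx
      have h7 := grad_zero_of_notMem hx
      show (η x * u x) • (θ x • V x + v x • gradient θ x) +
        (θ x * v x) • (η x • U x + u x • gradient η x) =
        η x • (u x • V x + v x • U x) + (u x * v x) • gradient η x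
      rw [h6, h7]
      simp


end

end Pool.Agent.Helper533.Polar
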