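import Pool.Agent.Helper533.Polar.ObsDef
open MeasureTheory Filter Topology Set
open scoped ENNReal NNReal RealInnerProductSpace

namespace Pool.Agent.Helper533.Polar

/-- comparison from below with continuous weak solutions on relatively compact open sets -/
def CmpSuper {n : ℕ} (A : Sp n → Sp n → Sp n) (p : ℝ) (μ : Measure (Sp n)) (Ω : Set (Sp n))
    (u : Sp n → ℝ) : Prop :=
  ∀ G : Set (Sp n), IsOpen G → IsCompact (closure G) → closure G ⊆ Ω →
    ∀ (h : Sp n → ℝ) (H : Sp n → Sp n), ContinuousOn h (closure G) → LH p μ G h H →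
    (∀ φ, Cc G φ → ∫ x, ⟪A x (H x), gradient φ x⟫ ∂μ = 0) →
    (∀ x ∈ frontier G, h x ≤ u x) → ∀ x ∈ G, h x ≤ u x

end Pool.Agent.Helper533.Polar
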