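import Pool.Agent.Helper533.Polar.Osc
import Pool.Agent.Helper533.Polar.CmpDef
open MeasureTheory Filter Topology Set
open scoped ENNReal NNReal RealInnerProductSpace

namespace Pool.Agent.Helper533.Polar

section


/-! ### definition used below -/
/-! ### ALREADY PROVED elsewhere -/
section ObsProps
variable {n : ℕ} {p α β Cd θ Cs lam Cp : ℝ} {μ : Measure (Sp n)} {A : Sp n → Sp n → Sp n}
  {D G : Set (Sp n)} {ρ ω u : Sp n → ℝ} {W U : Sp n → Sp n}

end ObsProps

/-! ### ALREADY PROVED elsewhere -/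
section GivenR3
variable {n : ℕ} {p α β Cd θ Cs lam Cp : ℝ} {μ : Measure (Sp n)} {A : Sp n → Sp n → Sp n} {D : Set (Sp n)}
end GivenR3

/-! ### ALREADY PROVED elsewhere -/
section BdryStep
variable {n : ℕ} {p α β Cd θ Cs lam Cp : ℝ}

end BdryStep

/-! ### TARGET -/
section ApproxBelow
variable {n : ℕ} {p α β Cd θ Cs lam Cp : ℝ}

/-- a closed condition holding a.e. on an open set holds everywhere there -/
theorem nonneg_of_ae {μ : Measure (Sp n)}
    (hpos : ∀ (x : Sp n) (r : ℝ), 0 < r → 0 < μ (Metric.ball x r)) {O : Set (Sp n)} (hO : IsOpen O)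
    {g : Sp n → ℝ} (hg : ContinuousOn g O) (h : ∀ᵐ x ∂μ, x ∈ O → 0 ≤ g x) :
    ∀ x ∈ O, 0 ≤ g x := by
  intro x hx
  by_contra hlt
  push Not at hlt
  have h1 : IsOpen (O ∩ g ⁻¹' (Iio 0)) := hg.isOpen_inter_preimage hO isOpen_Iio
  obtain ⟨r, hr, hball⟩ := Metric.isOpen_iff.1 h1 x ⟨hx, hlt⟩
  have h2 := hpos x r hr
  have h3 : μ (Metric.ball x r) = 0 := by
    refine measure_mono_null ?_ h
    intro y hy hcon
    have h4 := hball hy
    have h5 := hcon h4.1
    have h6 : g y < 0 := h4.2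
    linarith
  rw [h3] at h2
  exact lt_irrefl _ h2

/-- a bounded function with the comparison property is approximated from below by continuous
weak supersolutions lying above a given smooth function -/
theorem approx_below (hp : 1 < p) (hα : 0 < α) (hβ : 0 < β) {μ : Measure (Sp n)}
    [IsFiniteMeasureOnCompacts μ] {A : Sp n → Sp n → Sp n} (hA : Op p α β μ A)
    (hadm : Adm p μ Cd θ Cs lam Cp) {Ω : Set (Sp n)} (hΩ : IsOpen Ω) (hΩb : Bornology.IsBounded Ω)
    {u : Sp n → ℝ} {m : ℝ} (hm0 : 0 ≤ m) (hm : ∀ x ∈ Ω, |u x| ≤ m) (hu : CmpSuper A p μ Ω u)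
    (hn : Ωᶜ.Nonempty) {K : Set (Sp n)} (hK : IsCompact K) (hKΩ : K ⊆ Ω) :
    ∃ G K' : Set (Sp n), IsOpen G ∧ IsCompact K' ∧ K ⊆ G ∧ G ⊆ K' ∧ K' ⊆ Ω ∧
      ∀ f : Sp n → ℝ, ContDiff ℝ (⊤ : ℕ∞) f → (∀ x, |f x| ≤ m + 1) → (∀ x ∈ K', f x ≤ u x) →
      ∃ (w : Sp n → ℝ) (W : Sp n → Sp n), Sup A p μ G w W ∧ ContinuousOn w G ∧
        ∀ x ∈ G, f x ≤ w x ∧ w x ≤ u x := by
  classical
  set d : Sp n → ℝ := fun x => Metric.infDist x Ωᶜ with hd
  have hdc : Continuous d := Metric.continuous_infDist_pt _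
  have hdpos : ∀ x, 0 < d x → x ∈ Ω := by
    intro x hx
    by_contra hx'
    have : d x = 0 := Metric.infDist_zero_of_mem hx'
    linarith
  have hdpos' : ∀ x ∈ Ω, 0 < d x := by
    intro x hx
    exact (hΩ.isClosed_compl.notMem_iff_infDist_pos hn).1 (fun h => h hx)
  obtain ⟨s, hs, hsK⟩ : ∃ s : ℝ, 0 < s ∧ ∀ x ∈ K, 4 * s ≤ d x := by
    rcases K.eq_empty_or_nonempty with h | h
    · exact ⟨1, one_pos, by rw [h]; simp⟩
    · obtain ⟨x0, hx0, hmin⟩ := hK.exists_isMinOn h hdc.continuousOn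
      have := hdpos' x0 (hKΩ hx0)
      refine ⟨d x0 / 4, by positivity, fun x hx => ?_⟩
      have h2 : d x0 ≤ d x := hmin hx
      linarith
  set D : Set (Sp n) := {x | s < d x} with hD
  set K' : Set (Sp n) := {x | s ≤ d x} with hK'
  set G : Set (Sp n) := {x | 2 * s < d x} with hG
  set F2 : Set (Sp n) := {x | 2 * s ≤ d x} with hF2
  have hDo : IsOpen D := isOpen_lt continuous_const hdc
  have hGo : IsOpen G := isOpen_lt continuous_const hdc
  have hDΩ : D ⊆ Ω := fun x hx => hdpos x (hs.trans hx)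
  have hK'Ω : K' ⊆ Ω := fun x hx => hdpos x (lt_of_lt_of_le hs hx)
  have hDb : Bornology.IsBounded D := hΩb.subset hDΩ
  have hK'c : IsCompact K' := Metric.isCompact_of_isClosed_isBounded
    (isClosed_le continuous_const hdc) (hΩb.subset hK'Ω)
  have hF2D : F2 ⊆ D := by
    intro x hx
    have hx' : 2 * s ≤ d x := hx
    show s < d x
    linarith
  have hF2c : IsCompact F2 := Metric.isCompact_of_isClosed_isBounded
    (isClosed_le continuous_const hdc) (hDb.subset hF2D)
  have hGF2 : G ⊆ F2 := by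
    intro x hx
    have hx' : 2 * s < d x := hx
    exact hx'.le
  have hGD : G ⊆ D := hGF2.trans hF2D
  have hDK' : D ⊆ K' := by
    intro x hx
    have hx' : s < d x := hx
    exact hx'.le
  have hKG : K ⊆ G := by
    intro x hx
    have := hsK x hx
    show 2 * s < d x
    linarith
  refine ⟨G, K', hGo, hK'c, hKG, hGD.trans hDK', hK'Ω, ?_⟩
  -- cutoff
  obtain ⟨χ, hχ, hχ01, V, hVo, hF2V, hVD, hχ1⟩ := exists_cutoff hF2c hDo hF2D
  have hχG : ∀ x ∈ G, χ x = 1 := fun x hx => hχ1 x (hF2V (hGF2 hx))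
  obtain ⟨e, he, heD⟩ := hχ.comp.isCompact.exists_thickening_subset_open hDo hχ.supp
  have hlam : 0 < lam := lt_of_lt_of_le one_pos hadm.one_le_lam
  set r : ℝ := min (2 * s) (e / (2 * lam)) with hr
  have hr0 : 0 < r := lt_min (by positivity) (by positivity)
  have hr1 : r ≤ 2 * s := min_le_left _ _
  have hr2 : 2 * lam * r ≤ e := by
    have : r ≤ e / (2 * lam) := min_le_right _ _
    rw [le_div_iff₀ (by positivity)] at this
    linarith
  have hCd : 0 < Cd := lt_of_lt_of_le one_pos hadm.one_le_Cd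
  obtain ⟨δ, hδ0, hδ1, hstep⟩ := boundary_step (n := n) (Cd := Cd) (θ := θ) (Cs := Cs) (lam := lam)
    (Cp := Cp) hp hα hβ (γ := (Cd ^ 2)⁻¹) (by positivity)
  set M : ℝ := 2 * (m + 1) / δ with hM
  set S : ℝ := M + m + 1 with hS
  have hδM : δ * M = 2 * (m + 1) := by rw [hM]; field_simp
  have hMm : m + 1 ≤ M := by
    have hM0 : 0 < M := by rw [hM]; positivity
    nlinarith
  have hS0 : 0 < S := by rw [hS]; linarith
  have hSM : (1 - δ) * S < M - m - 1 := by
    rw [hS]
    nlinarith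
  intro f hf hfb hfu
  set ρ : Sp n → ℝ := fun x => χ x * (f x + M) with hρ
  have hρC : Cc D ρ := hχ.mul_smooth (hf.add contDiff_const)
  have hfM : ∀ x, 0 ≤ f x + M ∧ f x + M ≤ S := by
    intro x
    have := abs_le.1 (hfb x)
    constructor
    · linarith [this.1]
    · rw [hS]; linarith [this.2]
  have hρ0 : ∀ x, 0 ≤ ρ x := fun x => mul_nonneg (hχ01 x).1 (hfM x).1
  have hρle : ∀ x, ρ x ≤ f x + M := by
    intro x
    have := mul_le_mul_of_nonneg_right (hχ01 x).2 (hfM x).1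
    rw [one_mul] at this
    exact this
  have hρS : ∀ x, ρ x ≤ S := fun x => (hρle x).trans (hfM x).2
  obtain ⟨ω, W, o1, o2, o3⟩ := obstacle_exists hp hα hβ hA hadm hDb hρC
  have hobs : Obs A p μ D ρ ω W := ⟨o1, o2, o3⟩
  have hωS : ∀ᵐ x ∂μ, ω x ≤ S := hobs.le_const hp hα hβ hA hadm hDb hS0.le hρS
  obtain ⟨ω', hω'c, hω'e⟩ := cont_rep hadm.pos hDo ω
    (osc_small hp hα hβ hA hadm hDo hobs hρC.cont hρ0 hωS)
  have hρω : ∀ x ∈ D, ρ x ≤ ω' x := by
    have := nonneg_of_ae hadm.pos hDo (g := fun x => ω' x - ρ x)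
      (hω'c.sub hρC.cont.continuousOn) (by
        filter_upwards [hω'e, o2] with x h1 h2 hx
        rw [h1 hx]
        linarith)
    intro x hx
    have := this x hx
    linarith
  have hbd : ∀ y, y ∉ D → ∀ x ∈ D, dist x y < r / 2 → ω' x ≤ (1 - δ) * S := by
    intro y hy
    have hy' : Metric.infDist y Ωᶜ ≤ s := not_lt.1 hy
    have h1 := thick_complement hadm hΩ hn hs hy' hr0 hr1
    have h2 := hstep μ A hA hadm D ρ ω W hobs hρ0 S hS0 hωS y r hr0 (by
      intro z hz
      have hz2 : z ∉ tsupport χ := by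
        intro hzt
        apply hy
        apply heD
        rw [Metric.mem_thickening_iff]
        refine ⟨z, hzt, ?_⟩
        rw [Metric.mem_ball, dist_comm] at hz
        linarith
      show χ z * (f z + M) = 0
      rw [image_eq_zero_of_notMem_tsupport hz2, zero_mul]) h1
    have h3 := nonneg_of_ae hadm.pos (hDo.inter (Metric.isOpen_ball (x := y) (ε := r / 2)))
      (g := fun x => (1 - δ) * S - ω' x)
      (continuousOn_const.sub (hω'c.mono inter_subset_left)) (by
        filter_upwards [hω'e, h2] with x g1 g2 hx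
        rw [g1 hx.1]
        have := g2 hx.2
        linarith)
    intro x hx hxy
    have := h3 x ⟨hx, by rw [Metric.mem_ball]; exact hxy⟩
    linarith
  set G2 : Set (Sp n) := D ∩ (fun x => ω' x - max (ρ x) (M - m - 1)) ⁻¹' (Ioi 0) with hG2
  have hG2m : ∀ x, x ∈ G2 ↔ x ∈ D ∧ max (ρ x) (M - m - 1) < ω' x := by
    intro x
    rw [hG2]
    constructor
    · rintro ⟨h1, h2⟩
      have h2' : 0 < ω' x - max (ρ x) (M - m - 1) := h2
      exact ⟨h1, by linarith⟩
    · rintro ⟨h1, h2⟩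
      refine ⟨h1, ?_⟩
      show 0 < ω' x - max (ρ x) (M - m - 1)
      linarith
  have hmaxc : Continuous fun x => max (ρ x) (M - m - 1) := hρC.cont.max continuous_const
  have hG2o : IsOpen G2 := (hω'c.sub hmaxc.continuousOn).isOpen_inter_preimage hDo isOpen_Ioi
  have hG2D : G2 ⊆ D := inter_subset_left
  have hDcn : Dᶜ.Nonempty := by
    obtain ⟨z, hz⟩ := hn
    exact ⟨z, fun h => hz (hDΩ h)⟩
  have hG2r : G2 ⊆ {x | r / 2 ≤ Metric.infDist x Dᶜ} := by
    intro x hx
    by_contra hlt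
    have hlt' : Metric.infDist x Dᶜ < r / 2 := not_le.1 hlt
    obtain ⟨y, hy, hxy⟩ := (Metric.infDist_lt_iff hDcn).1 hlt'
    have h1 := hbd y hy x (hG2D hx) hxy
    have h2 := ((hG2m x).1 hx).2
    have h3 := le_max_right (ρ x) (M - m - 1)
    linarith
  have hclr : closure G2 ⊆ {x | r / 2 ≤ Metric.infDist x Dᶜ} :=
    closure_minimal hG2r (isClosed_le continuous_const (Metric.continuous_infDist_pt _))
  have hclD : closure G2 ⊆ D := by
    intro x hx
    by_contra hxD
    have h1 : r / 2 ≤ Metric.infDist x Dᶜ := hclr hx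
    rw [Metric.infDist_zero_of_mem (show x ∈ Dᶜ from hxD)] at h1
    linarith
  have hclc : IsCompact (closure G2) :=
    Metric.isCompact_of_isClosed_isBounded isClosed_closure (hDb.subset hclD)
  -- comparison off G2
  have hoff : ∀ x ∈ D, x ∉ G2 → ω' x - M ≤ u x := by
    intro x hx hx2
    have h1 : ω' x ≤ max (ρ x) (M - m - 1) := by
      by_contra hlt
      exact hx2 ((hG2m x).2 ⟨hx, not_le.1 hlt⟩)
    have h2 := hfu x (hDK' hx)
    have h3 := hρle x
    have h4 := abs_le.1 (hm x (hDΩ hx))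
    rcases le_max_iff.1 h1 with h5 | h5
    · linarith
    · linarith [h4.1]
  have hLHω : LH p μ D ω' W := (hobs.h0.toLH hp).congr
    (by filter_upwards [hω'e] with x h1 hx using (h1 hx).symm)
    (Filter.Eventually.of_forall fun x _ => rfl)
  have hLH : LH p μ G2 (fun x => ω' x - M) W := by
    have h1 := (hLHω.mono hG2D hp hG2o).sub hp (LH.const (p := p) (μ := μ) (G := G2) M)
    exact h1.congr (Filter.Eventually.of_forall fun x _ => rfl)
      (Filter.Eventually.of_forall fun x _ => by simp)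
  have hharm : ∀ φ, Cc G2 φ → ∫ x, ⟪A x (W x), gradient φ x⟫ ∂μ = 0 := by
    refine hobs.harm hp hG2o hG2D ?_
    intro K0 hK0 hK0G
    rcases K0.eq_empty_or_nonempty with h | h
    · exact ⟨1, one_pos, Filter.Eventually.of_forall fun x hx => by rw [h] at hx; exact absurd hx (Set.notMem_empty x)⟩
    · obtain ⟨x0, hx0, hmin⟩ := hK0.exists_isMinOn h
        ((hω'c.sub hρC.cont.continuousOn).mono (hK0G.trans hG2D))
      have h1 := ((hG2m x0).1 (hK0G hx0)).2
      have h2 := le_max_left (ρ x0) (M - m - 1)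
      refine ⟨ω' x0 - ρ x0, by linarith, ?_⟩
      filter_upwards [hω'e] with x g1 hx
      have h3 : ω' x0 - ρ x0 ≤ ω' x - ρ x := hmin hx
      rw [← g1 (hG2D (hK0G hx))]
      linarith
  have hin : ∀ x ∈ G2, ω' x - M ≤ u x := by
    refine hu G2 hG2o hclc (hclD.trans hDΩ) (fun x => ω' x - M) W
      ((hω'c.mono hclD).sub continuousOn_const) hLH hharm ?_
    intro x hx
    rw [frontier, hG2o.interior_eq] at hx
    exact hoff x (hclD hx.1) hx.2
  have hall : ∀ x ∈ D, ω' x - M ≤ u x := by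
    intro x hx
    by_cases hx2 : x ∈ G2
    · exact hin x hx2
    · exact hoff x hx hx2
  refine ⟨fun x => ω' x - M, W, ?_, (hω'c.mono hGD).sub continuousOn_const, ?_⟩
  · have h1 := Sup.sub_const hp (Sup.mono_set hp (hobs.sup hp) hGo hGD) M
    refine ⟨h1.1.congr ?_ (Filter.Eventually.of_forall fun x _ => rfl), h1.2⟩
    filter_upwards [hω'e] with x g1 hx
    rw [g1 (hGD hx)]
  · intro x hx
    refine ⟨?_, hall x (hGD hx)⟩
    have h1 := hρω x (hGD hx)
    have h2 : ρ x = f x + M := by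
      show χ x * (f x + M) = f x + M
      rw [hχG x hx, one_mul]
    show f x ≤ ω' x - M
    linarith

end ApproxBelow


end

end Pool.Agent.Helper533.Polar
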