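import Mathlib
open MeasureTheory Filter Topology Set
open scoped ENNReal NNReal RealInnerProductSpace

/-!
Definitions for the statement of MP_fb6cbc_an (weighted nonlinear potential theory).
-/

namespace Pool.Agent.Helper533.Polar.Stmt

/-- `ℝⁿ` -/
abbrev Sp (n : ℕ) := EuclideanSpace ℝ (Fin n)

variable {n : ℕ}

/-- The measure `dμ = w dx`. -/
noncomputable def wm (w : Sp n → ℝ) : Measure (Sp n) :=
  volume.withDensity (fun x => ENNReal.ofReal (w x))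

/-- `φ ∈ C₀^∞(D)`. -/
structure IsTest (D : Set (Sp n)) (φ : Sp n → ℝ) : Prop where
  smooth : ContDiff ℝ (⊤ : ℕ∞) φ
  compact : HasCompactSupport φ
  support : tsupport φ ⊆ D

/-- `u ∈ H^{1,p}(D; μ)` with (weak) gradient `U`: the pair `(u, U)` is a limit in `L^p(D; μ)` of
pairs `(φ, ∇φ)` with `φ ∈ C^∞(D)`. -/
structure IsH1 (p : ℝ) (μ : Measure (Sp n)) (D : Set (Sp n)) (u : Sp n → ℝ) (U : Sp n → Sp n) :
    Prop where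
  memLp_fun : MemLp u (ENNReal.ofReal p) (μ.restrict D)
  memLp_grad : MemLp U (ENNReal.ofReal p) (μ.restrict D)
  approx : ∀ ε : ℝ≥0∞, ε ≠ 0 → ∃ φ : Sp n → ℝ, ContDiffOn ℝ (⊤ : ℕ∞) φ D ∧
    eLpNorm (fun x => u x - φ x) (ENNReal.ofReal p) (μ.restrict D) ≤ ε ∧
    eLpNorm (fun x => U x - gradient φ x) (ENNReal.ofReal p) (μ.restrict D) ≤ ε

/-- `u ∈ H^{1,p}_loc(Ω; μ)` with gradient `U`: `u ∈ H^{1,p}(D; μ)` for every open `D ⋐ Ω`. -/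
def IsH1Loc (p : ℝ) (μ : Measure (Sp n)) (Ω : Set (Sp n)) (u : Sp n → ℝ) (U : Sp n → Sp n) : Prop :=
  ∀ D : Set (Sp n), IsOpen D → IsCompact (closure D) → closure D ⊆ Ω → IsH1 p μ D u U

/-- `w` is a `p`-admissible weight, `dμ = w dx`. In the Poincaré inequality a dilated ball is
allowed on the right-hand side (with `lam = 1` this is the undilated inequality). -/
structure IsAdmissible (p : ℝ) (w : Sp n → ℝ) : Prop where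
  locallyIntegrable : LocallyIntegrable w volume
  pos : ∀ᵐ x ∂(volume : Measure (Sp n)), 0 < w x
  doubling : ∃ C : ℝ, ∀ (x : Sp n) (r : ℝ), 0 < r →
    wm w (Metric.ball x (2 * r)) ≤ ENNReal.ofReal C * wm w (Metric.ball x r)
  unique_gradient : ∀ D : Set (Sp n), IsOpen D → ∀ (φ : ℕ → Sp n → ℝ) (V : Sp n → Sp n),
    (∀ j, ContDiffOn ℝ (⊤ : ℕ∞) (φ j) D) → MemLp V (ENNReal.ofReal p) ((wm w).restrict D) →
    Tendsto (fun j => eLpNorm (φ j) (ENNReal.ofReal p) ((wm w).restrict D)) atTop (𝓝 0) →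
    Tendsto (fun j => eLpNorm (fun x => gradient (φ j) x - V x) (ENNReal.ofReal p)
      ((wm w).restrict D)) atTop (𝓝 0) →
    V =ᵐ[(wm w).restrict D] 0
  sobolev : ∃ χ C : ℝ, 1 < χ ∧ ∀ (x : Sp n) (r : ℝ), 0 < r → ∀ φ : Sp n → ℝ,
    IsTest (Metric.ball x r) φ →
    (⨍ y in Metric.ball x r, |φ y| ^ (χ * p) ∂(wm w)) ^ (1 / (χ * p)) ≤
      C * r * (⨍ y in Metric.ball x r, ‖gradient φ y‖ ^ p ∂(wm w)) ^ (1 / p)
  poincare : ∃ lam C : ℝ, 1 ≤ lam ∧ ∀ (x : Sp n) (r : ℝ), 0 < r → ∀ φ : Sp n → ℝ,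
    ContDiffOn ℝ (⊤ : ℕ∞) φ (Metric.ball x (lam * r)) →
    (∃ M : ℝ, ∀ y ∈ Metric.ball x (lam * r), |φ y| ≤ M) →
    IntegrableOn (fun y => ‖gradient φ y‖ ^ p) (Metric.ball x (lam * r)) (wm w) →
    ⨍ y in Metric.ball x r, |φ y - ⨍ z in Metric.ball x r, φ z ∂(wm w)| ∂(wm w) ≤
      C * r * (⨍ y in Metric.ball x (lam * r), ‖gradient φ y‖ ^ p ∂(wm w)) ^ (1 / p)

/-- The structure conditions on `𝒜` with respect to the weight `w`. -/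
structure IsOperator (p α β : ℝ) (w : Sp n → ℝ) (𝒜 : Sp n → Sp n → Sp n) : Prop where
  alpha_pos : 0 < α
  alpha_le_beta : α ≤ β
  measurable : ∀ ξ, AEMeasurable (fun x => 𝒜 x ξ) volume
  continuous : ∀ᵐ x ∂(volume : Measure (Sp n)), Continuous (𝒜 x)
  coercive : ∀ᵐ x ∂(volume : Measure (Sp n)), ∀ ξ, α * w x * ‖ξ‖ ^ p ≤ ⟪𝒜 x ξ, ξ⟫
  bounded : ∀ᵐ x ∂(volume : Measure (Sp n)), ∀ ξ, ‖𝒜 x ξ‖ ≤ β * w x * ‖ξ‖ ^ (p - 1)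
  monotone : ∀ᵐ x ∂(volume : Measure (Sp n)), ∀ ξ₁ ξ₂, ξ₁ ≠ ξ₂ →
    0 < ⟪𝒜 x ξ₁ - 𝒜 x ξ₂, ξ₁ - ξ₂⟫
  homogeneous : ∀ᵐ x ∂(volume : Measure (Sp n)), ∀ (t : ℝ) (ξ : Sp n), t ≠ 0 →
    𝒜 x (t • ξ) = (t * |t| ^ (p - 2)) • 𝒜 x ξ

/-- `h` is `𝒜`-harmonic in `D`: a continuous weak solution of `-div 𝒜(x, ∇h) = 0`,
`h ∈ H^{1,p}_loc(D; μ)`. -/
def IsHarmonic (𝒜 : Sp n → Sp n → Sp n) (p : ℝ) (w : Sp n → ℝ) (D : Set (Sp n))
    (h : Sp n → ℝ) : Prop :=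
  ContinuousOn h D ∧ ∃ H : Sp n → Sp n, IsH1Loc p (wm w) D h H ∧
    ∀ φ : Sp n → ℝ, IsTest D φ → ∫ x, ⟪𝒜 x (H x), gradient φ x⟫ = 0

/-- `u` is (real valued and) `𝒜`-superharmonic in `Ω`. -/
structure IsSuperharmonic (𝒜 : Sp n → Sp n → Sp n) (p : ℝ) (w : Sp n → ℝ) (Ω : Set (Sp n))
    (u : Sp n → ℝ) : Prop where
  lsc : LowerSemicontinuousOn u Ω
  comparison : ∀ D : Set (Sp n), IsOpen D → IsCompact (closure D) → closure D ⊆ Ω →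
    ∀ h : Sp n → ℝ, ContinuousOn h (closure D) → IsHarmonic 𝒜 p w D h →
    (∀ x ∈ frontier D, h x ≤ u x) → ∀ x ∈ D, h x ≤ u x

/-- `v` is (real valued and) `𝒜`-subharmonic in `Ω`. -/
structure IsSubharmonic (𝒜 : Sp n → Sp n → Sp n) (p : ℝ) (w : Sp n → ℝ) (Ω : Set (Sp n))
    (v : Sp n → ℝ) : Prop where
  usc : UpperSemicontinuousOn v Ω
  comparison : ∀ D : Set (Sp n), IsOpen D → IsCompact (closure D) → closure D ⊆ Ω →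
    ∀ h : Sp n → ℝ, ContinuousOn h (closure D) → IsHarmonic 𝒜 p w D h →
    (∀ x ∈ frontier D, v x ≤ h x) → ∀ x ∈ D, v x ≤ h x

/-- The Sobolev `(p, μ)`-capacity. -/
noncomputable def cap (p : ℝ) (μ : Measure (Sp n)) (E : Set (Sp n)) : ℝ≥0∞ :=
  ⨅ (φ : Sp n → ℝ) (Φ : Sp n → Sp n) (_ : IsH1 p μ univ φ Φ)
    (_ : ∃ O : Set (Sp n), IsOpen O ∧ E ⊆ O ∧ ∀ᵐ x ∂(μ.restrict O), φ x = 1),
    ∫⁻ x, (‖φ x‖ₑ ^ p + ‖Φ x‖ₑ ^ p) ∂μ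

end Pool.Agent.Helper533.Polar.Stmt
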