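import Pool.Agent.Helper533.Polar.Main
import Pool.Agent.Helper533.Polar.Stmt
open MeasureTheory Filter Topology Set
open scoped ENNReal NNReal RealInnerProductSpace

namespace Pool.Agent.Helper533.Polar

section


/-! ### TARGETS -/
section V1
variable {n : ℕ} {p : ℝ} {μ : Measure (Sp n)} {G D : Set (Sp n)} {u φ : Sp n → ℝ} {U : Sp n → Sp n}

theorem isTest_iff : Stmt.IsTest D φ ↔ Cc D φ :=
  ⟨fun h => ⟨h.smooth, h.compact, h.support⟩, fun h => ⟨h.smooth, h.comp, h.supp⟩⟩

theorem LH.toH1Loc [IsFiniteMeasureOnCompacts μ] (hp : 1 < p) (hG : IsOpen G) (h : LH p μ G u U) :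
    Stmt.IsH1Loc p μ G u U := by
  intro D hD hDc hDG
  obtain ⟨η, hη, -, W, hW, hDW, -, hW1⟩ := exists_cutoff hDc hG hDG
  have h1 := h η hη
  have e1 : ∀ x ∈ D, η x = 1 := fun x hx => hW1 x (hDW (subset_closure hx))
  have e2 : ∀ x ∈ D, gradient η x = 0 := fun x hx =>
    grad_zero_of_const_on hW hW1 (hDW (subset_closure hx))
  have hDm : MeasurableSet D := hD.measurableSet
  have c1 : (fun x => η x * u x) =ᵐ[μ.restrict D] u := by
    apply (ae_restrict_iff' hDm).2
    exact ae_of_all _ fun x hx => by simp only [e1 x hx, one_mul]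
  have c2 : (fun x => η x • U x + u x • gradient η x) =ᵐ[μ.restrict D] U := by
    apply (ae_restrict_iff' hDm).2
    exact ae_of_all _ fun x hx => by simp only [e1 x hx, e2 x hx, one_smul, smul_zero, add_zero]
  refine ⟨(h1.mu.restrict D).ae_eq c1, (h1.mU.restrict D).ae_eq c2, ?_⟩
  intro ε hε
  obtain ⟨φ, hφ, a1, a2⟩ := h1.app ε hε
  refine ⟨φ, hφ.smooth.contDiffOn, ?_, ?_⟩
  · have : eLpNorm (fun x => u x - φ x) (ENNReal.ofReal p) (μ.restrict D) =
        eLpNorm (fun x => η x * u x - φ x) (ENNReal.ofReal p) (μ.restrict D) := by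
      apply eLpNorm_congr_ae
      filter_upwards [c1] with x hx
      rw [hx]
    rw [this]
    exact (eLpNorm_mono_measure _ Measure.restrict_le_self).trans a1
  · have : eLpNorm (fun x => U x - gradient φ x) (ENNReal.ofReal p) (μ.restrict D) =
        eLpNorm (fun x => (η x • U x + u x • gradient η x) - gradient φ x)
          (ENNReal.ofReal p) (μ.restrict D) := by
      apply eLpNorm_congr_ae
      filter_upwards [c2] with x hx
      rw [hx]
    rw [this]
    exact (eLpNorm_mono_measure _ Measure.restrict_le_self).trans a2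

theorem Cc.bdd {η : Sp n → ℝ} (hη : Cc univ η) : ∃ C : ℝ, 0 ≤ C ∧ (∀ x, ‖η x‖ ≤ C) ∧
    ∀ x, ‖gradient η x‖ ≤ C := by
  obtain ⟨C1, h1⟩ := hη.comp.exists_bound_of_continuous hη.cont
  obtain ⟨C2, h2⟩ := hη.comp_grad.exists_bound_of_continuous hη.cont_grad
  refine ⟨max (max C1 C2) 0, le_max_right _ _, fun x => (h1 x).trans ?_, fun x => (h2 x).trans ?_⟩
  · exact (le_max_left _ _).trans (le_max_left _ _)
  · exact (le_max_right _ _).trans (le_max_left _ _)

/-- multiply by a cutoff: `H^{1,p}(ℝⁿ)` functions become `H0` -/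
theorem H0.of_isH1_mul [IsFiniteMeasureOnCompacts μ] (hp : 1 < p) (h : Stmt.IsH1 p μ univ u U)
    {η : Sp n → ℝ} (hη : Cc univ η) :
    H0 p μ univ (fun x => η x * u x) (fun x => η x • U x + u x • gradient η x) := by
  obtain ⟨C, hC0, hC1, hC2⟩ := Cc.bdd hη
  have hu : MemLp u (ENNReal.ofReal p) μ := by simpa using h.memLp_fun
  have hU : MemLp U (ENNReal.ofReal p) μ := by simpa using h.memLp_grad
  have hηm : AEStronglyMeasurable η μ := hη.cont.aestronglyMeasurable
  have hgm : AEStronglyMeasurable (gradient η) μ := hη.cont_grad.aestronglyMeasurable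
  have hp1 : 1 ≤ ENNReal.ofReal p := by
    rw [← ENNReal.ofReal_one]; exact ENNReal.ofReal_le_ofReal hp.le
  refine ⟨?_, ?_, ?_⟩
  · refine MemLp.of_le_mul (c := C) hu (hηm.mul hu.1) (ae_of_all _ fun x => ?_)
    rw [norm_mul]
    exact mul_le_mul_of_nonneg_right (hC1 x) (norm_nonneg _)
  · refine MemLp.add ?_ ?_
    · refine MemLp.of_le_mul (c := C) hU (hηm.smul hU.1) (ae_of_all _ fun x => ?_)
      rw [norm_smul]
      exact mul_le_mul_of_nonneg_right (hC1 x) (norm_nonneg _)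
    · refine MemLp.of_le_mul (c := C) hu (hu.1.smul hgm) (ae_of_all _ fun x => ?_)
      rw [norm_smul, mul_comm]
      exact mul_le_mul_of_nonneg_right (hC2 x) (norm_nonneg _)
  · intro ε hε
    -- choose the accuracy
    obtain ⟨δ, hδ0, hδ⟩ : ∃ δ : ℝ≥0∞, δ ≠ 0 ∧ ENNReal.ofReal C * δ + ENNReal.ofReal C * δ ≤ ε := by
      have ht : Tendsto (fun j : ℕ => ENNReal.ofReal C * ((j : ℝ≥0∞) + 1)⁻¹ +
          ENNReal.ofReal C * ((j : ℝ≥0∞) + 1)⁻¹) atTop (𝓝 0) := by
        have h0 : Tendsto (fun j : ℕ => ((j : ℝ≥0∞) + 1)⁻¹) atTop (𝓝 0) := by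
          have := (tendsto_add_atTop_iff_nat (f := fun j : ℕ => ((j : ℝ≥0∞))⁻¹) 1).2
            ENNReal.tendsto_inv_nat_nhds_zero
          simpa using this
        have h1 : Tendsto (fun j : ℕ => ENNReal.ofReal C * ((j : ℝ≥0∞) + 1)⁻¹) atTop (𝓝 0) := by
          have := ENNReal.Tendsto.const_mul (a := ENNReal.ofReal C) h0 (Or.inr ENNReal.ofReal_ne_top)
          simpa using this
        simpa using h1.add h1
      obtain ⟨j, hj, -⟩ := exists_le_of_tendsto ht ht hε
      exact ⟨_, by simp, hj⟩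
    obtain ⟨φ, hφ, a1, a2⟩ := h.approx δ hδ0
    rw [Measure.restrict_univ] at a1 a2
    have hφs : ContDiff ℝ (⊤ : ℕ∞) φ := contDiffOn_univ.1 hφ
    have hφm : AEStronglyMeasurable φ μ := hφs.continuous.aestronglyMeasurable
    have hφd : ∀ x, DifferentiableAt ℝ φ x := fun x =>
      (hφs.differentiable (by simp)).differentiableAt
    have hφgc : Continuous (gradient φ) := by
      have h1 : Continuous (fun x => fderiv ℝ φ x) := hφs.continuous_fderiv (by simp)
      exact (InnerProductSpace.toDual ℝ (Sp n)).symm.continuous.comp h1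
    have hφgm : AEStronglyMeasurable (gradient φ) μ := hφgc.aestronglyMeasurable
    refine ⟨fun x => η x * φ x, hη.mul_smooth hφs, ?_, ?_⟩
    · have : eLpNorm (fun x => η x * u x - η x * φ x) (ENNReal.ofReal p) μ ≤
          ENNReal.ofReal C * eLpNorm (fun x => u x - φ x) (ENNReal.ofReal p) μ := by
        apply eLpNorm_le_mul_eLpNorm_of_ae_le_mul
        refine ae_of_all _ fun x => ?_
        rw [← mul_sub, norm_mul]
        exact mul_le_mul_of_nonneg_right (hC1 x) (norm_nonneg _)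
      refine this.trans (le_trans ?_ hδ)
      exact (mul_le_mul_right a1 _).trans le_self_add
    · have e1 : (fun x => η x • U x + u x • gradient η x - gradient (fun x => η x * φ x) x) =
          (fun x => η x • (U x - gradient φ x)) + (fun x => (u x - φ x) • gradient η x) := by
        funext x
        rw [grad_mul (hη.diff x) (hφd x), Pi.add_apply]
        simp only [smul_sub, sub_smul]
        abel
      rw [e1]
      refine (eLpNorm_add_le ?_ ?_ hp1).trans (le_trans (add_le_add ?_ ?_) hδ)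
      · exact hηm.smul (hU.1.sub hφgm)
      · exact (hu.1.sub hφm).smul hgm
      · have : eLpNorm (fun x => η x • (U x - gradient φ x)) (ENNReal.ofReal p) μ ≤
            ENNReal.ofReal C * eLpNorm (fun x => U x - gradient φ x) (ENNReal.ofReal p) μ := by
          apply eLpNorm_le_mul_eLpNorm_of_ae_le_mul
          refine ae_of_all _ fun x => ?_
          rw [norm_smul]
          exact mul_le_mul_of_nonneg_right (hC1 x) (norm_nonneg _)
        exact this.trans (mul_le_mul_right a2 _)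
      · have : eLpNorm (fun x => (u x - φ x) • gradient η x) (ENNReal.ofReal p) μ ≤
            ENNReal.ofReal C * eLpNorm (fun x => u x - φ x) (ENNReal.ofReal p) μ := by
          apply eLpNorm_le_mul_eLpNorm_of_ae_le_mul
          refine ae_of_all _ fun x => ?_
          rw [norm_smul, mul_comm]
          exact mul_le_mul_of_nonneg_right (hC2 x) (norm_nonneg _)
        exact this.trans (mul_le_mul_right a1 _)

/-- zero capacity gives good cutoff functions -/
theorem cap_cutoffs [IsFiniteMeasureOnCompacts μ] (hp : 1 < p) {x0 : Sp n}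
    (h : Stmt.cap p μ {x0} = 0) :
    ∀ e : ℝ, 0 < e → ∃ (φ : Sp n → ℝ) (Φ : Sp n → Sp n), H0 p μ univ φ Φ ∧
      (∀ᵐ x ∂μ, 0 ≤ φ x ∧ φ x ≤ 1) ∧ (∃ r > 0, ∀ᵐ x ∂μ, x ∈ Metric.ball x0 r → φ x = 1) ∧
      eLpNorm φ (ENNReal.ofReal p) μ ≤ ENNReal.ofReal e ∧
      eLpNorm Φ (ENNReal.ofReal p) μ ≤ ENNReal.ofReal e := by
  intro e he
  have hp0 : 0 < p := by linarith
  have hp1 : 1 ≤ ENNReal.ofReal p := by
    rw [← ENNReal.ofReal_one]; exact ENNReal.ofReal_le_ofReal hp.le
  obtain ⟨η, hη, hη01, W, hW, hKW, -, hW1⟩ :=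
    exists_cutoff (isCompact_closedBall x0 1) isOpen_univ (subset_univ _)
  obtain ⟨C, hC0, hC1, hC2⟩ := Cc.bdd hη
  set e' : ℝ := e / (1 + C) with he'
  have he'0 : 0 < e' := by positivity
  set δ : ℝ≥0∞ := (ENNReal.ofReal e') ^ p with hδ
  have hδ0 : 0 < δ := ENNReal.rpow_pos (ENNReal.ofReal_pos.2 he'0) ENNReal.ofReal_ne_top
  have hlt : Stmt.cap p μ {x0} < δ := by rw [h]; exact hδ0
  unfold Stmt.cap at hlt
  simp only [iInf_lt_iff] at hlt
  obtain ⟨φ, Φ, hφ, ⟨O, hO, hxO, hφ1⟩, hint⟩ := hlt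
  have hφm : MemLp φ (ENNReal.ofReal p) μ := by simpa using hφ.memLp_fun
  have hΦm : MemLp Φ (ENNReal.ofReal p) μ := by simpa using hφ.memLp_grad
  have hpne : ENNReal.ofReal p ≠ 0 := by
    rw [Ne, ENNReal.ofReal_eq_zero, not_le]; exact hp0
  have key : ∀ {F : Type} [NormedAddCommGroup F] (f : Sp n → F), (∫⁻ x, ‖f x‖ₑ ^ p ∂μ) ≤ δ →
      eLpNorm f (ENNReal.ofReal p) μ ≤ ENNReal.ofReal e' := by
    intro F _ f hf
    rw [eLpNorm_eq_lintegral_rpow_enorm_toReal hpne ENNReal.ofReal_ne_top,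
      ENNReal.toReal_ofReal hp0.le]
    calc (∫⁻ x, ‖f x‖ₑ ^ p ∂μ) ^ (1 / p) ≤ δ ^ (1 / p) :=
          ENNReal.rpow_le_rpow hf (by positivity)
      _ = ENNReal.ofReal e' := by
          rw [hδ, ← ENNReal.rpow_mul, mul_one_div_cancel hp0.ne', ENNReal.rpow_one]
  have b1 : eLpNorm φ (ENNReal.ofReal p) μ ≤ ENNReal.ofReal e' :=
    key φ ((lintegral_mono fun x => le_self_add).trans hint.le)
  have b2 : eLpNorm Φ (ENNReal.ofReal p) μ ≤ ENNReal.ofReal e' :=
    key Φ ((lintegral_mono fun x => le_add_self).trans hint.le)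
  have hg := H0.of_isH1_mul hp hφ hη
  set g : Sp n → ℝ := fun x => η x * φ x with hgdef
  set G' : Sp n → Sp n := fun x => η x • Φ x + φ x • gradient η x with hG'
  obtain ⟨β0, p1, p2, p3, p4, p5, p6, -⟩ := exists_profile 0 le_rfl
  obtain ⟨β1, q1, q2, q3, q4, q5, q6, -⟩ := exists_profile 1 zero_le_one
  have hh0 := H0.chain_lim (C := 1) hp p1 p2
    (fun k s => abs_le.2 ⟨by linarith [(p4 k s).1], (p4 k s).2⟩) p5 p6 hg
  have hh1 := H0.chain_lim (C := 1) hp q1 q2
    (fun k s => abs_le.2 ⟨by linarith [(q4 k s).1], (q4 k s).2⟩) q5 q6 hg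
  have hτ := H0.sub hp.le hh0 hh1
  have ee' : e' ≤ e := by
    rw [he', div_le_iff₀ (by positivity)]
    nlinarith
  refine ⟨_, _, hτ, ?_, ?_, ?_, ?_⟩
  · refine ae_of_all _ fun x => ?_
    rw [sub_zero]
    rcases le_total (g x) 0 with h1 | h1
    · rw [max_eq_right h1, max_eq_right (by linarith)]; norm_num
    · rcases le_total (g x) 1 with h2 | h2
      · rw [max_eq_left h1, max_eq_right (by linarith)]; exact ⟨by linarith, by linarith⟩
      · rw [max_eq_left h1, max_eq_left (by linarith)]; exact ⟨by linarith, by linarith⟩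
  · obtain ⟨r, hr, hrO⟩ := Metric.isOpen_iff.1 hO x0 (hxO rfl)
    refine ⟨min r 1, by positivity, ?_⟩
    have h3 := (ae_restrict_iff' hO.measurableSet).1 hφ1
    filter_upwards [h3] with x hx hxb
    have hx1 : x ∈ O := hrO (Metric.ball_subset_ball (min_le_left _ _) hxb)
    have hx2 : x ∈ W := hKW (Metric.ball_subset_closedBall
      (Metric.ball_subset_ball (min_le_right _ _) hxb))
    have hgx : g x = 1 := by
      rw [hgdef]
      simp only [hx hx1, hW1 x hx2, mul_one]
    rw [hgx]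
    norm_num
  · refine le_trans ?_ (b1.trans (ENNReal.ofReal_le_ofReal ee'))
    apply eLpNorm_mono
    intro x
    have hgx : ‖g x‖ ≤ ‖φ x‖ := by
      rw [hgdef]
      simp only [norm_mul]
      have : ‖η x‖ ≤ 1 := by
        rw [Real.norm_eq_abs, abs_of_nonneg (hη01 x).1]; exact (hη01 x).2
      calc ‖η x‖ * ‖φ x‖ ≤ 1 * ‖φ x‖ := mul_le_mul_of_nonneg_right this (norm_nonneg _)
        _ = ‖φ x‖ := one_mul _
    refine le_trans ?_ hgx
    rw [sub_zero, Real.norm_eq_abs, Real.norm_eq_abs]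
    rcases le_total (g x) 0 with h1 | h1
    · rw [max_eq_right h1, max_eq_right (by linarith)]; simp
    · rcases le_total (g x) 1 with h2 | h2
      · rw [max_eq_left h1, max_eq_right (by linarith), sub_zero]
      · rw [max_eq_left h1, max_eq_left (by linarith), sub_sub_cancel, abs_one,
          abs_of_nonneg h1]
        exact h2
  · have h4 : eLpNorm (fun x => (if 0 < g x then (1:ℝ) else 0) • G' x -
        (if 1 < g x then (1:ℝ) else 0) • G' x) (ENNReal.ofReal p) μ ≤
        eLpNorm ((fun x => ‖Φ x‖) + fun x => C * ‖φ x‖) (ENNReal.ofReal p) μ := by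
      apply eLpNorm_mono
      intro x
      have h5 : ‖G' x‖ ≤ ‖Φ x‖ + C * ‖φ x‖ := by
        rw [hG']
        refine (norm_add_le _ _).trans ?_
        rw [norm_smul, norm_smul]
        have : ‖η x‖ ≤ 1 := by
          rw [Real.norm_eq_abs, abs_of_nonneg (hη01 x).1]; exact (hη01 x).2
        have h6 : ‖η x‖ * ‖Φ x‖ ≤ 1 * ‖Φ x‖ := mul_le_mul_of_nonneg_right this (norm_nonneg _)
        have h7 : ‖φ x‖ * ‖gradient η x‖ ≤ ‖φ x‖ * C := mul_le_mul_of_nonneg_left (hC2 x) (norm_nonneg _)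
        linarith
      have h8 : 0 ≤ ‖Φ x‖ + C * ‖φ x‖ := by positivity
      have h9 : ‖((fun x => ‖Φ x‖) + fun x => C * ‖φ x‖) x‖ = ‖Φ x‖ + C * ‖φ x‖ := by
        rw [Pi.add_apply, Real.norm_eq_abs, abs_of_nonneg h8]
      rw [h9]
      refine le_trans ?_ h5
      rw [← sub_smul, norm_smul]
      have h10 : ‖(if 0 < g x then (1:ℝ) else 0) - (if 1 < g x then (1:ℝ) else 0)‖ ≤ 1 := by
        split_ifs <;> simp
      calc _ ≤ 1 * ‖G' x‖ := mul_le_mul_of_nonneg_right h10 (norm_nonneg _)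
        _ = ‖G' x‖ := one_mul _
    refine h4.trans ((eLpNorm_add_le hΦm.1.norm (hφm.1.norm.const_mul C) hp1).trans ?_)
    have h11 : eLpNorm (fun x => ‖Φ x‖) (ENNReal.ofReal p) μ ≤ ENNReal.ofReal e' := by
      rw [eLpNorm_norm]; exact b2
    have h12 : eLpNorm (fun x => C * ‖φ x‖) (ENNReal.ofReal p) μ ≤ ENNReal.ofReal (C * e') := by
      have : eLpNorm (fun x => C * ‖φ x‖) (ENNReal.ofReal p) μ ≤
          ENNReal.ofReal C * eLpNorm φ (ENNReal.ofReal p) μ := by
        apply eLpNorm_le_mul_eLpNorm_of_ae_le_mul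
        refine ae_of_all _ fun x => ?_
        rw [norm_mul, norm_norm, Real.norm_eq_abs, abs_of_nonneg hC0]
      refine this.trans ?_
      rw [ENNReal.ofReal_mul hC0]
      exact mul_le_mul_right b1 _
    refine (add_le_add h11 h12).trans ?_
    rw [← ENNReal.ofReal_add he'0.le (by positivity)]
    apply ENNReal.ofReal_le_ofReal
    have : e' + C * e' = e := by
      rw [he']; field_simp
    linarith

end V1


end

section


/-! ### TARGETS -/
section V2
variable {n : ℕ} {p α β : ℝ} {w : Sp n → ℝ} {𝒜 : Sp n → Sp n → Sp n}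

theorem wm_aem (hw : Stmt.IsAdmissible p w) :
    AEMeasurable (fun x => ENNReal.ofReal (w x)) (volume : Measure (Sp n)) :=
  hw.locallyIntegrable.aestronglyMeasurable.aemeasurable.ennreal_ofReal

/-- change of measure -/
theorem integral_wm (hw : Stmt.IsAdmissible p w) (f : Sp n → ℝ) :
    ∫ x, (w x)⁻¹ * f x ∂(Stmt.wm w) = ∫ x, f x := by
  unfold Stmt.wm
  rw [integral_withDensity_eq_integral_toReal_smul₀ (wm_aem hw)
    (Filter.Eventually.of_forall fun _ => ENNReal.ofReal_lt_top)]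
  refine integral_congr_ae ?_
  filter_upwards [hw.pos] with x hx
  rw [ENNReal.toReal_ofReal hx.le, smul_eq_mul, ← mul_assoc, mul_inv_cancel₀ hx.ne', one_mul]

/-- a.e. statements transfer -/
theorem ae_wm (hw : Stmt.IsAdmissible p w) {P : Sp n → Prop} (h : ∀ᵐ x ∂(volume : Measure (Sp n)), P x) :
    ∀ᵐ x ∂(Stmt.wm w), P x :=
  (withDensity_absolutelyContinuous _ _).ae_le h

theorem carath {μ : Measure (Sp n)} {A : Sp n → Sp n → Sp n}
    (hm : ∀ ξ, AEStronglyMeasurable (fun x => A x ξ) μ) (hc : ∀ᵐ x ∂μ, Continuous (A x))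
    {U : Sp n → Sp n} (hU : AEStronglyMeasurable U μ) :
    AEStronglyMeasurable (fun x => A x (U x)) μ := by
  classical
  have hs := hU.stronglyMeasurable_mk
  refine aestronglyMeasurable_of_tendsto_ae atTop
    (f := fun k x => A x (hs.approx k x)) (fun k => ?_) ?_
  · have e : (fun x => A x (hs.approx k x)) =
        fun x => ∑ c ∈ (hs.approx k).range,
          ((hs.approx k) ⁻¹' {c}).indicator (fun x => A x c) x := by
      funext x
      rw [Finset.sum_eq_single (hs.approx k x)]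
      · rw [Set.indicator_of_mem]
        rfl
      · intro c _ hc'
        rw [Set.indicator_of_notMem]
        intro h
        exact hc' h.symm
      · intro h
        exact absurd (SimpleFunc.mem_range_self _ x) h
    rw [e]
    refine Finset.aestronglyMeasurable_fun_sum _ (fun c _ => ?_)
    exact (hm c).indicator ((hs.approx k).measurableSet_fiber c)
  · filter_upwards [hc, hU.ae_eq_mk] with x hx hx'
    rw [hx']
    exact (hx.tendsto _).comp (hs.tendsto_approx x)

/-- Carathéodory functions are superpositionally measurable; the normalised operator satisfies `Op` -/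
theorem op_of_isOperator (hp : 1 < p) (hw : Stmt.IsAdmissible p w)
    (h : Stmt.IsOperator p α β w 𝒜) :
    Op p α β (Stmt.wm w) (fun x ξ => (w x)⁻¹ • 𝒜 x ξ) where
  meas := by
    intro U hU
    have h1 : Stmt.wm w ≪ (volume : Measure (Sp n)) := withDensity_absolutelyContinuous _ _
    have h2 : (volume : Measure (Sp n)) ≪ Stmt.wm w := by
      refine withDensity_absolutelyContinuous' (wm_aem hw) ?_
      filter_upwards [hw.pos] with x hx
      rw [ENNReal.ofReal_ne_zero_iff]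
      exact hx
    have hU' : AEStronglyMeasurable U (volume : Measure (Sp n)) := hU.mono_ac h2
    have h3 := carath (fun ξ => (h.measurable ξ).aestronglyMeasurable) h.continuous hU'
    have h4 : AEStronglyMeasurable (fun x => (w x)⁻¹) (volume : Measure (Sp n)) :=
      hw.locallyIntegrable.aestronglyMeasurable.aemeasurable.inv.aestronglyMeasurable
    exact (h4.smul h3).mono_ac h1
  cont := by
    filter_upwards [ae_wm hw h.continuous] with x hx
    exact Continuous.const_smul hx (w x)⁻¹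
  coer := by
    filter_upwards [ae_wm hw h.coercive, ae_wm hw hw.pos] with x hx hx'
    intro ξ
    rw [real_inner_smul_left]
    have := mul_le_mul_of_nonneg_left (hx ξ) (inv_pos.2 hx').le
    have e : (w x)⁻¹ * (α * w x * ‖ξ‖ ^ p) = α * ‖ξ‖ ^ p := by
      field_simp
    rw [e] at this
    exact this
  bdd := by
    filter_upwards [ae_wm hw h.bounded, ae_wm hw hw.pos] with x hx hx'
    intro ξ
    rw [norm_smul, Real.norm_eq_abs, abs_of_pos (inv_pos.2 hx')]
    have := mul_le_mul_of_nonneg_left (hx ξ) (inv_pos.2 hx').le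
    have e : (w x)⁻¹ * (β * w x * ‖ξ‖ ^ (p - 1)) = β * ‖ξ‖ ^ (p - 1) := by
      field_simp
    rw [e] at this
    exact this
  mono := by
    filter_upwards [ae_wm hw h.monotone, ae_wm hw hw.pos] with x hx hx'
    intro ξ ζ
    rw [← smul_sub, real_inner_smul_left]
    refine mul_nonneg (inv_pos.2 hx').le ?_
    rcases eq_or_ne ξ ζ with h0 | h0
    · rw [h0, sub_self, sub_self, inner_zero_left]
    · exact (hx ξ ζ h0).le
  hom := by
    filter_upwards [ae_wm hw h.homogeneous] with x hx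
    intro t ξ ht
    rw [hx t ξ ht, smul_comm]

end V2


end

section


/-! ### definition used below -/
/-! ### TARGETS -/
section V3
variable {n : ℕ} {p : ℝ} {w : Sp n → ℝ}

theorem wm_basic (hp : 1 < p) (hw : Stmt.IsAdmissible p w) :
    ∃ Cd : ℝ, 1 ≤ Cd ∧ (∀ (x : Sp n) (r : ℝ), 0 < r → 0 < (Stmt.wm w) (Metric.ball x r)) ∧
      (∀ (x : Sp n) (r : ℝ), (Stmt.wm w) (Metric.ball x r) < ∞) ∧
      (∀ (x : Sp n) (r : ℝ), 0 < r →
        (Stmt.wm w).real (Metric.ball x (2 * r)) ≤ Cd * (Stmt.wm w).real (Metric.ball x r)) ∧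
      IsFiniteMeasureOnCompacts (Stmt.wm w) := by
  obtain ⟨C, hC⟩ := hw.doubling
  have hfin : ∀ (x : Sp n) (r : ℝ), (Stmt.wm w) (Metric.ball x r) < ∞ := by
    intro x r
    have hI : IntegrableOn w (Metric.ball x r) volume :=
      (hw.locallyIntegrable.integrableOn_isCompact (isCompact_closedBall x r)).mono_set
        Metric.ball_subset_closedBall
    rw [Stmt.wm, withDensity_apply _ Metric.isOpen_ball.measurableSet]
    exact lt_of_le_of_lt (lintegral_ofReal_le_lintegral_enorm _) hI.2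
  refine ⟨max C 1, le_max_right _ _, ?_, hfin, ?_, ?_⟩
  · intro x r hr
    have hac : (volume : Measure (Sp n)) ≪ Stmt.wm w := by
      refine withDensity_absolutelyContinuous' ?_ ?_
      · exact hw.locallyIntegrable.aestronglyMeasurable.aemeasurable.ennreal_ofReal
      · filter_upwards [hw.pos] with y hy
        exact (ENNReal.ofReal_pos.2 hy).ne'
    rw [pos_iff_ne_zero]
    intro h0
    exact (Metric.measure_ball_pos volume x hr).ne' (hac h0)
  · intro x r hr
    have h1 := hC x r hr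
    have h2 := ENNReal.toReal_mono (ENNReal.mul_ne_top ENNReal.ofReal_ne_top (hfin x r).ne) h1
    rw [ENNReal.toReal_mul, ENNReal.toReal_ofReal'] at h2
    refine h2.trans (mul_le_mul_of_nonneg_right ?_ ENNReal.toReal_nonneg)
    exact max_le (le_max_left _ _) (zero_le_one.trans (le_max_right _ _))
  · refine ⟨fun K hK => ?_⟩
    obtain ⟨R, hR⟩ := hK.isBounded.subset_ball (0 : Sp n)
    exact lt_of_le_of_lt (measure_mono hR) (hfin 0 R)

theorem wm_sobolev (hp : 1 < p) (hw : Stmt.IsAdmissible p w) :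
    ∃ θ Cs : ℝ, 0 < θ ∧ 0 < Cs ∧ ∀ (x : Sp n) (r : ℝ), 0 < r → ∀ (f : Sp n → ℝ) (F : Sp n → Sp n),
      H0 p (Stmt.wm w) (Metric.ball x r) f F →
      ∫ y, |f y| ^ p ∂(Stmt.wm w) ≤ Cs * r ^ p *
        ((Stmt.wm w).real {y | f y ≠ 0} / (Stmt.wm w).real (Metric.ball x r)) ^ θ *
          ∫ y, ‖F y‖ ^ p ∂(Stmt.wm w) := by
  obtain ⟨Cd, -, hpos, hfin, -, hfc⟩ := wm_basic hp hw
  obtain ⟨χ, C, hχ, hsob⟩ := hw.sobolev
  generalize hμ : Stmt.wm w = μ at *
  have hp0 : 0 < p := by linarith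
  have hχ0 : 0 < χ := by linarith
  have hC'0 : 0 < max |C| 1 := lt_of_lt_of_le one_pos (le_max_right _ _)
  refine ⟨1 - 1 / χ, (max |C| 1) ^ p, ?_, by positivity, ?_⟩
  · have : 1 / χ < 1 := by rw [div_lt_one hχ0]; exact hχ
    linarith
  intro x r hr f F hf
  set m := μ.real (Metric.ball x r) with hm
  have hm0 : 0 < m := ENNReal.toReal_pos (hpos x r hr).ne' (hfin x r).ne
  set q := χ * p with hq
  have hq0 : 0 < q := by positivity
  set C' := max |C| 1 with hC'
  -- each test function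
  have htest : ∀ φ : Sp n → ℝ, Cc (Metric.ball x r) φ → eLpNorm φ (ENNReal.ofReal q) μ ≤
      ENNReal.ofReal (m ^ (1 / q - 1 / p) * (C' * r)) *
        eLpNorm (gradient φ) (ENNReal.ofReal p) μ := by
    intro φ hφ
    have h1 := hsob x r hr φ ⟨hφ.smooth, hφ.comp, hφ.supp⟩
    have hB : ∀ (g : Sp n → ℝ), (∀ y, y ∉ Metric.ball x r → g y = 0) →
        ∫ y in Metric.ball x r, g y ∂μ = ∫ y, g y ∂μ :=
      fun g hg => setIntegral_eq_integral_of_forall_compl_eq_zero hg
    rw [setAverage_eq, setAverage_eq, hB _ (fun y hy => by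
        rw [zero_of_notMem (fun h => hy (hφ.supp h)), abs_zero, Real.zero_rpow hq0.ne']),
      hB _ (fun y hy => by
        rw [grad_zero_of_notMem (fun h => hy (hφ.supp h)), norm_zero, Real.zero_rpow hp0.ne']),
      smul_eq_mul, smul_eq_mul] at h1
    have hI0 : 0 ≤ ∫ y, |φ y| ^ q ∂μ := integral_nonneg fun y => by positivity
    have hJ0 : 0 ≤ ∫ y, ‖gradient φ y‖ ^ p ∂μ := integral_nonneg fun y => by positivity
    rw [(hφ.memLp (ENNReal.ofReal q)).eLpNorm_eq_integral_rpow_norm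
        (by simpa using hq0) ENNReal.ofReal_ne_top,
      (hφ.memLp_grad (ENNReal.ofReal p)).eLpNorm_eq_integral_rpow_norm
        (by simpa using hp0) ENNReal.ofReal_ne_top,
      ENNReal.toReal_ofReal hq0.le, ENNReal.toReal_ofReal hp0.le,
      ← ENNReal.ofReal_mul (by positivity)]
    apply ENNReal.ofReal_le_ofReal
    simp only [Real.norm_eq_abs]
    generalize (∫ y, |φ y| ^ q ∂μ) = I at *
    generalize (∫ y, ‖gradient φ y‖ ^ p ∂μ) = J at *
    rw [Real.mul_rpow (inv_nonneg.2 hm0.le) hI0, Real.mul_rpow (inv_nonneg.2 hm0.le) hJ0,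
      Real.inv_rpow hm0.le, Real.inv_rpow hm0.le, one_div, one_div] at h1
    have hmq : 0 < m ^ q⁻¹ := Real.rpow_pos_of_pos hm0 _
    have hmp : 0 < m ^ p⁻¹ := Real.rpow_pos_of_pos hm0 _
    have h2 : I ^ q⁻¹ ≤ m ^ q⁻¹ * (C * r * ((m ^ p⁻¹)⁻¹ * J ^ p⁻¹)) := by
      rwa [← div_le_iff₀' hmq, div_eq_inv_mul]
    have h3 : m ^ (1 / q - 1 / p) = m ^ q⁻¹ * (m ^ p⁻¹)⁻¹ := by
      rw [Real.rpow_sub hm0, one_div, one_div, div_eq_mul_inv]
    have hJp : 0 ≤ J ^ p⁻¹ := Real.rpow_nonneg hJ0 _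
    rw [h3]
    refine h2.trans ?_
    have h4 : C ≤ C' := (le_abs_self C).trans (le_max_left _ _)
    have h5 : m ^ q⁻¹ * (C * r * ((m ^ p⁻¹)⁻¹ * J ^ p⁻¹)) =
        C * (m ^ q⁻¹ * r * (m ^ p⁻¹)⁻¹ * J ^ p⁻¹) := by ring
    have h6 : m ^ q⁻¹ * (m ^ p⁻¹)⁻¹ * (C' * r) * J ^ p⁻¹ =
        C' * (m ^ q⁻¹ * r * (m ^ p⁻¹)⁻¹ * J ^ p⁻¹) := by ring
    rw [h5, h6]
    exact mul_le_mul_of_nonneg_right h4 (by positivity)
  obtain ⟨φ, hφ, -, hgr, hae, -⟩ := hf.seq hp.le
  have hpe : 1 ≤ ENNReal.ofReal p := by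
    rw [← ENNReal.ofReal_one]; exact ENNReal.ofReal_le_ofReal hp.le
  have hlim : eLpNorm f (ENNReal.ofReal q) μ ≤ ENNReal.ofReal (m ^ (1 / q - 1 / p) * (C' * r)) *
      eLpNorm F (ENNReal.ofReal p) μ := by
    have h1 : eLpNorm f (ENNReal.ofReal q) μ ≤
        atTop.liminf fun j => eLpNorm (φ j) (ENNReal.ofReal q) μ :=
      Lp.eLpNorm_lim_le_liminf_eLpNorm (fun j => ((hφ j).memLp (ENNReal.ofReal q)).1) f hae
    refine h1.trans ?_
    have h2 : Tendsto (fun j => ENNReal.ofReal (m ^ (1 / q - 1 / p) * (C' * r)) *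
        (eLpNorm F (ENNReal.ofReal p) μ +
          eLpNorm (fun x => F x - gradient (φ j) x) (ENNReal.ofReal p) μ)) atTop
        (𝓝 (ENNReal.ofReal (m ^ (1 / q - 1 / p) * (C' * r)) *
          (eLpNorm F (ENNReal.ofReal p) μ + 0))) :=
      ENNReal.Tendsto.const_mul (tendsto_const_nhds.add hgr) (Or.inr ENNReal.ofReal_ne_top)
    rw [add_zero] at h2
    rw [← h2.liminf_eq]
    refine liminf_le_liminf (Eventually.of_forall fun j => ?_)
    refine (htest (φ j) (hφ j)).trans (mul_le_mul_right ?_ _)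
    have h3 : gradient (φ j) = fun x => F x - (F x - gradient (φ j) x) := by
      funext y; simp
    have h4 : AEStronglyMeasurable (fun x => F x - gradient (φ j) x) μ :=
      hf.mU.1.sub ((hφ j).memLp_grad (ENNReal.ofReal p)).1
    conv_lhs => rw [h3]
    exact eLpNorm_sub_le hf.mU.1 h4 hpe
  -- Hölder
  set Sf := {y | f y ≠ 0} with hSf
  have hSfin : μ Sf ≠ ∞ := by
    have h1 : μ Sf ≤ μ (Metric.ball x r) := by
      refine measure_mono_ae ?_
      filter_upwards [hf.zero_outside hp] with y hy hyS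
      by_contra hyB
      exact hyS (hy hyB).1
    exact ne_top_of_le_ne_top (hfin x r).ne h1
  have hqp : ENNReal.ofReal p ≤ ENNReal.ofReal q := by
    apply ENNReal.ofReal_le_ofReal
    rw [hq]; nlinarith
  have hhol : eLpNorm f (ENNReal.ofReal p) μ ≤
      eLpNorm f (ENNReal.ofReal q) μ * μ Sf ^ (1 / p - 1 / q) := by
    have h1 := eLpNorm_le_eLpNorm_mul_rpow_measure_univ (μ := μ.restrict Sf) hqp
      (hf.mu.1.mono_measure Measure.restrict_le_self)
    have hsupp : Function.support f ⊆ Sf := fun y hy => hy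
    rw [eLpNorm_restrict_eq_of_support_subset hsupp, eLpNorm_restrict_eq_of_support_subset hsupp,
      Measure.restrict_apply_univ, ENNReal.toReal_ofReal hp0.le, ENNReal.toReal_ofReal hq0.le] at h1
    exact h1
  have htot := hhol.trans (mul_le_mul_left hlim _)
  rw [hf.mu.eLpNorm_eq_integral_rpow_norm (by simpa using hp0) ENNReal.ofReal_ne_top,
    hf.mU.eLpNorm_eq_integral_rpow_norm (by simpa using hp0) ENNReal.ofReal_ne_top,
    ENNReal.toReal_ofReal hp0.le] at htot
  have hI0 : 0 ≤ ∫ y, ‖f y‖ ^ p ∂μ := integral_nonneg fun y => by positivity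
  have hJ0 : 0 ≤ ∫ y, ‖F y‖ ^ p ∂μ := integral_nonneg fun y => by positivity
  have e1 : (fun y => |f y| ^ p) = fun y => ‖f y‖ ^ p := by
    funext y; rw [Real.norm_eq_abs]
  have e2 : μ Sf ^ (1 / p - 1 / q) = ENNReal.ofReal (μ.real Sf ^ (1 / p - 1 / q)) := by
    have hexp : 0 ≤ 1 / p - 1 / q := by
      rw [sub_nonneg]
      apply one_div_le_one_div_of_le hp0
      rw [hq]; nlinarith
    rw [Measure.real, ← ENNReal.ofReal_rpow_of_nonneg ENNReal.toReal_nonneg hexp,
      ENNReal.ofReal_toReal hSfin]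
  rw [e2, ← ENNReal.ofReal_mul (by positivity), ← ENNReal.ofReal_mul (by positivity)] at htot
  have hrhs : 0 ≤ m ^ (1 / q - 1 / p) * (C' * r) * (∫ y, ‖F y‖ ^ p ∂μ) ^ p⁻¹ *
      μ.real Sf ^ (1 / p - 1 / q) := by positivity
  have h3 := (ENNReal.ofReal_le_ofReal_iff hrhs).1 htot
  rw [e1]
  generalize (∫ y, ‖f y‖ ^ p ∂μ) = I at *
  generalize (∫ y, ‖F y‖ ^ p ∂μ) = J at *
  have hs0 : 0 ≤ μ.real Sf := ENNReal.toReal_nonneg
  generalize μ.real Sf = s at *
  have h4 := Real.rpow_le_rpow (Real.rpow_nonneg hI0 _) h3 hp0.le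
  rw [← Real.rpow_mul hI0, inv_mul_cancel₀ hp0.ne', Real.rpow_one] at h4
  refine h4.trans (le_of_eq ?_)
  rw [Real.mul_rpow (by positivity) (by positivity), Real.mul_rpow (by positivity) (by positivity),
    Real.mul_rpow (by positivity) (by positivity), Real.mul_rpow hC'0.le hr.le,
    ← Real.rpow_mul hJ0, inv_mul_cancel₀ hp0.ne', Real.rpow_one, ← Real.rpow_mul hm0.le,
    ← Real.rpow_mul hs0, Real.div_rpow hs0 hm0.le]
  have e3 : (1 / q - 1 / p) * p = -(1 - 1 / χ) := by
    rw [hq]; field_simp; ring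
  have e4 : (1 / p - 1 / q) * p = 1 - 1 / χ := by
    rw [hq]; field_simp
  rw [e3, e4, Real.rpow_neg hm0.le]
  ring

end V3


end

end Pool.Agent.Helper533.Polar
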