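import Mathlib
open MeasureTheory Filter Topology Set
open scoped ENNReal NNReal RealInnerProductSpace

namespace Pool.Agent.Helper533.Polar

section


/-- pointwise structure conditions on `A0 : E → E` -/
structure OpPt {E : Type*} [NormedAddCommGroup E] [InnerProductSpace ℝ E] (p α β : ℝ) (A0 : E → E) : Prop where
  coer : ∀ ξ, α * ‖ξ‖ ^ p ≤ ⟪A0 ξ, ξ⟫
  bdd : ∀ ξ, ‖A0 ξ‖ ≤ β * ‖ξ‖ ^ (p - 1)
  mono : ∀ ξ ζ, 0 ≤ ⟪A0 ξ - A0 ζ, ξ - ζ⟫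
  hom : ∀ (t : ℝ) (ξ : E), t ≠ 0 → A0 (t • ξ) = (t * |t| ^ (p - 2)) • A0 ξ

variable {E : Type*} [NormedAddCommGroup E] [InnerProductSpace ℝ E]

theorem rpow_bound (r : ℝ) : ∃ C : ℝ, 0 ≤ C ∧ ∀ s : ℝ, |s| ≤ 1 / 2 → |(1 + s) ^ r| ≤ C := by
  have hc : ContinuousOn (fun s : ℝ => (1 + s) ^ r) (Icc (-(1 / 2)) (1 / 2)) := by
    refine ContinuousOn.rpow_const (by fun_prop) ?_
    intro x hx
    left
    have := hx.1
    linarith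
  obtain ⟨C, hC⟩ := isCompact_Icc.exists_bound_of_continuousOn hc
  refine ⟨max C 0, le_max_right _ _, fun s hs => ?_⟩
  exact (hC s (abs_le.mp hs)).trans (le_max_left _ _)

theorem rpow_deriv (r : ℝ) (s : ℝ) (hs : |s| ≤ 1 / 2) :
    HasDerivAt (fun s : ℝ => (1 + s) ^ r) (r * (1 + s) ^ (r - 1)) s := by
  have h1 : HasDerivAt (fun s : ℝ => 1 + s) 1 s := by
    simpa using (hasDerivAt_id s).const_add 1
  have h0 : 1 + s ≠ 0 := by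
    have := (abs_le.mp hs).1
    linarith
  have h2 := h1.rpow_const (p := r) (Or.inl h0)
  simpa using h2

theorem rpow_first (r : ℝ) : ∃ C : ℝ, 0 ≤ C ∧ ∀ s : ℝ, |s| ≤ 1 / 2 →
    |(1 + s) ^ r - 1| ≤ C * |s| := by
  obtain ⟨C, hC0, hC⟩ := rpow_bound (r - 1)
  refine ⟨|r| * C, by positivity, fun s hs => ?_⟩
  have h := Convex.norm_image_sub_le_of_norm_hasDerivWithin_le (𝕜 := ℝ)
    (f := fun s : ℝ => (1 + s) ^ r) (f' := fun s => r * (1 + s) ^ (r - 1))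
    (s := Icc (-(1 / 2)) (1 / 2)) (C := |r| * C) (x := 0) (y := s)
    (fun x hx => (rpow_deriv r x (abs_le.mpr hx)).hasDerivWithinAt)
    (fun x hx => by
      rw [norm_mul, Real.norm_eq_abs, Real.norm_eq_abs]
      exact mul_le_mul_of_nonneg_left (hC x (abs_le.mpr hx)) (abs_nonneg _))
    (convex_Icc _ _) ⟨by norm_num, by norm_num⟩ (abs_le.mp hs)
  simpa using h

theorem rpow_taylor (r : ℝ) : ∃ C : ℝ, 0 ≤ C ∧ ∀ s : ℝ, |s| ≤ 1 / 2 →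
    |(1 + s) ^ r - 1 - r * s| ≤ C * s ^ 2 := by
  obtain ⟨C, hC0, hC⟩ := rpow_first (r - 1)
  refine ⟨|r| * C, by positivity, fun s hs => ?_⟩
  have hsub : ∀ x ∈ Icc (-|s|) |s|, |x| ≤ |s| := fun x hx => abs_le.mpr hx
  have h := Convex.norm_image_sub_le_of_norm_hasDerivWithin_le (𝕜 := ℝ)
    (f := fun s : ℝ => (1 + s) ^ r - 1 - r * s) (f' := fun s => r * (1 + s) ^ (r - 1) - r)
    (s := Icc (-|s|) |s|) (C := |r| * C * |s|) (x := 0) (y := s)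
    (fun x hx => by
      have h1 := rpow_deriv r x ((hsub x hx).trans hs)
      have h2 : HasDerivAt (fun s : ℝ => (1 + s) ^ r - 1 - r * s)
          (r * (1 + x) ^ (r - 1) - r * 1) x := (h1.sub_const 1).sub ((hasDerivAt_id x).const_mul r)
      rw [mul_one] at h2
      exact h2.hasDerivWithinAt)
    (fun x hx => by
      have h1 : r * (1 + x) ^ (r - 1) - r = r * ((1 + x) ^ (r - 1) - 1) := by ring
      rw [h1, norm_mul, Real.norm_eq_abs, Real.norm_eq_abs, mul_assoc]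
      refine mul_le_mul_of_nonneg_left ?_ (abs_nonneg _)
      exact (hC x ((hsub x hx).trans hs)).trans (mul_le_mul_of_nonneg_left (hsub x hx) hC0))
    (convex_Icc _ _) ⟨by simp, by simp⟩ ⟨neg_abs_le s, le_abs_self s⟩
  have e : |r| * C * |s| * ‖s - 0‖ = |r| * C * s ^ 2 := by
    rw [sub_zero, Real.norm_eq_abs, mul_assoc, ← sq, sq_abs]
  rw [e] at h
  simpa using h

theorem young_simple {p x y : ℝ} (hp : 1 < p) (hx : 0 ≤ x) (hy : 0 ≤ y) :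
    x ^ (p - 1) * y ≤ x ^ p + y ^ p := by
  have key : ∀ z : ℝ, 0 ≤ z → z ^ (p - 1) * z = z ^ p := by
    intro z hz
    have := Real.rpow_add_one' hz (y := p - 1) (by linarith)
    rw [← this]; congr 1; ring
  have h1 : 0 ≤ x ^ p := Real.rpow_nonneg hx p
  have h2 : 0 ≤ y ^ p := Real.rpow_nonneg hy p
  rcases le_total x y with h | h
  · have : x ^ (p - 1) * y ≤ y ^ (p - 1) * y :=
      mul_le_mul_of_nonneg_right (Real.rpow_le_rpow hx h (by linarith)) hy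
    rw [key y hy] at this
    linarith
  · have : x ^ (p - 1) * y ≤ x ^ (p - 1) * x :=
      mul_le_mul_of_nonneg_left h (Real.rpow_nonneg hx _)
    rw [key x hx] at this
    linarith

/-- homogeneity trick -/
theorem key_E1 {p α β : ℝ} (hp : 1 < p) (hα : 0 < α) (hβ : 0 < β) :
    ∃ C : ℝ, 0 ≤ C ∧ ∀ A0 : E → E, OpPt p α β A0 → ∀ ξ ζ : E, ∀ δ : ℝ, 0 < δ → δ ≤ 1 / 2 →
      |(p - 1) * ⟪A0 ξ, ζ - ξ⟫ + ⟪A0 ζ - A0 ξ, ξ⟫| ≤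
        ⟪A0 ζ - A0 ξ, ζ - ξ⟫ / δ + C * δ * (⟪A0 ξ, ξ⟫ + ⟪A0 ζ, ζ⟫) := by
  obtain ⟨C1, hC10, hC1⟩ := rpow_taylor (p - 1)
  obtain ⟨C2, hC20, hC2⟩ := rpow_taylor p
  refine ⟨C1 * (β / α) + C2, by positivity, ?_⟩
  intro A0 hA ξ ζ δ hδ0 hδ
  set a := ⟪A0 ξ, ξ⟫ with ha
  set c := ⟪A0 ζ, ζ⟫ with hc
  set e := ⟪A0 ζ, ξ⟫ with he
  set g := ⟪A0 ξ, ζ⟫ with hg
  have hT : (p - 1) * ⟪A0 ξ, ζ - ξ⟫ + ⟪A0 ζ - A0 ξ, ξ⟫ = e + (p - 1) * g - p * a := by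
    rw [inner_sub_right, inner_sub_left, ← ha, ← he, ← hg]; ring
  have hD : ⟪A0 ζ - A0 ξ, ζ - ξ⟫ = c - e - g + a := by
    rw [inner_sub_right, inner_sub_left, inner_sub_left, ← ha, ← he, ← hg, ← hc]; ring
  rw [hT, hD]
  have hxp : 0 ≤ ‖ξ‖ ^ p := Real.rpow_nonneg (norm_nonneg _) _
  have hzp : 0 ≤ ‖ζ‖ ^ p := Real.rpow_nonneg (norm_nonneg _) _
  have ha0 : α * ‖ξ‖ ^ p ≤ a := hA.coer ξ
  have hc0 : α * ‖ζ‖ ^ p ≤ c := hA.coer ζ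
  have ha1 : 0 ≤ a := (mul_nonneg hα.le hxp).trans ha0
  have hc1 : 0 ≤ c := (mul_nonneg hα.le hzp).trans hc0
  have hg1 : |g| ≤ β / α * (a + c) := by
    have h1 : |g| ≤ ‖A0 ξ‖ * ‖ζ‖ := abs_real_inner_le_norm _ _
    have h2 : ‖A0 ξ‖ * ‖ζ‖ ≤ β * ‖ξ‖ ^ (p - 1) * ‖ζ‖ :=
      mul_le_mul_of_nonneg_right (hA.bdd ξ) (norm_nonneg _)
    have h3 := young_simple hp (norm_nonneg ξ) (norm_nonneg ζ)
    have h4 : β * ‖ξ‖ ^ (p - 1) * ‖ζ‖ ≤ β * (‖ξ‖ ^ p + ‖ζ‖ ^ p) := by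
      rw [mul_assoc]; exact mul_le_mul_of_nonneg_left h3 hβ.le
    have h5 : β * (‖ξ‖ ^ p + ‖ζ‖ ^ p) = β / α * (α * ‖ξ‖ ^ p + α * ‖ζ‖ ^ p) := by
      field_simp
    have h6 : β / α * (α * ‖ξ‖ ^ p + α * ‖ζ‖ ^ p) ≤ β / α * (a + c) :=
      mul_le_mul_of_nonneg_left (add_le_add ha0 hc0) (by positivity)
    linarith
  have hhom : ∀ lam : ℝ, 0 < lam → A0 (lam • ξ) = lam ^ (p - 1) • A0 ξ := by
    intro lam hlam
    rw [hA.hom lam ξ hlam.ne', abs_of_pos hlam]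
    congr 1
    have : lam * lam ^ (p - 2) = lam ^ (p - 2) * lam := mul_comm _ _
    rw [this, ← Real.rpow_add_one hlam.ne']
    congr 1; ring
  have hf : ∀ lam : ℝ, 0 < lam → 0 ≤ c - lam * e - lam ^ (p - 1) * g + lam ^ p * a := by
    intro lam hlam
    have h1 := hA.mono ζ (lam • ξ)
    rw [hhom lam hlam, inner_sub_right, inner_sub_left, inner_sub_left, inner_smul_left,
      inner_smul_right, inner_smul_left, inner_smul_right] at h1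
    simp only [RCLike.conj_to_real] at h1
    rw [← ha, ← he, ← hg, ← hc] at h1
    have h2 : lam ^ p = lam ^ (p - 1) * lam := by
      rw [← Real.rpow_add_one hlam.ne']; congr 1; ring
    rw [h2]
    linarith
  have hmain : ∀ s : ℝ, |s| = δ → s * (e + (p - 1) * g - p * a) ≤
      (c - e - g + a) + δ ^ 2 * ((C1 * (β / α) + C2) * (a + c)) := by
    intro s hs
    have hs1 : |s| ≤ 1 / 2 := by rw [hs]; exact hδ
    have hs2 : s ^ 2 = δ ^ 2 := by rw [← hs, sq_abs]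
    have h1 := hf (1 + s) (by have := (abs_le.mp hs1).1; linarith)
    have h2 := hC1 s hs1
    have h3 := hC2 s hs1
    rw [hs2] at h2 h3
    obtain ⟨R1, hR1⟩ : ∃ R1, R1 = (1 + s) ^ (p - 1) - 1 - (p - 1) * s := ⟨_, rfl⟩
    obtain ⟨R2, hR2⟩ : ∃ R2, R2 = (1 + s) ^ p - 1 - p * s := ⟨_, rfl⟩
    rw [← hR1] at h2
    rw [← hR2] at h3
    have e1 : (1 + s) ^ (p - 1) = R1 + 1 + (p - 1) * s := by rw [hR1]; ring
    have e2 : (1 + s) ^ p = R2 + 1 + p * s := by rw [hR2]; ring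
    rw [e1, e2] at h1
    have h4 : |R1 * g| ≤ C1 * δ ^ 2 * (β / α * (a + c)) := by
      rw [abs_mul]
      exact mul_le_mul h2 hg1 (abs_nonneg _) (by positivity)
    have h5 : |R2 * a| ≤ C2 * δ ^ 2 * (a + c) := by
      rw [abs_mul, abs_of_nonneg ha1]
      exact mul_le_mul h3 (by linarith) ha1 (by positivity)
    have h6 := (abs_le.mp h4).1
    have h7 := (abs_le.mp h5).2
    nlinarith [h1, h6, h7]
  have hp1 := hmain δ (abs_of_pos hδ0)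
  have hp2 := hmain (-δ) (by rw [abs_neg, abs_of_pos hδ0])
  have hfin : δ * |e + (p - 1) * g - p * a| ≤
      (c - e - g + a) + δ ^ 2 * ((C1 * (β / α) + C2) * (a + c)) := by
    rcases abs_cases (e + (p - 1) * g - p * a) with ⟨h, -⟩ | ⟨h, -⟩
    · rw [h]; exact hp1
    · rw [h]; linarith
  have : |e + (p - 1) * g - p * a| ≤
      ((c - e - g + a) + δ ^ 2 * ((C1 * (β / α) + C2) * (a + c))) / δ := by
    rw [le_div_iff₀ hδ0]; linarith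
  refine this.trans (le_of_eq ?_)
  rw [add_div]
  congr 1
  rw [sq, mul_assoc, mul_div_assoc, mul_comm]
  field_simp


end

section


variable {E : Type*} [NormedAddCommGroup E] [InnerProductSpace ℝ E]


theorem young1 {p : ℝ} (hp : 1 < p) {ε : ℝ} (hε : 0 < ε) :
    ∃ C : ℝ, 0 ≤ C ∧ ∀ x y : ℝ, 0 ≤ x → 0 ≤ y → x ^ (p - 1) * y ≤ ε * x ^ p + C * y ^ p := by
  refine ⟨(ε⁻¹) ^ (p - 1), by positivity, ?_⟩
  intro x y hx hy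
  have hxp : x ^ p = x ^ (p - 1) * x := by
    rw [← Real.rpow_add_one' hx (by linarith), sub_add_cancel]
  have hyp : y ^ p = y ^ (p - 1) * y := by
    rw [← Real.rpow_add_one' hy (by linarith), sub_add_cancel]
  have h1 : 0 ≤ x ^ (p - 1) := by positivity
  have h2 : 0 ≤ y ^ p := by positivity
  have h3 : 0 ≤ x ^ p := by positivity
  rcases le_total y (ε * x) with h | h
  · have h4 : x ^ (p - 1) * y ≤ x ^ (p - 1) * (ε * x) := mul_le_mul_of_nonneg_left h h1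
    have h5 : x ^ (p - 1) * (ε * x) = ε * x ^ p := by rw [hxp]; ring
    have h6 : 0 ≤ (ε⁻¹) ^ (p - 1) * y ^ p := by positivity
    linarith
  · have h4 : x ≤ ε⁻¹ * y := by
      rw [← div_eq_inv_mul, le_div_iff₀ hε]; linarith
    have h5 : x ^ (p - 1) ≤ (ε⁻¹ * y) ^ (p - 1) := Real.rpow_le_rpow hx h4 (by linarith)
    rw [Real.mul_rpow (by positivity) hy] at h5
    have h6 : x ^ (p - 1) * y ≤ (ε⁻¹) ^ (p - 1) * y ^ (p - 1) * y := mul_le_mul_of_nonneg_right h5 hy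
    have h7 : (ε⁻¹) ^ (p - 1) * y ^ (p - 1) * y = (ε⁻¹) ^ (p - 1) * y ^ p := by rw [hyp]; ring
    have h8 : 0 ≤ ε * x ^ p := by positivity
    linarith

theorem young2 {p : ℝ} (hp : 1 < p) {ε : ℝ} (hε : 0 < ε) :
    ∃ C : ℝ, 0 ≤ C ∧ ∀ x y : ℝ, 0 ≤ x → 0 ≤ y → x ^ (p - 1) * y ≤ C * x ^ p + ε * y ^ p := by
  set δ : ℝ := ε ^ (1 / (p - 1)) with hδ
  have hδ0 : 0 < δ := Real.rpow_pos_of_pos hε _
  have hδp : δ ^ (p - 1) = ε := by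
    rw [hδ, ← Real.rpow_mul hε.le, one_div, inv_mul_cancel₀ (by linarith), Real.rpow_one]
  refine ⟨δ⁻¹, by positivity, ?_⟩
  intro x y hx hy
  have hxp : x ^ p = x ^ (p - 1) * x := by
    rw [← Real.rpow_add_one' hx (by linarith), sub_add_cancel]
  have hyp : y ^ p = y ^ (p - 1) * y := by
    rw [← Real.rpow_add_one' hy (by linarith), sub_add_cancel]
  have h1 : 0 ≤ x ^ (p - 1) := by positivity
  rcases le_total x (δ * y) with h | h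
  · have h5 : x ^ (p - 1) ≤ (δ * y) ^ (p - 1) := Real.rpow_le_rpow hx h (by linarith)
    rw [Real.mul_rpow hδ0.le hy, hδp] at h5
    have h6 : x ^ (p - 1) * y ≤ ε * y ^ (p - 1) * y := mul_le_mul_of_nonneg_right h5 hy
    have h7 : ε * y ^ (p - 1) * y = ε * y ^ p := by rw [hyp]; ring
    have h8 : 0 ≤ δ⁻¹ * x ^ p := by positivity
    linarith
  · have h4 : y ≤ δ⁻¹ * x := by
      rw [← div_eq_inv_mul, le_div_iff₀ hδ0]; linarith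
    have h5 : x ^ (p - 1) * y ≤ x ^ (p - 1) * (δ⁻¹ * x) := mul_le_mul_of_nonneg_left h4 h1
    have h6 : x ^ (p - 1) * (δ⁻¹ * x) = δ⁻¹ * x ^ p := by rw [hxp]; ring
    have h8 : 0 ≤ ε * y ^ p := by positivity
    linarith

/-- control of the energy of `ζ` -/
theorem key_c {p α β : ℝ} (hp : 1 < p) (hα : 0 < α) (hβ : 0 < β) :
    ∃ C : ℝ, 0 ≤ C ∧ ∀ A0 : E → E, OpPt p α β A0 → ∀ ξ ζ : E,
      ⟪A0 ζ, ζ⟫ ≤ C * (⟪A0 ξ, ξ⟫ + ⟪A0 ζ - A0 ξ, ζ - ξ⟫) := by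
  have hε : 0 < α / (4 * β) := by positivity
  obtain ⟨C1, hC1, h1⟩ := young1 hp hε
  obtain ⟨C2, hC2, h2⟩ := young2 hp hε
  refine ⟨2 + 2 * (β * (C1 + C2) / α), by positivity, ?_⟩
  intro A0 hA ξ ζ
  set a := ⟪A0 ξ, ξ⟫ with ha
  set c := ⟪A0 ζ, ζ⟫ with hc
  set D := ⟪A0 ζ - A0 ξ, ζ - ξ⟫ with hD
  have hac : c + a = D + ⟪A0 ζ, ξ⟫ + ⟪A0 ξ, ζ⟫ := by
    rw [hD, inner_sub_left, inner_sub_right, inner_sub_right, ha, hc]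
    ring
  have hD0 : 0 ≤ D := hA.mono ζ ξ
  have hx := norm_nonneg ζ
  have hy := norm_nonneg ξ
  have ha1 := hA.coer ξ
  have hc1 := hA.coer ζ
  rw [← ha] at ha1
  rw [← hc] at hc1
  have ha0 : 0 ≤ a := le_trans (by positivity) ha1
  have h3 : ⟪A0 ζ, ξ⟫ ≤ β * ‖ζ‖ ^ (p - 1) * ‖ξ‖ :=
    (real_inner_le_norm _ _).trans (mul_le_mul_of_nonneg_right (hA.bdd ζ) hy)
  have h4 : ⟪A0 ξ, ζ⟫ ≤ β * ‖ξ‖ ^ (p - 1) * ‖ζ‖ :=
    (real_inner_le_norm _ _).trans (mul_le_mul_of_nonneg_right (hA.bdd ξ) hx)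
  have h5 := mul_le_mul_of_nonneg_left (h1 ‖ζ‖ ‖ξ‖ hx hy) hβ.le
  have h6 := mul_le_mul_of_nonneg_left (h2 ‖ξ‖ ‖ζ‖ hy hx) hβ.le
  have h7 : β * (α / (4 * β) * ‖ζ‖ ^ p + C1 * ‖ξ‖ ^ p) = α / 4 * ‖ζ‖ ^ p + β * C1 * ‖ξ‖ ^ p := by
    field_simp
  have h8 : β * (C2 * ‖ξ‖ ^ p + α / (4 * β) * ‖ζ‖ ^ p) = α / 4 * ‖ζ‖ ^ p + β * C2 * ‖ξ‖ ^ p := by
    field_simp
    ring
  rw [h7] at h5
  rw [h8] at h6
  have h9 : β * (C1 + C2) * ‖ξ‖ ^ p ≤ β * (C1 + C2) / α * a := by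
    have : ‖ξ‖ ^ p ≤ a / α := by rw [le_div_iff₀ hα]; linarith
    calc β * (C1 + C2) * ‖ξ‖ ^ p ≤ β * (C1 + C2) * (a / α) := mul_le_mul_of_nonneg_left this (by positivity)
      _ = _ := by ring
  set K := β * (C1 + C2) / α with hK
  have hK0 : 0 ≤ K := by positivity
  have h10 : c + a ≤ D + c / 2 + K * a := by
    have e1 : β * ‖ζ‖ ^ (p - 1) * ‖ξ‖ = β * (‖ζ‖ ^ (p - 1) * ‖ξ‖) := by ring
    have e2 : β * ‖ξ‖ ^ (p - 1) * ‖ζ‖ = β * (‖ξ‖ ^ (p - 1) * ‖ζ‖) := by ring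
    rw [e1] at h3
    rw [e2] at h4
    linarith
  have h11 : 0 ≤ K * D := by positivity
  nlinarith

/-- Young inequality for the flux -/
theorem key_flux {p α β S : ℝ} (hp : 1 < p) (hα : 0 < α) (hβ : 0 < β) (hS : 0 ≤ S) (N : ℕ)
    (hN : p ≤ N) {τ : ℝ} (hτ : 0 < τ) :
    ∃ C : ℝ, 0 ≤ C ∧ ∀ A0 : E → E, OpPt p α β A0 → ∀ ξ ζ : E, ∀ s t : ℝ, 0 ≤ s → s ≤ S → 0 ≤ t →
      s ^ (N - 1) * (‖A0 ξ‖ + ‖A0 ζ - A0 ξ‖) * t ≤
        τ * (s ^ N * (⟪A0 ξ, ξ⟫ + ⟪A0 ζ - A0 ξ, ζ - ξ⟫)) + C * t ^ p := by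
  obtain ⟨C, hC, hkey⟩ := key_c (E := E) hp hα hβ
  set ε : ℝ := τ * α / (2 * β * (1 + C)) with hε
  have hε0 : 0 < ε := by positivity
  obtain ⟨Cε, hCε, hy⟩ := young1 hp hε0
  have hp0 : 0 < p := by linarith
  refine ⟨4 * β * (Cε * S ^ ((N : ℝ) - p)), by positivity, ?_⟩
  intro A0 hA ξ ζ s t hs hsS ht
  set a := ⟪A0 ξ, ξ⟫ with ha
  set c := ⟪A0 ζ, ζ⟫ with hc
  set D := ⟪A0 ζ - A0 ξ, ζ - ξ⟫ with hD
  have hD0 : 0 ≤ D := hA.mono ζ ξ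
  have ha1 := hA.coer ξ
  have hc1 := hA.coer ζ
  rw [← ha] at ha1
  rw [← hc] at hc1
  have ha0 : 0 ≤ a := le_trans (by positivity) ha1
  have hck := hkey A0 hA ξ ζ
  rw [← ha, ← hc, ← hD] at hck
  have htp : 0 ≤ t ^ p := by positivity
  have hRHS : 0 ≤ τ * (s ^ N * (a + D)) + 4 * β * (Cε * S ^ ((N : ℝ) - p)) * t ^ p := by positivity
  rcases hs.eq_or_lt with h0 | h0
  · have hN2 : N - 1 ≠ 0 := by
      have : (1:ℝ) < N := lt_of_lt_of_le hp hN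
      have : 1 < N := by exact_mod_cast this
      omega
    rw [← h0, zero_pow hN2]
    rw [← h0] at hRHS
    simpa using hRHS
  · have hflux : ‖A0 ξ‖ + ‖A0 ζ - A0 ξ‖ ≤ 2 * β * (‖ξ‖ ^ (p - 1) + ‖ζ‖ ^ (p - 1)) := by
      have h1 := norm_sub_le (A0 ζ) (A0 ξ)
      have h2 := hA.bdd ξ
      have h3 := hA.bdd ζ
      have h4 := norm_nonneg (A0 ζ)
      linarith
    have hz : ∀ z : ℝ, 0 ≤ z → s ^ (N - 1) * z ^ (p - 1) * t ≤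
        ε * (s ^ N * z ^ p) + Cε * S ^ ((N : ℝ) - p) * t ^ p := by
      intro z hz0
      have h1 := hy (s ^ ((N : ℝ) / p) * z) (s ^ ((N : ℝ) / p - 1) * t) (by positivity) (by positivity)
      have hNp : 1 ≤ N := by
        have : (1:ℝ) < N := lt_of_lt_of_le hp hN
        have : 1 < N := by exact_mod_cast this
        omega
      have e1 : (s ^ ((N : ℝ) / p) * z) ^ (p - 1) * (s ^ ((N : ℝ) / p - 1) * t) = s ^ (N - 1) * z ^ (p - 1) * t := by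
        rw [Real.mul_rpow (by positivity) hz0, ← Real.rpow_mul hs]
        have : s ^ (N - 1) = s ^ ((N : ℝ) / p * (p - 1)) * s ^ ((N : ℝ) / p - 1) := by
          rw [← Real.rpow_add h0, ← Real.rpow_natCast, Nat.cast_sub hNp]
          congr 1
          field_simp
          push_cast
          ring
        rw [this]
        ring
      have e2 : (s ^ ((N : ℝ) / p) * z) ^ p = s ^ N * z ^ p := by
        rw [Real.mul_rpow (by positivity) hz0, ← Real.rpow_mul hs, div_mul_cancel₀ _ hp0.ne', Real.rpow_natCast]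
      have e3 : (s ^ ((N : ℝ) / p - 1) * t) ^ p ≤ S ^ ((N : ℝ) - p) * t ^ p := by
        rw [Real.mul_rpow (by positivity) ht, ← Real.rpow_mul hs]
        have : ((N : ℝ) / p - 1) * p = (N : ℝ) - p := by field_simp
        rw [this]
        apply mul_le_mul_of_nonneg_right _ htp
        exact Real.rpow_le_rpow hs hsS (by linarith)
      rw [e1, e2] at h1
      refine h1.trans ?_
      have := mul_le_mul_of_nonneg_left e3 hCε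
      linarith
    have hx := hz ‖ζ‖ (norm_nonneg _)
    have hy' := hz ‖ξ‖ (norm_nonneg _)
    have hsN1 : 0 ≤ s ^ (N - 1) := by positivity
    have hsN : 0 ≤ s ^ N := by positivity
    have h5 : s ^ (N - 1) * (‖A0 ξ‖ + ‖A0 ζ - A0 ξ‖) * t ≤
        2 * β * (s ^ (N - 1) * ‖ξ‖ ^ (p - 1) * t + s ^ (N - 1) * ‖ζ‖ ^ (p - 1) * t) := by
      have := mul_le_mul_of_nonneg_left hflux hsN1
      have := mul_le_mul_of_nonneg_right this ht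
      refine this.trans (le_of_eq ?_)
      ring
    refine h5.trans ?_
    have h6 : 2 * β * (s ^ (N - 1) * ‖ξ‖ ^ (p - 1) * t + s ^ (N - 1) * ‖ζ‖ ^ (p - 1) * t) ≤
        2 * β * ((ε * (s ^ N * ‖ξ‖ ^ p) + Cε * S ^ ((N : ℝ) - p) * t ^ p) +
          (ε * (s ^ N * ‖ζ‖ ^ p) + Cε * S ^ ((N : ℝ) - p) * t ^ p)) := by
      apply mul_le_mul_of_nonneg_left _ (by positivity)
      linarith
    refine h6.trans ?_
    have h7 : ‖ξ‖ ^ p + ‖ζ‖ ^ p ≤ (1 + C) * (a + D) / α := by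
      rw [le_div_iff₀ hα]
      nlinarith
    have h8 : 2 * β * (ε * (s ^ N * (‖ξ‖ ^ p + ‖ζ‖ ^ p))) ≤ τ * (s ^ N * (a + D)) := by
      calc 2 * β * (ε * (s ^ N * (‖ξ‖ ^ p + ‖ζ‖ ^ p))) ≤ 2 * β * (ε * (s ^ N * ((1 + C) * (a + D) / α))) := by
            apply mul_le_mul_of_nonneg_left _ (by positivity)
            apply mul_le_mul_of_nonneg_left _ hε0.le
            exact mul_le_mul_of_nonneg_left h7 hsN
        _ = τ * (s ^ N * (a + D)) := by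
            rw [hε]
            have : 1 + C ≠ 0 := by positivity
            field_simp
    nlinarith [h8]


end

section


variable {E : Type*} [NormedAddCommGroup E] [InnerProductSpace ℝ E]


/-! key_E1, key_c, key_flux are ALREADY PROVED elsewhere: leave the sorries. -/

theorem aux833_scalar {p C1 C2 C3 M0 Z0 δ0 τ N L G : ℝ} (hp : 1 < p) (hC1 : 0 ≤ C1) (hC2 : 0 ≤ C2)
    (hM : 0 ≤ M0) (hZ : 0 < Z0) (hδ : 0 < δ0) (hN2 : 2 ≤ N)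
    (hδ1 : N * M0 * (C1 * (1 + C2) * δ0) ≤ (p - 1) / 2)
    (hL : L = N * M0 * (1 / δ0 + C1 * C2 * δ0 * Z0 ^ 2) + 1)
    (hG : G = (p - 1) * M0 * N * Z0 + N ^ 2 * M0 ^ 2 / 2 + L * N) (hτ : 0 < τ)
    (hτ1 : G * τ ≤ (p - 1) / 4) (hτ2 : G * τ * Z0 ^ 2 ≤ 1 / 2)
    {a D c E jf kf nJ nK t tp b F m z : ℝ} (ha : 0 ≤ a) (hD : 0 ≤ D) (hb : 0 ≤ b) (hF : 0 ≤ F)
    (hnJ : 0 ≤ nJ) (hnK : 0 ≤ nK) (ht : 0 ≤ t) (hm1 : 1 ≤ m) (hm2 : m ≤ M0) (hz : 0 < z)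
    (hzZ : z ≤ Z0)
    (h1 : |E| ≤ D / (δ0 * z) + C1 * (δ0 * z) * (a + c)) (h2 : c ≤ C2 * (a + D))
    (h3 : F * (nJ + nK) * t ≤ τ * (z ^ 2 * b * (a + D)) + C3 * tp)
    (h4 : |jf| ≤ nJ * t) (h5 : |kf| ≤ nK * t) :
    (p - 1) / 4 * (z ^ 2 * b * a) + 1 / 2 * (b * D) ≤
      (p - 1) * z ^ 2 * b * a - N * m * z * b * E + (p - 1) * m * N * z * F * jf +
        (N * (N - 1) * m ^ 2 / 2 + L * (N - 1)) * b * D - (N ^ 2 * m ^ 2 / 2 + L * N) * F * kf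
        + G * C3 * tp := by
  have hp1 : 0 < p - 1 := by linarith
  have hL0 : 0 ≤ L := by rw [hL]; positivity
  have hG0 : 0 ≤ G := by rw [hG]; positivity
  have hm0 : 0 ≤ m := by linarith
  have hzb : 0 ≤ z ^ 2 * b := by positivity
  have hz2 : z ^ 2 ≤ Z0 ^ 2 := pow_le_pow_left₀ hz.le hzZ 2
  -- S1
  have hbD : 0 ≤ b * D := mul_nonneg hb hD
  have hzbD : z ^ 2 * b * D ≤ Z0 ^ 2 * (b * D) := by
    have := mul_le_mul_of_nonneg_right hz2 hbD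
    linarith
  have S1 : z * b * |E| ≤ b * D * (1 / δ0 + C1 * C2 * δ0 * Z0 ^ 2) +
      C1 * (1 + C2) * δ0 * (z ^ 2 * b * a) := by
    have e1 : z * b * |E| ≤ z * b * (D / (δ0 * z) + C1 * (δ0 * z) * (a + c)) :=
      mul_le_mul_of_nonneg_left h1 (by positivity)
    have e2 : z * b * (D / (δ0 * z) + C1 * (δ0 * z) * (a + c))
        = b * D * (1 / δ0) + C1 * δ0 * (z ^ 2 * b) * (a + c) := by
      field_simp
    have e3 : C1 * δ0 * (z ^ 2 * b) * (a + c) ≤ C1 * δ0 * (z ^ 2 * b) * (a + C2 * (a + D)) :=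
      mul_le_mul_of_nonneg_left (by linarith) (by positivity)
    have e4 : C1 * δ0 * C2 * (z ^ 2 * b * D) ≤ C1 * δ0 * C2 * (Z0 ^ 2 * (b * D)) :=
      mul_le_mul_of_nonneg_left hzbD (by positivity)
    calc z * b * |E| ≤ b * D * (1 / δ0) + C1 * δ0 * (z ^ 2 * b) * (a + C2 * (a + D)) := by
          rw [e2] at e1; linarith
      _ = b * D * (1 / δ0) + C1 * (1 + C2) * δ0 * (z ^ 2 * b * a) + C1 * δ0 * C2 * (z ^ 2 * b * D) := by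
          ring
      _ ≤ b * D * (1 / δ0) + C1 * (1 + C2) * δ0 * (z ^ 2 * b * a)
          + C1 * δ0 * C2 * (Z0 ^ 2 * (b * D)) := by linarith
      _ = _ := by ring
  have S2 : N * m * z * b * E ≤ N * M0 * (z * b * |E|) := by
    have e1 : z * b * E ≤ z * b * |E| := mul_le_mul_of_nonneg_left (le_abs_self _) (by positivity)
    have e2 : 0 ≤ z * b * |E| := by positivity
    calc N * m * z * b * E = N * m * (z * b * E) := by ring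
      _ ≤ N * m * (z * b * |E|) := mul_le_mul_of_nonneg_left e1 (by positivity)
      _ ≤ N * M0 * (z * b * |E|) := by
          refine mul_le_mul_of_nonneg_right ?_ e2
          exact mul_le_mul_of_nonneg_left hm2 (by linarith)
  have S3 : N * M0 * (z * b * |E|) ≤ (L - 1) * (b * D) + (p - 1) / 2 * (z ^ 2 * b * a) := by
    have e1 : N * M0 * (z * b * |E|) ≤ N * M0 * (b * D * (1 / δ0 + C1 * C2 * δ0 * Z0 ^ 2) +
      C1 * (1 + C2) * δ0 * (z ^ 2 * b * a)) := mul_le_mul_of_nonneg_left S1 (by positivity)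
    have e2 : N * M0 * (C1 * (1 + C2) * δ0) * (z ^ 2 * b * a) ≤ (p - 1) / 2 * (z ^ 2 * b * a) :=
      mul_le_mul_of_nonneg_right hδ1 (mul_nonneg hzb ha)
    have e3 : N * M0 * (b * D * (1 / δ0 + C1 * C2 * δ0 * Z0 ^ 2) +
      C1 * (1 + C2) * δ0 * (z ^ 2 * b * a)) = (L - 1) * (b * D) +
        N * M0 * (C1 * (1 + C2) * δ0) * (z ^ 2 * b * a) := by
      rw [hL]; ring
    linarith
  -- flux terms
  have hjf : -((p - 1) * M0 * N * Z0 * (F * (nJ * t))) ≤ (p - 1) * m * N * z * F * jf := by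
    have e1 : -(nJ * t) ≤ jf := (abs_le.1 h4).1
    have e2 : (p - 1) * m * N * z ≤ (p - 1) * M0 * N * Z0 := by
      have f1 : (p - 1) * m ≤ (p - 1) * M0 := mul_le_mul_of_nonneg_left hm2 hp1.le
      have f2 : (p - 1) * m * N ≤ (p - 1) * M0 * N := mul_le_mul_of_nonneg_right f1 (by linarith)
      exact mul_le_mul f2 hzZ hz.le (by positivity)
    have e3 : 0 ≤ F * (nJ * t) := by positivity
    have e4 : 0 ≤ (p - 1) * m * N * z * F := by positivity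
    have e5 : (p - 1) * m * N * z * F * (-(nJ * t)) ≤ (p - 1) * m * N * z * F * jf :=
      mul_le_mul_of_nonneg_left e1 e4
    have e6 : (p - 1) * m * N * z * (F * (nJ * t)) ≤ (p - 1) * M0 * N * Z0 * (F * (nJ * t)) :=
      mul_le_mul_of_nonneg_right e2 e3
    linarith
  have hkf : (N ^ 2 * m ^ 2 / 2 + L * N) * F * kf ≤
      (N ^ 2 * M0 ^ 2 / 2 + L * N) * (F * (nK * t)) := by
    have e1 : kf ≤ nK * t := (abs_le.1 h5).2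
    have e2 : N ^ 2 * m ^ 2 / 2 + L * N ≤ N ^ 2 * M0 ^ 2 / 2 + L * N := by
      have f1 : m ^ 2 ≤ M0 ^ 2 := pow_le_pow_left₀ hm0 hm2 2
      have f2 : N ^ 2 * m ^ 2 ≤ N ^ 2 * M0 ^ 2 := mul_le_mul_of_nonneg_left f1 (by positivity)
      linarith
    have e3 : 0 ≤ F * (nK * t) := by positivity
    have e4 : 0 ≤ (N ^ 2 * m ^ 2 / 2 + L * N) * F := by positivity
    have e5 := mul_le_mul_of_nonneg_left e1 e4
    have e6 := mul_le_mul_of_nonneg_right e2 e3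
    linarith
  have hfl : (p - 1) * M0 * N * Z0 * (F * (nJ * t)) + (N ^ 2 * M0 ^ 2 / 2 + L * N) * (F * (nK * t))
      ≤ G * (F * (nJ + nK) * t) := by
    have e1 : 0 ≤ F * (nJ * t) := by positivity
    have e2 : 0 ≤ F * (nK * t) := by positivity
    have e3 : 0 ≤ (N ^ 2 * M0 ^ 2 / 2 + L * N) * (F * (nJ * t)) := by positivity
    have e4 : 0 ≤ (p - 1) * M0 * N * Z0 * (F * (nK * t)) := by positivity
    have e5 : G * (F * (nJ + nK) * t) = (p - 1) * M0 * N * Z0 * (F * (nJ * t))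
        + (N ^ 2 * M0 ^ 2 / 2 + L * N) * (F * (nK * t))
        + ((N ^ 2 * M0 ^ 2 / 2 + L * N) * (F * (nJ * t)) + (p - 1) * M0 * N * Z0 * (F * (nK * t))) := by
      rw [hG]; ring
    rw [e5]
    linarith
  have hfl2 : G * (F * (nJ + nK) * t) ≤ (p - 1) / 4 * (z ^ 2 * b * a) + 1 / 2 * (b * D)
      + G * C3 * tp := by
    have e1 := mul_le_mul_of_nonneg_left h3 hG0
    have e2 : G * τ * (z ^ 2 * b * a) ≤ (p - 1) / 4 * (z ^ 2 * b * a) :=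
      mul_le_mul_of_nonneg_right hτ1 (mul_nonneg hzb ha)
    have e3 : G * τ * (z ^ 2 * b * D) ≤ G * τ * (Z0 ^ 2 * (b * D)) :=
      mul_le_mul_of_nonneg_left hzbD (by positivity)
    have e4 : G * τ * Z0 ^ 2 * (b * D) ≤ 1 / 2 * (b * D) := mul_le_mul_of_nonneg_right hτ2 hbD
    calc G * (F * (nJ + nK) * t) ≤ G * (τ * (z ^ 2 * b * (a + D)) + C3 * tp) := e1
      _ = G * τ * (z ^ 2 * b * a) + G * τ * (z ^ 2 * b * D) + G * C3 * tp := by ring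
      _ ≤ _ := by linarith
  have hLD : L * (b * D) ≤ (N * (N - 1) * m ^ 2 / 2 + L * (N - 1)) * b * D := by
    have f1 : L ≤ N * (N - 1) * m ^ 2 / 2 + L * (N - 1) := by
      have g1 : 0 ≤ N * (N - 1) * m ^ 2 / 2 := by
        have : 0 ≤ N - 1 := by linarith
        positivity
      have g2 : L * 1 ≤ L * (N - 1) := mul_le_mul_of_nonneg_left (by linarith) hL0
      rw [mul_one] at g2
      exact g2.trans (le_add_of_nonneg_left g1)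
    have := mul_le_mul_of_nonneg_right f1 hbD
    rw [mul_assoc _ b D]
    exact this
  have T1 : (p - 1) * z ^ 2 * b * a = (p - 1) * (z ^ 2 * b * a) := by ring
  rw [T1]
  clear hδ1 hL hG hτ1 hτ2 h1 h2 h3 h4 h5 S1 hzbD hz2
  obtain ⟨t1, ht1⟩ : ∃ t1 : ℝ, t1 = z ^ 2 * b * a := ⟨_, rfl⟩
  obtain ⟨t2, ht2⟩ : ∃ t2 : ℝ, t2 = N * m * z * b * E := ⟨_, rfl⟩
  obtain ⟨t3, ht3⟩ : ∃ t3 : ℝ, t3 = (p - 1) * m * N * z * F * jf := ⟨_, rfl⟩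
  obtain ⟨t4, ht4⟩ : ∃ t4 : ℝ, t4 = (N * (N - 1) * m ^ 2 / 2 + L * (N - 1)) * b * D := ⟨_, rfl⟩
  obtain ⟨t5, ht5⟩ : ∃ t5 : ℝ, t5 = (N ^ 2 * m ^ 2 / 2 + L * N) * F * kf := ⟨_, rfl⟩
  obtain ⟨t6, ht6⟩ : ∃ t6 : ℝ, t6 = G * C3 * tp := ⟨_, rfl⟩
  obtain ⟨t7, ht7⟩ : ∃ t7 : ℝ, t7 = b * D := ⟨_, rfl⟩
  rw [← ht1] at S3 hfl2
  rw [← ht2] at S2
  rw [← ht3] at hjf
  rw [← ht4] at hLD
  rw [← ht5] at hkf
  rw [← ht6] at hfl2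
  rw [← ht7] at S3 hfl2 hLD
  rw [← ht1, ← ht2, ← ht3, ← ht4, ← ht5, ← ht6, ← ht7]
  have U1 := S2.trans S3
  have U2 := hfl.trans hfl2
  clear S2 S3 hfl hfl2 ht1 ht2 ht3 ht4 ht5 ht6 ht7
  obtain ⟨t8, ht8⟩ : ∃ t8 : ℝ, t8 = (p - 1) * M0 * N * Z0 * (F * (nJ * t)) := ⟨_, rfl⟩
  obtain ⟨t9, ht9⟩ : ∃ t9 : ℝ, t9 = (N ^ 2 * M0 ^ 2 / 2 + L * N) * (F * (nK * t)) := ⟨_, rfl⟩
  rw [← ht8] at U2 hjf
  rw [← ht9] at U2 hkf
  linarith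

/-- the constants -/
theorem aux833_const {p α β M0 Z0 : ℝ} (hp : 1 < p) (hα : 0 < α) (hβ : 0 < β) (hM : 0 ≤ M0)
    (hZ : 0 < Z0) (N : ℕ) (hN : p ≤ N) (hN2 : 2 ≤ N) :
    ∃ κ G L : ℝ, 0 < κ ∧ 0 ≤ G ∧ 0 ≤ L ∧ ∀ A0 : E → E, OpPt p α β A0 → ∀ ξ ζ Φ : E, ∀ m z s : ℝ,
      1 ≤ m → m ≤ M0 → 0 < z → z ≤ Z0 → 0 ≤ s → s ≤ 1 →
      κ * (z ^ N * s ^ N * ⟪A0 ξ, ξ⟫ + z ^ (N - 2) * s ^ N * ⟪A0 ζ - A0 ξ, ζ - ξ⟫) ≤
      (- ((p - 1) * ⟪A0 ξ, (-(z ^ N * s ^ N)) • ξ + (m * (N * z ^ (N - 1) * s ^ N)) • (ζ - ξ)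
            - (m * (N * z ^ N * s ^ (N - 1))) • Φ⟫)
        + N * ⟪A0 ζ - A0 ξ, (-(m * (z ^ (N - 1) * s ^ N))) • ξ
            + (m ^ 2 / 2 * ((N - 1) * z ^ (N - 2) * s ^ N)) • (ζ - ξ)
            - (m ^ 2 / 2 * (N * z ^ (N - 1) * s ^ (N - 1))) • Φ⟫
        + L * ⟪A0 ζ - A0 ξ, ((N - 1) * z ^ (N - 2) * s ^ N) • (ζ - ξ)
            - (N * z ^ (N - 1) * s ^ (N - 1)) • Φ⟫)
      + G * ‖Φ‖ ^ p := by
  have hp1 : 0 < p - 1 := by linarith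
  have hNr : (2 : ℝ) ≤ N := by exact_mod_cast hN2
  obtain ⟨C1, hC1, hE⟩ := key_E1 (E := E) hp hα hβ
  obtain ⟨C2, hC2, hc⟩ := key_c (E := E) hp hα hβ
  obtain ⟨X, hX⟩ : ∃ X : ℝ, X = N * M0 * (C1 * (1 + C2)) := ⟨_, rfl⟩
  have hX0 : 0 ≤ X := by rw [hX]; positivity
  obtain ⟨δ0, hδ0⟩ : ∃ δ0 : ℝ, δ0 = min (1 / (2 * Z0)) ((p - 1) / (2 * (X + 1))) := ⟨_, rfl⟩
  have hδ : 0 < δ0 := by rw [hδ0]; positivity
  have hδZ : δ0 * Z0 ≤ 1 / 2 := by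
    have h1 : δ0 ≤ 1 / (2 * Z0) := by rw [hδ0]; exact min_le_left _ _
    calc δ0 * Z0 ≤ 1 / (2 * Z0) * Z0 := mul_le_mul_of_nonneg_right h1 hZ.le
      _ = 1 / 2 := by field_simp
  have hδ1 : N * M0 * (C1 * (1 + C2) * δ0) ≤ (p - 1) / 2 := by
    have h1 : δ0 ≤ (p - 1) / (2 * (X + 1)) := by rw [hδ0]; exact min_le_right _ _
    have h2 : N * M0 * (C1 * (1 + C2) * δ0) = X * δ0 := by rw [hX]; ring
    rw [h2]
    have h3 : X * δ0 ≤ (X + 1) * ((p - 1) / (2 * (X + 1))) := by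
      have := mul_le_mul_of_nonneg_left h1 hX0
      have h4 : 0 ≤ (p - 1) / (2 * (X + 1)) := by positivity
      nlinarith
    refine h3.trans (le_of_eq ?_)
    field_simp
  obtain ⟨L, hL⟩ : ∃ L : ℝ, L = N * M0 * (1 / δ0 + C1 * C2 * δ0 * Z0 ^ 2) + 1 := ⟨_, rfl⟩
  have hL0 : 0 ≤ L := by rw [hL]; positivity
  obtain ⟨G, hG⟩ : ∃ G : ℝ, G = (p - 1) * M0 * N * Z0 + N ^ 2 * M0 ^ 2 / 2 + L * N := ⟨_, rfl⟩
  have hG0 : 0 ≤ G := by rw [hG]; positivity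
  obtain ⟨τ, hτd⟩ : ∃ τ : ℝ, τ = min ((p - 1) / 4) (1 / (2 * Z0 ^ 2)) / (G + 1) := ⟨_, rfl⟩
  have hτ : 0 < τ := by rw [hτd]; positivity
  have hGτ : G * τ ≤ min ((p - 1) / 4) (1 / (2 * Z0 ^ 2)) := by
    have h0 : 0 ≤ min ((p - 1) / 4) (1 / (2 * Z0 ^ 2)) := by positivity
    rw [hτd, ← mul_div_assoc, div_le_iff₀ (by positivity)]
    nlinarith
  have hτ1 : G * τ ≤ (p - 1) / 4 := hGτ.trans (min_le_left _ _)
  have hτ2 : G * τ * Z0 ^ 2 ≤ 1 / 2 := by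
    have h1 := mul_le_mul_of_nonneg_right (hGτ.trans (min_le_right _ _)) (sq_nonneg Z0)
    refine h1.trans (le_of_eq ?_)
    field_simp
  obtain ⟨C3, hC3, hfl⟩ := key_flux (E := E) (S := Z0) hp hα hβ hZ.le N hN hτ
  refine ⟨min ((p - 1) / 4) (1 / 2), G * C3, L, by positivity, by positivity, hL0, ?_⟩
  intro A0 hA ξ ζ Φ m z s hm1 hm2 hz hzZ hs0 hs1
  have ha : 0 ≤ ⟪A0 ξ, ξ⟫ := le_trans (by positivity) (hA.coer ξ)
  have hD : 0 ≤ ⟪A0 ζ - A0 ξ, ζ - ξ⟫ := by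
    have := hA.mono ζ ξ
    exact this
  have hzN : z ^ N = z ^ 2 * z ^ (N - 2) := by rw [← pow_add]; congr 1; omega
  have hzN1 : z ^ (N - 1) = z * z ^ (N - 2) := by
    rw [← pow_succ']; congr 1; omega
  have hzs : (z * s) ^ (N - 1) = z ^ (N - 1) * s ^ (N - 1) := mul_pow _ _ _
  have hzsN : (z * s) ^ N = z ^ 2 * (z ^ (N - 2) * s ^ N) := by rw [mul_pow, hzN]; ring
  have k1 := hE A0 hA ξ ζ (δ0 * z) (by positivity) (by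
    have : δ0 * z ≤ δ0 * Z0 := mul_le_mul_of_nonneg_left hzZ hδ.le
    linarith)
  have k2 := hc A0 hA ξ ζ
  have hzsZ : z * s ≤ Z0 := by nlinarith
  have k3 := hfl A0 hA ξ ζ (z * s) ‖Φ‖ (by positivity) hzsZ (norm_nonneg _)
  have k4 : |⟪A0 ξ, Φ⟫| ≤ ‖A0 ξ‖ * ‖Φ‖ := abs_real_inner_le_norm _ _
  have k5 : |⟪A0 ζ - A0 ξ, Φ⟫| ≤ ‖A0 ζ - A0 ξ‖ * ‖Φ‖ := abs_real_inner_le_norm _ _
  rw [hzs, hzsN] at k3
  have hb : 0 ≤ z ^ (N - 2) * s ^ N := by positivity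
  have hF : 0 ≤ z ^ (N - 1) * s ^ (N - 1) := by positivity
  have main := aux833_scalar (N := (N : ℝ)) hp hC1 hC2 hM hZ hδ hNr hδ1 hL hG hτ hτ1 hτ2 ha hD hb hF
    (norm_nonneg (A0 ξ)) (norm_nonneg (A0 ζ - A0 ξ)) (norm_nonneg Φ) hm1 hm2 hz hzZ k1 k2 k3 k4 k5
  have hexp : (- ((p - 1) * ⟪A0 ξ, (-(z ^ N * s ^ N)) • ξ + (m * (N * z ^ (N - 1) * s ^ N)) • (ζ - ξ)
            - (m * (N * z ^ N * s ^ (N - 1))) • Φ⟫)
        + N * ⟪A0 ζ - A0 ξ, (-(m * (z ^ (N - 1) * s ^ N))) • ξ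
            + (m ^ 2 / 2 * ((N - 1) * z ^ (N - 2) * s ^ N)) • (ζ - ξ)
            - (m ^ 2 / 2 * (N * z ^ (N - 1) * s ^ (N - 1))) • Φ⟫
        + L * ⟪A0 ζ - A0 ξ, ((N - 1) * z ^ (N - 2) * s ^ N) • (ζ - ξ)
            - (N * z ^ (N - 1) * s ^ (N - 1)) • Φ⟫)
      = (p - 1) * z ^ 2 * (z ^ (N - 2) * s ^ N) * ⟪A0 ξ, ξ⟫
        - N * m * z * (z ^ (N - 2) * s ^ N) * ((p - 1) * ⟪A0 ξ, ζ - ξ⟫ + ⟪A0 ζ - A0 ξ, ξ⟫)
        + (p - 1) * m * N * z * (z ^ (N - 1) * s ^ (N - 1)) * ⟪A0 ξ, Φ⟫ +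
        (N * (N - 1) * m ^ 2 / 2 + L * (N - 1)) * (z ^ (N - 2) * s ^ N) * ⟪A0 ζ - A0 ξ, ζ - ξ⟫
        - (N ^ 2 * m ^ 2 / 2 + L * N) * (z ^ (N - 1) * s ^ (N - 1)) * ⟪A0 ζ - A0 ξ, Φ⟫ := by
    simp only [inner_sub_right (𝕜 := ℝ) (A0 ξ) (_ + _) _, inner_add_right, inner_smul_right,
      inner_sub_right (𝕜 := ℝ) _ (_ + _) _, inner_sub_right (𝕜 := ℝ) _ (_ • _) _]
    rw [hzN, hzN1]
    ring
  rw [hexp]
  have hTz : z ^ N * s ^ N * ⟪A0 ξ, ξ⟫ = z ^ 2 * (z ^ (N - 2) * s ^ N) * ⟪A0 ξ, ξ⟫ := by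
    rw [hzN]; ring
  have hA0 : 0 ≤ z ^ 2 * (z ^ (N - 2) * s ^ N) * ⟪A0 ξ, ξ⟫ := by positivity
  have hB0 : 0 ≤ (z ^ (N - 2) * s ^ N) * ⟪A0 ζ - A0 ξ, ζ - ξ⟫ := mul_nonneg hb hD
  have hk1 : min ((p - 1) / 4) (1 / 2) * (z ^ 2 * (z ^ (N - 2) * s ^ N) * ⟪A0 ξ, ξ⟫)
      ≤ (p - 1) / 4 * (z ^ 2 * (z ^ (N - 2) * s ^ N) * ⟪A0 ξ, ξ⟫) :=
    mul_le_mul_of_nonneg_right (min_le_left _ _) hA0
  have hk2 : min ((p - 1) / 4) (1 / 2) * ((z ^ (N - 2) * s ^ N) * ⟪A0 ζ - A0 ξ, ζ - ξ⟫)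
      ≤ 1 / 2 * ((z ^ (N - 2) * s ^ N) * ⟪A0 ζ - A0 ξ, ζ - ξ⟫) :=
    mul_le_mul_of_nonneg_right (min_le_right _ _) hB0
  rw [hTz, mul_add]
  linarith

/-- TARGET 1, corrected: two different constants in front of the main term and of `‖Φ‖ ^ p`
(with the same constant the statement is false, e.g. `p = 2`, `A0 = id`, `N = 2`, `m = 10`,
`ζ = ξ = -10 Φ`, `s = z = 1`) -/
theorem core_alg {p α β M0 Z0 : ℝ} (hp : 1 < p) (hα : 0 < α) (hβ : 0 < β) (hM : 0 ≤ M0) (hZ : 0 < Z0)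
    (N : ℕ) (hN : p ≤ N) (hN2 : 2 ≤ N) :
    ∃ C C' L : ℝ, 0 ≤ C ∧ 0 ≤ C' ∧ 0 ≤ L ∧ ∀ A0 : E → E, OpPt p α β A0 → ∀ ξ ζ Φ : E, ∀ m z s : ℝ,
      1 ≤ m → m ≤ M0 → 0 < z → z ≤ Z0 → 0 ≤ s → s ≤ 1 →
      z ^ N * s ^ N * ⟪A0 ξ, ξ⟫ + z ^ (N - 2) * s ^ N * ⟪A0 ζ - A0 ξ, ζ - ξ⟫ ≤
      C * (- ((p - 1) * ⟪A0 ξ, (-(z ^ N * s ^ N)) • ξ + (m * (N * z ^ (N - 1) * s ^ N)) • (ζ - ξ)
            - (m * (N * z ^ N * s ^ (N - 1))) • Φ⟫)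
        + N * ⟪A0 ζ - A0 ξ, (-(m * (z ^ (N - 1) * s ^ N))) • ξ
            + (m ^ 2 / 2 * ((N - 1) * z ^ (N - 2) * s ^ N)) • (ζ - ξ)
            - (m ^ 2 / 2 * (N * z ^ (N - 1) * s ^ (N - 1))) • Φ⟫
        + L * ⟪A0 ζ - A0 ξ, ((N - 1) * z ^ (N - 2) * s ^ N) • (ζ - ξ)
            - (N * z ^ (N - 1) * s ^ (N - 1)) • Φ⟫)
      + C' * ‖Φ‖ ^ p := by
  obtain ⟨κ, G, L, hκ, hG, hL, H⟩ := aux833_const (E := E) hp hα hβ hM hZ N hN hN2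
  refine ⟨κ⁻¹, κ⁻¹ * G, L, by positivity, by positivity, hL, ?_⟩
  intro A0 hA ξ ζ Φ m z s hm1 hm2 hz hzZ hs0 hs1
  have h := H A0 hA ξ ζ Φ m z s hm1 hm2 hz hzZ hs0 hs1
  have h2 := mul_le_mul_of_nonneg_left h (inv_pos.2 hκ).le
  rw [← mul_assoc, inv_mul_cancel₀ hκ.ne', one_mul, mul_add, ← mul_assoc κ⁻¹ G] at h2
  exact h2

theorem aux833_rpow_add {x y p : ℝ} (hx : 0 ≤ x) (hy : 0 ≤ y) (hp : 1 < p) :
    (x + y) ^ p ≤ 2 ^ p * (x ^ p + y ^ p) := by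
  have h1 : x + y ≤ 2 * max x y := by
    have := le_max_left x y
    have := le_max_right x y
    linarith
  have h2 : (x + y) ^ p ≤ (2 * max x y) ^ p :=
    Real.rpow_le_rpow (by positivity) h1 (by linarith)
  refine h2.trans ?_
  rw [Real.mul_rpow (by norm_num) (le_max_of_le_left hx)]
  refine mul_le_mul_of_nonneg_left ?_ (by positivity)
  have hxp : 0 ≤ x ^ p := Real.rpow_nonneg hx p
  have hyp : 0 ≤ y ^ p := Real.rpow_nonneg hy p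
  rcases le_total x y with h | h
  · rw [max_eq_right h]; linarith
  · rw [max_eq_left h]; linarith

/-- both corrected targets with the same constants -/
theorem core_alg_both {p α β M0 Z0 : ℝ} (hp : 1 < p) (hα : 0 < α) (hβ : 0 < β) (hM : 0 ≤ M0) (hZ : 0 < Z0)
    (N : ℕ) (hN : p ≤ N) (hN2 : 2 ≤ N) :
    ∃ C C' L : ℝ, 0 ≤ C ∧ 0 ≤ C' ∧ 0 ≤ L ∧ ∀ A0 : E → E, OpPt p α β A0 → ∀ ξ ζ Φ : E, ∀ m z s : ℝ,
      1 ≤ m → m ≤ M0 → 0 < z → z ≤ Z0 → 0 ≤ s → s ≤ 1 →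
      (‖((N + 1) * (z * s) ^ N) • (s • (ζ - ξ) - z • Φ)‖ ^ p ≤
      C * (- ((p - 1) * ⟪A0 ξ, (-(z ^ N * s ^ N)) • ξ + (m * (N * z ^ (N - 1) * s ^ N)) • (ζ - ξ)
            - (m * (N * z ^ N * s ^ (N - 1))) • Φ⟫)
        + N * ⟪A0 ζ - A0 ξ, (-(m * (z ^ (N - 1) * s ^ N))) • ξ
            + (m ^ 2 / 2 * ((N - 1) * z ^ (N - 2) * s ^ N)) • (ζ - ξ)
            - (m ^ 2 / 2 * (N * z ^ (N - 1) * s ^ (N - 1))) • Φ⟫
        + L * ⟪A0 ζ - A0 ξ, ((N - 1) * z ^ (N - 2) * s ^ N) • (ζ - ξ)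
            - (N * z ^ (N - 1) * s ^ (N - 1)) • Φ⟫)
      + C' * ‖Φ‖ ^ p) ∧
      (z ^ N * s ^ N * ⟪A0 ξ, ξ⟫ + z ^ (N - 2) * s ^ N * ⟪A0 ζ - A0 ξ, ζ - ξ⟫ ≤
      C * (- ((p - 1) * ⟪A0 ξ, (-(z ^ N * s ^ N)) • ξ + (m * (N * z ^ (N - 1) * s ^ N)) • (ζ - ξ)
            - (m * (N * z ^ N * s ^ (N - 1))) • Φ⟫)
        + N * ⟪A0 ζ - A0 ξ, (-(m * (z ^ (N - 1) * s ^ N))) • ξ
            + (m ^ 2 / 2 * ((N - 1) * z ^ (N - 2) * s ^ N)) • (ζ - ξ)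
            - (m ^ 2 / 2 * (N * z ^ (N - 1) * s ^ (N - 1))) • Φ⟫
        + L * ⟪A0 ζ - A0 ξ, ((N - 1) * z ^ (N - 2) * s ^ N) • (ζ - ξ)
            - (N * z ^ (N - 1) * s ^ (N - 1)) • Φ⟫)
      + C' * ‖Φ‖ ^ p) := by
  obtain ⟨κ, G, L, hκ, hG, hL, H⟩ := aux833_const (E := E) hp hα hβ hM hZ N hN hN2
  obtain ⟨C2, hC2, hc⟩ := key_c (E := E) hp hα hβ
  have hp0 : 0 < p := by linarith
  obtain ⟨W, hW⟩ : ∃ W : ℝ, W = ((N : ℝ) + 1) ^ p * 2 ^ p := ⟨_, rfl⟩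
  have hW0 : 0 ≤ W := by rw [hW]; positivity
  obtain ⟨H1, hH1⟩ : ∃ H1 : ℝ, H1 = W * ((Z0 ^ N) ^ (p - 1) * (2 ^ p / α * (1 + C2) * (1 + Z0 ^ 2))) + 1 :=
    ⟨_, rfl⟩
  have hH10 : 1 ≤ H1 := by
    rw [hH1]
    have : 0 ≤ W * ((Z0 ^ N) ^ (p - 1) * (2 ^ p / α * (1 + C2) * (1 + Z0 ^ 2))) := by positivity
    linarith
  obtain ⟨H2, hH2⟩ : ∃ H2 : ℝ, H2 = W * ((Z0 ^ N) ^ p * Z0 ^ p) := ⟨_, rfl⟩
  have hH20 : 0 ≤ H2 := by rw [hH2]; positivity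
  refine ⟨H1 * κ⁻¹, H1 * (κ⁻¹ * G) + H2, L, by positivity, by positivity, hL, ?_⟩
  intro A0 hA ξ ζ Φ m z s hm1 hm2 hz hzZ hs0 hs1
  have h := H A0 hA ξ ζ Φ m z s hm1 hm2 hz hzZ hs0 hs1
  obtain ⟨Q, hQ⟩ : ∃ Q : ℝ, Q = (- ((p - 1) * ⟪A0 ξ, (-(z ^ N * s ^ N)) • ξ + (m * (N * z ^ (N - 1) * s ^ N)) • (ζ - ξ)
            - (m * (N * z ^ N * s ^ (N - 1))) • Φ⟫)
        + N * ⟪A0 ζ - A0 ξ, (-(m * (z ^ (N - 1) * s ^ N))) • ξ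
            + (m ^ 2 / 2 * ((N - 1) * z ^ (N - 2) * s ^ N)) • (ζ - ξ)
            - (m ^ 2 / 2 * (N * z ^ (N - 1) * s ^ (N - 1))) • Φ⟫
        + L * ⟪A0 ζ - A0 ξ, ((N - 1) * z ^ (N - 2) * s ^ N) • (ζ - ξ)
            - (N * z ^ (N - 1) * s ^ (N - 1)) • Φ⟫) := ⟨_, rfl⟩
  rw [← hQ] at h ⊢
  have ha0 : α * ‖ξ‖ ^ p ≤ ⟪A0 ξ, ξ⟫ := hA.coer ξ
  have hc0 : α * ‖ζ‖ ^ p ≤ ⟪A0 ζ, ζ⟫ := hA.coer ζ
  have hc1 := hc A0 hA ξ ζ
  obtain ⟨a, hadef⟩ : ∃ a : ℝ, a = ⟪A0 ξ, ξ⟫ := ⟨_, rfl⟩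
  obtain ⟨D, hDdef⟩ : ∃ D : ℝ, D = ⟪A0 ζ - A0 ξ, ζ - ξ⟫ := ⟨_, rfl⟩
  have ha : 0 ≤ a := by rw [hadef]; exact le_trans (by positivity) ha0
  have hD : 0 ≤ D := by rw [hDdef]; exact hA.mono ζ ξ
  rw [← hadef] at ha0 hc1 h ⊢
  rw [← hDdef] at hc1 h ⊢
  obtain ⟨T, hT⟩ : ∃ T : ℝ, T = z ^ N * s ^ N * a + z ^ (N - 2) * s ^ N * D := ⟨_, rfl⟩
  rw [← hT] at h ⊢
  have hT0 : 0 ≤ T := by rw [hT]; positivity
  have htp : 0 ≤ ‖Φ‖ ^ p := by positivity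
  have hTQ : T ≤ κ⁻¹ * Q + κ⁻¹ * G * ‖Φ‖ ^ p := by
    have h2 := mul_le_mul_of_nonneg_left h (inv_pos.2 hκ).le
    rw [← mul_assoc, inv_mul_cancel₀ hκ.ne', one_mul, mul_add, ← mul_assoc κ⁻¹ G] at h2
    exact h2
  have hH1T : H1 * T ≤ H1 * κ⁻¹ * Q + H1 * (κ⁻¹ * G) * ‖Φ‖ ^ p := by
    have := mul_le_mul_of_nonneg_left hTQ (by linarith : 0 ≤ H1)
    linarith
  constructor
  · -- main
    obtain ⟨X, hX⟩ : ∃ X : ℝ, X = (z * s) ^ N := ⟨_, rfl⟩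
    have hX0 : 0 ≤ X := by rw [hX]; positivity
    have hXZ : X ≤ Z0 ^ N := by
      rw [hX]
      refine pow_le_pow_left₀ (by positivity) ?_ N
      exact (mul_le_of_le_one_right hz.le hs1).trans hzZ
    have hXT : X * (a + D) ≤ (1 + Z0 ^ 2) * T := by
      have hzN : z ^ N = z ^ 2 * z ^ (N - 2) := by rw [← pow_add]; congr 1; omega
      have e1 : X * a = z ^ N * s ^ N * a := by rw [hX, mul_pow]
      have e2 : X * D = z ^ 2 * (z ^ (N - 2) * s ^ N * D) := by rw [hX, mul_pow, hzN]; ring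
      have e3 : z ^ 2 * (z ^ (N - 2) * s ^ N * D) ≤ Z0 ^ 2 * (z ^ (N - 2) * s ^ N * D) :=
        mul_le_mul_of_nonneg_right (pow_le_pow_left₀ hz.le hzZ 2) (by positivity)
      have e4 : 0 ≤ z ^ N * s ^ N * a := by positivity
      have e5 : 0 ≤ z ^ (N - 2) * s ^ N * D := by positivity
      have e6 : 0 ≤ Z0 ^ 2 * (z ^ N * s ^ N * a) := by positivity
      rw [mul_add, e1, e2, hT]
      have e7 : (1 + Z0 ^ 2) * (z ^ N * s ^ N * a + z ^ (N - 2) * s ^ N * D) =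
          z ^ N * s ^ N * a + z ^ (N - 2) * s ^ N * D + Z0 ^ 2 * (z ^ N * s ^ N * a) +
          Z0 ^ 2 * (z ^ (N - 2) * s ^ N * D) := by ring
      rw [e7]
      linarith only [e3, e5, e6]
    have hZp : ‖ζ - ξ‖ ^ p ≤ 2 ^ p / α * (1 + C2) * (a + D) := by
      have e1 : ‖ζ - ξ‖ ^ p ≤ (‖ζ‖ + ‖ξ‖) ^ p :=
        Real.rpow_le_rpow (norm_nonneg _) (norm_sub_le _ _) hp0.le
      have e2 := aux833_rpow_add (norm_nonneg ζ) (norm_nonneg ξ) hp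
      have e3 : α * (‖ζ‖ ^ p + ‖ξ‖ ^ p) ≤ (1 + C2) * (a + D) := by
        have : 0 ≤ C2 * (a + D) := by positivity
        linarith only [this, ha0, hc0, hc1, hD]
      have e4 : ‖ζ‖ ^ p + ‖ξ‖ ^ p ≤ (1 + C2) * (a + D) / α := by
        rw [le_div_iff₀ hα]
        linarith only [e3]
      calc ‖ζ - ξ‖ ^ p ≤ 2 ^ p * (‖ζ‖ ^ p + ‖ξ‖ ^ p) := e1.trans e2
        _ ≤ 2 ^ p * ((1 + C2) * (a + D) / α) := mul_le_mul_of_nonneg_left e4 (by positivity)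
        _ = _ := by ring
    have hv : ‖s • (ζ - ξ) - z • Φ‖ ^ p ≤ 2 ^ p * (‖ζ - ξ‖ ^ p + Z0 ^ p * ‖Φ‖ ^ p) := by
      have e1 : ‖s • (ζ - ξ) - z • Φ‖ ≤ ‖ζ - ξ‖ + Z0 * ‖Φ‖ := by
        refine (norm_sub_le _ _).trans ?_
        rw [norm_smul, norm_smul, Real.norm_eq_abs, Real.norm_eq_abs, abs_of_nonneg hs0,
          abs_of_pos hz]
        have f1 : s * ‖ζ - ξ‖ ≤ 1 * ‖ζ - ξ‖ := mul_le_mul_of_nonneg_right hs1 (norm_nonneg _)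
        have f2 : z * ‖Φ‖ ≤ Z0 * ‖Φ‖ := mul_le_mul_of_nonneg_right hzZ (norm_nonneg _)
        linarith only [f1, f2]
      refine (Real.rpow_le_rpow (norm_nonneg _) e1 hp0.le).trans ?_
      have e2 := aux833_rpow_add (norm_nonneg (ζ - ξ)) (show 0 ≤ Z0 * ‖Φ‖ by positivity) hp
      rwa [Real.mul_rpow hZ.le (norm_nonneg _)] at e2
    have hXp : X ^ p = X ^ (p - 1) * X := by
      have := Real.rpow_add_one' hX0 (show (p - 1) + 1 ≠ 0 by linarith)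
      rwa [sub_add_cancel] at this
    have hXp1 : X ^ p ≤ (Z0 ^ N) ^ (p - 1) * X := by
      rw [hXp]
      exact mul_le_mul_of_nonneg_right (Real.rpow_le_rpow hX0 hXZ (by linarith)) hX0
    have hXp2 : X ^ p ≤ (Z0 ^ N) ^ p := Real.rpow_le_rpow hX0 hXZ hp0.le
    have hlhs : ‖((N + 1) * (z * s) ^ N) • (s • (ζ - ξ) - z • Φ)‖ ^ p
        = ((N : ℝ) + 1) ^ p * (X ^ p * ‖s • (ζ - ξ) - z • Φ‖ ^ p) := by
      rw [norm_smul, ← hX, Real.norm_eq_abs, abs_of_nonneg (by positivity),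
        Real.mul_rpow (by positivity) (norm_nonneg _), Real.mul_rpow (by positivity) hX0]
      ring
    rw [hlhs]
    have s1 : X ^ p * ‖s • (ζ - ξ) - z • Φ‖ ^ p ≤
        X ^ p * (2 ^ p * (‖ζ - ξ‖ ^ p + Z0 ^ p * ‖Φ‖ ^ p)) :=
      mul_le_mul_of_nonneg_left hv (by positivity)
    have s2 : X ^ p * ‖ζ - ξ‖ ^ p ≤
        (Z0 ^ N) ^ (p - 1) * (2 ^ p / α * (1 + C2) * (1 + Z0 ^ 2)) * T := by
      calc X ^ p * ‖ζ - ξ‖ ^ p ≤ ((Z0 ^ N) ^ (p - 1) * X) * (2 ^ p / α * (1 + C2) * (a + D)) :=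
            mul_le_mul hXp1 hZp (by positivity) (by positivity)
        _ = (Z0 ^ N) ^ (p - 1) * (2 ^ p / α * (1 + C2)) * (X * (a + D)) := by ring
        _ ≤ (Z0 ^ N) ^ (p - 1) * (2 ^ p / α * (1 + C2)) * ((1 + Z0 ^ 2) * T) :=
            mul_le_mul_of_nonneg_left hXT (by positivity)
        _ = _ := by ring
    have s3 : X ^ p * (Z0 ^ p * ‖Φ‖ ^ p) ≤ (Z0 ^ N) ^ p * (Z0 ^ p * ‖Φ‖ ^ p) :=
      mul_le_mul_of_nonneg_right hXp2 (by positivity)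
    have s4 : ((N : ℝ) + 1) ^ p * (X ^ p * ‖s • (ζ - ξ) - z • Φ‖ ^ p) ≤
        W * (X ^ p * ‖ζ - ξ‖ ^ p) + W * (X ^ p * (Z0 ^ p * ‖Φ‖ ^ p)) := by
      have := mul_le_mul_of_nonneg_left s1 (show 0 ≤ ((N : ℝ) + 1) ^ p by positivity)
      refine this.trans (le_of_eq ?_)
      rw [hW]; ring
    have s5 := mul_le_mul_of_nonneg_left s2 hW0
    have s6 := mul_le_mul_of_nonneg_left s3 hW0
    have s7 : W * ((Z0 ^ N) ^ (p - 1) * (2 ^ p / α * (1 + C2) * (1 + Z0 ^ 2)) * T) ≤ H1 * T := by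
      rw [hH1, add_mul, one_mul, mul_assoc W]
      exact le_add_of_nonneg_right hT0
    have s8 : W * ((Z0 ^ N) ^ p * (Z0 ^ p * ‖Φ‖ ^ p)) = H2 * ‖Φ‖ ^ p := by rw [hH2]; ring
    rw [s8] at s6
    rw [add_mul]
    linarith only [s4, s5, s6, s7, hH1T]
  · have h1 : T ≤ H1 * T := le_mul_of_one_le_left hT0 hH10
    have h2 : 0 ≤ H2 * ‖Φ‖ ^ p := by positivity
    rw [add_mul]
    linarith only [h1, h2, hH1T]

/-- TARGET 2, corrected in the same way (see also `core_alg_both`: both inequalities with the same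
constants) -/
theorem core_alg2 {p α β M0 Z0 : ℝ} (hp : 1 < p) (hα : 0 < α) (hβ : 0 < β) (hM : 0 ≤ M0) (hZ : 0 < Z0)
    (N : ℕ) (hN : p ≤ N) (hN2 : 2 ≤ N) :
    ∃ C C' L : ℝ, 0 ≤ C ∧ 0 ≤ C' ∧ 0 ≤ L ∧ ∀ A0 : E → E, OpPt p α β A0 → ∀ ξ ζ Φ : E, ∀ m z s : ℝ,
      1 ≤ m → m ≤ M0 → 0 < z → z ≤ Z0 → 0 ≤ s → s ≤ 1 →
      ‖((N + 1) * (z * s) ^ N) • (s • (ζ - ξ) - z • Φ)‖ ^ p ≤
      C * (- ((p - 1) * ⟪A0 ξ, (-(z ^ N * s ^ N)) • ξ + (m * (N * z ^ (N - 1) * s ^ N)) • (ζ - ξ)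
            - (m * (N * z ^ N * s ^ (N - 1))) • Φ⟫)
        + N * ⟪A0 ζ - A0 ξ, (-(m * (z ^ (N - 1) * s ^ N))) • ξ
            + (m ^ 2 / 2 * ((N - 1) * z ^ (N - 2) * s ^ N)) • (ζ - ξ)
            - (m ^ 2 / 2 * (N * z ^ (N - 1) * s ^ (N - 1))) • Φ⟫
        + L * ⟪A0 ζ - A0 ξ, ((N - 1) * z ^ (N - 2) * s ^ N) • (ζ - ξ)
            - (N * z ^ (N - 1) * s ^ (N - 1)) • Φ⟫)
      + C' * ‖Φ‖ ^ p := by
  obtain ⟨C, C', L, h1, h2, h3, H⟩ := core_alg_both (E := E) hp hα hβ hM hZ N hN hN2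
  exact ⟨C, C', L, h1, h2, h3, fun A0 hA ξ ζ Φ m z s a1 a2 a3 a4 a5 a6 =>
    (H A0 hA ξ ζ Φ m z s a1 a2 a3 a4 a5 a6).1⟩


end

end Pool.Agent.Helper533.Polar
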