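import Pool.Agent.Helper533.Polar.Test
import Pool.Agent.Helper533.Polar.CoreAlg
open MeasureTheory Filter Topology Set
open scoped ENNReal NNReal RealInnerProductSpace

namespace Pool.Agent.Helper533.Polar

section


/-! ### ALREADY PROVED elsewhere: leave these sorries -/
section Given
variable {n : ℕ} {D D' G G' K : Set (Sp n)} {p α β : ℝ} {μ : Measure (Sp n)} {φ ψ u v f g : Sp n → ℝ}
  {U V F : Sp n → Sp n} {x : Sp n} {A : Sp n → Sp n → Sp n}

end Given

/-! ### TARGETS -/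
section Targets
variable {n : ℕ} {G K : Set (Sp n)} {p α β : ℝ} {μ : Measure (Sp n)} {u v φ : Sp n → ℝ}
  {U V Φ : Sp n → Sp n} {A : Sp n → Sp n → Sp n}

theorem LH.pow [IsFiniteMeasureOnCompacts μ] (hp : 1 < p) (hG : IsOpen G) (h : LH p μ G u U)
    {C : ℝ} (hu : ∀ᵐ x ∂μ, x ∈ G → |u x| ≤ C) (k : ℕ) :
    LH p μ G (fun x => u x ^ k) (fun x => (k * u x ^ (k - 1)) • U x) := by
  induction k with
  | zero =>
    have h0 := LH.const (p := p) (μ := μ) (G := G) (1 : ℝ)
    simpa using h0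
  | succ k ih =>
    set B : ℝ := max 1 |C| with hB
    have hB1 : 1 ≤ B := le_max_left _ _
    have hBC : C ≤ B := (le_abs_self C).trans (le_max_right _ _)
    have hb1 : ∀ᵐ x ∂μ, x ∈ G → |u x ^ k| ≤ B ^ (k + 1) := by
      filter_upwards [hu] with x hx hxG
      have h1 := (hx hxG).trans hBC
      rw [abs_pow]
      calc |u x| ^ k ≤ B ^ k := by gcongr
        _ ≤ B ^ (k + 1) := pow_le_pow_right₀ hB1 (by omega)
    have hb2 : ∀ᵐ x ∂μ, x ∈ G → |u x| ≤ B ^ (k + 1) := by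
      filter_upwards [hu] with x hx hxG
      have h1 := (hx hxG).trans hBC
      calc |u x| ≤ B ^ 1 := by simpa using h1
        _ ≤ B ^ (k + 1) := pow_le_pow_right₀ hB1 (by omega)
    have h2 := LH.mul hp hG ih h hb1 hb2
    have e1 : (fun x => u x ^ (k + 1)) = fun x => u x ^ k * u x := by
      funext x
      rw [pow_succ]
    have e2 : (fun x => (((k + 1 : ℕ) : ℝ) * u x ^ (k + 1 - 1)) • U x) =
        fun x => u x ^ k • U x + u x • (k * u x ^ (k - 1)) • U x := by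
      funext x
      rcases Nat.eq_zero_or_pos k with hk | hk
      · subst hk
        simp
      · obtain ⟨j, rfl⟩ : ∃ j, k = j + 1 := ⟨k - 1, by omega⟩
        rw [smul_smul, ← add_smul]
        congr 1
        push_cast
        ring_nf
    rw [e1, e2]
    exact h2

/-- positive part of the difference in the local class -/
theorem LH.pos_diff [IsFiniteMeasureOnCompacts μ] (hp : 1 < p) (hG : IsOpen G) (hu : LH p μ G u U)
    (hv : LH p μ G v V) {e : ℝ} (he : 0 < e) :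
    LH p μ G (fun x => max (v x - u x - e) 0)
      (fun x => (if e < v x - u x then (1 : ℝ) else 0) • (V x - U x)) := by
  obtain ⟨βk, h1, h2, h3, h4, h5, h6, h7⟩ := exists_profile e he.le
  have h := LH.sub hp hv hu
  exact LH.chain_lim (β := fun s => max (s - e) 0) (b := fun s => if e < s then (1 : ℝ) else 0)
    (C := 1) hp hG h1 (fun k s => by rw [abs_le]; exact ⟨by linarith [(h4 k s).1], (h4 k s).2⟩)
    h5 h6 h

/-- auxiliary: bounded elements of the local class -/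
structure BL (p : ℝ) (μ : Measure (Sp n)) (G : Set (Sp n)) (u : Sp n → ℝ) (U : Sp n → Sp n) :
    Prop where
  h : LH p μ G u U
  b : ∃ C, ∀ᵐ x ∂μ, x ∈ G → |u x| ≤ C

theorem BL.pow [IsFiniteMeasureOnCompacts μ] (hp : 1 < p) (hG : IsOpen G) (h : BL p μ G u U)
    (k : ℕ) : BL p μ G (fun x => u x ^ k) (fun x => (k * u x ^ (k - 1)) • U x) := by
  obtain ⟨C, hC⟩ := h.b
  refine ⟨LH.pow hp hG h.h hC k, C ^ k, ?_⟩
  filter_upwards [hC] with x hx hxG
  rw [abs_pow]
  have := hx hxG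
  gcongr

theorem BL.mul [IsFiniteMeasureOnCompacts μ] (hp : 1 < p) (hG : IsOpen G) (h : BL p μ G u U)
    (h' : BL p μ G v V) : BL p μ G (fun x => u x * v x) (fun x => u x • V x + v x • U x) := by
  obtain ⟨C, hC⟩ := h.b
  obtain ⟨C', hC'⟩ := h'.b
  refine ⟨LH.mul (C := max C C') hp hG h.h h'.h ?_ ?_, C * C', ?_⟩
  · filter_upwards [hC] with x hx hxG
    exact (hx hxG).trans (le_max_left _ _)
  · filter_upwards [hC'] with x hx hxG
    exact (hx hxG).trans (le_max_right _ _)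
  · filter_upwards [hC, hC'] with x hx hx' hxG
    rw [abs_mul]
    exact mul_le_mul (hx hxG) (hx' hxG) (abs_nonneg _) ((abs_nonneg _).trans (hx hxG))

theorem BL.const_mul [IsFiniteMeasureOnCompacts μ] (c : ℝ) (h : BL p μ G u U) :
    BL p μ G (fun x => c * u x) (fun x => c • U x) := by
  obtain ⟨C, hC⟩ := h.b
  refine ⟨LH.const_mul c h.h, |c| * C, ?_⟩
  filter_upwards [hC] with x hx hxG
  rw [abs_mul]
  have := hx hxG
  gcongr

/-- auxiliary: testing with a function of the local class which vanishes off `K` -/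
theorem test_pack [IsFiniteMeasureOnCompacts μ] (hp : 1 < p) (hA : Op p α β μ A) (hG : IsOpen G)
    (hK : IsCompact K) (hKG : K ⊆ G) {f : Sp n → ℝ} {F : Sp n → Sp n} (h : LH p μ G f F)
    (h0 : ∀ᵐ x ∂μ, x ∈ G → 0 ≤ f x)
    (h1 : ∀ᵐ x ∂μ, x ∈ G → x ∉ K → f x = 0 ∧ F x = 0)
    (h2 : ∀ᵐ x ∂μ, x ∈ G → f x = 0 → F x = 0) :
    (∀ (w : Sp n → ℝ) (W : Sp n → Sp n), LH p μ G w W →
      Integrable (fun x => K.indicator (fun x => ⟪A x (W x), F x⟫) x) μ) ∧
    (∀ (w : Sp n → ℝ) (W : Sp n → Sp n), Sup A p μ G w W →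
      0 ≤ ∫ x, K.indicator (fun x => ⟪A x (W x), F x⟫) x ∂μ) ∧
    (∀ (w : Sp n → ℝ) (W : Sp n → Sp n), Sub A p μ G w W →
      ∫ x, K.indicator (fun x => ⟪A x (W x), F x⟫) x ∂μ ≤ 0) := by
  classical
  have e1 : ∀ W : Sp n → Sp n, (fun x => K.indicator (fun x => ⟪A x (W x), F x⟫) x) =
      fun x => ⟪A x (W x), K.indicator F x⟫ := by
    intro W
    funext x
    by_cases hx : x ∈ K
    · rw [indicator_of_mem hx, indicator_of_mem hx]
    · rw [indicator_of_notMem hx, indicator_of_notMem hx, inner_zero_right]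
  have hL : LH p μ G (K.indicator f) (K.indicator F) := by
    refine LH.congr h ?_ ?_
    · filter_upwards [h1] with x hx hxG
      by_cases hxK : x ∈ K
      · rw [indicator_of_mem hxK]
      · rw [indicator_of_notMem hxK]
        exact (hx hxG hxK).1
    · filter_upwards [h1] with x hx hxG
      by_cases hxK : x ∈ K
      · rw [indicator_of_mem hxK]
      · rw [indicator_of_notMem hxK]
        exact (hx hxG hxK).2
  have hoff : ∀ᵐ x ∂μ, x ∉ K → K.indicator f x = 0 :=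
    Eventually.of_forall fun x hx => indicator_of_notMem hx _
  have hoff' : ∀ᵐ x ∂μ, x ∉ K → K.indicator F x = 0 :=
    Eventually.of_forall fun x hx => indicator_of_notMem hx _
  have hnn : ∀ᵐ x ∂μ, 0 ≤ K.indicator f x := by
    filter_upwards [h0] with x hx
    by_cases hxK : x ∈ K
    · rw [indicator_of_mem hxK]
      exact hx (hKG hxK)
    · rw [indicator_of_notMem hxK]
  have hz0 : ∀ᵐ x ∂μ, K.indicator f x = 0 → K.indicator F x = 0 := by
    filter_upwards [h2] with x hx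
    by_cases hxK : x ∈ K
    · rw [indicator_of_mem hxK, indicator_of_mem hxK]
      exact hx (hKG hxK)
    · rw [indicator_of_notMem hxK, indicator_of_notMem hxK]
      intro _
      rfl
  have hM : MemLp (K.indicator F) (ENNReal.ofReal p) μ := (LH.toH0 hL hG hK hKG hoff hoff').mU
  refine ⟨?_, ?_, ?_⟩
  · intro w W hw
    rw [e1]
    exact integrable_flux hp hA hw hG hK hKG hM hoff'
  · intro w W hw
    rw [e1]
    exact Sup.test hp hA hw hL hG hK hKG hnn hoff hz0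
  · intro w W hw
    rw [e1]
    exact Sub.test hp hA hw hL hG hK hKG hnn hoff hz0

/-- the three test functions -/
theorem core_tests [IsFiniteMeasureOnCompacts μ] (hp : 1 < p) (hα : 0 < α) (hβ : 0 < β)
    (hA : Op p α β μ A) (hG : IsOpen G) (hK : IsCompact K) (hKG : K ⊆ G)
    (hu : Sup A p μ G u U) (hv : Sub A p μ G v V) {M0 e : ℝ} (he : 0 < e) (hM0 : 0 ≤ M0)
    (hb : ∀ᵐ x ∂μ, x ∈ G → |u x| ≤ M0 ∧ |v x| ≤ M0)
    (hφ : H0 p μ univ φ Φ) (hφ01 : ∀ᵐ x ∂μ, 0 ≤ φ x ∧ φ x ≤ 1)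
    (hvan : ∀ᵐ x ∂μ, x ∈ G → x ∉ K → max (v x - u x - e) 0 * (1 - φ x) = 0)
    (N : ℕ) (hN2 : 2 ≤ N) (z s m : Sp n → ℝ) (hz : z = fun x => max (v x - u x - e) 0)
    (hs : s = fun x => 1 - φ x) (hm : m = fun x => M0 + 1 - u x)
    (Z : Sp n → Sp n) (hZ : Z = fun x => (if e < v x - u x then (1 : ℝ) else 0) • (V x - U x)) :
    (Integrable (fun x => K.indicator (fun x => ⟪A x (U x), (-(z x ^ N * s x ^ N)) • U x + (m x * (N * z x ^ (N - 1) * s x ^ N)) • Z x
            - (m x * (N * z x ^ N * s x ^ (N - 1))) • Φ x⟫) x) μ ∧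
      0 ≤ ∫ x, K.indicator (fun x => ⟪A x (U x), (-(z x ^ N * s x ^ N)) • U x + (m x * (N * z x ^ (N - 1) * s x ^ N)) • Z x
            - (m x * (N * z x ^ N * s x ^ (N - 1))) • Φ x⟫) x ∂μ) ∧
    (Integrable (fun x => K.indicator (fun x => ⟪A x (V x) - A x (U x), (-(m x * (z x ^ (N - 1) * s x ^ N))) • U x
            + (m x ^ 2 / 2 * ((N - 1) * z x ^ (N - 2) * s x ^ N)) • Z x
            - (m x ^ 2 / 2 * (N * z x ^ (N - 1) * s x ^ (N - 1))) • Φ x⟫) x) μ ∧
      ∫ x, K.indicator (fun x => ⟪A x (V x) - A x (U x), (-(m x * (z x ^ (N - 1) * s x ^ N))) • U x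
            + (m x ^ 2 / 2 * ((N - 1) * z x ^ (N - 2) * s x ^ N)) • Z x
            - (m x ^ 2 / 2 * (N * z x ^ (N - 1) * s x ^ (N - 1))) • Φ x⟫) x ∂μ ≤ 0) ∧
    (Integrable (fun x => K.indicator (fun x => ⟪A x (V x) - A x (U x), ((N - 1) * z x ^ (N - 2) * s x ^ N) • Z x
            - (N * z x ^ (N - 1) * s x ^ (N - 1)) • Φ x⟫) x) μ ∧
      ∫ x, K.indicator (fun x => ⟪A x (V x) - A x (U x), ((N - 1) * z x ^ (N - 2) * s x ^ N) • Z x
            - (N * z x ^ (N - 1) * s x ^ (N - 1)) • Φ x⟫) x ∂μ ≤ 0) := by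
  classical
  -- the three basic functions
  have hzL : BL p μ G z Z := by
    rw [hz, hZ]
    refine ⟨LH.pos_diff hp hG hu.1 hv.1 he, 2 * M0, ?_⟩
    filter_upwards [hb] with x hx hxG
    obtain ⟨h1, h2⟩ := hx hxG
    rw [abs_le] at h1 h2
    rw [abs_of_nonneg (le_max_right _ _)]
    refine max_le ?_ (by linarith)
    linarith [h1.1, h2.2]
  have hsL : BL p μ G s (fun x => - Φ x) := by
    have h1 := LH.sub hp (LH.const (p := p) (μ := μ) (G := G) (1 : ℝ)) (H0.toLH (G := G) hp hφ)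
    rw [hs]
    refine ⟨by simpa using h1, 1, ?_⟩
    filter_upwards [hφ01] with x hx _
    rw [abs_le]
    constructor
    · linarith [hx.2]
    · linarith [hx.1]
  have hmL : BL p μ G m (fun x => - U x) := by
    have h1 := LH.sub hp (LH.const (p := p) (μ := μ) (G := G) (M0 + 1 : ℝ)) hu.1
    rw [hm]
    refine ⟨by simpa using h1, 2 * M0 + 1, ?_⟩
    filter_upwards [hb] with x hx hxG
    obtain ⟨h1, h2⟩ := hx hxG
    rw [abs_le] at h1
    rw [abs_le]
    constructor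
    · linarith [h1.1, h1.2]
    · linarith [h1.1, h1.2]
  have hm1 : ∀ᵐ x ∂μ, x ∈ G → 1 ≤ m x := by
    filter_upwards [hb] with x hx hxG
    obtain ⟨h1, h2⟩ := hx hxG
    rw [abs_le] at h1
    rw [hm]
    show 1 ≤ M0 + 1 - u x
    linarith [h1.2]
  have hz0 : ∀ x, 0 ≤ z x := by
    intro x
    rw [hz]
    exact le_max_right _ _
  have hs0 : ∀ᵐ x ∂μ, 0 ≤ s x := by
    filter_upwards [hφ01] with x hx
    rw [hs]
    show 0 ≤ 1 - φ x
    linarith [hx.2]
  have hZ0 : ∀ x, z x = 0 → Z x = 0 := by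
    intro x hx
    rw [hz] at hx
    have h1 : v x - u x - e ≤ 0 := by
      have : max (v x - u x - e) 0 = 0 := hx
      exact max_eq_right_iff.1 this
    rw [hZ]
    show (if e < v x - u x then (1 : ℝ) else 0) • (V x - U x) = 0
    rw [if_neg (by linarith), zero_smul]
  have hvan' : ∀ᵐ x ∂μ, x ∈ G → x ∉ K → z x = 0 ∨ s x = 0 := by
    filter_upwards [hvan] with x hx hxG hxK
    have h1 := mul_eq_zero.1 (hx hxG hxK)
    rw [hz, hs]
    exact h1
  have hN0 : N ≠ 0 := by omega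
  have hN1 : N - 1 ≠ 0 := by omega
  have hcast : ((N - 1 : ℕ) : ℝ) = (N : ℝ) - 1 := by
    rw [Nat.cast_sub (by omega)]
    simp
  have hNN : N - 1 - 1 = N - 2 := by omega
  -- products
  have hzN := BL.pow hp hG hzL N
  have hzN1 := BL.pow hp hG hzL (N - 1)
  have hsN := BL.pow hp hG hsL N
  have hm2 := BL.const_mul (1 / 2) (BL.pow hp hG hmL 2)
  -- f1
  have hf1 : LH p μ G (fun x => m x * (z x ^ N * s x ^ N))
      (fun x => (-(z x ^ N * s x ^ N)) • U x + (m x * (N * z x ^ (N - 1) * s x ^ N)) • Z x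
            - (m x * (N * z x ^ N * s x ^ (N - 1))) • Φ x) := by
    have h1 := (BL.mul hp hG hmL (BL.mul hp hG hzN hsN)).h
    refine LH.congr h1 (Eventually.of_forall fun x _ => rfl) (Eventually.of_forall fun x _ => ?_)
    module
  have hf3 : LH p μ G (fun x => z x ^ (N - 1) * s x ^ N)
      (fun x => ((N - 1) * z x ^ (N - 2) * s x ^ N) • Z x
            - (N * z x ^ (N - 1) * s x ^ (N - 1)) • Φ x) := by
    have h1 := (BL.mul hp hG hzN1 hsN).h
    refine LH.congr h1 (Eventually.of_forall fun x _ => rfl) (Eventually.of_forall fun x _ => ?_)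
    rw [hcast, hNN]
    module
  have hf2 : LH p μ G (fun x => m x ^ 2 / 2 * (z x ^ (N - 1) * s x ^ N))
      (fun x => (-(m x * (z x ^ (N - 1) * s x ^ N))) • U x
            + (m x ^ 2 / 2 * ((N - 1) * z x ^ (N - 2) * s x ^ N)) • Z x
            - (m x ^ 2 / 2 * (N * z x ^ (N - 1) * s x ^ (N - 1))) • Φ x) := by
    have h1 := (BL.mul hp hG hm2 (BL.mul hp hG hzN1 hsN)).h
    refine LH.congr h1 (Eventually.of_forall fun x _ => ?_) (Eventually.of_forall fun x _ => ?_)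
    · ring
    · rw [hcast, hNN]
      simp only [Nat.cast_ofNat, Nat.add_one_sub_one, pow_one]
      module
  -- vanishing
  have hv1 : ∀ x, (z x = 0 ∨ s x = 0) → m x * (z x ^ N * s x ^ N) = 0 ∧
      ((-(z x ^ N * s x ^ N)) • U x + (m x * (N * z x ^ (N - 1) * s x ^ N)) • Z x
            - (m x * (N * z x ^ N * s x ^ (N - 1))) • Φ x) = 0 := by
    rintro x (hx | hx)
    · rw [hZ0 x hx, hx, zero_pow hN0, zero_pow hN1]
      simp
    · rw [hx, zero_pow hN0, zero_pow hN1]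
      simp
  have hv2 : ∀ x, (z x = 0 ∨ s x = 0) → m x ^ 2 / 2 * (z x ^ (N - 1) * s x ^ N) = 0 ∧
      ((-(m x * (z x ^ (N - 1) * s x ^ N))) • U x
            + (m x ^ 2 / 2 * ((N - 1) * z x ^ (N - 2) * s x ^ N)) • Z x
            - (m x ^ 2 / 2 * (N * z x ^ (N - 1) * s x ^ (N - 1))) • Φ x) = 0 := by
    rintro x (hx | hx)
    · rw [hZ0 x hx, hx, zero_pow hN1]
      simp
    · rw [hx, zero_pow hN0, zero_pow hN1]
      simp
  have hv3 : ∀ x, (z x = 0 ∨ s x = 0) → z x ^ (N - 1) * s x ^ N = 0 ∧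
      (((N - 1) * z x ^ (N - 2) * s x ^ N) • Z x
            - (N * z x ^ (N - 1) * s x ^ (N - 1)) • Φ x) = 0 := by
    rintro x (hx | hx)
    · rw [hZ0 x hx, hx, zero_pow hN1]
      simp
    · rw [hx, zero_pow hN0, zero_pow hN1]
      simp
  have hzs : ∀ x, ∀ a b : ℕ, z x ^ a * s x ^ b = 0 → z x = 0 ∨ s x = 0 := by
    intro x a b h
    rcases mul_eq_zero.1 h with h | h
    · left
      by_contra hne
      exact pow_ne_zero a hne h
    · right
      by_contra hne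
      exact pow_ne_zero b hne h
  -- packs
  have P1 := test_pack (α := α) (β := β) (A := A) hp hA hG hK hKG hf1
    (by
      filter_upwards [hm1, hs0] with x h1 h2 hxG
      have := h1 hxG
      have := hz0 x
      positivity)
    (by
      filter_upwards [hvan'] with x h1 hxG hxK
      exact hv1 x (h1 hxG hxK))
    (by
      filter_upwards [hm1] with x h1 hxG hx
      have h2 := h1 hxG
      rcases mul_eq_zero.1 hx with h3 | h3
      · linarith
      · exact (hv1 x (hzs x _ _ h3)).2)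
  have P2 := test_pack (α := α) (β := β) (A := A) hp hA hG hK hKG hf2
    (by
      filter_upwards [hm1, hs0] with x h1 h2 hxG
      have := h1 hxG
      have := hz0 x
      positivity)
    (by
      filter_upwards [hvan'] with x h1 hxG hxK
      exact hv2 x (h1 hxG hxK))
    (by
      filter_upwards [hm1] with x h1 hxG hx
      have h2 := h1 hxG
      rcases mul_eq_zero.1 hx with h3 | h3
      · exfalso
        have : 0 < m x ^ 2 / 2 := by positivity
        linarith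
      · exact (hv2 x (hzs x _ _ h3)).2)
  have P3 := test_pack (α := α) (β := β) (A := A) hp hA hG hK hKG hf3
    (by
      filter_upwards [hm1, hs0] with x h1 h2 hxG
      have := h1 hxG
      have := hz0 x
      positivity)
    (by
      filter_upwards [hvan'] with x h1 hxG hxK
      exact hv3 x (h1 hxG hxK))
    (by
      filter_upwards [hm1] with x h1 hxG hx
      exact (hv3 x (hzs x _ _ hx)).2)
  -- subtraction
  have hsub : ∀ F : Sp n → Sp n, (fun x => K.indicator (fun x => ⟪A x (V x) - A x (U x), F x⟫) x) =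
      fun x => K.indicator (fun x => ⟪A x (V x), F x⟫) x -
        K.indicator (fun x => ⟪A x (U x), F x⟫) x := by
    intro F
    funext x
    by_cases hx : x ∈ K
    · rw [indicator_of_mem hx, indicator_of_mem hx, indicator_of_mem hx, inner_sub_left]
    · rw [indicator_of_notMem hx, indicator_of_notMem hx, indicator_of_notMem hx, sub_zero]
  refine ⟨⟨P1.1 u U hu.1, P1.2.1 u U hu⟩, ⟨?_, ?_⟩, ?_, ?_⟩
  · rw [hsub]
    exact (P2.1 v V hv.1).sub (P2.1 u U hu.1)
  · rw [hsub, integral_sub (P2.1 v V hv.1) (P2.1 u U hu.1)]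
    linarith [P2.2.1 u U hu, P2.2.2 v V hv]
  · rw [hsub]
    exact (P3.1 v V hv.1).sub (P3.1 u U hu.1)
  · rw [hsub, integral_sub (P3.1 v V hv.1) (P3.1 u U hu.1)]
    linarith [P3.2.1 u U hu, P3.2.2 v V hv]

end Targets


end

section


/-! ### ALREADY PROVED elsewhere: leave these sorries -/
section Given
variable {n : ℕ} {D D' G G' K : Set (Sp n)} {p α β : ℝ} {μ : Measure (Sp n)} {φ ψ u v f g : Sp n → ℝ}
  {U V F : Sp n → Sp n} {x : Sp n} {A : Sp n → Sp n → Sp n}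

end Given
/-! ### also ALREADY PROVED elsewhere -/
section Targets
variable {n : ℕ} {G K : Set (Sp n)} {p α β : ℝ} {μ : Measure (Sp n)} {u v φ : Sp n → ℝ}
  {U V Φ : Sp n → Sp n} {A : Sp n → Sp n → Sp n}

end Targets

/-! ### TARGET -/
section Targets2
variable {n : ℕ}

theorem core_energy {p α β M0 : ℝ} (hp : 1 < p) (hα : 0 < α) (hβ : 0 < β) (hM0 : 0 ≤ M0) :
    ∃ N : ℕ, ∃ C : ℝ, 0 ≤ C ∧ ∀ (A : Sp n → Sp n → Sp n) (μ : Measure (Sp n))
      [IsFiniteMeasureOnCompacts μ], Op p α β μ A → ∀ (G K : Set (Sp n)), IsOpen G → IsCompact K →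
      K ⊆ G → ∀ (u v φ : Sp n → ℝ) (U V Φ : Sp n → Sp n) (e : ℝ), 0 < e →
      Sup A p μ G u U → Sub A p μ G v V → (∀ᵐ x ∂μ, x ∈ G → |u x| ≤ M0 ∧ |v x| ≤ M0) →
      H0 p μ univ φ Φ → (∀ᵐ x ∂μ, 0 ≤ φ x ∧ φ x ≤ 1) →
      (∀ᵐ x ∂μ, x ∈ G → x ∉ K → max (v x - u x - e) 0 * (1 - φ x) = 0) →
      ∃ TT : Sp n → Sp n, H0 p μ G (K.indicator fun x => (max (v x - u x - e) 0 * (1 - φ x)) ^ (N + 1)) TT ∧
        eLpNorm TT (ENNReal.ofReal p) μ ≤ ENNReal.ofReal C * eLpNorm Φ (ENNReal.ofReal p) μ := by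
  have hp0 : 0 < p := by linarith
  obtain ⟨N, hNdef⟩ : ∃ N : ℕ, N = max 2 ⌈p⌉₊ := ⟨_, rfl⟩
  have hN2 : 2 ≤ N := by rw [hNdef]; exact le_max_left _ _
  have hNp : p ≤ N := by
    refine (Nat.le_ceil p).trans ?_
    rw [hNdef]
    exact_mod_cast le_max_right _ _
  obtain ⟨C', C2, L, hC', hC2, hL, halg⟩ := core_alg2 (E := Sp n) (p := p) (α := α) (β := β)
    (M0 := 2 * M0 + 1) (Z0 := 2 * M0 + 1) hp hα hβ (by linarith) (by linarith) N hNp hN2
  refine ⟨N, C2 ^ (1 / p), Real.rpow_nonneg hC2 _, ?_⟩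
  intro A μ _ hA G K hG hK hKG u v φ U V Φ e he hu hv hb hφ hφ01 hvan
  obtain ⟨z, hz⟩ : ∃ z : Sp n → ℝ, z = fun x => max (v x - u x - e) 0 := ⟨_, rfl⟩
  obtain ⟨s, hs⟩ : ∃ s : Sp n → ℝ, s = fun x => 1 - φ x := ⟨_, rfl⟩
  obtain ⟨m, hm⟩ : ∃ m : Sp n → ℝ, m = fun x => M0 + 1 - u x := ⟨_, rfl⟩
  obtain ⟨Z, hZ⟩ : ∃ Z : Sp n → Sp n,
    Z = fun x => (if e < v x - u x then (1 : ℝ) else 0) • (V x - U x) := ⟨_, rfl⟩
  obtain ⟨⟨iW1, pW1⟩, ⟨iW2, pW2⟩, ⟨iW3, pW3⟩⟩ := core_tests hp hα hβ hA hG hK hKG hu hv he hM0 hb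
    hφ hφ01 hvan N hN2 z s m hz hs hm Z hZ
  -- local classes
  have l1 : LH p μ G z Z := by
    rw [hz, hZ]
    exact LH.pos_diff hp hG hu.1 hv.1 he
  have l2 : LH p μ G s (fun x => (0 : Sp n) - Φ x) := by
    rw [hs]
    exact LH.sub hp (LH.const 1) (hφ.toLH hp)
  have hzb : ∀ᵐ x ∂μ, x ∈ G → 0 ≤ z x ∧ z x ≤ 2 * M0 + 1 := by
    filter_upwards [hb] with x hx hxG
    obtain ⟨h1, h2⟩ := hx hxG
    rw [abs_le] at h1 h2
    rw [hz]
    refine ⟨le_max_right _ _, max_le ?_ ?_⟩ <;> linarith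
  have hsb : ∀ᵐ x ∂μ, 0 ≤ s x ∧ s x ≤ 1 := by
    filter_upwards [hφ01] with x hx
    rw [hs]
    constructor <;> linarith [hx.1, hx.2]
  have l3 := LH.mul hp hG l1 l2 (C := 2 * M0 + 1)
    (by
      filter_upwards [hzb] with x hx hxG
      rw [abs_of_nonneg (hx hxG).1]
      exact (hx hxG).2)
    (by
      filter_upwards [hsb] with x hx _
      rw [abs_of_nonneg hx.1]
      linarith [hx.2])
  have l4 := LH.pow hp hG l3 (C := 2 * M0 + 1)
    (by
      filter_upwards [hzb, hsb] with x hx hx' hxG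
      obtain ⟨h1, h2⟩ := hx hxG
      rw [abs_of_nonneg (mul_nonneg h1 hx'.1)]
      calc z x * s x ≤ z x * 1 := mul_le_mul_of_nonneg_left hx'.2 h1
        _ ≤ 2 * M0 + 1 := by linarith) (N + 1)
  have hvan' : ∀ᵐ x ∂μ, x ∈ G → x ∉ K → z x * s x = 0 := by
    rw [hz, hs]
    exact hvan
  set TT : Sp n → Sp n := K.indicator
    (fun x => ((N + 1) * (z x * s x) ^ N) • (s x • Z x - z x • Φ x)) with hTT
  have hN0 : N ≠ 0 := by omega
  have l5 : LH p μ G (K.indicator fun x => (z x * s x) ^ (N + 1)) TT := by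
    refine LH.congr l4 ?_ ?_
    · filter_upwards [hvan'] with x hx hxG
      by_cases hxK : x ∈ K
      · rw [indicator_of_mem hxK]
      · rw [indicator_of_notMem hxK, hx hxG hxK, zero_pow (by omega)]
    · filter_upwards [hvan'] with x hx hxG
      by_cases hxK : x ∈ K
      · rw [hTT, indicator_of_mem hxK]
        have e1 : (((N + 1 : ℕ) : ℝ) * (z x * s x) ^ (N + 1 - 1))
            = ((N : ℝ) + 1) * (z x * s x) ^ N := by
          push_cast
          rfl
        rw [e1]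
        congr 1
        rw [zero_sub, smul_neg]
        abel
      · rw [hTT, indicator_of_notMem hxK, hx hxG hxK]
        have e1 : (0 : ℝ) ^ (N + 1 - 1) = 0 := zero_pow (by omega)
        rw [e1, mul_zero, zero_smul]
  have hH0 : H0 p μ G (K.indicator fun x => (z x * s x) ^ (N + 1)) TT :=
    LH.toH0 l5 hG hK hKG
      (Eventually.of_forall fun x hx => indicator_of_notMem hx _)
      (Eventually.of_forall fun x hx => indicator_of_notMem hx _)
  refine ⟨TT, ?_, ?_⟩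
  · rw [hz, hs] at hH0
    exact hH0
  -- energy estimate
  have hpE0 : ENNReal.ofReal p ≠ 0 := (ENNReal.ofReal_pos.2 hp0).ne'
  have hpEt : ENNReal.ofReal p ≠ ∞ := ENNReal.ofReal_ne_top
  have hop : ∀ᵐ x ∂μ, OpPt p α β (A x) := by
    filter_upwards [hA.coer, hA.bdd, hA.mono, hA.hom] with x h1 h2 h3 h4
    exact ⟨h1, h2, h3, h4⟩
  have hTi := hH0.mU.integrable_norm_rpow hpE0 hpEt
  have hΦi := hφ.mU.integrable_norm_rpow hpE0 hpEt
  rw [ENNReal.toReal_ofReal hp0.le] at hTi hΦi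
  obtain ⟨W1, hW1⟩ : ∃ W1 : Sp n → ℝ, W1 = fun x => K.indicator (fun x => ⟪A x (U x), (-(z x ^ N * s x ^ N)) • U x + (m x * (N * z x ^ (N - 1) * s x ^ N)) • Z x
            - (m x * (N * z x ^ N * s x ^ (N - 1))) • Φ x⟫) x := ⟨_, rfl⟩
  obtain ⟨W2, hW2⟩ : ∃ W2 : Sp n → ℝ, W2 = fun x => K.indicator (fun x => ⟪A x (V x) - A x (U x), (-(m x * (z x ^ (N - 1) * s x ^ N))) • U x
            + (m x ^ 2 / 2 * ((N - 1) * z x ^ (N - 2) * s x ^ N)) • Z x
            - (m x ^ 2 / 2 * (N * z x ^ (N - 1) * s x ^ (N - 1))) • Φ x⟫) x := ⟨_, rfl⟩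
  obtain ⟨W3, hW3⟩ : ∃ W3 : Sp n → ℝ, W3 = fun x => K.indicator (fun x => ⟪A x (V x) - A x (U x), ((N - 1) * z x ^ (N - 2) * s x ^ N) • Z x
            - (N * z x ^ (N - 1) * s x ^ (N - 1)) • Φ x⟫) x := ⟨_, rfl⟩
  rw [← hW1] at iW1 pW1
  rw [← hW2] at iW2 pW2
  rw [← hW3] at iW3 pW3
  have hpt : ∀ᵐ x ∂μ, ‖TT x‖ ^ p ≤ C' * (-((p - 1) * W1 x) + N * W2 x + L * W3 x)
      + C2 * ‖Φ x‖ ^ p := by
    filter_upwards [hop, hzb, hsb, hb] with x h1 h2 h3 h4
    by_cases hxK : x ∈ K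
    · have hxG := hKG hxK
      obtain ⟨hz0, hz1⟩ := h2 hxG
      have hu1 := (abs_le.1 (h4 hxG).1)
      rw [hTT, hW1, hW2, hW3]
      simp only [indicator_of_mem hxK]
      rcases hz0.eq_or_lt with h0 | h0
      · have hZ0 : Z x = 0 := by
          have h5 : v x - u x - e ≤ 0 := by
            have h6 : max (v x - u x - e) 0 = 0 := by
              rw [hz] at h0
              exact h0.symm
            exact le_of_le_of_eq (le_max_left _ _) h6
          rw [hZ]
          change (if e < v x - u x then (1 : ℝ) else 0) • (V x - U x) = 0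
          rw [if_neg (by linarith), zero_smul]
        have e1 : (0 : ℝ) ^ N = 0 := zero_pow hN0
        have e2 : (0 : ℝ) ^ (N - 1) = 0 := zero_pow (by omega)
        have hΦ0 : 0 ≤ C2 * ‖Φ x‖ ^ p := mul_nonneg hC2 (Real.rpow_nonneg (norm_nonneg _) _)
        rw [← h0, hZ0]
        simp only [zero_mul, e1, e2, mul_zero, neg_zero, zero_smul, smul_zero, add_zero, sub_zero,
          inner_zero_right, norm_zero, sub_self, zero_add]
        rw [Real.zero_rpow hp0.ne']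
        exact hΦ0
      · have hZ1 : Z x = V x - U x := by
          have h5 : e < v x - u x := by
            by_contra hcon
            have h6 : z x = 0 := by
              rw [hz]
              exact max_eq_right (by linarith)
            linarith
          rw [hZ]
          change (if e < v x - u x then (1 : ℝ) else 0) • (V x - U x) = _
          rw [if_pos h5, one_smul]
        rw [hZ1]
        have hmx : m x = M0 + 1 - u x := by rw [hm]
        exact halg (A x) h1 (U x) (V x) (Φ x) (m x) (z x) (s x) (by rw [hmx]; linarith [hu1.2])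
          (by rw [hmx]; linarith [hu1.1]) h0 hz1 h3.1 h3.2
    · rw [hTT, hW1, hW2, hW3]
      simp only [indicator_of_notMem hxK]
      rw [norm_zero, Real.zero_rpow hp0.ne']
      have hΦ0 : 0 ≤ C2 * ‖Φ x‖ ^ p := mul_nonneg hC2 (Real.rpow_nonneg (norm_nonneg _) _)
      simpa using hΦ0
  have hint : Integrable (fun x => C' * (-((p - 1) * W1 x) + N * W2 x + L * W3 x)
      + C2 * ‖Φ x‖ ^ p) μ :=
    (((((iW1.const_mul (p - 1)).neg).add (iW2.const_mul (N : ℝ))).add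
      (iW3.const_mul L)).const_mul C').add (hΦi.const_mul C2)
  have hle := integral_mono_ae hTi hint hpt
  have hval : ∫ x, (C' * (-((p - 1) * W1 x) + N * W2 x + L * W3 x) + C2 * ‖Φ x‖ ^ p) ∂μ
      = C' * (-((p - 1) * ∫ x, W1 x ∂μ) + N * (∫ x, W2 x ∂μ) + L * ∫ x, W3 x ∂μ)
        + C2 * ∫ x, ‖Φ x‖ ^ p ∂μ := by
    have j1 : Integrable (fun x => -((p - 1) * W1 x)) μ := (iW1.const_mul (p - 1)).neg
    have j2 : Integrable (fun x => (N : ℝ) * W2 x) μ := iW2.const_mul (N : ℝ)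
    have j3 : Integrable (fun x => L * W3 x) μ := iW3.const_mul L
    have j12 : Integrable (fun x => -((p - 1) * W1 x) + N * W2 x) μ := j1.add j2
    have j123 : Integrable (fun x => -((p - 1) * W1 x) + N * W2 x + L * W3 x) μ := j12.add j3
    rw [integral_add (j123.const_mul C') (hΦi.const_mul C2), integral_const_mul,
      integral_const_mul, integral_add j12 j3, integral_add j1 j2, integral_neg,
      integral_const_mul, integral_const_mul, integral_const_mul]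
  have hfin : ∫ x, ‖TT x‖ ^ p ∂μ ≤ C2 * ∫ x, ‖Φ x‖ ^ p ∂μ := by
    refine hle.trans ?_
    rw [hval]
    have k1 : 0 ≤ (p - 1) * ∫ x, W1 x ∂μ := mul_nonneg (by linarith) pW1
    have k2 : (N : ℝ) * ∫ x, W2 x ∂μ ≤ 0 := mul_nonpos_of_nonneg_of_nonpos (Nat.cast_nonneg _) pW2
    have k3 : L * ∫ x, W3 x ∂μ ≤ 0 := mul_nonpos_of_nonneg_of_nonpos hL pW3
    have k4 : C' * (-((p - 1) * ∫ x, W1 x ∂μ) + N * (∫ x, W2 x ∂μ) + L * ∫ x, W3 x ∂μ) ≤ 0 :=
      mul_nonpos_of_nonneg_of_nonpos hC' (by linarith)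
    linarith
  rw [MemLp.eLpNorm_eq_integral_rpow_norm hpE0 hpEt hH0.mU,
    MemLp.eLpNorm_eq_integral_rpow_norm hpE0 hpEt hφ.mU, ENNReal.toReal_ofReal hp0.le,
    ← ENNReal.ofReal_mul (Real.rpow_nonneg hC2 _)]
  apply ENNReal.ofReal_le_ofReal
  have hT0 : 0 ≤ ∫ x, ‖TT x‖ ^ p ∂μ := integral_nonneg fun x => Real.rpow_nonneg (norm_nonneg _) _
  have hF0 : 0 ≤ ∫ x, ‖Φ x‖ ^ p ∂μ := integral_nonneg fun x => Real.rpow_nonneg (norm_nonneg _) _
  calc (∫ x, ‖TT x‖ ^ p ∂μ) ^ p⁻¹ ≤ (C2 * ∫ x, ‖Φ x‖ ^ p ∂μ) ^ p⁻¹ :=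
        Real.rpow_le_rpow hT0 hfin (by positivity)
    _ = C2 ^ (1 / p) * (∫ x, ‖Φ x‖ ^ p ∂μ) ^ p⁻¹ := by
        rw [Real.mul_rpow hC2 hF0, one_div]

end Targets2


end

end Pool.Agent.Helper533.Polar
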