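import Pool.Agent.Helper533.Polar.Test
import Pool.Agent.Helper533.Polar.Abs
open MeasureTheory Filter Topology Set
open scoped ENNReal NNReal RealInnerProductSpace

namespace Pool.Agent.Helper533.Polar

section


/-! ### TARGET -/

theorem bcut_bound : ∃ M : ℝ, 0 ≤ M ∧ ∀ t : ℝ, |deriv Real.smoothTransition t| ≤ M := by
  have hc : Continuous (deriv Real.smoothTransition) :=
    (Real.smoothTransition.contDiff (n := 1)).continuous_deriv le_rfl
  obtain ⟨M, hM⟩ := (isCompact_Icc (a := (0 : ℝ)) (b := 1)).exists_bound_of_continuousOn hc.continuousOn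
  have hM0 : 0 ≤ M := le_trans (norm_nonneg _) (hM 0 ⟨le_rfl, zero_le_one⟩)
  refine ⟨M, hM0, fun t => ?_⟩
  by_cases h : t ∈ Icc (0 : ℝ) 1
  · exact hM t h
  · have h0 : deriv Real.smoothTransition t = 0 := by
      rcases lt_or_ge t 0 with h1 | h1
      · have e : Real.smoothTransition =ᶠ[𝓝 t] fun _ => (0 : ℝ) := by
          filter_upwards [Iio_mem_nhds h1] with z hz
          exact Real.smoothTransition.zero_of_nonpos (le_of_lt hz)
        rw [e.deriv_eq, deriv_const]
      · have h2 : 1 < t := by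
          by_contra hh
          exact h ⟨h1, not_lt.mp hh⟩
        have e : Real.smoothTransition =ᶠ[𝓝 t] fun _ => (1 : ℝ) := by
          filter_upwards [Ioi_mem_nhds h2] with z hz
          exact Real.smoothTransition.one_of_one_le (le_of_lt hz)
        rw [e.deriv_eq, deriv_const]
    rw [h0, abs_zero]; exact hM0

theorem bcut_deriv_neg {t : ℝ} (ht : t < 0) : deriv Real.smoothTransition t = 0 := by
  have e : Real.smoothTransition =ᶠ[𝓝 t] fun _ => (0 : ℝ) := by
    filter_upwards [Iio_mem_nhds ht] with z hz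
    exact Real.smoothTransition.zero_of_nonpos (le_of_lt hz)
  rw [e.deriv_eq, deriv_const]

theorem bcut_hasFDerivAt {n : ℕ} (x : Sp n) (a D : ℝ) (y : Sp n) :
    HasFDerivAt (fun z : Sp n => (a - ‖z - x‖ ^ 2) / D) ((-(2 / D)) • innerSL ℝ (y - x)) y := by
  have h1 : HasFDerivAt (fun z : Sp n => z - x) (ContinuousLinearMap.id ℝ (Sp n)) y :=
    (hasFDerivAt_id y).sub_const x
  have h2 := h1.norm_sq
  have h3 := (h2.const_sub a).const_mul (D⁻¹)
  have e1 : (fun z : Sp n => (a - ‖z - x‖ ^ 2) / D) = fun z : Sp n => D⁻¹ * (a - ‖z - x‖ ^ 2) := by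
    funext z; rw [div_eq_inv_mul]
  rw [e1]
  refine h3.congr_fderiv ?_
  ext z
  simp only [ContinuousLinearMap.smul_apply, ContinuousLinearMap.neg_apply,
    ContinuousLinearMap.comp_apply, ContinuousLinearMap.id_apply, smul_eq_mul, nsmul_eq_mul,
    innerSL_apply_apply]
  push_cast
  ring

/-- cutoff functions between concentric balls -/
theorem exists_ball_cutoff (n : ℕ) : ∃ C0 : ℝ, 0 < C0 ∧ ∀ (x : Sp n) (r R : ℝ), 0 < r → r < R →
    ∃ η : Sp n → ℝ, Cc (Metric.ball x R) η ∧ (∀ y, 0 ≤ η y ∧ η y ≤ 1) ∧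
      (∀ y ∈ Metric.closedBall x r, η y = 1) ∧ (∀ y, ‖gradient η y‖ ≤ C0 / (R - r)) := by
  obtain ⟨M, hM0, hM⟩ := bcut_bound
  refine ⟨4 * M + 1, by linarith, ?_⟩
  intro x r R hr hrR
  obtain ⟨R1, hR1⟩ : ∃ R1 : ℝ, R1 = (r + R) / 2 := ⟨_, rfl⟩
  have h1 : r < R1 := by rw [hR1]; linarith
  have h2 : R1 < R := by rw [hR1]; linarith
  obtain ⟨D, hD⟩ : ∃ D : ℝ, D = R1 ^ 2 - r ^ 2 := ⟨_, rfl⟩
  have hD0 : 0 < D := by rw [hD]; nlinarith
  have hst : ContDiff ℝ (⊤ : ℕ∞) Real.smoothTransition := Real.smoothTransition.contDiff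
  have hgs : ContDiff ℝ (⊤ : ℕ∞) (fun y : Sp n => (R1 ^ 2 - ‖y - x‖ ^ 2) / D) := by
    apply ContDiff.div_const
    apply ContDiff.sub contDiff_const
    exact (contDiff_id.sub contDiff_const).norm_sq ℝ
  have hout : ∀ y : Sp n, y ∉ Metric.closedBall x R1 →
      Real.smoothTransition ((R1 ^ 2 - ‖y - x‖ ^ 2) / D) = 0 := by
    intro y hy
    apply Real.smoothTransition.zero_of_nonpos
    rw [Metric.mem_closedBall, dist_eq_norm, not_le] at hy
    apply div_nonpos_of_nonpos_of_nonneg _ hD0.le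
    nlinarith
  refine ⟨fun y => Real.smoothTransition ((R1 ^ 2 - ‖y - x‖ ^ 2) / D), ⟨?_, ?_, ?_⟩, ?_, ?_, ?_⟩
  · exact hst.comp hgs
  · exact HasCompactSupport.intro (isCompact_closedBall x R1) hout
  · refine Subset.trans ?_ (Metric.closedBall_subset_ball h2)
    apply closure_minimal _ Metric.isClosed_closedBall
    intro y hy
    by_contra hh
    exact hy (hout y hh)
  · intro y
    exact ⟨Real.smoothTransition.nonneg _, Real.smoothTransition.le_one _⟩
  · intro y hy
    rw [Metric.mem_closedBall, dist_eq_norm] at hy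
    apply Real.smoothTransition.one_of_one_le
    rw [le_div_iff₀ hD0, one_mul, hD]
    have := norm_nonneg (y - x)
    nlinarith
  · intro y
    have hder := bcut_hasFDerivAt x (R1 ^ 2) D y
    have hgrad := grad_comp (β := Real.smoothTransition) hder.differentiableAt
      ((hst.differentiable (by simp)) _)
    rw [hgrad, norm_smul]
    have hng : ‖gradient (fun z : Sp n => (R1 ^ 2 - ‖z - x‖ ^ 2) / D) y‖ = 2 / D * ‖y - x‖ := by
      unfold gradient
      rw [LinearIsometryEquiv.norm_map, hder.fderiv, norm_smul, innerSL_apply_norm, norm_neg,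
        Real.norm_eq_abs, abs_of_pos (by positivity)]
    rw [hng, Real.norm_eq_abs]
    have hRr : 0 < R - r := by linarith
    rcases le_or_gt ‖y - x‖ R1 with h3 | h3
    · have h4 : 2 / D * ‖y - x‖ ≤ 4 / (R - r) := by
        have e1 : D = (R1 - r) * (R1 + r) := by rw [hD]; ring
        have e2 : R - r = 2 * (R1 - r) := by rw [hR1]; ring
        have h5 : 0 < R1 - r := by linarith
        have h6 : 0 < R1 + r := by linarith
        rw [e1, e2, div_mul_eq_mul_div, div_le_div_iff₀ (by positivity) (by positivity)]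
        have h7 : ‖y - x‖ ≤ R1 + r := by linarith
        nlinarith [mul_nonneg h5.le (sub_nonneg.mpr h7)]
      calc |deriv Real.smoothTransition ((R1 ^ 2 - ‖y - x‖ ^ 2) / D)| * (2 / D * ‖y - x‖)
          ≤ M * (4 / (R - r)) := mul_le_mul (hM _) h4 (by positivity) hM0
        _ ≤ (4 * M + 1) / (R - r) := by
            rw [mul_div_assoc', div_le_div_iff_of_pos_right hRr]
            linarith
    · have h4 : (R1 ^ 2 - ‖y - x‖ ^ 2) / D < 0 := by
        apply div_neg_of_neg_of_pos _ hD0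
        nlinarith
      rw [bcut_deriv_neg h4, abs_zero, zero_mul]
      positivity



end

section


/-! ### TARGETS -/
section TargetsCac
variable {n : ℕ} {G K : Set (Sp n)} {p α β : ℝ} {μ : Measure (Sp n)} {s u v φ η : Sp n → ℝ}
  {S U V Φ : Sp n → Sp n} {A : Sp n → Sp n → Sp n}


/-- smooth retraction of `ℝ` onto a neighbourhood of `[a, ∞)` -/
noncomputable def rr (a d t : ℝ) : ℝ := a + d / 2 * (BB (1 + 2 * (t - a) / d) - BB 1)

theorem rr_hasDerivAt {a d : ℝ} (hd : 0 < d) (t : ℝ) :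
    HasDerivAt (rr a d) (Real.smoothTransition (1 + 2 * (t - a) / d)) t := by
  have h1 : HasDerivAt (fun t : ℝ => 1 + 2 * (t - a) / d) (2 / d) t := by
    have := ((((hasDerivAt_id t).sub_const a).const_mul 2).div_const d).const_add 1
    simpa using this
  have h2 := (BB_hasDerivAt (1 + 2 * (t - a) / d)).comp t h1
  have h3 := (((h2.sub_const (BB 1)).const_mul (d / 2)).const_add a)
  have h4 : d / 2 * (Real.smoothTransition (1 + 2 * (t - a) / d) * (2 / d)) =
      Real.smoothTransition (1 + 2 * (t - a) / d) := by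
    field_simp
  rw [h4] at h3
  exact h3

theorem rr_contDiff {a d : ℝ} : ContDiff ℝ (⊤ : ℕ∞) (rr a d) := by
  unfold rr
  have h1 : ContDiff ℝ (⊤ : ℕ∞) (fun t : ℝ => 1 + 2 * (t - a) / d) := by
    fun_prop
  exact contDiff_const.add (contDiff_const.mul ((BB_contDiff.comp h1).sub contDiff_const))

theorem BB_of_one_le {x : ℝ} (hx : 1 ≤ x) : BB x = BB 1 + (x - 1) := by
  have h1 : BB x = (∫ t in (0:ℝ)..1, Real.smoothTransition t) +
      ∫ t in (1:ℝ)..x, Real.smoothTransition t :=
    (intervalIntegral.integral_add_adjacent_intervals (BB_int 0 1) (BB_int 1 x)).symm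
  have h2 : ∫ t in (1:ℝ)..x, Real.smoothTransition t = ∫ t in (1:ℝ)..x, (1 : ℝ) := by
    apply intervalIntegral.integral_congr
    intro t ht
    rw [uIcc_of_le hx] at ht
    exact Real.smoothTransition.one_of_one_le ht.1
  rw [h1, h2]
  simp [BB]

theorem rr_eq {a d : ℝ} (hd : 0 < d) {t : ℝ} (ht : a ≤ t) : rr a d t = t := by
  unfold rr
  have h1 : 1 ≤ 1 + 2 * (t - a) / d := by
    have : 0 ≤ 2 * (t - a) / d := by
      have : 0 ≤ t - a := by linarith
      positivity
    linarith
  rw [BB_of_one_le h1]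
  field_simp
  ring

theorem rr_gt {a d : ℝ} (hd : 0 < d) (t : ℝ) : a - d < rr a d t := by
  unfold rr
  have h1 := BB_nonneg (1 + 2 * (t - a) / d)
  have h2 := BB_le (x := 1) zero_le_one
  nlinarith

/-- chain rule for functions smooth on a neighbourhood of `[a, ∞)`, when `a ≤ u` -/
theorem LH.chain_on [IsFiniteMeasureOnCompacts μ] (hp : 1 < p) (hG : IsOpen G) (hu : LH p μ G u U)
    {a d C : ℝ} (hd : 0 < d) (hua : ∀ᵐ x ∂μ, x ∈ G → a ≤ u x) {b : ℝ → ℝ}
    (hb : ContDiffOn ℝ (⊤ : ℕ∞) b (Ioi (a - d))) (hb' : ∀ t ∈ Ioi (a - d), |deriv b t| ≤ C) :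
    LH p μ G (fun x => b (u x)) (fun x => deriv b (u x) • U x) := by
  have hmem : ∀ t, rr a d t ∈ Ioi (a - d) := fun t => rr_gt hd t
  have hcd : ContDiff ℝ (⊤ : ℕ∞) (b ∘ rr a d) := hb.comp_contDiff rr_contDiff hmem
  have hder : ∀ t, deriv (b ∘ rr a d) t =
      deriv b (rr a d t) * Real.smoothTransition (1 + 2 * (t - a) / d) := by
    intro t
    have h1 : DifferentiableAt ℝ b (rr a d t) :=
      (hb.differentiableOn (by simp)).differentiableAt (isOpen_Ioi.mem_nhds (hmem t))
    exact (h1.hasDerivAt.comp t (rr_hasDerivAt hd t)).deriv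
  have hC0 : 0 ≤ C := (abs_nonneg _).trans (hb' _ (hmem a))
  have hdb : ∀ (k : ℕ) (t : ℝ), |deriv ((fun _ : ℕ => b ∘ rr a d) k) t| ≤ C := by
    intro k t
    simp only
    rw [hder, abs_mul]
    have h1 := hb' _ (hmem t)
    have h2 : |Real.smoothTransition (1 + 2 * (t - a) / d)| ≤ 1 := by
      rw [abs_of_nonneg (Real.smoothTransition.nonneg _)]
      exact Real.smoothTransition.le_one _
    calc |deriv b (rr a d t)| * |Real.smoothTransition (1 + 2 * (t - a) / d)| ≤ C * 1 :=
          mul_le_mul h1 h2 (abs_nonneg _) hC0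
      _ = C := mul_one C
  have hmain := LH.chain_lim hp hG (β := b ∘ rr a d) (b := deriv (b ∘ rr a d))
    (βk := fun _ => b ∘ rr a d) (fun _ => hcd) hdb (fun s => tendsto_const_nhds)
    (fun s => tendsto_const_nhds) hu
  refine LH.congr hmain ?_ ?_
  · filter_upwards [hua] with x hx hxG
    have h1 := hx hxG
    show b (rr a d (u x)) = b (u x)
    rw [rr_eq hd h1]
  · filter_upwards [hua] with x hx hxG
    have h1 := hx hxG
    have h2 : Real.smoothTransition (1 + 2 * (u x - a) / d) = 1 := by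
      apply Real.smoothTransition.one_of_one_le
      have : 0 ≤ 2 * (u x - a) / d := by
        have : 0 ≤ u x - a := by linarith
        positivity
      linarith
    rw [hder, rr_eq hd h1, h2, mul_one]

end TargetsCac


end

section


/-! ### ALREADY PROVED elsewhere: leave these sorries -/
section Given
variable {n : ℕ} {D D' G G' K : Set (Sp n)} {p α β : ℝ} {μ : Measure (Sp n)} {φ ψ u v f g : Sp n → ℝ}
  {U V F : Sp n → Sp n} {x : Sp n} {A : Sp n → Sp n → Sp n}

end Given

/-! ### TARGETS -/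
section TargetsCac
variable {n : ℕ} {G K : Set (Sp n)} {p α β : ℝ} {μ : Measure (Sp n)} {s u v φ η : Sp n → ℝ}
  {S U V Φ : Sp n → Sp n} {A : Sp n → Sp n → Sp n}

theorem young_aux {p α M : ℝ} (hp : 1 < p) (hα : 0 < α) (hM : 0 < M) (N : ℕ) (hN : p ≤ N)
    {P g e S : ℝ} (hP : 0 ≤ P) (hg : 0 ≤ g) (he : 0 ≤ e) (he1 : e ≤ 1) (hS : 0 ≤ S) :
    M * P * e ^ (N - 1) * (S ^ (p - 1) * g) ≤
      α * (e ^ N * S ^ p) + (M * (M / α) ^ (p - 1)) * (P ^ p * g ^ p) := by
  have hN1 : (1 : ℝ) < N := lt_of_lt_of_le hp hN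
  have hN1' : 1 < N := by exact_mod_cast hN1
  have hSp : S ^ p = S ^ (p - 1) * S := by
    rcases eq_or_lt_of_le hS with h | h
    · rw [← h, Real.zero_rpow (by linarith), mul_zero]
    · rw [← Real.rpow_add_one h.ne']; congr 1; ring
  have hSn : 0 ≤ S ^ (p - 1) := Real.rpow_nonneg hS _
  have heN : e ^ N = e ^ (N - 1) * e := by
    rw [← pow_succ]; congr 1; omega
  have he' : 0 ≤ e ^ (N - 1) := pow_nonneg he _
  have hc : 0 ≤ M * (M / α) ^ (p - 1) := by positivity
  by_cases h : M * P * g ≤ α * (e * S)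
  · have h1 : M * P * e ^ (N - 1) * (S ^ (p - 1) * g) = (e ^ (N - 1) * S ^ (p - 1)) * (M * P * g) := by ring
    have h2 : α * (e ^ N * S ^ p) = (e ^ (N - 1) * S ^ (p - 1)) * (α * (e * S)) := by
      rw [hSp, heN]; ring
    have h3 : 0 ≤ P ^ p * g ^ p := mul_nonneg (Real.rpow_nonneg hP _) (Real.rpow_nonneg hg _)
    rw [h1, h2]
    have h4 := mul_le_mul_of_nonneg_left h (mul_nonneg he' hSn)
    have h5 := mul_nonneg hc h3
    linarith
  · push Not at h
    have h1 : e * S ≤ (M / α) * (P * g) := by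
      rw [div_mul_eq_mul_div, le_div_iff₀ hα]
      nlinarith
    have h2 : e ^ (N - 1) ≤ e ^ (p - 1) := by
      rcases eq_or_lt_of_le he with h0 | h0
      · rw [← h0, zero_pow (by omega)]; exact Real.rpow_nonneg le_rfl _
      · rw [← Real.rpow_natCast]
        apply Real.rpow_le_rpow_of_exponent_ge h0 he1
        rw [Nat.cast_sub hN1'.le]; push_cast; linarith
    have h3 : e ^ (N - 1) * S ^ (p - 1) ≤ ((M / α) * (P * g)) ^ (p - 1) := by
      calc e ^ (N - 1) * S ^ (p - 1) ≤ e ^ (p - 1) * S ^ (p - 1) :=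
            mul_le_mul_of_nonneg_right h2 hSn
        _ = (e * S) ^ (p - 1) := (Real.mul_rpow he hS).symm
        _ ≤ _ := Real.rpow_le_rpow (mul_nonneg he hS) h1 (by linarith)
    have hPg : 0 ≤ P * g := mul_nonneg hP hg
    have h4 : ((M / α) * (P * g)) ^ (p - 1) = (M / α) ^ (p - 1) * (P * g) ^ (p - 1) :=
      Real.mul_rpow (by positivity) hPg
    have h5 : (P * g) ^ (p - 1) * (P * g) = P ^ p * g ^ p := by
      rw [← Real.mul_rpow hP hg]
      rcases eq_or_lt_of_le hPg with h0 | h0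
      · rw [← h0, Real.zero_rpow (by linarith : p ≠ 0), mul_zero]
      · rw [← Real.rpow_add_one h0.ne']; congr 1; ring
    have h6 : M * P * e ^ (N - 1) * (S ^ (p - 1) * g) = (M * (P * g)) * (e ^ (N - 1) * S ^ (p - 1)) := by ring
    rw [h6]
    have h7 : (M * (P * g)) * (e ^ (N - 1) * S ^ (p - 1)) ≤ (M * (P * g)) * ((M / α) ^ (p - 1) * (P * g) ^ (p - 1)) := by
      rw [← h4]
      exact mul_le_mul_of_nonneg_left h3 (by positivity)
    have h8 : (M * (P * g)) * ((M / α) ^ (p - 1) * (P * g) ^ (p - 1)) =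
        (M * (M / α) ^ (p - 1)) * (P ^ p * g ^ p) := by
      rw [← h5]; ring
    have h9 : 0 ≤ α * (e ^ N * S ^ p) := by
      have : 0 ≤ S ^ p := Real.rpow_nonneg hS _
      positivity
    linarith

/-- Caccioppoli inequality for supersolutions, below a level -/
theorem caccioppoli (hp : 1 < p) (hα : 0 < α) (hβ : 0 < β) (N : ℕ) (hN : p ≤ N) :
    ∃ C : ℝ, 0 ≤ C ∧ ∀ (μ : Measure (Sp n)) [IsFiniteMeasureOnCompacts μ] (A : Sp n → Sp n → Sp n),
      Op p α β μ A → ∀ (G : Set (Sp n)), IsOpen G → ∀ (s : Sp n → ℝ) (S : Sp n → Sp n),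
      Sup A p μ G s S → (∀ᵐ x ∂μ, x ∈ G → 0 ≤ s x) → ∀ (k : ℝ), 0 ≤ k → ∀ η : Sp n → ℝ, Cc G η →
      (∀ x, 0 ≤ η x ∧ η x ≤ 1) →
      Integrable (fun x => (if s x < k then (1 : ℝ) else 0) * ‖S x‖ ^ p * η x ^ N) μ ∧
      Integrable (fun x => (max (k - s x) 0) ^ p * ‖gradient η x‖ ^ p) μ ∧
      ∫ x, (if s x < k then (1 : ℝ) else 0) * ‖S x‖ ^ p * η x ^ N ∂μ ≤
        C * ∫ x, (max (k - s x) 0) ^ p * ‖gradient η x‖ ^ p ∂μ := by
  have hN1 : (1 : ℝ) < N := lt_of_lt_of_le hp hN
  have hN1' : 1 < N := by exact_mod_cast hN1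
  have hp0 : 0 < p := by linarith
  set M : ℝ := N * β with hMdef
  have hM : 0 < M := by positivity
  set C0 : ℝ := M * (M / (α / 2)) ^ (p - 1) with hC0
  have hC0n : 0 ≤ C0 := by positivity
  refine ⟨2 * C0 / α, by positivity, ?_⟩
  intro μ _ A hA G hG s S hs hs0 k hk η hη hη01
  -- the compact set
  have hK : IsCompact (tsupport η) := hη.comp
  have hKG : tsupport η ⊆ G := hη.supp
  obtain ⟨mS, ms⟩ := LH.memLp_restrict hp hs.1 hG hK hKG
  have hχm : AEStronglyMeasurable (fun x => if s x < k then (1:ℝ) else 0) (μ.restrict (tsupport η)) := by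
    have h1 : Measurable (fun t : ℝ => if t < k then (1:ℝ) else 0) :=
      Measurable.ite measurableSet_Iio measurable_const measurable_const
    exact (h1.comp_aemeasurable ms.aestronglyMeasurable.aemeasurable).aestronglyMeasurable
  have hPm : AEStronglyMeasurable (fun x => max (k - s x) 0) (μ.restrict (tsupport η)) := by
    have h1 : Measurable (fun t : ℝ => max (k - t) 0) := by fun_prop
    exact (h1.comp_aemeasurable ms.aestronglyMeasurable.aemeasurable).aestronglyMeasurable
  -- integrability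
  have hI1 : Integrable (fun x => (if s x < k then (1 : ℝ) else 0) * ‖S x‖ ^ p * η x ^ N) μ := by
    have h1 : Integrable (fun x => ‖S x‖ ^ p) (μ.restrict (tsupport η)) := by
      have := mS.integrable_norm_rpow (by simpa using hp0) ENNReal.ofReal_ne_top
      rwa [ENNReal.toReal_ofReal hp0.le] at this
    have h2 : IntegrableOn (fun x => (if s x < k then (1 : ℝ) else 0) * ‖S x‖ ^ p * η x ^ N) (tsupport η) μ := by
      refine Integrable.mono h1 ((hχm.mul h1.aestronglyMeasurable).mul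
        (hη.cont.pow N).aestronglyMeasurable) ?_
      filter_upwards with x
      have h3 : 0 ≤ ‖S x‖ ^ p := Real.rpow_nonneg (norm_nonneg _) _
      have h4 : 0 ≤ η x ^ N := pow_nonneg (hη01 x).1 _
      have h5 : η x ^ N ≤ 1 := pow_le_one₀ (hη01 x).1 (hη01 x).2
      have h6 : (0:ℝ) ≤ (if s x < k then (1 : ℝ) else 0) ∧ (if s x < k then (1 : ℝ) else 0) ≤ 1 := by
        split_ifs <;> norm_num
      rw [Real.norm_of_nonneg (by positivity), Real.norm_of_nonneg h3]
      calc (if s x < k then (1 : ℝ) else 0) * ‖S x‖ ^ p * η x ^ N ≤ 1 * ‖S x‖ ^ p * 1 := by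
            apply mul_le_mul _ h5 h4 (by positivity)
            exact mul_le_mul_of_nonneg_right h6.2 h3
        _ = ‖S x‖ ^ p := by ring
    apply h2.integrable_of_forall_notMem_eq_zero
    intro x hx
    rw [zero_of_notMem hx, zero_pow (by omega), mul_zero]
  have hI2 : Integrable (fun x => (max (k - s x) 0) ^ p * ‖gradient η x‖ ^ p) μ := by
    have h1 : Integrable (fun x => ‖gradient η x‖ ^ p) μ := by
      have := (hη.memLp_grad (μ := μ) (ENNReal.ofReal p)).integrable_norm_rpow (by simpa using hp0) ENNReal.ofReal_ne_top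
      rwa [ENNReal.toReal_ofReal hp0.le] at this
    have h2 : IntegrableOn (fun x => (max (k - s x) 0) ^ p * ‖gradient η x‖ ^ p) (tsupport η) μ := by
      have h3 : Integrable (fun x => k ^ p * ‖gradient η x‖ ^ p) (μ.restrict (tsupport η)) :=
        (h1.const_mul _).restrict
      refine Integrable.mono h3 (AEStronglyMeasurable.mul ?_ h1.restrict.aestronglyMeasurable) ?_
      · have h4 : Measurable (fun t : ℝ => t ^ p) := by fun_prop
        exact (h4.comp_aemeasurable hPm.aemeasurable).aestronglyMeasurable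
      · have h5 : ∀ᵐ x ∂(μ.restrict (tsupport η)), x ∈ G → 0 ≤ s x := ae_restrict_of_ae hs0
        filter_upwards [h5, ae_restrict_mem (isClosed_tsupport η).measurableSet] with x hx hxK
        have h6 := hx (hKG hxK)
        have h7 : max (k - s x) 0 ≤ k := max_le (by linarith) hk
        have h8 : (0:ℝ) ≤ max (k - s x) 0 := le_max_right _ _
        have h9 : 0 ≤ ‖gradient η x‖ ^ p := Real.rpow_nonneg (norm_nonneg _) _
        have h10 : 0 ≤ (max (k - s x) 0) ^ p := Real.rpow_nonneg h8 _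
        rw [Real.norm_of_nonneg (by positivity), Real.norm_of_nonneg (by positivity)]
        exact mul_le_mul_of_nonneg_right (Real.rpow_le_rpow h8 h7 hp0.le) h9
    apply h2.integrable_of_forall_notMem_eq_zero
    intro x hx
    rw [grad_zero_of_notMem hx, norm_zero, Real.zero_rpow hp0.ne', mul_zero]
  refine ⟨hI1, hI2, ?_⟩
  -- the test function
  obtain ⟨βk, b1, b2, b3, b4, b5, b6, b7⟩ := exists_profile 0 le_rfl
  have hL1 : LH p μ G (fun x => max (k - s x - 0) 0) (fun x => (if 0 < k - s x then (1:ℝ) else 0) • ((0 : Sp n) - S x)) :=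
    LH.chain_lim (β := fun t => max (t - 0) 0) (b := fun t => if 0 < t then (1:ℝ) else 0) hp hG b1
      (C := 1) (fun j t => by rw [abs_of_nonneg (b4 j t).1]; exact (b4 j t).2) b5 b6
      (LH.sub hp (LH.const k) hs.1)
  have hηN : ContDiff ℝ (⊤ : ℕ∞) (fun x => η x ^ N) := hη.smooth.pow N
  have hL2 : LH p μ G (fun x => η x ^ N) (gradient (fun x => η x ^ N)) := LH.of_smooth hηN
  have hgr : ∀ x, gradient (fun x => η x ^ N) x = ((N : ℝ) * η x ^ (N - 1)) • gradient η x := by
    intro x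
    have := grad_comp (β := fun t : ℝ => t ^ N) (hη.diff x) (differentiableAt_pow N)
    rw [this]
    congr 1
    simp
  have hL3 := LH.mul hp hG hL1 hL2 (C := max k 1)
    (by
      filter_upwards [hs0] with x hx hxG
      have := hx hxG
      rw [abs_of_nonneg (le_max_right _ _)]
      apply max_le
      · exact (by linarith : k - s x - 0 ≤ k).trans (le_max_left _ _)
      · exact hk.trans (le_max_left _ _))
    (by
      filter_upwards with x _
      rw [abs_of_nonneg (pow_nonneg (hη01 x).1 _)]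
      exact (pow_le_one₀ (hη01 x).1 (hη01 x).2).trans (le_max_right _ _))
  set f : Sp n → ℝ := fun x => max (k - s x) 0 * η x ^ N with hf
  set F : Sp n → Sp n := fun x => max (k - s x) 0 • (((N : ℝ) * η x ^ (N - 1)) • gradient η x) +
    η x ^ N • ((if s x < k then (1:ℝ) else 0) • (- S x)) with hF
  have hLf : LH p μ G f F := by
    refine LH.congr hL3 ?_ ?_
    · filter_upwards with x _
      rw [hf]; simp only [sub_zero]
    · filter_upwards with x _
      rw [hF]
      simp only [sub_zero, hgr, zero_sub, sub_pos]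
  have hf0 : ∀ x, x ∉ tsupport η → f x = 0 := by
    intro x hx
    show max (k - s x) 0 * η x ^ N = 0
    rw [zero_of_notMem hx, zero_pow (by omega), mul_zero]
  have hF0 : ∀ x, x ∉ tsupport η → F x = 0 := by
    intro x hx
    show max (k - s x) 0 • (((N : ℝ) * η x ^ (N - 1)) • gradient η x) +
      η x ^ N • ((if s x < k then (1:ℝ) else 0) • (- S x)) = 0
    rw [grad_zero_of_notMem hx, zero_of_notMem hx, zero_pow (by omega : N ≠ 0), smul_zero, smul_zero,
      zero_smul, add_zero]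
  have hfF : ∀ x, f x = 0 → F x = 0 := by
    intro x hx
    have hx' : max (k - s x) 0 * η x ^ N = 0 := hx
    show max (k - s x) 0 • (((N : ℝ) * η x ^ (N - 1)) • gradient η x) +
      η x ^ N • ((if s x < k then (1:ℝ) else 0) • (- S x)) = 0
    rcases mul_eq_zero.mp hx' with h | h
    · have h1 : ¬ s x < k := by
        intro h2
        have : k - s x ≤ max (k - s x) 0 := le_max_left _ _
        linarith
      rw [h, if_neg h1, zero_smul, zero_smul, smul_zero, add_zero]
    · have h1 : η x = 0 := by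
        by_contra h2; exact (pow_ne_zero N h2) h
      rw [h, h1, zero_pow (by omega : N - 1 ≠ 0), mul_zero, zero_smul, smul_zero, zero_smul, add_zero]
  have htest : 0 ≤ ∫ x, ⟪A x (S x), F x⟫ ∂μ := by
    refine Sup.test hp hA hs hLf hG hK hKG ?_ ?_ ?_
    · filter_upwards with x
      exact mul_nonneg (le_max_right _ _) (pow_nonneg (hη01 x).1 _)
    · filter_upwards with x using hf0 x
    · filter_upwards with x using hfF x
  have hH0 : H0 p μ G f F := LH.toH0 hLf hG hK hKG (by filter_upwards with x using hf0 x)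
    (by filter_upwards with x using hF0 x)
  have hint : Integrable (fun x => ⟪A x (S x), F x⟫) μ :=
    integrable_flux hp hA hs.1 hG hK hKG hH0.mU (by filter_upwards with x using hF0 x)
  have hpt : ∀ᵐ x ∂μ, ⟪A x (S x), F x⟫ ≤
      (-(α / 2)) * ((if s x < k then (1 : ℝ) else 0) * ‖S x‖ ^ p * η x ^ N) +
        C0 * ((max (k - s x) 0) ^ p * ‖gradient η x‖ ^ p) := by
    filter_upwards [hA.coer, hA.bdd] with x hx1 hx2
    by_cases hsk : s x < k
    · have e1 : F x = max (k - s x) 0 • (((N : ℝ) * η x ^ (N - 1)) • gradient η x) +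
          η x ^ N • ((if s x < k then (1:ℝ) else 0) • (- S x)) := rfl
      rw [e1, if_pos hsk, inner_add_right, inner_smul_right, inner_smul_right, inner_smul_right,
        inner_smul_right, inner_neg_right]
      have h1 := hx1 (S x)
      have h2 := hx2 (S x)
      have h3 : ⟪A x (S x), gradient η x⟫ ≤ β * ‖S x‖ ^ (p - 1) * ‖gradient η x‖ :=
        (real_inner_le_norm _ _).trans (mul_le_mul_of_nonneg_right h2 (norm_nonneg _))
      have h4 := young_aux hp (by positivity : 0 < α / 2) hM N hN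
        (le_max_right (k - s x) 0) (norm_nonneg (gradient η x)) (hη01 x).1 (hη01 x).2 (norm_nonneg (S x))
      rw [← hC0] at h4
      have h5 : 0 ≤ max (k - s x) 0 * ((N : ℝ) * η x ^ (N - 1)) :=
        mul_nonneg (le_max_right _ _) (mul_nonneg (by positivity) (pow_nonneg (hη01 x).1 _))
      have h6 := mul_le_mul_of_nonneg_left h3 h5
      have h7 := mul_le_mul_of_nonneg_left h1 (pow_nonneg (hη01 x).1 N)
      have h8 : max (k - s x) 0 * ((N : ℝ) * η x ^ (N - 1)) * (β * ‖S x‖ ^ (p - 1) * ‖gradient η x‖) =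
        M * max (k - s x) 0 * η x ^ (N - 1) * (‖S x‖ ^ (p - 1) * ‖gradient η x‖) := by
        rw [hMdef]; ring
      nlinarith [h4, h6, h7, h8]
    · have e1 : F x = 0 := by
        apply hfF
        show max (k - s x) 0 * η x ^ N = 0
        push Not at hsk
        rw [max_eq_right (by linarith), zero_mul]
      rw [e1, inner_zero_right, if_neg hsk]
      have h1 : 0 ≤ (max (k - s x) 0) ^ p * ‖gradient η x‖ ^ p :=
        mul_nonneg (Real.rpow_nonneg (le_max_right _ _) _) (Real.rpow_nonneg (norm_nonneg _) _)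
      have h2 := mul_nonneg hC0n h1
      linarith
  have hmono := integral_mono_ae hint ((hI1.const_mul (-(α / 2))).add (hI2.const_mul C0)) hpt
  have hsum : ∫ x, ((-(α / 2)) * ((if s x < k then (1 : ℝ) else 0) * ‖S x‖ ^ p * η x ^ N) +
        C0 * ((max (k - s x) 0) ^ p * ‖gradient η x‖ ^ p)) ∂μ =
      (-(α / 2)) * (∫ x, (if s x < k then (1 : ℝ) else 0) * ‖S x‖ ^ p * η x ^ N ∂μ) +
        C0 * ∫ x, (max (k - s x) 0) ^ p * ‖gradient η x‖ ^ p ∂μ := by
    rw [integral_add (hI1.const_mul _) (hI2.const_mul _), integral_const_mul, integral_const_mul]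
  have hfin : 0 ≤ (-(α / 2)) * (∫ x, (if s x < k then (1 : ℝ) else 0) * ‖S x‖ ^ p * η x ^ N ∂μ) +
        C0 * ∫ x, (max (k - s x) 0) ^ p * ‖gradient η x‖ ^ p ∂μ := by
    rw [← hsum]
    exact htest.trans hmono
  rw [div_mul_eq_mul_div, le_div_iff₀ hα]
  linarith

end TargetsCac


end

section


/-! ### ALREADY PROVED elsewhere: leave these sorries -/
section Given
variable {n : ℕ} {D D' G G' K : Set (Sp n)} {p α β : ℝ} {μ : Measure (Sp n)} {φ ψ u v f g : Sp n → ℝ}
  {U V F : Sp n → Sp n} {x : Sp n} {A : Sp n → Sp n → Sp n}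

end Given


/-! ### next: LH.chain_on ALREADY PROVED elsewhere, log_estimate is the TARGET -/
section TargetsCac
variable {n : ℕ} {G K : Set (Sp n)} {p α β : ℝ} {μ : Measure (Sp n)} {s u v φ η : Sp n → ℝ}
  {S U V Φ : Sp n → Sp n} {A : Sp n → Sp n → Sp n}

theorem young_aux_j5393 {p δ Y g : ℝ} (hp : 1 < p) (hδ : 0 < δ) (hY : 0 ≤ Y) (hg : 0 ≤ g) :
    Y ^ (p - 1) * g ≤ δ * Y ^ p + δ ^ (1 - p) * g ^ p := by
  have h1 : 0 ≤ δ * Y ^ p := mul_nonneg hδ.le (Real.rpow_nonneg hY _)
  have h2 : 0 ≤ δ ^ (1 - p) * g ^ p := mul_nonneg (Real.rpow_nonneg hδ.le _) (Real.rpow_nonneg hg _)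
  rcases le_total g (δ * Y) with h | h
  · have h3 : Y ^ (p - 1) * g ≤ Y ^ (p - 1) * (δ * Y) :=
      mul_le_mul_of_nonneg_left h (Real.rpow_nonneg hY _)
    have h4 : Y ^ (p - 1) * (δ * Y) = δ * Y ^ p := by
      have : Y ^ p = Y ^ (p - 1) * Y := by
        conv_lhs => rw [show p = (p - 1) + 1 by ring]
        rw [Real.rpow_add_of_nonneg hY (by linarith) zero_le_one, Real.rpow_one]
      rw [this]; ring
    linarith
  · have h3 : Y ≤ g / δ := by
      rw [le_div_iff₀ hδ]; linarith
    have h4 : Y ^ (p - 1) ≤ (g / δ) ^ (p - 1) := Real.rpow_le_rpow hY h3 (by linarith)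
    have h5 : Y ^ (p - 1) * g ≤ (g / δ) ^ (p - 1) * g := mul_le_mul_of_nonneg_right h4 hg
    have h6 : (g / δ) ^ (p - 1) * g = δ ^ (1 - p) * g ^ p := by
      have e1 : g ^ p = g ^ (p - 1) * g := by
        conv_lhs => rw [show p = (p - 1) + 1 by ring]
        rw [Real.rpow_add_of_nonneg hg (by linarith) zero_le_one, Real.rpow_one]
      have e2 : δ ^ (1 - p) = (δ ^ (p - 1))⁻¹ := by
        rw [← Real.rpow_neg hδ.le]; congr 1; ring
      rw [Real.div_rpow hg hδ.le, e1, e2]
      ring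
    linarith

theorem pt_aux {p δ X g t : ℝ} {N : ℕ} (hp : 1 < p) (hN : p ≤ N) (hδ : 0 < δ) (hX : 0 ≤ X)
    (hg : 0 ≤ g) (ht : 0 ≤ t) (ht1 : t ≤ 1) :
    X ^ (p - 1) * t ^ (N - 1) * g ≤ δ * (X ^ p * t ^ N) + δ ^ (1 - p) * g ^ p := by
  have hp0 : 0 < p := by linarith
  have hN1 : 1 ≤ N := by
    have : (0:ℝ) < N := by linarith
    exact_mod_cast this
  have hY : 0 ≤ X * t ^ ((N:ℝ) / p) := mul_nonneg hX (Real.rpow_nonneg ht _)
  have h := young_aux_j5393 hp hδ hY hg
  have e1 : (X * t ^ ((N:ℝ) / p)) ^ p = X ^ p * t ^ N := by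
    rw [Real.mul_rpow hX (Real.rpow_nonneg ht _), ← Real.rpow_mul ht,
      div_mul_cancel₀ _ hp0.ne', Real.rpow_natCast]
  have e2 : t ^ (N - 1) ≤ (t ^ ((N:ℝ) / p)) ^ (p - 1) := by
    rw [← Real.rpow_mul ht, ← Real.rpow_natCast, Nat.cast_sub hN1, Nat.cast_one]
    rcases ht.eq_or_lt with h0 | h0
    · rw [← h0]
      have h3 : (0:ℝ) < (N:ℝ) - 1 := by linarith
      rw [Real.zero_rpow h3.ne']
      exact Real.rpow_nonneg le_rfl _
    · apply Real.rpow_le_rpow_of_exponent_ge h0 ht1
      rw [div_mul_eq_mul_div, div_le_iff₀ hp0]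
      nlinarith
  have e3 : X ^ (p - 1) * t ^ (N - 1) * g ≤ (X * t ^ ((N:ℝ) / p)) ^ (p - 1) * g := by
    rw [Real.mul_rpow hX (Real.rpow_nonneg ht _)]
    apply mul_le_mul_of_nonneg_right _ hg
    exact mul_le_mul_of_nonneg_left e2 (Real.rpow_nonneg hX _)
  rw [e1] at h
  exact e3.trans h

/-- logarithmic estimate for nonnegative supersolutions -/
theorem log_estimate (hp : 1 < p) (hα : 0 < α) (hβ : 0 < β) (N : ℕ) (hN : p ≤ N) :
    ∃ C : ℝ, 0 ≤ C ∧ ∀ (μ : Measure (Sp n)) [IsFiniteMeasureOnCompacts μ] (A : Sp n → Sp n → Sp n),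
      Op p α β μ A → ∀ (G : Set (Sp n)), IsOpen G → ∀ (s : Sp n → ℝ) (S : Sp n → Sp n),
      Sup A p μ G s S → ∀ e : ℝ, 0 < e → (∀ᵐ x ∂μ, x ∈ G → e ≤ s x) → ∀ η : Sp n → ℝ, Cc G η →
      (∀ x, 0 ≤ η x ∧ η x ≤ 1) →
      Integrable (fun x => ‖(s x)⁻¹ • S x‖ ^ p * η x ^ N) μ ∧
      ∫ x, ‖(s x)⁻¹ • S x‖ ^ p * η x ^ N ∂μ ≤ C * ∫ x, ‖gradient η x‖ ^ p ∂μ := by
  have hp0 : 0 < p := by linarith
  have hN0 : (0:ℝ) < N := by linarith
  have hN2 : 2 ≤ N := by
    by_contra hcon
    have : N ≤ 1 := by omega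
    have : (N:ℝ) ≤ 1 := by exact_mod_cast this
    linarith
  set δ : ℝ := (p - 1) * α / (2 * (N * β)) with hδdef
  have hp1 : 0 < p - 1 := by linarith
  have hδ : 0 < δ := by positivity
  set C1 : ℝ := N * β * δ ^ (1 - p) with hC1
  have hC1' : 0 ≤ C1 := by
    have := Real.rpow_nonneg hδ.le (1 - p)
    positivity
  set c0 : ℝ := (p - 1) * α / 2 with hc0
  have hc0' : 0 < c0 := by positivity
  refine ⟨C1 / c0, by positivity, ?_⟩
  intro μ _ A hA G hG s S hs e he hse η hη hη1
  set K : Set (Sp n) := tsupport η with hK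
  have hKc : IsCompact K := hη.comp
  have hKG : K ⊆ G := hη.supp
  set b : ℝ → ℝ := fun t => t ^ (1 - p) with hb
  have hbd : ∀ t : ℝ, 0 < t → deriv b t = (1 - p) * t ^ (-p) := by
    intro t ht
    have := (Real.hasDerivAt_rpow_const (x := t) (p := 1 - p) (Or.inl ht.ne')).deriv
    rw [hb, this]
    congr 2
    ring
  -- chain rule
  have hL1 : LH p μ G (fun x => b (s x)) (fun x => deriv b (s x) • S x) := by
    refine LH.chain_on (a := e) (d := e / 2) (C := (p - 1) * (e / 2) ^ (-p)) hp hG hs.1 (by positivity) hse ?_ ?_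
    · intro t ht
      have ht' : 0 < t := by
        have : e - e / 2 < t := ht
        linarith
      exact (Real.contDiffAt_rpow_const_of_ne ht'.ne').contDiffWithinAt
    · intro t ht
      have ht1 : e / 2 < t := by
        have : e - e / 2 < t := ht
        linarith
      have ht' : 0 < t := by linarith
      rw [hbd t ht', abs_mul, abs_of_neg (by linarith : 1 - p < 0),
        abs_of_nonneg (Real.rpow_nonneg ht'.le _)]
      have := Real.rpow_le_rpow_of_nonpos (by positivity : 0 < e / 2) ht1.le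
        (by linarith : -p ≤ 0)
      nlinarith
  have hηs : ContDiff ℝ (⊤ : ℕ∞) (fun x => η x ^ N) := hη.smooth.pow N
  have hgN : ∀ x, gradient (fun y => η y ^ N) x = ((N:ℝ) * η x ^ (N - 1)) • gradient η x := by
    intro x
    rw [grad_comp (f := η) (β := fun t => t ^ N) (hη.diff x) (differentiableAt_pow N)]
    congr 1
    simp
  have hL2 : LH p μ G (fun x => η x ^ N) (gradient (fun x => η x ^ N)) := LH.of_smooth hηs
  have hL3 := LH.mul (C := max (e ^ (1 - p)) 1) hp hG hL1 hL2 (by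
      filter_upwards [hse] with x hx hxG
      have h1 := hx hxG
      have h2 : 0 < s x := by linarith
      refine le_trans ?_ (le_max_left _ _)
      rw [hb]
      simp only []
      rw [abs_of_nonneg (Real.rpow_nonneg h2.le _)]
      exact Real.rpow_le_rpow_of_nonpos he h1 (by linarith))
    (Filter.Eventually.of_forall fun x _ => by
      refine le_trans ?_ (le_max_right _ _)
      rw [abs_of_nonneg (pow_nonneg (hη1 x).1 N)]
      exact pow_le_one₀ (hη1 x).1 (hη1 x).2)
  set f : Sp n → ℝ := fun x => b (s x) * η x ^ N with hf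
  set F : Sp n → Sp n := fun x => b (s x) • gradient (fun x => η x ^ N) x +
    η x ^ N • (deriv b (s x) • S x) with hF
  have hFz : ∀ x, η x = 0 → F x = 0 := by
    intro x hx
    have h1 : (0:ℝ) ^ (N - 1) = 0 := zero_pow (by omega)
    have h2 : (0:ℝ) ^ N = 0 := zero_pow (by omega)
    simp only [hF]
    rw [hgN, hx, h1, h2]
    simp
  have hηK : ∀ x, x ∉ K → η x = 0 := fun x hx => zero_of_notMem hx
  have hf0 : ∀ x, x ∉ K → f x = 0 := by
    intro x hx
    simp only [hf]
    rw [hηK x hx, zero_pow (by omega), mul_zero]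
  have hF0 : ∀ x, x ∉ K → F x = 0 := fun x hx => hFz x (hηK x hx)
  have htest : 0 ≤ ∫ x, ⟪A x (S x), F x⟫ ∂μ := by
    refine Sup.test hp hA hs hL3 hG hKc hKG ?_ (Filter.Eventually.of_forall hf0) ?_
    · filter_upwards [hse] with x hx
      by_cases hxK : x ∈ K
      · have h1 := hx (hKG hxK)
        exact mul_nonneg (Real.rpow_nonneg (by linarith) _) (pow_nonneg (hη1 x).1 N)
      · rw [hf0 x hxK]
    · filter_upwards [hse] with x hx hfx
      by_cases hxK : x ∈ K
      · have h1 := hx (hKG hxK)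
        have h2 : 0 < b (s x) := Real.rpow_pos_of_pos (by linarith) _
        have h3 : η x ^ N = 0 := (mul_eq_zero.mp hfx).resolve_left h2.ne'
        exact hFz x (pow_eq_zero_iff (by omega) |>.mp h3)
      · exact hF0 x hxK
  have hH0 := LH.toH0 hL3 hG hKc hKG (Filter.Eventually.of_forall hf0) (Filter.Eventually.of_forall hF0)
  have hint1 : Integrable (fun x => ⟪A x (S x), F x⟫) μ :=
    integrable_flux hp hA hs.1 hG hKc hKG hH0.mU (Filter.Eventually.of_forall hF0)
  have hpr : (ENNReal.ofReal p).toReal = p := ENNReal.toReal_ofReal hp0.le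
  have hint2 : Integrable (fun x => ‖gradient η x‖ ^ p) μ := by
    have := (hη.memLp_grad (μ := μ) (ENNReal.ofReal p)).integrable_norm_rpow
      (by simpa using hp0) ENNReal.ofReal_ne_top
    rwa [hpr] at this
  -- pointwise inequality
  have hpt : ∀ᵐ x ∂μ, c0 * (‖(s x)⁻¹ • S x‖ ^ p * η x ^ N) ≤
      C1 * ‖gradient η x‖ ^ p - ⟪A x (S x), F x⟫ := by
    filter_upwards [hse, hA.coer, hA.bdd] with x hx hco hbdd
    by_cases hxK : x ∈ K
    · have h1 := hx (hKG hxK)
      have hs0 : 0 < s x := by linarith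
      set X : ℝ := ‖(s x)⁻¹ • S x‖ with hXdef
      have hX0 : 0 ≤ X := norm_nonneg _
      have hSX : ‖S x‖ = s x * X := by
        rw [hXdef, norm_smul, Real.norm_eq_abs, abs_of_pos (inv_pos.mpr hs0)]
        field_simp
      have hFx : F x = (s x ^ (1 - p) * ((N:ℝ) * η x ^ (N - 1))) • gradient η x +
          (η x ^ N * ((1 - p) * s x ^ (-p))) • S x := by
        simp only [hF]
        rw [hgN, hbd _ hs0, smul_smul, smul_smul]
      have hin : ⟪A x (S x), F x⟫ = (s x ^ (1 - p) * ((N:ℝ) * η x ^ (N - 1))) * ⟪A x (S x), gradient η x⟫ +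
          (η x ^ N * ((1 - p) * s x ^ (-p))) * ⟪A x (S x), S x⟫ := by
        rw [hFx, inner_add_right, inner_smul_right, inner_smul_right]
      have hb1 : ⟪A x (S x), gradient η x⟫ ≤ β * ‖S x‖ ^ (p - 1) * ‖gradient η x‖ := by
        refine (real_inner_le_norm _ _).trans ?_
        exact mul_le_mul_of_nonneg_right (hbdd _) (norm_nonneg _)
      have hb2 := hco (S x)
      have hη0 := (hη1 x).1
      have e1 : s x ^ (1 - p) * (s x * X) ^ (p - 1) = X ^ (p - 1) := by
        rw [Real.mul_rpow hs0.le hX0, ← mul_assoc, ← Real.rpow_add hs0]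
        rw [show (1 - p) + (p - 1) = 0 by ring, Real.rpow_zero, one_mul]
      have e2 : s x ^ (-p) * (s x * X) ^ p = X ^ p := by
        rw [Real.mul_rpow hs0.le hX0, ← mul_assoc, ← Real.rpow_add hs0]
        rw [show (-p) + p = 0 by ring, Real.rpow_zero, one_mul]
      have hy := pt_aux (N := N) hp hN hδ hX0 (norm_nonneg (gradient η x)) hη0 (hη1 x).2
      have t1 : (s x ^ (1 - p) * ((N:ℝ) * η x ^ (N - 1))) * ⟪A x (S x), gradient η x⟫ ≤
          N * β * (X ^ (p - 1) * η x ^ (N - 1) * ‖gradient η x‖) := by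
        calc _ ≤ (s x ^ (1 - p) * ((N:ℝ) * η x ^ (N - 1))) * (β * ‖S x‖ ^ (p - 1) * ‖gradient η x‖) := by
              apply mul_le_mul_of_nonneg_left hb1
              have := Real.rpow_nonneg hs0.le (1 - p)
              have := pow_nonneg hη0 (N - 1)
              positivity
          _ = N * β * ((s x ^ (1 - p) * (s x * X) ^ (p - 1)) * η x ^ (N - 1) * ‖gradient η x‖) := by
              rw [hSX]; ring
          _ = _ := by rw [e1]
      have t2 : (η x ^ N * ((1 - p) * s x ^ (-p))) * ⟪A x (S x), S x⟫ ≤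
          -((p - 1) * α * (X ^ p * η x ^ N)) := by
        have h3 : 0 ≤ η x ^ N * ((p - 1) * s x ^ (-p)) := by
          have := Real.rpow_nonneg hs0.le (-p)
          have := pow_nonneg hη0 N
          positivity
        have h4 := mul_le_mul_of_nonneg_left hb2 h3
        have h5 : η x ^ N * ((p - 1) * s x ^ (-p)) * (α * ‖S x‖ ^ p) =
            (p - 1) * α * (X ^ p * η x ^ N) := by
          rw [hSX, ← e2]; ring
        rw [h5] at h4
        have h6 : (η x ^ N * ((1 - p) * s x ^ (-p))) * ⟪A x (S x), S x⟫ =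
          -(η x ^ N * ((p - 1) * s x ^ (-p)) * ⟪A x (S x), S x⟫) := by ring
        rw [h6]
        linarith
      have t3 : N * β * (X ^ (p - 1) * η x ^ (N - 1) * ‖gradient η x‖) ≤
          c0 * (X ^ p * η x ^ N) + C1 * ‖gradient η x‖ ^ p := by
        have h7 := mul_le_mul_of_nonneg_left hy (by positivity : (0:ℝ) ≤ N * β)
        have h8 : N * β * (δ * (X ^ p * η x ^ N) + δ ^ (1 - p) * ‖gradient η x‖ ^ p) =
            c0 * (X ^ p * η x ^ N) + C1 * ‖gradient η x‖ ^ p := by
          rw [hC1, hc0, hδdef]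
          field_simp
        linarith
      rw [hin]
      have h9 : c0 * (X ^ p * η x ^ N) + c0 * (X ^ p * η x ^ N) = (p - 1) * α * (X ^ p * η x ^ N) := by
        rw [hc0]; ring
      linarith
    · have h1 := hηK x hxK
      rw [hF0 x hxK, h1, inner_zero_right, zero_pow (by omega), mul_zero, mul_zero, sub_zero]
      have := Real.rpow_nonneg (norm_nonneg (gradient η x)) p
      positivity
  have hmeas : AEStronglyMeasurable (fun x => ‖(s x)⁻¹ • S x‖ ^ p * η x ^ N) μ := by
    obtain ⟨h1, h2⟩ := LH.memLp_restrict hp hs.1 hG hKc hKG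
    have h3 : AEStronglyMeasurable (fun x => ‖(s x)⁻¹ • S x‖ ^ p * η x ^ N) (μ.restrict K) := by
      have h4 : AEMeasurable (fun x => (s x)⁻¹) (μ.restrict K) := h2.1.aemeasurable.inv
      have h5 : AEStronglyMeasurable (fun x => (s x)⁻¹ • S x) (μ.restrict K) :=
        h4.aestronglyMeasurable.smul h1.1
      have h6 : AEMeasurable (fun x => ‖(s x)⁻¹ • S x‖ ^ p) (μ.restrict K) :=
        h5.norm.aemeasurable.pow_const p
      exact (h6.aestronglyMeasurable).mul ((hη.cont.pow N).aestronglyMeasurable)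
    rw [← aestronglyMeasurable_indicator_iff hKc.isClosed.measurableSet] at h3
    refine h3.congr (Filter.Eventually.of_forall fun x => ?_)
    by_cases hxK : x ∈ K
    · rw [Set.indicator_of_mem hxK]
    · rw [Set.indicator_of_notMem hxK]
      simp only []
      rw [hηK x hxK, zero_pow (by omega), mul_zero]
  have hnn : ∀ x, 0 ≤ ‖(s x)⁻¹ • S x‖ ^ p * η x ^ N := fun x =>
    mul_nonneg (Real.rpow_nonneg (norm_nonneg _) _) (pow_nonneg (hη1 x).1 N)
  have hbint : Integrable (fun x => c0⁻¹ * (C1 * ‖gradient η x‖ ^ p - ⟪A x (S x), F x⟫)) μ :=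
    ((hint2.const_mul C1).sub hint1).const_mul _
  have hptc : ∀ᵐ x ∂μ, ‖(s x)⁻¹ • S x‖ ^ p * η x ^ N ≤
      c0⁻¹ * (C1 * ‖gradient η x‖ ^ p - ⟪A x (S x), F x⟫) := by
    filter_upwards [hpt] with x hx
    rw [inv_mul_eq_div, le_div_iff₀ hc0']
    linarith
  have hI : Integrable (fun x => ‖(s x)⁻¹ • S x‖ ^ p * η x ^ N) μ := by
    refine hbint.mono' hmeas ?_
    filter_upwards [hptc] with x hx
    rw [Real.norm_eq_abs, abs_of_nonneg (hnn x)]
    exact hx
  refine ⟨hI, ?_⟩
  have hle := integral_mono_ae hI hbint hptc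
  refine hle.trans ?_
  rw [integral_const_mul, integral_sub (hint2.const_mul C1) hint1, integral_const_mul]
  rw [inv_mul_eq_div, div_mul_eq_mul_div]
  apply div_le_div_of_nonneg_right _ hc0'.le
  linarith

end TargetsCac


end

end Pool.Agent.Helper533.Polar
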