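import Pool.Agent.Helper533.Polar.DGa
open MeasureTheory Filter Topology Set
open scoped ENNReal NNReal RealInnerProductSpace

namespace Pool.Agent.Helper533.Polar

section


/-! ### ALREADY PROVED elsewhere: leave these sorries -/
/-!  -/
section TargetsCac
variable {n : ℕ} {G K : Set (Sp n)} {p α β : ℝ} {μ : Measure (Sp n)} {s u v φ η : Sp n → ℝ}
  {S U V Φ : Sp n → Sp n} {A : Sp n → Sp n → Sp n}

end TargetsCac

/-! ### auxiliary lemmas -/

section aux833

variable {n : ℕ}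

theorem aux833_rpow_add_j5425 {x y p : ℝ} (hx : 0 ≤ x) (hy : 0 ≤ y) (hp : 1 < p) :
    (x + y) ^ p ≤ 2 ^ p * (x ^ p + y ^ p) := by
  have h1 : x + y ≤ 2 * max x y := by
    have := le_max_left x y
    have := le_max_right x y
    linarith
  have h2 : (x + y) ^ p ≤ (2 * max x y) ^ p :=
    Real.rpow_le_rpow (by positivity) h1 (by linarith)
  refine h2.trans ?_
  rw [Real.mul_rpow (by norm_num) (le_max_of_le_left hx)]
  refine mul_le_mul_of_nonneg_left ?_ (by positivity)
  have hxp : 0 ≤ x ^ p := Real.rpow_nonneg hx p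
  have hyp : 0 ≤ y ^ p := Real.rpow_nonneg hy p
  rcases le_total x y with h | h
  · rw [max_eq_right h]; linarith
  · rw [max_eq_left h]; linarith

/-- `s` is a.e. strongly measurable on the ball -/
theorem aux833_meas {p : ℝ} {μ : Measure (Sp n)} [IsFiniteMeasureOnCompacts μ] {x : Sp n} {r : ℝ}
    (hr : 0 < r) {s : Sp n → ℝ} {S : Sp n → Sp n} (hs : LH p μ (Metric.ball x r) s S) :
    AEStronglyMeasurable s (μ.restrict (Metric.ball x r)) := by
  obtain ⟨ρ, hρ⟩ : ∃ ρ : ℕ → ℝ, ∀ i, ρ i = r * (1 - 1 / ((i : ℝ) + 2)) := ⟨_, fun _ => rfl⟩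
  have hfrac : ∀ i : ℕ, (0 : ℝ) < 1 / ((i : ℝ) + 2) ∧ 1 / ((i : ℝ) + 2) ≤ 1 / 2 := by
    intro i
    refine ⟨by positivity, ?_⟩
    apply one_div_le_one_div_of_le (by norm_num)
    have : (0 : ℝ) ≤ i := Nat.cast_nonneg i
    linarith
  have hρ0 : ∀ i, 0 < ρ i := by
    intro i
    rw [hρ]
    have := (hfrac i).2
    exact mul_pos hr (by linarith)
  have hρr : ∀ i, ρ i < r := by
    intro i
    rw [hρ]
    have := (hfrac i).1
    nlinarith
  obtain ⟨C0, _, hcut⟩ := exists_ball_cutoff n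
  have h1 : ∀ i, AEStronglyMeasurable s (μ.restrict (Metric.closedBall x (ρ i))) := by
    intro i
    obtain ⟨η, hη, _, hη1, _⟩ := hcut x (ρ i) r (hρ0 i) (hρr i)
    have h2 := (hs η hη).mu.aestronglyMeasurable.restrict (s := Metric.closedBall x (ρ i))
    refine h2.congr ?_
    filter_upwards [ae_restrict_mem Metric.isClosed_closedBall.measurableSet] with y hy
    rw [hη1 y hy, one_mul]
  have h2 : AEStronglyMeasurable s (μ.restrict (⋃ i, Metric.closedBall x (ρ i))) :=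
    aestronglyMeasurable_iUnion_iff.2 h1
  refine h2.mono_set ?_
  intro y hy
  rw [Metric.mem_ball] at hy
  obtain ⟨i, hi⟩ := exists_nat_gt (r / (r - dist y x))
  have hd : 0 < r - dist y x := by linarith
  rw [div_lt_iff₀ hd] at hi
  refine Set.mem_iUnion.2 ⟨i, ?_⟩
  rw [Metric.mem_closedBall, hρ]
  have hi0 : (0 : ℝ) ≤ i := Nat.cast_nonneg i
  have h3 : r * (1 - 1 / ((i : ℝ) + 2)) = r - r / ((i : ℝ) + 2) := by ring
  rw [h3]
  have h4 : r / ((i : ℝ) + 2) ≤ r - dist y x := by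
    rw [div_le_iff₀ (by linarith)]
    nlinarith
  linarith

/-- the test function of the De Giorgi iteration -/
theorem aux833_H0 {p : ℝ} (hp : 1 < p) {μ : Measure (Sp n)} [IsFiniteMeasureOnCompacts μ]
    {x : Sp n} {r R : ℝ} (hRr : R ≤ r) {s : Sp n → ℝ} {S : Sp n → Sp n}
    (hs : LH p μ (Metric.ball x r) s S) (hs0 : ∀ᵐ y ∂μ, y ∈ Metric.ball x r → 0 ≤ s y) {κ : ℝ}
    (hκ : 0 ≤ κ) {η : Sp n → ℝ} (hη : Cc (Metric.ball x R) η) (hη01 : ∀ y, 0 ≤ η y ∧ η y ≤ 1)
    (N : ℕ) (hN : 1 ≤ N) :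
    H0 p μ (Metric.ball x r) (fun y => max (κ - s y) 0 * η y ^ N)
      (fun y => max (κ - s y) 0 • (((N : ℝ) * η y ^ (N - 1)) • gradient η y) +
        (η y ^ N) • ((if s y < κ then (1 : ℝ) else 0) • (-(S y)))) := by
  have hB : IsOpen (Metric.ball x r) := Metric.isOpen_ball
  have h1 : LH p μ (Metric.ball x r) (fun y => κ - s y) (fun y => (0 : Sp n) - S y) :=
    LH.sub hp (LH.const κ) hs
  obtain ⟨β, hβ1, _, _, hβ4, hβ5, hβ6, _⟩ := exists_profile 0 le_rfl
  have h2 := LH.chain_lim (C := 1) hp hB hβ1 (fun j s => abs_le.2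
    ⟨by linarith [(hβ4 j s).1], (hβ4 j s).2⟩) hβ5 hβ6 h1
  have hηN : ContDiff ℝ (⊤ : ℕ∞) (fun y => η y ^ N) := hη.smooth.pow N
  have h3 : LH p μ (Metric.ball x r) (fun y => η y ^ N) (gradient (fun y => η y ^ N)) :=
    LH.of_smooth hηN
  have h4 := LH.mul (C := max κ 1) hp hB h2 h3 (by
    filter_upwards [hs0] with y hy hyB
    have h5 := hy hyB
    rw [abs_of_nonneg (le_max_right _ _)]
    refine max_le ?_ (le_max_of_le_left hκ)
    refine le_max_of_le_left ?_
    linarith) (by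
    refine Eventually.of_forall (fun y _ => ?_)
    have h5 := hη01 y
    rw [abs_of_nonneg (pow_nonneg h5.1 N)]
    exact le_max_of_le_right (pow_le_one₀ h5.1 h5.2))
  have hgrad : ∀ y, gradient (fun y => η y ^ N) y = ((N : ℝ) * η y ^ (N - 1)) • gradient η y := by
    intro y
    have := grad_comp (β := fun t : ℝ => t ^ N) (x := y) (hη.diff y) (differentiableAt_pow N)
    rw [this]
    simp
  have h5 : LH p μ (Metric.ball x r) (fun y => max (κ - s y) 0 * η y ^ N)
      (fun y => max (κ - s y) 0 • (((N : ℝ) * η y ^ (N - 1)) • gradient η y) +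
        (η y ^ N) • ((if s y < κ then (1 : ℝ) else 0) • (-(S y)))) := by
    have e1 : (fun y => max (κ - s y - 0) 0 * η y ^ N) = fun y => max (κ - s y) 0 * η y ^ N := by
      funext y; rw [sub_zero]
    have e2 : (fun y => max (κ - s y - 0) 0 • gradient (fun y => η y ^ N) y +
        (η y ^ N) • ((if 0 < κ - s y then (1 : ℝ) else 0) • ((0 : Sp n) - S y)))
        = fun y => max (κ - s y) 0 • (((N : ℝ) * η y ^ (N - 1)) • gradient η y) +
        (η y ^ N) • ((if s y < κ then (1 : ℝ) else 0) • (-(S y))) := by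
      funext y
      rw [hgrad, sub_zero, zero_sub]
      congr 3
      by_cases h : s y < κ
      · rw [if_pos h, if_pos (by linarith)]
      · rw [if_neg h, if_neg (by linarith)]
    rw [← e1, ← e2]
    exact h4
  have hK : IsCompact (tsupport η) := hη.comp
  have hKB : tsupport η ⊆ Metric.ball x r := hη.supp.trans (Metric.ball_subset_ball hRr)
  refine LH.toH0 h5 hB hK hKB ?_ ?_
  · refine Eventually.of_forall (fun y hy => ?_)
    rw [zero_of_notMem hy, zero_pow (by omega), mul_zero]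
  · refine Eventually.of_forall (fun y hy => ?_)
    rw [zero_of_notMem hy, grad_zero_of_notMem hy, zero_pow (by omega : N ≠ 0)]
    simp

/-- integrals of `(κ - s)_+ ^ p` over balls -/
theorem aux833_int {p : ℝ} (hp : 1 < p) {μ : Measure (Sp n)} {x : Sp n} {r : ℝ}
    (hfin : μ (Metric.ball x r) < ∞) {s : Sp n → ℝ}
    (hsm : AEStronglyMeasurable s (μ.restrict (Metric.ball x r)))
    (hs0 : ∀ᵐ y ∂μ, y ∈ Metric.ball x r → 0 ≤ s y) (κ : ℝ) (hκ : 0 ≤ κ) :
    IntegrableOn (fun y => (max (κ - s y) 0) ^ p) (Metric.ball x r) μ := by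
  have hm : AEStronglyMeasurable (fun y => (max (κ - s y) 0) ^ p)
      (μ.restrict (Metric.ball x r)) := by
    have h1 : AEMeasurable s (μ.restrict (Metric.ball x r)) := hsm.aemeasurable
    exact (((aemeasurable_const.sub h1).max aemeasurable_const).pow_const p).aestronglyMeasurable
  refine Integrable.mono' (g := fun _ => κ ^ p) ?_ hm ?_
  · exact integrableOn_const hfin.ne
  · rw [ae_restrict_iff' measurableSet_ball]
    filter_upwards [hs0] with y hy hyB
    have h5 := hy hyB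
    rw [Real.norm_eq_abs, abs_of_nonneg (Real.rpow_nonneg (le_max_right _ _) p)]
    refine Real.rpow_le_rpow (le_max_right _ _) ?_ (by linarith)
    exact max_le (by linarith) hκ

/-- energy estimate for the test function -/
theorem aux833_energy {p α β C1 : ℝ} (hp : 1 < p) {N : ℕ} (hN : 1 ≤ N)
    {μ : Measure (Sp n)} [IsFiniteMeasureOnCompacts μ]
    {x : Sp n} {r R Λ : ℝ} (hR : 0 < R) (hRr : R ≤ r) (hΛ : 0 ≤ Λ)
    {s : Sp n → ℝ} {S : Sp n → Sp n}
    {κ : ℝ} (hκ : 0 ≤ κ) {η : Sp n → ℝ}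
    (hη : Cc (Metric.ball x R) η) (hη01 : ∀ y, 0 ≤ η y ∧ η y ≤ 1)
    (hgr : ∀ y, ‖gradient η y‖ ≤ Λ)
    (hint : IntegrableOn (fun y => (max (κ - s y) 0) ^ p) (Metric.ball x r) μ)
    (hC1 : 0 ≤ C1)
    (i1 : Integrable (fun x => (if s x < κ then (1 : ℝ) else 0) * ‖S x‖ ^ p * η x ^ N) μ)
    (i2 : Integrable (fun x => (max (κ - s x) 0) ^ p * ‖gradient η x‖ ^ p) μ)
    (hcac : ∫ x, (if s x < κ then (1 : ℝ) else 0) * ‖S x‖ ^ p * η x ^ N ∂μ ≤
        C1 * ∫ x, (max (κ - s x) 0) ^ p * ‖gradient η x‖ ^ p ∂μ) :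
    ∫ y, ‖max (κ - s y) 0 • (((N : ℝ) * η y ^ (N - 1)) • gradient η y) +
        (η y ^ N) • ((if s y < κ then (1 : ℝ) else 0) • (-(S y)))‖ ^ p ∂μ ≤
      2 ^ p * (C1 + (N : ℝ) ^ p) * Λ ^ p *
        ∫ y in Metric.ball x R, (max (κ - s y) 0) ^ p ∂μ := by
  have hp0 : 0 < p := by linarith
  -- pointwise
  have hpt : ∀ y, ‖max (κ - s y) 0 • (((N : ℝ) * η y ^ (N - 1)) • gradient η y) +
        (η y ^ N) • ((if s y < κ then (1 : ℝ) else 0) • (-(S y)))‖ ^ p ≤
      2 ^ p * ((N : ℝ) ^ p * ((max (κ - s y) 0) ^ p * ‖gradient η y‖ ^ p) +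
        (if s y < κ then (1 : ℝ) else 0) * ‖S y‖ ^ p * η y ^ N) := by
    intro y
    obtain ⟨w, hw⟩ : ∃ w : ℝ, w = max (κ - s y) 0 := ⟨_, rfl⟩
    have hw0 : 0 ≤ w := by rw [hw]; exact le_max_right _ _
    obtain ⟨c, hc⟩ : ∃ c : ℝ, c = if s y < κ then (1 : ℝ) else 0 := ⟨_, rfl⟩
    have hc01 : c = 0 ∨ c = 1 := by
      rw [hc]; split_ifs
      · right; rfl
      · left; rfl
    have hc0 : 0 ≤ c := by rcases hc01 with h | h <;> rw [h]; norm_num
    have hcp : c ^ p = c := by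
      rcases hc01 with h | h
      · rw [h, Real.zero_rpow hp0.ne']
      · rw [h, Real.one_rpow]
    rw [← hw, ← hc]
    have h0 := hη01 y
    have e1 : ‖w • (((N : ℝ) * η y ^ (N - 1)) • gradient η y) + (η y ^ N) • (c • (-(S y)))‖ ≤
        (N : ℝ) * (w * ‖gradient η y‖) + η y ^ N * (c * ‖S y‖) := by
      refine (norm_add_le _ _).trans ?_
      have a1 : ‖w • (((N : ℝ) * η y ^ (N - 1)) • gradient η y)‖ ≤
          (N : ℝ) * (w * ‖gradient η y‖) := by
        rw [norm_smul, norm_smul, Real.norm_eq_abs, Real.norm_eq_abs, abs_of_nonneg hw0,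
          abs_of_nonneg (mul_nonneg (Nat.cast_nonneg N) (pow_nonneg h0.1 _))]
        have b1 : η y ^ (N - 1) ≤ 1 := pow_le_one₀ h0.1 h0.2
        have b2 : (N : ℝ) * η y ^ (N - 1) ≤ N := mul_le_of_le_one_right (Nat.cast_nonneg N) b1
        have b3 : 0 ≤ w * ‖gradient η y‖ := by positivity
        calc w * ((N : ℝ) * η y ^ (N - 1) * ‖gradient η y‖)
            = ((N : ℝ) * η y ^ (N - 1)) * (w * ‖gradient η y‖) := by ring
          _ ≤ (N : ℝ) * (w * ‖gradient η y‖) := mul_le_mul_of_nonneg_right b2 b3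
      have a2 : ‖(η y ^ N) • (c • (-(S y)))‖ = η y ^ N * (c * ‖S y‖) := by
        rw [norm_smul, norm_smul, norm_neg, Real.norm_eq_abs, Real.norm_eq_abs,
          abs_of_nonneg (pow_nonneg h0.1 N), abs_of_nonneg hc0]
      rw [a2]
      linarith
    refine (Real.rpow_le_rpow (norm_nonneg _) e1 hp0.le).trans ?_
    have hA : 0 ≤ (N : ℝ) * (w * ‖gradient η y‖) := by positivity
    have hB : 0 ≤ η y ^ N * (c * ‖S y‖) := by
      have := pow_nonneg h0.1 N
      positivity
    refine (aux833_rpow_add_j5425 hA hB hp).trans ?_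
    refine mul_le_mul_of_nonneg_left ?_ (by positivity)
    have e2 : ((N : ℝ) * (w * ‖gradient η y‖)) ^ p = (N : ℝ) ^ p * (w ^ p * ‖gradient η y‖ ^ p) := by
      rw [Real.mul_rpow (by positivity) (by positivity), Real.mul_rpow hw0 (norm_nonneg _)]
    have e3 : (η y ^ N * (c * ‖S y‖)) ^ p ≤ c * ‖S y‖ ^ p * η y ^ N := by
      have hηN0 : 0 ≤ η y ^ N := pow_nonneg h0.1 N
      have hηN1 : η y ^ N ≤ 1 := pow_le_one₀ h0.1 h0.2
      rw [Real.mul_rpow hηN0 (by positivity), Real.mul_rpow hc0 (norm_nonneg _), hcp]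
      have e4 : (η y ^ N) ^ p ≤ η y ^ N := by
        have := Real.rpow_le_rpow_of_exponent_ge' hηN0 hηN1 zero_le_one hp.le
        rwa [Real.rpow_one] at this
      have e5 : 0 ≤ c * ‖S y‖ ^ p := by positivity
      calc (η y ^ N) ^ p * (c * ‖S y‖ ^ p) ≤ η y ^ N * (c * ‖S y‖ ^ p) :=
            mul_le_mul_of_nonneg_right e4 e5
        _ = _ := by ring
    rw [e2]
    linarith
  have hgint : ∫ y, (max (κ - s y) 0) ^ p * ‖gradient η y‖ ^ p ∂μ ≤
      Λ ^ p * ∫ y in Metric.ball x R, (max (κ - s y) 0) ^ p ∂μ := by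
    have hintR : IntegrableOn (fun y => (max (κ - s y) 0) ^ p) (Metric.ball x R) μ :=
      hint.mono_set (Metric.ball_subset_ball hRr)
    rw [← integral_const_mul, ← integral_indicator measurableSet_ball]
    refine integral_mono i2 ?_ ?_
    · exact (integrable_indicator_iff measurableSet_ball).2 (hintR.const_mul _)
    · intro y
      have hw0 : 0 ≤ (max (κ - s y) 0) ^ p := Real.rpow_nonneg (le_max_right _ _) p
      simp only
      by_cases hy : y ∈ Metric.ball x R
      · rw [Set.indicator_of_mem hy]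
        have h1 : ‖gradient η y‖ ^ p ≤ Λ ^ p := Real.rpow_le_rpow (norm_nonneg _) (hgr y) hp0.le
        calc (max (κ - s y) 0) ^ p * ‖gradient η y‖ ^ p ≤ (max (κ - s y) 0) ^ p * Λ ^ p :=
              mul_le_mul_of_nonneg_left h1 hw0
          _ = _ := by ring
      · rw [Set.indicator_of_notMem hy]
        have hy2 : y ∉ tsupport η := fun h => hy (hη.supp h)
        rw [grad_zero_of_notMem hy2, norm_zero, Real.zero_rpow hp0.ne', mul_zero]
  have hall : ∫ y, ‖max (κ - s y) 0 • (((N : ℝ) * η y ^ (N - 1)) • gradient η y) +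
        (η y ^ N) • ((if s y < κ then (1 : ℝ) else 0) • (-(S y)))‖ ^ p ∂μ ≤
      ∫ y, 2 ^ p * ((N : ℝ) ^ p * ((max (κ - s y) 0) ^ p * ‖gradient η y‖ ^ p) +
        (if s y < κ then (1 : ℝ) else 0) * ‖S y‖ ^ p * η y ^ N) ∂μ := by
    refine integral_mono_of_nonneg (Eventually.of_forall (fun y => by positivity)) ?_
      (Eventually.of_forall hpt)
    exact ((i2.const_mul _).add i1).const_mul _
  refine hall.trans ?_
  rw [integral_const_mul, integral_add (i2.const_mul _) i1, integral_const_mul]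
  have hQ0 : 0 ≤ ∫ y, (max (κ - s y) 0) ^ p * ‖gradient η y‖ ^ p ∂μ :=
    integral_nonneg (fun y => mul_nonneg (Real.rpow_nonneg (le_max_right _ _) p) (by positivity))
  have hf1 : (N : ℝ) ^ p * (∫ y, (max (κ - s y) 0) ^ p * ‖gradient η y‖ ^ p ∂μ) +
      ∫ y, (if s y < κ then (1 : ℝ) else 0) * ‖S y‖ ^ p * η y ^ N ∂μ ≤
      (C1 + (N : ℝ) ^ p) * ∫ y, (max (κ - s y) 0) ^ p * ‖gradient η y‖ ^ p ∂μ := by
    rw [add_mul]
    linarith
  have hf2 : (C1 + (N : ℝ) ^ p) * (∫ y, (max (κ - s y) 0) ^ p * ‖gradient η y‖ ^ p ∂μ) ≤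
      (C1 + (N : ℝ) ^ p) * (Λ ^ p * ∫ y in Metric.ball x R, (max (κ - s y) 0) ^ p ∂μ) :=
    mul_le_mul_of_nonneg_left hgint (by positivity)
  have hf3 := mul_le_mul_of_nonneg_left (hf1.trans hf2) (show (0 : ℝ) ≤ 2 ^ p by positivity)
  refine hf3.trans (le_of_eq ?_)
  ring

end aux833

section aux833b

variable {n : ℕ}

theorem aux833_step {p θ Cd Cs lam Cp C1 Λ : ℝ} (hp : 1 < p) {N : ℕ} (hN : 1 ≤ N)
    {μ : Measure (Sp n)} [IsFiniteMeasureOnCompacts μ] (hA : Adm p μ Cd θ Cs lam Cp)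
    {x : Sp n} {r R R' : ℝ} (hR' : 0 < R') (hRR : R' < R) (hRr : R ≤ r) (hΛ : 0 ≤ Λ)
    {s : Sp n → ℝ} {S : Sp n → Sp n}
    (hs : LH p μ (Metric.ball x r) s S) (hs0 : ∀ᵐ y ∂μ, y ∈ Metric.ball x r → 0 ≤ s y)
    {κ κ' : ℝ} (hκ' : 0 ≤ κ') (hκκ : κ' < κ) {η : Sp n → ℝ}
    (hη : Cc (Metric.ball x R) η) (hη01 : ∀ y, 0 ≤ η y ∧ η y ≤ 1)
    (hη1 : ∀ y ∈ Metric.closedBall x R', η y = 1)
    (hgr : ∀ y, ‖gradient η y‖ ≤ Λ)
    (hC1 : 0 ≤ C1)
    (i1 : Integrable (fun x => (if s x < κ' then (1 : ℝ) else 0) * ‖S x‖ ^ p * η x ^ N) μ)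
    (i2 : Integrable (fun x => (max (κ' - s x) 0) ^ p * ‖gradient η x‖ ^ p) μ)
    (hcac : ∫ x, (if s x < κ' then (1 : ℝ) else 0) * ‖S x‖ ^ p * η x ^ N ∂μ ≤
        C1 * ∫ x, (max (κ' - s x) 0) ^ p * ‖gradient η x‖ ^ p ∂μ) :
    ∫ y in Metric.ball x R', (max (κ' - s y) 0) ^ p ∂μ ≤
      Cs * r ^ p * ((∫ y in Metric.ball x R, (max (κ - s y) 0) ^ p ∂μ) / (κ - κ') ^ p /
        μ.real (Metric.ball x r)) ^ θ *
      (2 ^ p * (C1 + (N : ℝ) ^ p) * Λ ^ p *
        ∫ y in Metric.ball x R, (max (κ - s y) 0) ^ p ∂μ) := by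
  have hp0 : 0 < p := by linarith
  have hR : 0 < R := hR'.trans hRR
  have hr : 0 < r := hR.trans_le hRr
  have hκ : 0 ≤ κ := hκ'.trans hκκ.le
  have hm0 : 0 < μ.real (Metric.ball x r) :=
    ENNReal.toReal_pos (hA.pos x r hr).ne' (hA.fin x r).ne
  have hsm := aux833_meas hr hs
  have hint' := aux833_int hp (hA.fin x r) hsm hs0 κ' hκ'
  have hint := aux833_int hp (hA.fin x r) hsm hs0 κ hκ
  have hintR : IntegrableOn (fun y => (max (κ - s y) 0) ^ p) (Metric.ball x R) μ :=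
    hint.mono_set (Metric.ball_subset_ball hRr)
  have hintR' : IntegrableOn (fun y => (max (κ' - s y) 0) ^ p) (Metric.ball x R) μ :=
    hint'.mono_set (Metric.ball_subset_ball hRr)
  have hH0 := aux833_H0 hp hRr hs hs0 hκ' hη hη01 N hN
  have hsob := hA.sob x r hr _ _ hH0
  have hen := aux833_energy (α := 0) (β := 0) hp hN hR hRr hΛ hκ' hη hη01 hgr hint' hC1 i1 i2 hcac
  obtain ⟨I, hI⟩ : ∃ I : ℝ, I = ∫ y in Metric.ball x R, (max (κ - s y) 0) ^ p ∂μ := ⟨_, rfl⟩
  have hI0 : 0 ≤ I := by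
    rw [hI]; exact integral_nonneg (fun y => Real.rpow_nonneg (le_max_right _ _) p)
  have hII : ∫ y in Metric.ball x R, (max (κ' - s y) 0) ^ p ∂μ ≤ I := by
    rw [hI]
    refine integral_mono hintR' hintR (fun y => ?_)
    refine Real.rpow_le_rpow (le_max_right _ _) ?_ hp0.le
    exact max_le_max (by linarith) le_rfl
  rw [← hI]
  -- the left-hand side
  have hf_int : Integrable (fun y => |max (κ' - s y) 0 * η y ^ N| ^ p) μ := by
    have h1 := hH0.mu.integrable_norm_rpow (by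
      simpa using hp0) ENNReal.ofReal_ne_top
    rw [ENNReal.toReal_ofReal hp0.le] at h1
    simpa [Real.norm_eq_abs] using h1
  have hleft : ∫ y in Metric.ball x R', (max (κ' - s y) 0) ^ p ∂μ ≤
      ∫ y, |max (κ' - s y) 0 * η y ^ N| ^ p ∂μ := by
    rw [← integral_indicator measurableSet_ball]
    refine integral_mono_of_nonneg (Eventually.of_forall (fun y => ?_)) hf_int
      (Eventually.of_forall (fun y => ?_))
    · exact Set.indicator_nonneg (fun y _ => Real.rpow_nonneg (le_max_right _ _) p) y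
    · simp only
      by_cases hy : y ∈ Metric.ball x R'
      · rw [Set.indicator_of_mem hy, hη1 y (Metric.ball_subset_closedBall hy), one_pow, mul_one,
          abs_of_nonneg (le_max_right _ _)]
      · rw [Set.indicator_of_notMem hy]
        positivity
  -- Markov
  have hδ : 0 < κ - κ' := by linarith
  have hδp : 0 < (κ - κ') ^ p := Real.rpow_pos_of_pos hδ p
  have hmark : μ.real {y | max (κ' - s y) 0 * η y ^ N ≠ 0} ≤ I / (κ - κ') ^ p := by
    have h1 := mul_meas_ge_le_integral_of_nonneg (μ := μ)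
      (f := (Metric.ball x R).indicator (fun y => (max (κ - s y) 0) ^ p))
      (Eventually.of_forall (Set.indicator_nonneg
        (fun y _ => Real.rpow_nonneg (le_max_right _ _) p)))
      ((integrable_indicator_iff measurableSet_ball).2 hintR) ((κ - κ') ^ p)
    rw [integral_indicator measurableSet_ball, ← hI] at h1
    rw [le_div_iff₀ hδp, mul_comm]
    refine le_trans (mul_le_mul_of_nonneg_left ?_ hδp.le) h1
    refine measureReal_mono ?_ ?_
    · intro y hy
      rw [Set.mem_ofPred_eq] at hy ⊢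
      have hηy : η y ≠ 0 := by
        intro h0
        apply hy
        rw [h0, zero_pow (by omega), mul_zero]
      have hyR : y ∈ Metric.ball x R := hη.supp (subset_tsupport η hηy)
      have hsy : 0 < κ' - s y := by
        by_contra h0
        apply hy
        rw [max_eq_right (not_lt.1 h0), zero_mul]
      rw [Set.indicator_of_mem hyR]
      refine Real.rpow_le_rpow hδ.le ?_ hp0.le
      exact le_max_of_le_left (by linarith)
    · refine ne_top_of_le_ne_top (hA.fin x R).ne (measure_mono ?_)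
      intro y hy
      rw [Set.mem_ofPred_eq] at hy
      by_contra h0
      rw [Set.indicator_of_notMem h0] at hy
      linarith
  refine hleft.trans (hsob.trans ?_)
  have hE0 : 0 ≤ ∫ y, ‖max (κ' - s y) 0 • (((N : ℝ) * η y ^ (N - 1)) • gradient η y) +
        (η y ^ N) • ((if s y < κ' then (1 : ℝ) else 0) • (-(S y)))‖ ^ p ∂μ :=
    integral_nonneg (fun y => by positivity)
  have hen2 : ∫ y, ‖max (κ' - s y) 0 • (((N : ℝ) * η y ^ (N - 1)) • gradient η y) +
        (η y ^ N) • ((if s y < κ' then (1 : ℝ) else 0) • (-(S y)))‖ ^ p ∂μ ≤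
        2 ^ p * (C1 + (N : ℝ) ^ p) * Λ ^ p * I :=
    hen.trans (mul_le_mul_of_nonneg_left hII (by positivity))
  have hM : (μ.real {y | max (κ' - s y) 0 * η y ^ N ≠ 0} / μ.real (Metric.ball x r)) ^ θ ≤
      (I / (κ - κ') ^ p / μ.real (Metric.ball x r)) ^ θ := by
    refine Real.rpow_le_rpow (by positivity) ?_ hA.theta_pos.le
    exact div_le_div_of_nonneg_right hmark hm0.le
  have hCs := hA.Cs_pos
  refine mul_le_mul ?_ hen2 hE0 (by positivity)
  exact mul_le_mul_of_nonneg_left hM (by positivity)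

theorem aux833_arith {p θ Cs C0 D r k m I I' : ℝ} (hθ : 0 < θ)
    (hC0 : 0 < C0) (hr : 0 < r) (hk : 0 < k) (hm : 0 < m) (hI : 0 ≤ I) (j : ℕ)
    (h : I' ≤ Cs * r ^ p * (I / (k / 2 ^ (j + 2)) ^ p / m) ^ θ *
      (2 ^ p * D * (C0 / (r / 2 ^ (j + 2))) ^ p * I)) :
    (k ^ p * m)⁻¹ * I' ≤ (Cs * (2 ^ p * D) * C0 ^ p * ((2 : ℝ) ^ p * ((2 : ℝ) ^ p) ^ θ) ^ 2) *
      ((2 : ℝ) ^ p * ((2 : ℝ) ^ p) ^ θ) ^ j * ((k ^ p * m)⁻¹ * I) ^ (1 + θ) := by
  have hkp : 0 < k ^ p := Real.rpow_pos_of_pos hk p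
  have hrp : 0 < r ^ p := Real.rpow_pos_of_pos hr p
  have e0 : ((2 : ℝ) ^ (j + 2)) ^ p = ((2 : ℝ) ^ p) ^ (j + 2) := by
    rw [Real.rpow_pow_comm (by norm_num)]
  have e1 : (C0 / (r / 2 ^ (j + 2))) ^ p = C0 ^ p * ((2 : ℝ) ^ p) ^ (j + 2) / r ^ p := by
    rw [div_div_eq_mul_div, Real.div_rpow (by positivity) hr.le,
      Real.mul_rpow hC0.le (by positivity), e0]
  have e2 : I / (k / 2 ^ (j + 2)) ^ p / m = ((k ^ p * m)⁻¹ * I) * ((2 : ℝ) ^ p) ^ (j + 2) := by
    rw [Real.div_rpow hk.le (by positivity), e0]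
    field_simp
  obtain ⟨Y, hY⟩ : ∃ Y, Y = (k ^ p * m)⁻¹ * I := ⟨_, rfl⟩
  have hY0 : 0 ≤ Y := by rw [hY]; positivity
  rw [e1, e2, ← hY] at h
  obtain ⟨c, hc⟩ : ∃ c : ℝ, c = (2 : ℝ) ^ p := ⟨_, rfl⟩
  have hc0 : 0 < c := by rw [hc]; positivity
  rw [← hc] at h ⊢
  rw [← hY]
  have e3 : (Y * c ^ (j + 2)) ^ θ = Y ^ θ * (c ^ θ) ^ (j + 2) := by
    rw [Real.mul_rpow hY0 (by positivity), Real.rpow_pow_comm hc0.le]
  rw [e3] at h
  have e4 : Y ^ (1 + θ) = Y * Y ^ θ := by
    rw [Real.rpow_one_add' hY0 (by linarith)]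
  rw [e4]
  have hinv : 0 ≤ (k ^ p * m)⁻¹ := by positivity
  refine (mul_le_mul_of_nonneg_left h hinv).trans (le_of_eq ?_)
  have e5 : (k ^ p * m)⁻¹ * (Cs * r ^ p * (Y ^ θ * (c ^ θ) ^ (j + 2)) *
      (c * D * (C0 ^ p * c ^ (j + 2) / r ^ p) * I)) =
      Cs * (r ^ p / r ^ p) * (Y ^ θ * (c ^ θ) ^ (j + 2)) *
      (c * D * (C0 ^ p * c ^ (j + 2))) * ((k ^ p * m)⁻¹ * I) := by ring
  rw [e5, ← hY, div_self hrp.ne']
  ring

end aux833b

/-! ### TARGET -/
/-- De Giorgi: a nonnegative supersolution which is below `k` only on a small fraction of the ball is `≥ k/2` in the half ball -/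
theorem DG1 {n : ℕ} {p α β Cd θ Cs lam Cp : ℝ} (hp : 1 < p) (hα : 0 < α) (hβ : 0 < β) :
    ∃ γ0 : ℝ, 0 < γ0 ∧ ∀ (μ : Measure (Sp n)) [IsFiniteMeasureOnCompacts μ]
      (A : Sp n → Sp n → Sp n), Op p α β μ A → Adm p μ Cd θ Cs lam Cp → ∀ (G : Set (Sp n)),
      IsOpen G → ∀ (s : Sp n → ℝ) (S : Sp n → Sp n), Sup A p μ G s S →
      (∀ᵐ y ∂μ, y ∈ G → 0 ≤ s y) → ∀ (x : Sp n) (r : ℝ), 0 < r → Metric.ball x r ⊆ G →
      ∀ k : ℝ, 0 < k → μ.real {y | y ∈ Metric.ball x r ∧ s y < k} ≤ γ0 * μ.real (Metric.ball x r) →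
      ∀ᵐ y ∂μ, y ∈ Metric.ball x (r / 2) → k / 2 ≤ s y := by
  have hp0 : 0 < p := by linarith
  by_cases hpos : 0 < Cs ∧ 0 < θ
  swap
  · refine ⟨1, one_pos, ?_⟩
    intro μ _ A _ hAdm
    exact absurd ⟨hAdm.Cs_pos, hAdm.theta_pos⟩ hpos
  obtain ⟨hCs, hθ⟩ := hpos
  obtain ⟨N, hNdef⟩ : ∃ N : ℕ, N = ⌈p⌉₊ := ⟨_, rfl⟩
  have hpN : p ≤ N := by rw [hNdef]; exact Nat.le_ceil p
  have hN : 1 ≤ N := by
    have : (0 : ℝ) < N := by linarith
    exact_mod_cast this
  obtain ⟨C1, hC1, hcac⟩ := caccioppoli (n := n) hp hα hβ N hpN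
  obtain ⟨C0, hC0, hcut⟩ := exists_ball_cutoff n
  obtain ⟨D, hD⟩ : ∃ D : ℝ, D = C1 + (N : ℝ) ^ p := ⟨_, rfl⟩
  have hD0 : 0 < D := by
    have h1 : (0 : ℝ) < N := by exact_mod_cast hN
    have h2 : 0 < (N : ℝ) ^ p := Real.rpow_pos_of_pos h1 p
    rw [hD]; linarith
  have hc1 : (1 : ℝ) < (2 : ℝ) ^ p := Real.one_lt_rpow (by norm_num) hp0
  have hb : (1 : ℝ) < (2 : ℝ) ^ p * ((2 : ℝ) ^ p) ^ θ :=
    one_lt_mul_of_lt_of_le hc1 (Real.one_lt_rpow hc1 hθ).le
  have hC' : 0 < Cs * (2 ^ p * D) * C0 ^ p * ((2 : ℝ) ^ p * ((2 : ℝ) ^ p) ^ θ) ^ 2 := by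
    positivity
  obtain ⟨γ0, hγ0, hgeom⟩ := fast_geom hC' hb hθ
  refine ⟨γ0, hγ0, ?_⟩
  intro μ hμ A hOp hAdm G hG s S hSup hs0G x r hr hBG k hk hsmall
  have hs : LH p μ (Metric.ball x r) s S := LH.mono hSup.1 hBG hp Metric.isOpen_ball
  have hs0 : ∀ᵐ y ∂μ, y ∈ Metric.ball x r → 0 ≤ s y := by
    filter_upwards [hs0G] with y hy hyB
    exact hy (hBG hyB)
  obtain ⟨m, hm⟩ : ∃ m : ℝ, m = μ.real (Metric.ball x r) := ⟨_, rfl⟩
  have hm0 : 0 < m := by
    rw [hm]; exact ENNReal.toReal_pos (hAdm.pos x r hr).ne' (hAdm.fin x r).ne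
  have hsm := aux833_meas hr hs
  have hkp : 0 < k ^ p := Real.rpow_pos_of_pos hk p
  -- sequences
  obtain ⟨R, hR⟩ : ∃ R : ℕ → ℝ, R = fun j => r / 2 * (1 + (1 / 2) ^ j) := ⟨_, rfl⟩
  obtain ⟨κ, hκ⟩ : ∃ κ : ℕ → ℝ, κ = fun j => k / 2 * (1 + (1 / 2) ^ j) := ⟨_, rfl⟩
  have hhalf0 : ∀ j : ℕ, (0 : ℝ) < (1 / 2) ^ j := fun j => by positivity
  have hhalf1 : ∀ j : ℕ, ((1 : ℝ) / 2) ^ j ≤ 1 := fun j => pow_le_one₀ (by norm_num) (by norm_num)
  have hR0 : ∀ j, 0 < R j := fun j => by rw [hR]; have := hhalf0 j; positivity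
  have hRr : ∀ j, R j ≤ r := fun j => by
    have h1 := hhalf1 j
    rw [hR]
    calc r / 2 * (1 + (1 / 2) ^ j) ≤ r / 2 * (1 + 1) :=
          mul_le_mul_of_nonneg_left (by linarith) (by linarith)
      _ = r := by ring
  have hRhalf : ∀ j, r / 2 ≤ R j := fun j => by
    have h1 := hhalf0 j
    rw [hR]
    calc r / 2 = r / 2 * (1 + 0) := by ring
      _ ≤ r / 2 * (1 + (1 / 2) ^ j) := mul_le_mul_of_nonneg_left (by linarith) (by linarith)
  have hpow2 : ∀ j : ℕ, ((1 : ℝ) / 2) ^ j = 1 / 2 ^ j := fun j => by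
    rw [div_pow, one_pow]
  have hRd : ∀ j, R j - R (j + 1) = r / 2 ^ (j + 2) := fun j => by
    rw [hR]
    simp only [hpow2]
    have : (2 : ℝ) ^ j ≠ 0 := by positivity
    field_simp
    ring
  have hκ0 : ∀ j, 0 < κ j := fun j => by rw [hκ]; have := hhalf0 j; positivity
  have hκhalf : ∀ j, k / 2 ≤ κ j := fun j => by
    have h1 := hhalf0 j
    rw [hκ]
    calc k / 2 = k / 2 * (1 + 0) := by ring
      _ ≤ k / 2 * (1 + (1 / 2) ^ j) := mul_le_mul_of_nonneg_left (by linarith) (by linarith)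
  have hκd : ∀ j, κ j - κ (j + 1) = k / 2 ^ (j + 2) := fun j => by
    rw [hκ]
    simp only [hpow2]
    have : (2 : ℝ) ^ j ≠ 0 := by positivity
    field_simp
    ring
  obtain ⟨I, hI⟩ : ∃ I : ℕ → ℝ, I = fun j => ∫ y in Metric.ball x (R j), (max (κ j - s y) 0) ^ p ∂μ :=
    ⟨_, rfl⟩
  have hI0 : ∀ j, 0 ≤ I j := fun j => by
    rw [hI]; exact integral_nonneg (fun y => Real.rpow_nonneg (le_max_right _ _) p)
  -- the recursive estimate
  have hstep : ∀ j, (k ^ p * m)⁻¹ * I (j + 1) ≤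
      (Cs * (2 ^ p * D) * C0 ^ p * ((2 : ℝ) ^ p * ((2 : ℝ) ^ p) ^ θ) ^ 2) *
      ((2 : ℝ) ^ p * ((2 : ℝ) ^ p) ^ θ) ^ j * ((k ^ p * m)⁻¹ * I j) ^ (1 + θ) := by
    intro j
    refine aux833_arith hθ hC0 hr hk hm0 (hI0 j) j ?_
    have hlt : R (j + 1) < R j := by
      have h1 := hRd j
      have h2 : 0 < r / 2 ^ (j + 2) := by positivity
      linarith
    have hlt2 : κ (j + 1) < κ j := by
      have h1 := hκd j
      have h2 : 0 < k / 2 ^ (j + 2) := by positivity
      linarith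
    obtain ⟨η, hη, hη01, hη1, hgr⟩ := hcut x (R (j + 1)) (R j) (hR0 _) hlt
    rw [hRd j] at hgr
    have hηG : Cc G η := hη.mono ((Metric.ball_subset_ball (hRr j)).trans hBG)
    obtain ⟨i1, i2, i3⟩ := hcac μ A hOp G hG s S hSup hs0G (κ (j + 1)) (hκ0 _).le η hηG hη01
    have h3 := aux833_step hp hN hAdm (hR0 (j + 1)) hlt (hRr j)
      (Λ := C0 / (r / 2 ^ (j + 2))) (by positivity) hs hs0 (hκ0 (j + 1)).le hlt2 hη hη01 hη1 hgr
      hC1 i1 i2 i3
    rw [hκd j, ← hm, ← hD] at h3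
    rw [hI]
    exact h3
  -- the initial estimate
  have hinit : (k ^ p * m)⁻¹ * I 0 ≤ γ0 := by
    have hR00 : R 0 = r := by rw [hR]; norm_num
    have hκ00 : κ 0 = k := by rw [hκ]; norm_num
    have hI00 : I 0 = ∫ y in Metric.ball x r, (max (k - s y) 0) ^ p ∂μ := by
      rw [hI]; simp only [hR00, hκ00]
    obtain ⟨E, hE⟩ : ∃ E : Set (Sp n), E = {y | y ∈ Metric.ball x r ∧ s y < k} := ⟨_, rfl⟩
    have hEfin : μ E < ∞ := by
      refine lt_of_le_of_lt (measure_mono ?_) (hAdm.fin x r)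
      rw [hE]; exact fun y hy => hy.1
    have hTfin : μ (toMeasurable μ E) < ∞ := by rwa [measure_toMeasurable]
    have hle : ∫ y in Metric.ball x r, (max (k - s y) 0) ^ p ∂μ ≤
        ∫ y, (toMeasurable μ E).indicator (fun _ => k ^ p) y ∂μ := by
      rw [← integral_indicator measurableSet_ball]
      refine integral_mono_of_nonneg ?_ ?_ ?_
      · exact Eventually.of_forall (Set.indicator_nonneg
          (fun y _ => Real.rpow_nonneg (le_max_right _ _) p))
      · exact (integrable_indicator_iff (measurableSet_toMeasurable μ E)).2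
          (integrableOn_const hTfin.ne)
      · filter_upwards [hs0] with y hy
        by_cases hyB : y ∈ Metric.ball x r
        · rw [Set.indicator_of_mem hyB]
          by_cases hyk : s y < k
          · have hyE : y ∈ E := by rw [hE]; exact ⟨hyB, hyk⟩
            rw [Set.indicator_of_mem (subset_toMeasurable μ E hyE)]
            refine Real.rpow_le_rpow (le_max_right _ _) ?_ hp0.le
            have h5 := hy hyB
            exact max_le (by linarith) hk.le
          · rw [max_eq_right (by linarith), Real.zero_rpow hp0.ne']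
            exact Set.indicator_nonneg (fun _ _ => hkp.le) y
        · rw [Set.indicator_of_notMem hyB]
          exact Set.indicator_nonneg (fun _ _ => hkp.le) y
    rw [integral_indicator (measurableSet_toMeasurable μ E), setIntegral_const, smul_eq_mul,
      measureReal_def, measure_toMeasurable, ← measureReal_def] at hle
    rw [← hE, ← hm] at hsmall
    rw [hI00, inv_mul_le_iff₀ (by positivity)]
    refine hle.trans ?_
    calc μ.real E * k ^ p ≤ (γ0 * m) * k ^ p := mul_le_mul_of_nonneg_right hsmall hkp.le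
      _ = k ^ p * m * γ0 := by ring
  have htend : Tendsto (fun j => (k ^ p * m)⁻¹ * I j) atTop (𝓝 0) := by
    refine hgeom _ (fun j => ?_) hinit hstep
    exact mul_nonneg (by positivity) (hI0 j)
  -- conclusion
  have hfinal_int : IntegrableOn (fun y => (max (k / 2 - s y) 0) ^ p) (Metric.ball x (r / 2)) μ :=
    (aux833_int hp (hAdm.fin x r) hsm hs0 (k / 2) (by linarith)).mono_set
      (Metric.ball_subset_ball (by linarith))
  have hJ0 : 0 ≤ ∫ y in Metric.ball x (r / 2), (max (k / 2 - s y) 0) ^ p ∂μ :=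
    integral_nonneg (fun y => Real.rpow_nonneg (le_max_right _ _) p)
  have hJle : ∀ j, ∫ y in Metric.ball x (r / 2), (max (k / 2 - s y) 0) ^ p ∂μ ≤ I j := by
    intro j
    have hintj := aux833_int hp (hAdm.fin x r) hsm hs0 (κ j) (hκ0 j).le
    have h1 : ∫ y in Metric.ball x (r / 2), (max (k / 2 - s y) 0) ^ p ∂μ ≤
        ∫ y in Metric.ball x (r / 2), (max (κ j - s y) 0) ^ p ∂μ := by
      refine integral_mono hfinal_int
        (hintj.mono_set (Metric.ball_subset_ball (by linarith))) (fun y => ?_)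
      refine Real.rpow_le_rpow (le_max_right _ _) ?_ hp0.le
      exact max_le_max (by linarith [hκhalf j]) le_rfl
    have h2 : ∫ y in Metric.ball x (r / 2), (max (κ j - s y) 0) ^ p ∂μ ≤ I j := by
      rw [hI]
      refine setIntegral_mono_set (hintj.mono_set (Metric.ball_subset_ball (hRr j))) ?_ ?_
      · exact Eventually.of_forall (fun y => Real.rpow_nonneg (le_max_right _ _) p)
      · exact (Metric.ball_subset_ball (hRhalf j)).eventuallyLE
    exact h1.trans h2
  have hJzero : ∫ y in Metric.ball x (r / 2), (max (k / 2 - s y) 0) ^ p ∂μ = 0 := by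
    refine le_antisymm ?_ hJ0
    have h1 : (k ^ p * m)⁻¹ * (∫ y in Metric.ball x (r / 2), (max (k / 2 - s y) 0) ^ p ∂μ) ≤ 0 := by
      refine ge_of_tendsto' htend (fun j => ?_)
      exact mul_le_mul_of_nonneg_left (hJle j) (by positivity)
    have h2 : 0 < (k ^ p * m)⁻¹ := by positivity
    by_contra h3
    rw [not_le] at h3
    have := mul_pos h2 h3
    linarith
  have hae := (integral_eq_zero_iff_of_nonneg_ae
    (Eventually.of_forall (fun y => Real.rpow_nonneg (le_max_right _ _) p)) hfinal_int).1 hJzero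
  rw [Filter.EventuallyEq, ae_restrict_iff' measurableSet_ball] at hae
  filter_upwards [hae] with y hy hyB
  have h4 := hy hyB
  simp only [Pi.zero_apply] at h4
  by_contra h5
  rw [not_le] at h5
  have h6 : 0 < max (k / 2 - s y) 0 := lt_max_of_lt_left (by linarith)
  have h7 := Real.rpow_pos_of_pos h6 p
  linarith


end

section


/-! ### ALREADY PROVED elsewhere: leave these sorries -/
/-!  -/
section TargetsCac
variable {n : ℕ} {G K : Set (Sp n)} {p α β : ℝ} {μ : Measure (Sp n)} {s u v φ η : Sp n → ℝ}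
  {S U V Φ : Sp n → Sp n} {A : Sp n → Sp n → Sp n}

end TargetsCac

/-! ### ALREADY PROVED elsewhere -/
/-! ### TARGET -/

theorem dg2_grad_int {n : ℕ} {p : ℝ} (hp : 1 < p) {μ : Measure (Sp n)}
    [IsFiniteMeasureOnCompacts μ] {x : Sp n} {R : ℝ} {η : Sp n → ℝ} {c : ℝ} (hc : 0 ≤ c)
    (hfin : μ (Metric.ball x R) < ∞)
    (hη : Cc (Metric.ball x R) η) (hg : ∀ y, ‖gradient η y‖ ≤ c) :
    ∫ y, ‖gradient η y‖ ^ p ∂μ ≤ c ^ p * μ.real (Metric.ball x R) := by
  have hp0 : 0 < p := by linarith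
  have hint : Integrable ((Metric.ball x R).indicator fun _ => c ^ p) μ :=
    (integrable_indicator_iff Metric.isOpen_ball.measurableSet).2
      (integrableOn_const hfin.ne)
  calc ∫ y, ‖gradient η y‖ ^ p ∂μ ≤ ∫ y, (Metric.ball x R).indicator (fun _ => c ^ p) y ∂μ := by
        refine integral_mono_of_nonneg (Filter.Eventually.of_forall fun y => by positivity) hint
          (Filter.Eventually.of_forall fun y => ?_)
        show ‖gradient η y‖ ^ p ≤ _
        by_cases hy : y ∈ Metric.ball x R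
        · rw [Set.indicator_of_mem hy]
          exact Real.rpow_le_rpow (norm_nonneg _) (hg y) hp0.le
        · rw [Set.indicator_of_notMem hy, grad_zero_of_notMem (fun h => hy (hη.supp h)), norm_zero,
            Real.zero_rpow hp0.ne']
    _ = c ^ p * μ.real (Metric.ball x R) := by
        rw [integral_indicator_const _ Metric.isOpen_ball.measurableSet, smul_eq_mul, mul_comm]

theorem dg2_log_lh {n : ℕ} {p : ℝ} (hp : 1 < p) {μ : Measure (Sp n)}
    [IsFiniteMeasureOnCompacts μ] {G : Set (Sp n)} (hG : IsOpen G) {σ : Sp n → ℝ}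
    {S : Sp n → Sp n} (h : LH p μ G σ S) {e : ℝ} (he : 0 < e)
    (hσ : ∀ᵐ y ∂μ, y ∈ G → e ≤ σ y) (t : ℝ) :
    ∃ W : Sp n → Sp n, LH p μ G (fun y => max (Real.log t - Real.log (σ y)) 0) W ∧
      ∀ y, ‖W y‖ ≤ ‖(σ y)⁻¹ • S y‖ := by
  have hd : ∀ τ : ℝ, deriv (fun τ => Real.log t - Real.log τ) τ = - τ⁻¹ := by
    intro τ
    rw [deriv_const_sub, Real.deriv_log]
  have h1 := LH.chain_on hp hG h (a := e) (d := e / 2) (C := 2 / e) (half_pos he) hσ
    (b := fun τ => Real.log t - Real.log τ) (by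
      refine contDiffOn_const.sub ?_
      refine ContDiffOn.log contDiffOn_id ?_
      intro τ hτ
      have : e - e / 2 < τ := hτ
      have : 0 < τ := by linarith
      exact this.ne') (by
      intro τ hτ
      have h2 : e - e / 2 < τ := hτ
      have h3 : 0 < τ := by linarith
      rw [hd, abs_neg, abs_of_pos (inv_pos.2 h3), inv_eq_one_div,
        div_le_div_iff₀ h3 he]
      linarith)
  obtain ⟨βk, b1, b2, b3, b4, b5, b6, b7⟩ := exists_profile 0 le_rfl
  have h2 := LH.chain_lim hp hG (β := fun τ => max (τ - 0) 0)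
    (b := fun τ => if 0 < τ then 1 else 0) (βk := βk) b1 (C := 1) (by
      intro k s
      rw [abs_of_nonneg (b4 k s).1]
      exact (b4 k s).2) b5 b6 h1
  refine ⟨fun y => (if 0 < Real.log t - Real.log (σ y) then (1:ℝ) else 0) •
      (deriv (fun τ => Real.log t - Real.log τ) (σ y) • S y), ?_, ?_⟩
  · simpa only [sub_zero] using h2
  · intro y
    show ‖(if 0 < Real.log t - Real.log (σ y) then (1:ℝ) else 0) •
      (deriv (fun τ => Real.log t - Real.log τ) (σ y) • S y)‖ ≤ ‖(σ y)⁻¹ • S y‖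
    rw [hd, norm_smul, neg_smul, norm_neg]
    split_ifs
    · simp
    · simp

/-- De Giorgi: expansion of positivity for nonnegative supersolutions -/
theorem DG2 {n : ℕ} {p α β Cd θ Cs lam Cp : ℝ} (hp : 1 < p) (hα : 0 < α) (hβ : 0 < β)
    {γ : ℝ} (hγ : 0 < γ) :
    ∃ δ : ℝ, 0 < δ ∧ δ < 1 ∧ ∀ (μ : Measure (Sp n)) [IsFiniteMeasureOnCompacts μ]
      (A : Sp n → Sp n → Sp n), Op p α β μ A → Adm p μ Cd θ Cs lam Cp → ∀ (G : Set (Sp n)),
      IsOpen G → ∀ (s : Sp n → ℝ) (S : Sp n → Sp n), Sup A p μ G s S →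
      (∀ᵐ y ∂μ, y ∈ G → 0 ≤ s y) → ∀ (x : Sp n) (r : ℝ), 0 < r →
      Metric.ball x (2 * lam * r) ⊆ G →
      ∀ t : ℝ, 0 < t → γ * μ.real (Metric.ball x r) ≤ μ.real {y | y ∈ Metric.ball x r ∧ t ≤ s y} →
      ∀ᵐ y ∂μ, y ∈ Metric.ball x (r / 2) → δ * t ≤ s y := by
  have hp0 : 0 < p := by linarith
  by_cases hpos : 1 ≤ Cd ∧ 1 ≤ lam ∧ 0 < Cp
  swap
  · refine ⟨1 / 2, by norm_num, by norm_num, ?_⟩
    intro μ _ A _ hadm
    exact absurd ⟨hadm.one_le_Cd, hadm.one_le_lam, hadm.Cp_pos⟩ hpos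
  obtain ⟨hCd, hlam, hCp⟩ := hpos
  obtain ⟨γ0, hγ0, hDG1⟩ := DG1 (n := n) (p := p) (α := α) (β := β) (Cd := Cd) (θ := θ) (Cs := Cs)
    (lam := lam) (Cp := Cp) hp hα hβ
  obtain ⟨CL, hCL, hlog⟩ := log_estimate (n := n) hp hα hβ ⌈p⌉₊ (Nat.le_ceil p)
  obtain ⟨C0, hC0, hcut⟩ := exists_ball_cutoff n
  have hlam0 : 0 < lam := by linarith
  have hCd0 : 0 < Cd := by linarith
  set C1 : ℝ := Cp * ((CL * Cd) ^ (1 / p) * (C0 / lam)) with hC1
  have hC1n : 0 ≤ C1 := by positivity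
  set Λ : ℝ := C1 / (γ * γ0) + 1 with hΛ
  have hΛ0 : 0 < Λ := by positivity
  have hexp1 : Real.exp (-Λ) < 1 := by rw [Real.exp_lt_one_iff]; linarith
  refine ⟨Real.exp (-Λ) / 2, by positivity, by linarith [Real.exp_pos (-Λ)], ?_⟩
  intro μ _ A hA hadm G hG s S hs hs0 x r hr hball t ht hmeas
  have hlr : 0 < lam * r := by positivity
  have hrl : r ≤ lam * r := by nlinarith
  have hB1 : Metric.ball x r ⊆ Metric.ball x (lam * r) := Metric.ball_subset_ball hrl
  have hB2 : Metric.ball x (lam * r) ⊆ G :=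
    (Metric.ball_subset_ball (by nlinarith)).trans hball
  set B := Metric.ball x r with hB
  have hBm : MeasurableSet B := Metric.isOpen_ball.measurableSet
  set m := μ.real B with hm
  have hm0 : 0 < m := ENNReal.toReal_pos (hadm.pos x r hr).ne' (hadm.fin x r).ne
  obtain ⟨η, hη, hη01, hη1, hηg⟩ := hcut x (lam * r) (2 * lam * r) hlr (by nlinarith)
  have hηG : Cc G η := hη.mono hball
  have hRr : 2 * lam * r - lam * r = lam * r := by ring
  rw [hRr] at hηg
  -- main step for each e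
  have main : ∀ e : ℝ, 0 < e → ∀ᵐ y ∂μ, y ∈ Metric.ball x (r / 2) →
      t * Real.exp (-Λ) / 2 ≤ s y + e := by
    intro e he
    set σ : Sp n → ℝ := fun y => s y + e with hσ
    have hσLH : LH p μ G σ S := by
      have := LH.add hp hs.1 (LH.const (n := n) (p := p) (μ := μ) (G := G) e)
      simpa using this
    have hσSup : Sup A p μ G σ S := ⟨hσLH, hs.2⟩
    have hσe : ∀ᵐ y ∂μ, y ∈ G → e ≤ σ y := by
      filter_upwards [hs0] with y hy hyG
      have := hy hyG
      simp only [hσ]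
      linarith
    obtain ⟨W, hW, hWn⟩ := dg2_log_lh hp hG hσLH he hσe t
    set w : Sp n → ℝ := fun y => max (Real.log t - Real.log (σ y)) 0 with hw
    have hfH := hW η hηG
    set f : Sp n → ℝ := fun y => η y * w y with hf
    set F : Sp n → Sp n := fun y => η y • W y + w y • gradient η y with hF
    have hfH' : H0 p μ univ f F := hfH.mono (subset_univ _)
    have hpoi := hadm.poi x r hr f F hfH'
    -- gradient bound
    obtain ⟨hLint, hLle⟩ := hlog μ A hA G hG σ S hσSup e he hσe η hηG hη01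
    have hη1' : ∀ y ∈ Metric.ball x (lam * r), η y = 1 := fun y hy =>
      hη1 y (Metric.ball_subset_closedBall hy)
    have hF1 : ∫ y in Metric.ball x (lam * r), ‖F y‖ ^ p ∂μ ≤
        ∫ y, ‖(σ y)⁻¹ • S y‖ ^ p * η y ^ ⌈p⌉₊ ∂μ := by
      calc ∫ y in Metric.ball x (lam * r), ‖F y‖ ^ p ∂μ ≤
          ∫ y in Metric.ball x (lam * r), ‖(σ y)⁻¹ • S y‖ ^ p * η y ^ ⌈p⌉₊ ∂μ := by
            refine integral_mono_of_nonneg (Filter.Eventually.of_forall fun y => by positivity)
              hLint.integrableOn ?_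
            refine (ae_restrict_iff' Metric.isOpen_ball.measurableSet).2
              (Filter.Eventually.of_forall fun y hy => ?_)
            have hg0 : gradient η y = 0 := grad_zero_of_const_on Metric.isOpen_ball hη1' hy
            show ‖F y‖ ^ p ≤ _
            simp only [hF, hη1' y hy, hg0, smul_zero, add_zero, one_smul, one_pow, mul_one]
            exact Real.rpow_le_rpow (norm_nonneg _) (hWn y) hp0.le
        _ ≤ _ := by
            refine setIntegral_le_integral hLint (Filter.Eventually.of_forall fun y => ?_)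
            have := (hη01 y).1
            show 0 ≤ ‖(σ y)⁻¹ • S y‖ ^ p * η y ^ ⌈p⌉₊
            positivity
    have hgi : ∫ y, ‖gradient η y‖ ^ p ∂μ ≤
        (C0 / (lam * r)) ^ p * μ.real (Metric.ball x (2 * lam * r)) :=
      dg2_grad_int hp (by positivity) (hadm.fin x _) hη hηg
    have hdb : μ.real (Metric.ball x (2 * lam * r)) ≤ Cd * μ.real (Metric.ball x (lam * r)) := by
      rw [mul_assoc]
      exact hadm.dbl x (lam * r) hlr
    set M := μ.real (Metric.ball x (lam * r)) with hM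
    have hM0 : 0 < M := ENNReal.toReal_pos (hadm.pos x _ hlr).ne' (hadm.fin x _).ne
    have hF2 : M⁻¹ * ∫ y in Metric.ball x (lam * r), ‖F y‖ ^ p ∂μ ≤
        (CL * Cd) * (C0 / (lam * r)) ^ p := by
      rw [inv_mul_le_iff₀ hM0]
      calc ∫ y in Metric.ball x (lam * r), ‖F y‖ ^ p ∂μ ≤ CL * ∫ y, ‖gradient η y‖ ^ p ∂μ :=
            hF1.trans hLle
        _ ≤ CL * ((C0 / (lam * r)) ^ p * (Cd * M)) := by
            refine mul_le_mul_of_nonneg_left ?_ hCL
            refine hgi.trans (mul_le_mul_of_nonneg_left hdb (by positivity))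
        _ = M * (CL * Cd * (C0 / (lam * r)) ^ p) := by ring
    have hFn : 0 ≤ M⁻¹ * ∫ y in Metric.ball x (lam * r), ‖F y‖ ^ p ∂μ := by
      refine mul_nonneg (by positivity) (integral_nonneg fun y => by positivity)
    have hF3 : (M⁻¹ * ∫ y in Metric.ball x (lam * r), ‖F y‖ ^ p ∂μ) ^ (1 / p) ≤
        (CL * Cd) ^ (1 / p) * (C0 / (lam * r)) := by
      calc _ ≤ ((CL * Cd) * (C0 / (lam * r)) ^ p) ^ (1 / p) :=
            Real.rpow_le_rpow hFn hF2 (by positivity)
        _ = (CL * Cd) ^ (1 / p) * (C0 / (lam * r)) := by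
            rw [Real.mul_rpow (by positivity) (by positivity), one_div,
              Real.rpow_rpow_inv (by positivity) hp0.ne']
    have hI : ∫ y in B, |f y - (⨍ z in B, f z ∂μ)| ∂μ ≤ C1 * m := by
      refine hpoi.trans ?_
      calc Cp * r * m * (M⁻¹ * ∫ y in Metric.ball x (lam * r), ‖F y‖ ^ p ∂μ) ^ (1 / p)
          ≤ Cp * r * m * ((CL * Cd) ^ (1 / p) * (C0 / (lam * r))) :=
            mul_le_mul_of_nonneg_left hF3 (by positivity)
        _ = C1 * m := by
            rw [hC1]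
            field_simp
    -- integrability
    have : IsFiniteMeasure (μ.restrict B) := by
      constructor
      rw [Measure.restrict_apply_univ]
      exact hadm.fin x r
    have hfi : Integrable f (μ.restrict B) := by
      refine (hfH.mu.restrict B).integrable ?_
      rw [ENNReal.one_le_ofReal]
      exact hp.le
    have hfn : ∀ y, 0 ≤ f y := fun y => mul_nonneg (hη01 y).1 (le_max_right _ _)
    set fB := ⨍ z in B, f z ∂μ with hfB
    have hfBe : m * fB = ∫ y in B, f y ∂μ := by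
      rw [hfB, average_eq, measureReal_restrict_apply_univ, smul_eq_mul, ← mul_assoc,
        mul_inv_cancel₀ hm0.ne', one_mul]
    have hfB0 : 0 ≤ fB := by
      have h1 : 0 ≤ ∫ y in B, f y ∂μ := integral_nonneg hfn
      rw [← hfBe] at h1
      exact nonneg_of_mul_nonneg_right h1 hm0
    -- the average is bounded
    have hfBle : fB * (γ * m) ≤ C1 * m := by
      have h1 := mul_meas_ge_le_integral_of_nonneg (μ := μ.restrict B)
        (f := fun y => |f y - fB|) (Filter.Eventually.of_forall fun y => abs_nonneg _)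
        (hfi.sub (integrable_const fB)).abs fB
      have h2 : γ * m ≤ (μ.restrict B).real {y | fB ≤ |f y - fB|} := by
        refine hmeas.trans ?_
        rw [measureReal_restrict_apply' hBm]
        refine measureReal_mono ?_ ?_
        · rintro y ⟨hyB, hty⟩
          refine ⟨?_, hyB⟩
          have hy1 : η y = 1 := hη1' y (hB1 hyB)
          have hσy : t < σ y := by simp only [hσ]; linarith
          have hl : Real.log t < Real.log (σ y) := Real.log_lt_log ht hσy
          have hw0 : w y = 0 := by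
            simp only [hw]
            exact max_eq_right (by linarith)
          show fB ≤ |f y - fB|
          simp only [hf, hw0, mul_zero, zero_sub, abs_neg]
          exact le_abs_self _
        · exact ((measure_mono inter_subset_right).trans_lt (hadm.fin x r)).ne
      calc fB * (γ * m) ≤ fB * (μ.restrict B).real {y | fB ≤ |f y - fB|} :=
            mul_le_mul_of_nonneg_left h2 hfB0
        _ ≤ _ := h1
        _ ≤ C1 * m := hI
    have hfBle' : fB * γ ≤ C1 := by
      have : fB * γ * m ≤ C1 * m := by linarith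
      exact le_of_mul_le_mul_right this hm0
    -- Markov
    have hMk := mul_meas_ge_le_integral_of_nonneg (μ := μ.restrict B)
        (f := f) (Filter.Eventually.of_forall hfn) hfi Λ
    rw [← hfBe] at hMk
    have hset : μ.real {y | y ∈ B ∧ σ y < t * Real.exp (-Λ)} ≤
        (μ.restrict B).real {y | Λ ≤ f y} := by
      rw [measureReal_restrict_apply' hBm]
      refine ENNReal.toReal_mono ((measure_mono inter_subset_right).trans_lt (hadm.fin x r)).ne ?_
      refine measure_mono_ae ?_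
      filter_upwards [hσe] with y hy hyB
      obtain ⟨hyB, hlt⟩ := hyB
      have hσy : 0 < σ y := he.trans_le (hy (hB2 (hB1 hyB)))
      have hl : Real.log (σ y) < Real.log t + (-Λ) := by
        have := Real.log_lt_log hσy hlt
        rwa [Real.log_mul ht.ne' (Real.exp_pos _).ne', Real.log_exp] at this
      refine ⟨?_, hyB⟩
      have hy1 : η y = 1 := hη1' y (hB1 hyB)
      show Λ ≤ f y
      simp only [hf, hw, hy1, one_mul]
      exact le_max_of_le_left (by linarith)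
    have hsmall : μ.real {y | y ∈ B ∧ σ y < t * Real.exp (-Λ)} ≤ γ0 * m := by
      refine hset.trans ?_
      have h1 : Λ * (μ.restrict B).real {y | Λ ≤ f y} ≤ Λ * (γ0 * m) := by
        refine hMk.trans ?_
        have h2 : fB ≤ Λ * γ0 := by
          have : fB * γ ≤ Λ * γ0 * γ := by
            refine hfBle'.trans ?_
            rw [hΛ]
            have : (C1 / (γ * γ0) + 1) * γ0 * γ = C1 + γ0 * γ := by
              field_simp
            rw [this]
            have := mul_pos hγ0 hγ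
            linarith
          exact le_of_mul_le_mul_right this hγ
        calc m * fB ≤ m * (Λ * γ0) := mul_le_mul_of_nonneg_left h2 hm0.le
          _ = _ := by ring
      exact le_of_mul_le_mul_left h1 hΛ0
    have hσ0 : ∀ᵐ y ∂μ, y ∈ G → 0 ≤ σ y := by
      filter_upwards [hσe] with y hy hyG
      exact he.le.trans (hy hyG)
    exact hDG1 μ A hA hadm G hG σ S hσSup hσ0 x r hr (hB1.trans hB2) (t * Real.exp (-Λ))
      (by positivity) hsmall
  have hall : ∀ᵐ y ∂μ, ∀ j : ℕ, y ∈ Metric.ball x (r / 2) →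
      t * Real.exp (-Λ) / 2 ≤ s y + 1 / ((j : ℝ) + 1) := by
    rw [ae_all_iff]
    intro j
    exact main _ (by positivity)
  filter_upwards [hall] with y hy hyB
  have hlim : Tendsto (fun j : ℕ => s y + 1 / ((j : ℝ) + 1)) atTop (𝓝 (s y + 0)) :=
    tendsto_const_nhds.add tendsto_one_div_add_atTop_nhds_zero_nat
  rw [add_zero] at hlim
  have := ge_of_tendsto' hlim fun j => hy j hyB
  linarith


end

end Pool.Agent.Helper533.Polar
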