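import Mathlib
open MeasureTheory Filter Topology Set
open scoped ENNReal NNReal RealInnerProductSpace

namespace Pool.Agent.Helper533.Polar

/-- Euclidean space. -/
abbrev Sp (n : ℕ) := EuclideanSpace ℝ (Fin n)

variable {n : ℕ}

/-- Smooth functions with compact support in `D`. -/
structure Cc (D : Set (Sp n)) (φ : Sp n → ℝ) : Prop where
  smooth : ContDiff ℝ (⊤ : ℕ∞) φ
  comp : HasCompactSupport φ
  supp : tsupport φ ⊆ D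

/-- `u ∈ H_0^{1,p}(D; μ)` with gradient `U` (functions are defined on the whole space). -/
structure H0 (p : ℝ) (μ : Measure (Sp n)) (D : Set (Sp n)) (u : Sp n → ℝ) (U : Sp n → Sp n) :
    Prop where
  mu : MemLp u (ENNReal.ofReal p) μ
  mU : MemLp U (ENNReal.ofReal p) μ
  app : ∀ ε : ℝ≥0∞, ε ≠ 0 → ∃ φ : Sp n → ℝ, Cc D φ ∧
    eLpNorm (fun x => u x - φ x) (ENNReal.ofReal p) μ ≤ ε ∧
    eLpNorm (fun x => U x - gradient φ x) (ENNReal.ofReal p) μ ≤ ε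

/-- local class: `η u ∈ H_0^{1,p}(G; μ)` for all test functions `η` of `G`. -/
def LH (p : ℝ) (μ : Measure (Sp n)) (G : Set (Sp n)) (u : Sp n → ℝ) (U : Sp n → Sp n) : Prop :=
  ∀ η : Sp n → ℝ, Cc G η →
    H0 p μ G (fun x => η x * u x) (fun x => η x • U x + u x • gradient η x)

/-- Structure conditions on the operator, with respect to `μ`. -/
structure Op (p α β : ℝ) (μ : Measure (Sp n)) (A : Sp n → Sp n → Sp n) : Prop where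
  meas : ∀ U : Sp n → Sp n, AEStronglyMeasurable U μ →
    AEStronglyMeasurable (fun x => A x (U x)) μ
  cont : ∀ᵐ x ∂μ, Continuous (A x)
  coer : ∀ᵐ x ∂μ, ∀ ξ, α * ‖ξ‖ ^ p ≤ ⟪A x ξ, ξ⟫
  bdd : ∀ᵐ x ∂μ, ∀ ξ, ‖A x ξ‖ ≤ β * ‖ξ‖ ^ (p - 1)
  mono : ∀ᵐ x ∂μ, ∀ ξ ζ, 0 ≤ ⟪A x ξ - A x ζ, ξ - ζ⟫
  hom : ∀ᵐ x ∂μ, ∀ (t : ℝ) (ξ : Sp n), t ≠ 0 → A x (t • ξ) = (t * |t| ^ (p - 2)) • A x ξ

/-- weak supersolutions -/
def Sup (A : Sp n → Sp n → Sp n) (p : ℝ) (μ : Measure (Sp n)) (G : Set (Sp n))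
    (u : Sp n → ℝ) (U : Sp n → Sp n) : Prop :=
  LH p μ G u U ∧ ∀ φ : Sp n → ℝ, Cc G φ → (∀ x, 0 ≤ φ x) →
    0 ≤ ∫ x, ⟪A x (U x), gradient φ x⟫ ∂μ

/-- weak subsolutions -/
def Sub (A : Sp n → Sp n → Sp n) (p : ℝ) (μ : Measure (Sp n)) (G : Set (Sp n))
    (u : Sp n → ℝ) (U : Sp n → Sp n) : Prop :=
  LH p μ G u U ∧ ∀ φ : Sp n → ℝ, Cc G φ → (∀ x, 0 ≤ φ x) →
    ∫ x, ⟪A x (U x), gradient φ x⟫ ∂μ ≤ 0

end Pool.Agent.Helper533.Polar
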