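import Pool.Agent.Helper533.Polar.Below
import Pool.Agent.Helper533.Polar.Core
open MeasureTheory Filter Topology Set
open scoped ENNReal NNReal RealInnerProductSpace

namespace Pool.Agent.Helper533.Polar

section


/-! ### definition used below -/
/-! ### ALREADY PROVED elsewhere (all up to TARGETS) -/
section GivenF
variable {n : ℕ} {p α β Cd θ Cs lam Cp : ℝ} {μ : Measure (Sp n)} {A : Sp n → Sp n → Sp n} {D : Set (Sp n)}
end GivenF
/-! ### ALREADY PROVED elsewhere -/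
section ApproxBelow
variable {n : ℕ} {p α β Cd θ Cs lam Cp : ℝ}

end ApproxBelow

/-! ### ALREADY PROVED elsewhere -/
section Targets2
variable {n : ℕ}

end Targets2

/-! ### ALREADY PROVED elsewhere -/
section GivenS
variable {n : ℕ} {p α β Cd θ Cs lam Cp : ℝ} {μ : Measure (Sp n)} {A : Sp n → Sp n → Sp n}
  {D G : Set (Sp n)} {ρ ω u : Sp n → ℝ} {W U : Sp n → Sp n}
end GivenS

/-! ### TARGETS -/
section AE1
variable {n : ℕ} {p α β Cd θ Cs lam Cp : ℝ}

theorem Sup.neg {μ : Measure (Sp n)} [IsFiniteMeasureOnCompacts μ] {A : Sp n → Sp n → Sp n}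
    {G : Set (Sp n)} {u : Sp n → ℝ} {U : Sp n → Sp n} (hp : 1 < p) (hA : Op p α β μ A)
    (h : Sup A p μ G u U) : Sub A p μ G (fun x => - u x) (fun x => - U x) := by
  refine ⟨?_, ?_⟩
  · have h1 := h.1.const_mul (-1)
    have e1 : (fun x => -1 * u x) = fun x => - u x := by
      funext x; ring
    have e2 : (fun x => (-1 : ℝ) • U x) = fun x => - U x := by
      funext x; simp
    rw [e1, e2] at h1
    exact h1
  · intro φ hφ hφ0
    have h2 := h.2 φ hφ hφ0
    have h3 : ∫ x, ⟪A x (- U x), gradient φ x⟫ ∂μ = - ∫ x, ⟪A x (U x), gradient φ x⟫ ∂μ := by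
      rw [← integral_neg]
      apply integral_congr_ae
      filter_upwards [hA.hom] with x hx
      have h4 := hx (-1) (U x) (by norm_num)
      simp only [neg_smul, one_smul, abs_neg, abs_one, Real.one_rpow, mul_one] at h4
      rw [h4, inner_neg_left]
    rw [h3]
    linarith

theorem ae1_strip {Ω : Set (Sp n)} (hΩ : IsOpen Ω) (hΩb : Bornology.IsBounded Ω)
    (hn : Ωᶜ.Nonempty) {u v : Sp n → ℝ} {x0 : Sp n}
    (hbd : ∀ y ∈ frontier Ω, y ≠ x0 → ∀ e : ℝ, 0 < e → ∃ r > 0, ∀ x ∈ Ω, x ∈ Metric.ball y r →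
      v x < u x + e) {e : ℝ} (he : 0 < e) {r1 : ℝ} (hr1 : 0 < r1) :
    ∃ s : ℝ, 0 < s ∧ ∀ x ∈ Ω, Metric.infDist x Ωᶜ < 2 * s → r1 / 2 ≤ dist x x0 → v x < u x + e := by
  by_contra hcon
  push Not at hcon
  have hseq : ∀ k : ℕ, ∃ x ∈ Ω, Metric.infDist x Ωᶜ < 2 * (1 / ((k : ℝ) + 1)) ∧ r1 / 2 ≤ dist x x0 ∧
      u x + e ≤ v x := fun k => hcon _ (by positivity)
  choose x hxΩ hxd hxr hxe using hseq
  have hcomp : IsCompact (closure Ω) := hΩb.isCompact_closure
  obtain ⟨y, hy, ψ, hψ, hlim⟩ := hcomp.tendsto_subseq (fun k => subset_closure (hxΩ k))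
  have hd : Tendsto (fun k => Metric.infDist (x (ψ k)) Ωᶜ) atTop (𝓝 (Metric.infDist y Ωᶜ)) :=
    ((Metric.continuous_infDist_pt Ωᶜ).tendsto y).comp hlim
  have hd0 : Tendsto (fun k => Metric.infDist (x (ψ k)) Ωᶜ) atTop (𝓝 0) := by
    have h1 : Tendsto (fun k : ℕ => 2 * (1 / ((k : ℝ) + 1))) atTop (𝓝 0) := by
      have := (tendsto_one_div_add_atTop_nhds_zero_nat (𝕜 := ℝ)).const_mul 2
      simpa using this
    exact squeeze_zero (fun k => Metric.infDist_nonneg) (fun k => (hxd (ψ k)).le)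
      (h1.comp hψ.tendsto_atTop)
  have hy0 : Metric.infDist y Ωᶜ = 0 := tendsto_nhds_unique hd hd0
  have hyc : y ∈ Ωᶜ := (hΩ.isClosed_compl.mem_iff_infDist_zero hn).2 hy0
  have hyf : y ∈ frontier Ω := by
    rw [hΩ.frontier_eq]
    exact ⟨hy, hyc⟩
  have hyx : r1 / 2 ≤ dist y x0 := by
    have h1 : Tendsto (fun k => dist (x (ψ k)) x0) atTop (𝓝 (dist y x0)) := hlim.dist tendsto_const_nhds
    exact ge_of_tendsto' h1 (fun k => hxr (ψ k))
  have hyne : y ≠ x0 := by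
    intro h
    rw [h, dist_self] at hyx
    linarith
  obtain ⟨r, hr, hr2⟩ := hbd y hyf hyne e he
  have hev : ∀ᶠ k in atTop, x (ψ k) ∈ Metric.ball y r := hlim (Metric.ball_mem_nhds y hr)
  obtain ⟨k, hk⟩ := hev.exists
  have h2 := hr2 _ (hxΩ (ψ k)) hk
  have h3 := hxe (ψ k)
  linarith

theorem ae1_compact {Ω : Set (Sp n)} (hΩb : Bornology.IsBounded Ω) {s : ℝ} (hs : 0 < s) :
    IsCompact {x : Sp n | s ≤ Metric.infDist x Ωᶜ} ∧ {x : Sp n | s ≤ Metric.infDist x Ωᶜ} ⊆ Ω := by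
  have hsub : {x : Sp n | s ≤ Metric.infDist x Ωᶜ} ⊆ Ω := by
    intro x hx
    by_contra hxc
    have h1 : Metric.infDist x Ωᶜ = 0 := Metric.infDist_zero_of_mem hxc
    have h2 : s ≤ Metric.infDist x Ωᶜ := hx
    linarith
  refine ⟨?_, hsub⟩
  apply Metric.isCompact_of_isClosed_isBounded
  · exact isClosed_le continuous_const (Metric.continuous_infDist_pt Ωᶜ)
  · exact hΩb.subset hsub

theorem energy_bound (hp : 1 < p) (hα : 0 < α) (hβ : 0 < β) {μ : Measure (Sp n)}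
    [IsFiniteMeasureOnCompacts μ] {A : Sp n → Sp n → Sp n} (hA : Op p α β μ A)
    (hadm : Adm p μ Cd θ Cs lam Cp) {Ω : Set (Sp n)} (hΩ : IsOpen Ω) (hΩb : Bornology.IsBounded Ω)
    (hn : Ωᶜ.Nonempty) {u v : Sp n → ℝ} {m : ℝ} (hm0 : 0 ≤ m) (hmu : ∀ x ∈ Ω, |u x| ≤ m)
    (hmv : ∀ x ∈ Ω, |v x| ≤ m) (hul : LowerSemicontinuousOn u Ω) (hvl : UpperSemicontinuousOn v Ω)
    (hu : CmpSuper A p μ Ω u) (hv : CmpSuper A p μ Ω (fun x => - v x)) {x0 : Sp n}
    (hbd : ∀ y ∈ frontier Ω, y ≠ x0 → ∀ e : ℝ, 0 < e → ∃ r > 0, ∀ x ∈ Ω, x ∈ Metric.ball y r →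
      v x < u x + e) :
    ∃ (N : ℕ) (C : ℝ), 0 ≤ C ∧ ∀ e : ℝ, 0 < e → ∀ (φ : Sp n → ℝ) (Φ : Sp n → Sp n),
      H0 p μ univ φ Φ → (∀ᵐ x ∂μ, 0 ≤ φ x ∧ φ x ≤ 1) →
      (∃ r > 0, ∀ᵐ x ∂μ, x ∈ Metric.ball x0 r → φ x = 1) →
      eLpNorm (Ω.indicator fun x => (max (v x - u x - e) 0 * (1 - φ x)) ^ (N + 1)) (ENNReal.ofReal p) μ
        ≤ ENNReal.ofReal C * eLpNorm Φ (ENNReal.ofReal p) μ := by
  obtain ⟨N, C0, hC0, hcore⟩ := core_energy (n := n) (M0 := m + 1) hp hα hβ (by linarith)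
  obtain ⟨CF, hCF, hfr⟩ := friedrichs (D := Ω) hp hadm hΩb
  refine ⟨N, CF * C0, mul_nonneg hCF hC0, ?_⟩
  intro e he φ Φ hφ hφ01 hφ1
  obtain ⟨r1, hr1, hφ1⟩ := hφ1
  obtain ⟨s, hs, hstrip⟩ := ae1_strip hΩ hΩb hn hbd he hr1
  set d : Sp n → ℝ := fun x => Metric.infDist x Ωᶜ with hd
  have hdc : Continuous d := Metric.continuous_infDist_pt Ωᶜ
  obtain ⟨hKc, hKΩ⟩ := ae1_compact hΩb hs
  obtain ⟨hK1c, hK1Ω⟩ := ae1_compact hΩb (half_pos hs)
  set K : Set (Sp n) := {x | s ≤ Metric.infDist x Ωᶜ} with hKdef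
  set K1 : Set (Sp n) := {x | s / 2 ≤ Metric.infDist x Ωᶜ} with hK1def
  have hmv' : ∀ x ∈ Ω, |(fun x => - v x) x| ≤ m := by
    intro x hx
    simp only [abs_neg]
    exact hmv x hx
  obtain ⟨Gu, Ku, hGu, hKu, hK1Gu, hGuKu, hKuΩ, hau⟩ :=
    approx_below hp hα hβ hA hadm hΩ hΩb hm0 hmu hu hn hK1c hK1Ω
  obtain ⟨Gv, Kv, hGv, hKv, hK1Gv, hGvKv, hKvΩ, hav⟩ :=
    approx_below hp hα hβ hA hadm hΩ hΩb hm0 hmv' hv hn hK1c hK1Ω
  have hvl' : LowerSemicontinuousOn (fun x => - v x) Ω := by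
    intro x hx y hy
    have := hvl x hx (-y) (by simp only at hy ⊢; linarith)
    filter_upwards [this] with z hz
    linarith
  obtain ⟨f, hf1, hf2, hf3, hf4, hf5⟩ := lsc_approx hKu u (hul.mono hKuΩ) hm0 (fun x hx => hmu x (hKuΩ hx))
  obtain ⟨g, hg1, hg2, hg3, hg4, hg5⟩ := lsc_approx hKv (fun x => - v x) (hvl'.mono hKvΩ) hm0
    (fun x hx => hmv' x (hKvΩ hx))
  -- Dini
  have hfm : ∀ x, Monotone (fun j => f j x) := fun x => monotone_nat_of_le_succ (fun j => hf2 j x)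
  have hgm : ∀ x, Monotone (fun j => g j x) := fun x => monotone_nat_of_le_succ (fun j => hg2 j x)
  set Sh : Set (Sp n) := K1 ∩ {x | d x ≤ s ∧ r1 / 2 ≤ dist x x0} with hSh
  have hShc : IsCompact Sh := by
    apply hK1c.inter_right
    exact (isClosed_le hdc continuous_const).inter (isClosed_le continuous_const (continuous_id.dist continuous_const))
  have hdini : ∃ j, Sh ⊆ {x | - g j x - f j x < e} := by
    apply hShc.elim_directed_cover (fun j => {x | - g j x - f j x < e})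
    · intro j
      exact isOpen_lt ((hg1 j).continuous.neg.sub (hf1 j).continuous) continuous_const
    · intro x hx
      obtain ⟨hx1, hx2, hx3⟩ := hx
      have hxΩ : x ∈ Ω := hK1Ω hx1
      have h1 : v x < u x + e := hstrip x hxΩ (by
        have : d x ≤ s := hx2
        simp only [hd] at this
        linarith) hx3
      have h2 : Tendsto (fun j => - g j x - f j x) atTop (𝓝 (-(- v x) - u x)) :=
        (hg5 x (hGvKv (hK1Gv hx1))).neg.sub (hf5 x (hGuKu (hK1Gu hx1)))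
      have h3 : ∀ᶠ j in atTop, - g j x - f j x < e := h2.eventually_lt_const (by linarith)
      obtain ⟨j, hj⟩ := h3.exists
      exact mem_iUnion.2 ⟨j, hj⟩
    · apply Monotone.directed_le
      intro i j hij x hx
      have hx' : - g i x - f i x < e := hx
      have h1 := hfm x hij
      have h2 := hgm x hij
      simp only at h1 h2
      show - g j x - f j x < e
      linarith
  obtain ⟨j, hj⟩ := hdini
  have hfb : ∀ x, |f j x| ≤ m + 1 := fun x => abs_le.2 ⟨by linarith [(hf4 j x).1], by linarith [(hf4 j x).2]⟩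
  have hgb : ∀ x, |g j x| ≤ m + 1 := fun x => abs_le.2 ⟨by linarith [(hg4 j x).1], by linarith [(hg4 j x).2]⟩
  obtain ⟨w, W, hw1, _, hw3⟩ := hau (f j) (hf1 j) hfb (hf3 j)
  obtain ⟨w', W', hw1', _, hw3'⟩ := hav (g j) (hg1 j) hgb (hg3 j)
  set G0 : Set (Sp n) := (Gu ∩ Gv) ∩ {x | s / 2 < d x} with hG0
  have hG0o : IsOpen G0 := (hGu.inter hGv).inter (isOpen_lt continuous_const hdc)
  have hG0u : G0 ⊆ Gu := fun x hx => hx.1.1
  have hG0v : G0 ⊆ Gv := fun x hx => hx.1.2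
  have hKK1 : K ⊆ K1 := by
    intro x hx
    have : s ≤ Metric.infDist x Ωᶜ := hx
    show s / 2 ≤ Metric.infDist x Ωᶜ
    linarith
  have hKG0 : K ⊆ G0 := by
    intro x hx
    refine ⟨⟨hK1Gu (hKK1 hx), hK1Gv (hKK1 hx)⟩, ?_⟩
    have : s ≤ Metric.infDist x Ωᶜ := hx
    show s / 2 < Metric.infDist x Ωᶜ
    linarith
  have hsup : Sup A p μ G0 w W := Sup.mono_set hp hw1 hG0o hG0u
  have hsub : Sub A p μ G0 (fun x => - w' x) (fun x => - W' x) :=
    Sup.neg hp hA (Sup.mono_set hp hw1' hG0o hG0v)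
  have hG0Ω : G0 ⊆ Ω := fun x hx => hKuΩ (hGuKu (hG0u hx))
  have hbdd : ∀ᵐ x ∂μ, x ∈ G0 → |w x| ≤ m + 1 ∧ |(fun x => - w' x) x| ≤ m + 1 := by
    refine Filter.Eventually.of_forall ?_
    intro x hx
    have h1 := hw3 x (hG0u hx)
    have h2 := hw3' x (hG0v hx)
    have h3 := abs_le.1 (hmu x (hG0Ω hx))
    have h4 := abs_le.1 (hmv x (hG0Ω hx))
    have h5 := hf4 j x
    have h6 := hg4 j x
    constructor
    · rw [abs_le]
      constructor <;> linarith
    · rw [abs_le]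
      constructor <;> linarith
  have hzero : ∀ᵐ x ∂μ, x ∈ G0 → x ∉ K → max ((fun x => - w' x) x - w x - e) 0 * (1 - φ x) = 0 := by
    filter_upwards [hφ1] with x hx hxG hxK
    by_cases hxb : x ∈ Metric.ball x0 r1
    · rw [hx hxb]
      simp
    · have h1 : r1 ≤ dist x x0 := by
        rw [Metric.mem_ball, not_lt] at hxb
        exact hxb
      have h2 : ¬ s ≤ d x := hxK
      have h3 : s / 2 < d x := hxG.2
      have h4 : x ∈ Sh := ⟨h3.le, (not_le.1 h2).le, show r1 / 2 ≤ dist x x0 by linarith⟩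
      have h5 : - g j x - f j x < e := hj h4
      have h6 := hw3 x (hG0u hxG)
      have h7 := hw3' x (hG0v hxG)
      have h8 : max ((fun x => - w' x) x - w x - e) 0 = 0 := by
        apply max_eq_right
        simp only
        linarith
      rw [h8, zero_mul]
  obtain ⟨TT, hTT, hTTe⟩ := hcore A μ hA G0 K hG0o hKc hKG0 w (fun x => - w' x) φ W (fun x => - W' x) Φ e he
    hsup hsub hbdd hφ hφ01 hzero
  have hF := hfr _ TT (hTT.mono hG0Ω)
  have hmono : eLpNorm (Ω.indicator fun x => (max (v x - u x - e) 0 * (1 - φ x)) ^ (N + 1)) (ENNReal.ofReal p) μ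
      ≤ eLpNorm (K.indicator fun x => (max ((fun x => - w' x) x - w x - e) 0 * (1 - φ x)) ^ (N + 1))
        (ENNReal.ofReal p) μ := by
    apply eLpNorm_mono_ae
    filter_upwards [hφ1, hφ01] with x hx hx01
    by_cases hxΩ : x ∈ Ω
    · rw [indicator_of_mem hxΩ]
      by_cases hxK : x ∈ K
      · rw [indicator_of_mem hxK]
        have h1 : 0 ≤ 1 - φ x := by linarith [hx01.2]
        have h2 := hw3 x (hG0u (hKG0 hxK))
        have h3 := hw3' x (hG0v (hKG0 hxK))
        have h4 : max (v x - u x - e) 0 ≤ max ((fun x => - w' x) x - w x - e) 0 := by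
          apply max_le_max _ le_rfl
          simp only at h3 ⊢
          linarith
        rw [Real.norm_of_nonneg (pow_nonneg (mul_nonneg (le_max_right _ _) h1) _),
          Real.norm_of_nonneg (pow_nonneg (mul_nonneg (le_max_right _ _) h1) _)]
        exact pow_le_pow_left₀ (mul_nonneg (le_max_right _ _) h1) (mul_le_mul_of_nonneg_right h4 h1) _
      · have h0 : max (v x - u x - e) 0 * (1 - φ x) = 0 := by
          by_cases hxb : x ∈ Metric.ball x0 r1
          · rw [hx hxb]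
            simp
          · have h1 : r1 ≤ dist x x0 := by
              rw [Metric.mem_ball, not_lt] at hxb
              exact hxb
            have h2 : ¬ s ≤ Metric.infDist x Ωᶜ := hxK
            have h3 := hstrip x hxΩ (by linarith [not_le.1 h2]) (by linarith)
            rw [max_eq_right (by linarith), zero_mul]
        rw [h0, indicator_of_notMem hxK]
        simp
    · rw [indicator_of_notMem hxΩ]
      simp
  calc eLpNorm (Ω.indicator fun x => (max (v x - u x - e) 0 * (1 - φ x)) ^ (N + 1)) (ENNReal.ofReal p) μ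
      ≤ ENNReal.ofReal CF * eLpNorm TT (ENNReal.ofReal p) μ := hmono.trans hF
    _ ≤ ENNReal.ofReal CF * (ENNReal.ofReal C0 * eLpNorm Φ (ENNReal.ofReal p) μ) := by gcongr
    _ = ENNReal.ofReal (CF * C0) * eLpNorm Φ (ENNReal.ofReal p) μ := by
        rw [ENNReal.ofReal_mul hCF, mul_assoc]

end AE1


end

section


/-! ### definition used below -/
/-! ### ALREADY PROVED elsewhere -/
section AE1
variable {n : ℕ} {p α β Cd θ Cs lam Cp : ℝ}

end AE1

/-! ### TARGETS -/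
section AE2
variable {n : ℕ} {p α β Cd θ Cs lam Cp : ℝ}

theorem mae_meas {Ω : Set (Sp n)} (hΩ : IsOpen Ω) {u v : Sp n → ℝ}
    (hul : LowerSemicontinuousOn u Ω) (hvl : UpperSemicontinuousOn v Ω) (e : ℝ) (d : ℕ) :
    Measurable (Ω.indicator fun x => (max (v x - u x - e) 0) ^ d) := by
  have h1 : Measurable (fun x : Ω => u x) :=
    (lowerSemicontinuous_restrict_iff.mpr hul).measurable
  have h2 : Measurable (fun x : Ω => v x) :=
    (upperSemicontinuousOn_iff_restrict.mpr hvl).measurable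
  apply measurable_of_restrict_of_restrict_compl hΩ.measurableSet
  · have : Ω.domRestrict (Ω.indicator fun x => (max (v x - u x - e) 0) ^ d)
        = fun x : Ω => (max (v x - u x - e) 0) ^ d := by
      funext x
      simp [Set.domRestrict]
    rw [this]
    exact (((h2.sub h1).sub_const e).max measurable_const).pow_const d
  · have : Ωᶜ.domRestrict (Ω.indicator fun x => (max (v x - u x - e) 0) ^ d)
        = fun _ => 0 := by
      funext x
      have hx : (x : Sp n) ∉ Ω := x.2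
      simp [Set.domRestrict, hx]
    rw [this]
    exact measurable_const

theorem mae_point {z m φ : ℝ} (d : ℕ) (hz : 0 ≤ z) (hzm : z ≤ 2 * m) (h0 : 0 ≤ φ) (h1 : φ ≤ 1) :
    z ^ d ≤ 2 ^ d * (z * (1 - φ)) ^ d + (2 * (2 * m) ^ d) * φ := by
  have hm : 0 ≤ 2 * m := hz.trans hzm
  by_cases h : φ ≤ 1 / 2
  · have e1 : z ^ d ≤ (2 * (z * (1 - φ))) ^ d := by
      apply pow_le_pow_left₀ hz
      nlinarith
    rw [mul_pow] at e1
    have e2 : 0 ≤ (2 * (2 * m) ^ d) * φ := by positivity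
    linarith
  · have e1 : z ^ d ≤ (2 * m) ^ d := pow_le_pow_left₀ hz hzm d
    have e2 : (2 * m) ^ d ≤ (2 * (2 * m) ^ d) * φ := by
      have : 0 ≤ (2 * m) ^ d := by positivity
      push Not at h
      nlinarith
    have e3 : 0 ≤ 2 ^ d * (z * (1 - φ)) ^ d := by
      have : 0 ≤ 1 - φ := by linarith
      positivity
    linarith

theorem mae_zero {a : ℝ≥0∞} {K : ℝ} (hK : 0 ≤ K)
    (h : ∀ e : ℝ, 0 < e → a ≤ ENNReal.ofReal (K * e)) : a = 0 := by
  apply le_antisymm _ zero_le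
  apply ENNReal.le_of_forall_pos_le_add
  intro ε hε _
  rw [zero_add]
  have h1 := h (ε / (K + 1)) (by positivity)
  refine h1.trans ?_
  have h2 : K * (ε / (K + 1)) ≤ (ε : ℝ) := by
    have : 0 < K + 1 := by linarith
    rw [mul_div_assoc', div_le_iff₀ this]
    have : (0 : ℝ) < ε := by exact_mod_cast hε
    nlinarith
  calc ENNReal.ofReal (K * (ε / (K + 1))) ≤ ENNReal.ofReal (ε : ℝ) := ENNReal.ofReal_le_ofReal h2
    _ = ε := ENNReal.ofReal_coe_nnreal

theorem main_ae (hp : 1 < p) (hα : 0 < α) (hβ : 0 < β) {μ : Measure (Sp n)}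
    [IsFiniteMeasureOnCompacts μ] {A : Sp n → Sp n → Sp n} (hA : Op p α β μ A)
    (hadm : Adm p μ Cd θ Cs lam Cp) {Ω : Set (Sp n)} (hΩ : IsOpen Ω) (hΩb : Bornology.IsBounded Ω)
    (hn : Ωᶜ.Nonempty) {u v : Sp n → ℝ} {m : ℝ} (hm0 : 0 ≤ m) (hmu : ∀ x ∈ Ω, |u x| ≤ m)
    (hmv : ∀ x ∈ Ω, |v x| ≤ m) (hul : LowerSemicontinuousOn u Ω) (hvl : UpperSemicontinuousOn v Ω)
    (hu : CmpSuper A p μ Ω u) (hv : CmpSuper A p μ Ω (fun x => - v x)) {x0 : Sp n}
    (hbd : ∀ y ∈ frontier Ω, y ≠ x0 → ∀ e : ℝ, 0 < e → ∃ r > 0, ∀ x ∈ Ω, x ∈ Metric.ball y r →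
      v x < u x + e)
    (hcap : ∀ e : ℝ, 0 < e → ∃ (φ : Sp n → ℝ) (Φ : Sp n → Sp n), H0 p μ univ φ Φ ∧
      (∀ᵐ x ∂μ, 0 ≤ φ x ∧ φ x ≤ 1) ∧ (∃ r > 0, ∀ᵐ x ∂μ, x ∈ Metric.ball x0 r → φ x = 1) ∧
      eLpNorm φ (ENNReal.ofReal p) μ ≤ ENNReal.ofReal e ∧
      eLpNorm Φ (ENNReal.ofReal p) μ ≤ ENNReal.ofReal e) :
    ∀ᵐ x ∂μ, x ∈ Ω → v x ≤ u x := by
  obtain ⟨N, C, hC, hen⟩ := energy_bound hp hα hβ hA hadm hΩ hΩb hn hm0 hmu hmv hul hvl hu hv hbd
  have hp1 : (1 : ℝ≥0∞) ≤ ENNReal.ofReal p := by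
    rw [← ENNReal.ofReal_one]
    exact ENNReal.ofReal_le_ofReal hp.le
  have hp0 : ENNReal.ofReal p ≠ 0 := by
    intro h
    rw [h] at hp1
    exact absurd hp1 (by simp)
  have key : ∀ e : ℝ, 0 < e → ∀ᵐ x ∂μ, x ∈ Ω → v x ≤ u x + e := by
    intro e he
    have hmeas := mae_meas hΩ hul hvl e (N + 1)
    have hz : eLpNorm (Ω.indicator fun x => (max (v x - u x - e) 0) ^ (N + 1))
        (ENNReal.ofReal p) μ = 0 := by
      apply mae_zero (K := 2 ^ (N + 1) * C + 2 * (2 * m) ^ (N + 1)) (by positivity)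
      intro δ hδ
      obtain ⟨φ, Φ, hφ, h01, hr, hn1, hn2⟩ := hcap δ hδ
      have hb := hen e he φ Φ hφ h01 hr
      set I : Sp n → ℝ := Ω.indicator fun x => (max (v x - u x - e) 0 * (1 - φ x)) ^ (N + 1)
        with hI
      have hφm : AEStronglyMeasurable φ μ := hφ.mu.1
      have hIm : AEStronglyMeasurable I μ := by
        have : I = fun x => (Ω.indicator fun x => (max (v x - u x - e) 0) ^ (N + 1)) x
            * (1 - φ x) ^ (N + 1) := by
          funext x
          rw [hI]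
          by_cases hx : x ∈ Ω
          · rw [Set.indicator_of_mem hx, Set.indicator_of_mem hx, mul_pow]
          · rw [Set.indicator_of_notMem hx, Set.indicator_of_notMem hx, zero_mul]
        rw [this]
        exact hmeas.aestronglyMeasurable.mul ((aestronglyMeasurable_const.sub hφm).pow (N + 1))
      have hle : ∀ᵐ x ∂μ, ‖(Ω.indicator fun x => (max (v x - u x - e) 0) ^ (N + 1)) x‖
          ≤ (((2 : ℝ) ^ (N + 1)) • I + (2 * (2 * m) ^ (N + 1)) • φ) x := by
        filter_upwards [h01] with x hx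
        simp only [Pi.add_apply, Pi.smul_apply, smul_eq_mul]
        have hφ0 : 0 ≤ (2 * (2 * m) ^ (N + 1)) * φ x := by
          have := hx.1
          positivity
        by_cases hxO : x ∈ Ω
        · rw [hI, Set.indicator_of_mem hxO, Set.indicator_of_mem hxO, Real.norm_eq_abs,
            abs_of_nonneg (by positivity)]
          apply mae_point (N + 1) (le_max_right _ _) _ hx.1 hx.2
          apply max_le
          · have a1 := abs_le.mp (hmu x hxO)
            have a2 := abs_le.mp (hmv x hxO)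
            linarith [a1.1, a2.2]
          · linarith
        · rw [hI, Set.indicator_of_notMem hxO, Set.indicator_of_notMem hxO, norm_zero, mul_zero,
            zero_add]
          exact hφ0
      calc eLpNorm (Ω.indicator fun x => (max (v x - u x - e) 0) ^ (N + 1)) (ENNReal.ofReal p) μ
          ≤ eLpNorm (((2 : ℝ) ^ (N + 1)) • I + (2 * (2 * m) ^ (N + 1)) • φ) (ENNReal.ofReal p) μ :=
            eLpNorm_mono_ae_real hle
        _ ≤ eLpNorm (((2 : ℝ) ^ (N + 1)) • I) (ENNReal.ofReal p) μ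
            + eLpNorm ((2 * (2 * m) ^ (N + 1)) • φ) (ENNReal.ofReal p) μ :=
            eLpNorm_add_le (hIm.const_smul _) (hφm.const_smul _) hp1
        _ = ENNReal.ofReal (2 ^ (N + 1)) * eLpNorm I (ENNReal.ofReal p) μ
            + ENNReal.ofReal (2 * (2 * m) ^ (N + 1)) * eLpNorm φ (ENNReal.ofReal p) μ := by
            rw [eLpNorm_const_smul, eLpNorm_const_smul, Real.enorm_eq_ofReal (by positivity),
              Real.enorm_eq_ofReal (by positivity)]
        _ ≤ ENNReal.ofReal (2 ^ (N + 1)) * (ENNReal.ofReal C * ENNReal.ofReal δ)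
            + ENNReal.ofReal (2 * (2 * m) ^ (N + 1)) * ENNReal.ofReal δ := by
            gcongr
            exact hb.trans (by gcongr)
        _ = ENNReal.ofReal ((2 ^ (N + 1) * C + 2 * (2 * m) ^ (N + 1)) * δ) := by
            rw [← ENNReal.ofReal_mul hC, ← ENNReal.ofReal_mul (by positivity),
              ← ENNReal.ofReal_mul (by positivity), ← ENNReal.ofReal_add (by positivity)
              (by positivity)]
            congr 1
            ring
    rw [eLpNorm_eq_zero_iff hmeas.aestronglyMeasurable hp0] at hz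
    filter_upwards [hz] with x hx hxO
    rw [Set.indicator_of_mem hxO, Pi.zero_apply] at hx
    have := eq_zero_of_pow_eq_zero hx
    have h2 := le_max_left (v x - u x - e) 0
    linarith
  have hall : ∀ᵐ x ∂μ, ∀ k : ℕ, x ∈ Ω → v x ≤ u x + 1 / ((k : ℝ) + 1) := by
    rw [ae_all_iff]
    intro k
    exact key _ (by positivity)
  filter_upwards [hall] with x hx hxO
  have hlim : Tendsto (fun k : ℕ => u x + 1 / ((k : ℝ) + 1)) atTop (𝓝 (u x + 0)) :=
    tendsto_const_nhds.add tendsto_one_div_add_atTop_nhds_zero_nat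
  rw [add_zero] at hlim
  exact ge_of_tendsto' hlim (fun k => hx k hxO)

end AE2


end

section


/-! ### definition used below -/
/-! ### ALREADY PROVED elsewhere (all up to TARGETS) -/
section GivenF
variable {n : ℕ} {p α β Cd θ Cs lam Cp : ℝ} {μ : Measure (Sp n)} {A : Sp n → Sp n → Sp n} {D : Set (Sp n)}
end GivenF
/-! ### ALREADY PROVED elsewhere -/
section ApproxBelow
variable {n : ℕ} {p α β Cd θ Cs lam Cp : ℝ}

end ApproxBelow

/-! ### ALREADY PROVED elsewhere -/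
section Targets2
variable {n : ℕ}

end Targets2

/-! ### ALREADY PROVED elsewhere -/
section GivenS
variable {n : ℕ} {p α β Cd θ Cs lam Cp : ℝ} {μ : Measure (Sp n)} {A : Sp n → Sp n → Sp n}
  {D G : Set (Sp n)} {ρ ω u : Sp n → ℝ} {W U : Sp n → Sp n}
end GivenS

/-! ### TARGETS -/
section PTW
variable {n : ℕ} {p α β Cd θ Cs lam Cp : ℝ}

/-- approximate upper continuity of functions with the comparison property -/
theorem approx_upper (hp : 1 < p) (hα : 0 < α) (hβ : 0 < β) {μ : Measure (Sp n)}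
    [IsFiniteMeasureOnCompacts μ] {A : Sp n → Sp n → Sp n} (hA : Op p α β μ A)
    (hadm : Adm p μ Cd θ Cs lam Cp) {Ω : Set (Sp n)} (hΩ : IsOpen Ω) (hΩb : Bornology.IsBounded Ω)
    (hn : Ωᶜ.Nonempty) {u : Sp n → ℝ} {m : ℝ} (hm0 : 0 ≤ m) (hmu : ∀ x ∈ Ω, |u x| ≤ m)
    (hul : LowerSemicontinuousOn u Ω) (hu : CmpSuper A p μ Ω u) :
    ∀ x ∈ Ω, ∀ t : ℝ, 0 < t → ∃ r0 > 0, ∀ r : ℝ, 0 < r → r ≤ r0 →
      μ.real {y | y ∈ Metric.ball x r ∧ u x + t < u y} ≤ (1 / 4) * μ.real (Metric.ball x r) := by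
  intro x hx t ht
  obtain ⟨δ, hδ0, hδ1, hDG⟩ := DG2 (n := n) (Cd := Cd) (θ := θ) (Cs := Cs) (lam := lam) (Cp := Cp)
    hp hα hβ (γ := 1/8) (by norm_num)
  have hlam : 1 ≤ lam := hadm.one_le_lam
  have hlam0 : 0 < lam := by linarith
  set ε : ℝ := δ * t / 4 with hε
  have hε0 : 0 < ε := by positivity
  have hev : ∀ᶠ y in 𝓝 x, u x - ε < u y ∧ y ∈ Ω := by
    have h1 := hul x hx (u x - ε) (by linarith)
    rw [hΩ.nhdsWithin_eq hx] at h1
    exact h1.and (hΩ.mem_nhds hx)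
  obtain ⟨ρ, hρ0, hρ⟩ := Metric.eventually_nhds_iff_ball.mp hev
  refine ⟨ρ / (4 * lam), by positivity, ?_⟩
  intro r hr hr0
  have hK2 : Metric.closedBall x (2 * lam * (ρ / (4 * lam))) ⊆ Metric.ball x ρ := by
    apply Metric.closedBall_subset_ball
    have : 2 * lam * (ρ / (4 * lam)) = ρ / 2 := by field_simp; norm_num
    rw [this]; linarith
  set K : Set (Sp n) := Metric.closedBall x (2 * lam * (ρ / (4 * lam))) with hKdef
  have hK : IsCompact K := isCompact_closedBall _ _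
  have hKΩ : K ⊆ Ω := fun y hy => (hρ y (hK2 hy)).2
  obtain ⟨G, K', hG, hK', hKG, hGK', hK'Ω, happ⟩ := approx_below hp hα hβ hA hadm hΩ hΩb hm0 hmu hu hn hK hKΩ
  obtain ⟨f, hf1, hf2, hf3, hf4, hf5⟩ := lsc_approx hK' u (hul.mono hK'Ω) hm0 (fun y hy => hmu y (hK'Ω hy))
  have hchoose : ∀ j, ∃ (w : Sp n → ℝ) (W : Sp n → Sp n), Sup A p μ G w W ∧ ContinuousOn w G ∧
        ∀ x ∈ G, f j x ≤ w x ∧ w x ≤ u x := fun j =>
    happ (f j) (hf1 j) (fun y => by rw [abs_le]; exact ⟨by linarith [(hf4 j y).1], by linarith [(hf4 j y).2]⟩)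
      (hf3 j)
  choose w W hw1 hw2 hw3 using hchoose
  by_contra hcon
  push Not at hcon
  have hmono : ∀ y, Monotone (fun j => f j y) := fun y => monotone_nat_of_le_succ (fun j => hf2 j y)
  -- geometric facts
  have hball1 : Metric.ball x (2 * lam * r) ⊆ K := by
    intro y hy
    rw [Metric.mem_ball] at hy
    rw [hKdef, Metric.mem_closedBall]
    have : 2 * lam * r ≤ 2 * lam * (ρ / (4 * lam)) := by
      apply mul_le_mul_of_nonneg_left hr0; positivity
    linarith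
  have hball2 : Metric.ball x r ⊆ Metric.ball x (2 * lam * r) := Metric.ball_subset_ball (by nlinarith)
  -- uniform lower bound
  obtain ⟨j0, hj0⟩ : ∃ j0, ∀ j, j0 ≤ j → ∀ y ∈ K, u x - 2 * ε < f j y := by
    have hcov : K ⊆ ⋃ j, {y | u x - 2 * ε < f j y} := by
      intro y hy
      have h1 : u x - 2 * ε < u y := by
        have := (hρ y (hK2 hy)).1
        linarith
      obtain ⟨j, hj⟩ := ((hf5 y (hGK' (hKG hy))).eventually (lt_mem_nhds h1)).exists
      exact mem_iUnion.mpr ⟨j, hj⟩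
    obtain ⟨j0, hj0⟩ := hK.elim_directed_cover (fun j => {y | u x - 2 * ε < f j y})
      (fun j => isOpen_lt continuous_const (hf1 j).continuous) hcov
      (directed_of_isDirected_le (fun i j hij y hy => lt_of_lt_of_le hy (hmono y hij)))
    exact ⟨j0, fun j hj y hy => lt_of_lt_of_le (hj0 hy) (hmono y hj)⟩
  -- measure convergence
  have hun : (⋃ j, {y | y ∈ Metric.ball x r ∧ u x + t < f j y}) = {y | y ∈ Metric.ball x r ∧ u x + t < u y} := by
    ext y
    rw [mem_iUnion]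
    constructor
    · rintro ⟨j, hy1, hy2⟩
      exact ⟨hy1, lt_of_lt_of_le hy2 (hf3 j y (hGK' (hKG (hball1 (hball2 hy1)))))⟩
    · rintro ⟨hy1, hy2⟩
      obtain ⟨j, hj⟩ := ((hf5 y (hGK' (hKG (hball1 (hball2 hy1))))).eventually (lt_mem_nhds hy2)).exists
      exact ⟨j, hy1, hj⟩
  have hEmono : Monotone (fun j => {y | y ∈ Metric.ball x r ∧ u x + t < f j y}) := by
    intro i j hij y hy
    exact ⟨hy.1, lt_of_lt_of_le hy.2 (hmono y hij)⟩
  have htend : Tendsto (fun j => μ {y | y ∈ Metric.ball x r ∧ u x + t < f j y}) atTop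
      (𝓝 (μ {y | y ∈ Metric.ball x r ∧ u x + t < u y})) := by
    rw [← hun]
    exact tendsto_measure_iUnion_atTop hEmono
  have hfinB : μ (Metric.ball x r) ≠ ∞ := (hadm.fin x r).ne
  have hfinE : ∀ P : Sp n → Prop, μ {y | y ∈ Metric.ball x r ∧ P y} ≠ ∞ := fun P =>
    ne_top_of_le_ne_top hfinB (measure_mono (fun y hy => hy.1))
  have htend' : Tendsto (fun j => μ.real {y | y ∈ Metric.ball x r ∧ u x + t < f j y}) atTop
      (𝓝 (μ.real {y | y ∈ Metric.ball x r ∧ u x + t < u y})) :=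
    (ENNReal.tendsto_toReal (hfinE _)).comp htend
  obtain ⟨j, hj1, hj2⟩ := ((htend'.eventually (lt_mem_nhds hcon)).and (eventually_ge_atTop j0)).exists
  -- apply De Giorgi
  have hs : Sup A p μ (Metric.ball x (2 * lam * r)) (fun y => w j y - (u x - 2 * ε)) (W j) :=
    Sup.mono_set hp (Sup.sub_const hp (hw1 j) (u x - 2 * ε)) Metric.isOpen_ball (hball1.trans hKG)
  have hDG' := hDG μ A hA hadm (Metric.ball x (2 * lam * r)) Metric.isOpen_ball _ _ hs
    (by
      filter_upwards with y hy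
      have h1 := hj0 j hj2 y (hball1 hy)
      have h2 := (hw3 j y (hKG (hball1 hy))).1
      linarith) x r hr subset_rfl t ht
    (by
      have h1 : μ.real {y | y ∈ Metric.ball x r ∧ u x + t < f j y} ≤
          μ.real {y | y ∈ Metric.ball x r ∧ t ≤ w j y - (u x - 2 * ε)} := by
        apply measureReal_mono _ (hfinE _)
        intro y hy
        refine ⟨hy.1, ?_⟩
        have h2 := (hw3 j y (hKG (hball1 (hball2 hy.1)))).1
        have h3 := hy.2
        linarith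
      have h4 : 0 ≤ μ.real (Metric.ball x r) := measureReal_nonneg
      linarith)
  -- contradiction at x
  have hxG : x ∈ G := hKG (hball1 (Metric.mem_ball_self (by positivity)))
  have hcont : ContinuousAt (fun y => w j y - (u x - 2 * ε)) x :=
    ((hw2 j).continuousAt (hG.mem_nhds hxG)).sub continuousAt_const
  have hval : w j x - (u x - 2 * ε) < δ * t := by
    have := (hw3 j x hxG).2
    have : 0 < δ * t := by positivity
    rw [hε]; linarith
  obtain ⟨ρ', hρ'0, hρ'⟩ := Metric.eventually_nhds_iff_ball.mp (hcont.eventually (gt_mem_nhds hval))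
  have hzero : μ (Metric.ball x (min ρ' (r / 2))) = 0 := by
    rw [measure_eq_zero_iff_ae_notMem]
    filter_upwards [hDG'] with y hy hyb
    have h1 : y ∈ Metric.ball x ρ' := Metric.ball_subset_ball (min_le_left _ _) hyb
    have h2 : y ∈ Metric.ball x (r / 2) := Metric.ball_subset_ball (min_le_right _ _) hyb
    have h3 := hρ' y h1
    have h4 := hy h2
    linarith
  have := hadm.pos x (min ρ' (r / 2)) (by positivity)
  rw [hzero] at this
  exact lt_irrefl _ this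

end PTW


end

section


/-! ### definition used below -/
/-! ### ALREADY PROVED elsewhere -/
section AE2
variable {n : ℕ} {p α β Cd θ Cs lam Cp : ℝ}

end AE2

/-! ### ALREADY PROVED elsewhere -/
section PTW
variable {n : ℕ} {p α β Cd θ Cs lam Cp : ℝ}

end PTW

/-! ### TARGET -/
section FIN
variable {n : ℕ} {p α β Cd θ Cs lam Cp : ℝ}

theorem main_internal (hp : 1 < p) (hα : 0 < α) (hβ : 0 < β) {μ : Measure (Sp n)}
    [IsFiniteMeasureOnCompacts μ] {A : Sp n → Sp n → Sp n} (hA : Op p α β μ A)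
    (hadm : Adm p μ Cd θ Cs lam Cp) {Ω : Set (Sp n)} (hΩ : IsOpen Ω) (hΩb : Bornology.IsBounded Ω)
    (hn : Ωᶜ.Nonempty) {u v : Sp n → ℝ} {m : ℝ} (hm0 : 0 ≤ m) (hmu : ∀ x ∈ Ω, |u x| ≤ m)
    (hmv : ∀ x ∈ Ω, |v x| ≤ m) (hul : LowerSemicontinuousOn u Ω) (hvl : UpperSemicontinuousOn v Ω)
    (hu : CmpSuper A p μ Ω u) (hv : CmpSuper A p μ Ω (fun x => - v x)) {x0 : Sp n}
    (hbd : ∀ y ∈ frontier Ω, y ≠ x0 → ∀ e : ℝ, 0 < e → ∃ r > 0, ∀ x ∈ Ω, x ∈ Metric.ball y r →
      v x < u x + e)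
    (hcap : ∀ e : ℝ, 0 < e → ∃ (φ : Sp n → ℝ) (Φ : Sp n → Sp n), H0 p μ univ φ Φ ∧
      (∀ᵐ x ∂μ, 0 ≤ φ x ∧ φ x ≤ 1) ∧ (∃ r > 0, ∀ᵐ x ∂μ, x ∈ Metric.ball x0 r → φ x = 1) ∧
      eLpNorm φ (ENNReal.ofReal p) μ ≤ ENNReal.ofReal e ∧
      eLpNorm Φ (ENNReal.ofReal p) μ ≤ ENNReal.ofReal e) :
    ∀ x ∈ Ω, v x ≤ u x := by
  have hae := main_ae hp hα hβ hA hadm hΩ hΩb hn hm0 hmu hmv hul hvl hu hv hbd hcap
  intro x hx
  by_contra hcon
  push Not at hcon
  have ht0 : 0 < (v x - u x) / 3 := by linarith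
  obtain ⟨r1, hr1, h1⟩ := approx_upper hp hα hβ hA hadm hΩ hΩb hn hm0 hmu hul hu x hx _ ht0
  have hvl' : LowerSemicontinuousOn (fun y => - v y) Ω := by
    intro y hy a ha
    have h0 : v y < -a := by linarith
    filter_upwards [hvl y hy (-a) h0] with z hz
    linarith
  obtain ⟨r2, hr2, h2⟩ := approx_upper hp hα hβ hA hadm hΩ hΩb hn hm0
    (u := fun y => - v y) (fun y hy => by rw [abs_neg]; exact hmv y hy) hvl' hv x hx _ ht0
  obtain ⟨r3, hr3, h3⟩ := Metric.isOpen_iff.1 hΩ x hx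
  set r := min r1 (min r2 r3) with hr
  have hr0 : 0 < r := lt_min hr1 (lt_min hr2 hr3)
  have k1 := h1 r hr0 (min_le_left _ _)
  have k2 := h2 r hr0 ((min_le_right _ _).trans (min_le_left _ _))
  have hB : Metric.ball x r ⊆ Ω :=
    (Metric.ball_subset_ball ((min_le_right _ _).trans (min_le_right _ _))).trans h3
  set S1 := {y | y ∈ Metric.ball x r ∧ u x + (v x - u x) / 3 < u y} with hS1
  set S2 := {y | y ∈ Metric.ball x r ∧ (fun y => - v y) x + (v x - u x) / 3 < (fun y => - v y) y}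
    with hS2
  set N := {y | ¬ (y ∈ Ω → v y ≤ u y)} with hN
  have hN0 : μ N = 0 := ae_iff.1 hae
  have hsub : Metric.ball x r ⊆ (S1 ∪ S2) ∪ N := by
    intro y hy
    by_cases hy1 : y ∈ S1
    · exact Or.inl (Or.inl hy1)
    by_cases hy2 : y ∈ S2
    · exact Or.inl (Or.inr hy2)
    refine Or.inr ?_
    intro hcon2
    have h4 := hcon2 (hB hy)
    have h5 : u y ≤ u x + (v x - u x) / 3 := by
      by_contra h6
      exact hy1 ⟨hy, not_le.1 h6⟩
    have h6 : - v y ≤ - v x + (v x - u x) / 3 := by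
      by_contra h7
      exact hy2 ⟨hy, not_le.1 h7⟩
    linarith
  have hfin := (hadm.fin x r).ne
  have hS1f : μ S1 ≠ ∞ := ne_top_of_le_ne_top hfin (measure_mono fun y hy => hy.1)
  have hS2f : μ S2 ≠ ∞ := ne_top_of_le_ne_top hfin (measure_mono fun y hy => hy.1)
  have h4 : μ (Metric.ball x r) ≤ μ S1 + μ S2 := by
    calc μ (Metric.ball x r) ≤ μ ((S1 ∪ S2) ∪ N) := measure_mono hsub
      _ ≤ μ (S1 ∪ S2) + μ N := measure_union_le _ _
      _ ≤ (μ S1 + μ S2) + μ N := add_le_add_left (measure_union_le _ _) _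
      _ = μ S1 + μ S2 := by rw [hN0, add_zero]
  have h5 : μ.real (Metric.ball x r) ≤ μ.real S1 + μ.real S2 := by
    have := ENNReal.toReal_mono (ENNReal.add_ne_top.2 ⟨hS1f, hS2f⟩) h4
    rwa [ENNReal.toReal_add hS1f hS2f] at this
  have h6 : 0 < μ.real (Metric.ball x r) := ENNReal.toReal_pos (hadm.pos x r hr0).ne' hfin
  linarith

end FIN


end

end Pool.Agent.Helper533.Polar
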