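import Pool.Agent.Helper533.Polar.AdmDef
open MeasureTheory Filter Topology Set
open scoped ENNReal NNReal RealInnerProductSpace

namespace Pool.Agent.Helper533.Polar

/-- solution of the obstacle problem in `D` with obstacle `ρ` and zero boundary values -/
structure Obs {n : ℕ} (A : Sp n → Sp n → Sp n) (p : ℝ) (μ : Measure (Sp n)) (D : Set (Sp n))
    (ρ ω : Sp n → ℝ) (W : Sp n → Sp n) : Prop where
  h0 : H0 p μ D ω W
  ge : ∀ᵐ x ∂μ, ρ x ≤ ω x
  vi : ∀ v V, H0 p μ D v V → (∀ᵐ x ∂μ, ρ x ≤ v x) → 0 ≤ ∫ x, ⟪A x (W x), V x - W x⟫ ∂μ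

end Pool.Agent.Helper533.Polar
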