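import Pool.Agent.Helper533.Polar.Test
import Pool.Agent.Helper533.Polar.Abs
import Pool.Agent.Helper533.Polar.ObsDef
open MeasureTheory Filter Topology Set
open scoped ENNReal NNReal RealInnerProductSpace

namespace Pool.Agent.Helper533.Polar

section


/-! ### TARGET: the monotone operator on `L^p(μ; ℝⁿ)` -/
section
variable {n : ℕ} {p α β : ℝ} {μ : Measure (Sp n)} {A : Sp n → Sp n → Sp n}

theorem rpow_mul_le (hp : 1 < p) {a b : ℝ} (ha : 0 ≤ a) (hb : 0 ≤ b) :
    a ^ (p - 1) * b ≤ a ^ p + b ^ p := by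
  have key : ∀ c : ℝ, 0 ≤ c → c ^ (p - 1) * c = c ^ p := by
    intro c hc
    rcases hc.eq_or_lt with h | h
    · rw [← h, mul_zero, Real.zero_rpow (by linarith)]
    · rw [Real.rpow_sub_one h.ne', div_mul_cancel₀ _ h.ne']
  rcases le_total b a with h | h
  · calc a ^ (p - 1) * b ≤ a ^ (p - 1) * a :=
          mul_le_mul_of_nonneg_left h (Real.rpow_nonneg ha _)
      _ = a ^ p := key a ha
      _ ≤ a ^ p + b ^ p := le_add_of_nonneg_right (Real.rpow_nonneg hb _)
  · calc a ^ (p - 1) * b ≤ b ^ (p - 1) * b :=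
          mul_le_mul_of_nonneg_right (Real.rpow_le_rpow ha h (by linarith)) hb
      _ = b ^ p := key b hb
      _ ≤ a ^ p + b ^ p := le_add_of_nonneg_left (Real.rpow_nonneg ha _)

theorem int_rpow (hp : 1 < p) {F : Type*} [NormedAddCommGroup F] {f : Sp n → F}
    (hf : MemLp f (ENNReal.ofReal p) μ) : Integrable (fun x => ‖f x‖ ^ p) μ := by
  have := hf.integrable_norm_rpow (by simp; linarith) ENNReal.ofReal_ne_top
  rwa [ENNReal.toReal_ofReal (by linarith)] at this

theorem norm_rpow_eq_j5491 (hp : 1 < p) [Fact (1 ≤ ENNReal.ofReal p)]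
    (W : Lp (Sp n) (ENNReal.ofReal p) μ) : ‖W‖ ^ p = ∫ x, ‖W x‖ ^ p ∂μ := by
  have h0 : 0 ≤ ∫ x, ‖W x‖ ^ p ∂μ := integral_nonneg fun x => Real.rpow_nonneg (norm_nonneg _) _
  have hp0 : (ENNReal.ofReal p).toReal = p := ENNReal.toReal_ofReal (by linarith)
  rw [Lp.norm_def, (Lp.memLp W).eLpNorm_eq_integral_rpow_norm (by simp; linarith)
    ENNReal.ofReal_ne_top, hp0,
    ENNReal.toReal_ofReal (Real.rpow_nonneg h0 _), ← Real.rpow_mul h0,
    inv_mul_cancel₀ (by linarith), Real.rpow_one]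

theorem int_bound (hp : 1 < p) {f g : Sp n → Sp n}
    (hf : MemLp f (ENNReal.ofReal p) μ) (hg : MemLp g (ENNReal.ofReal p) μ) :
    Integrable (fun x => ‖f x‖ ^ (p - 1) * ‖g x‖) μ := by
  refine Integrable.mono' ((int_rpow hp hf).add (int_rpow hp hg)) ?_ (ae_of_all _ fun x => ?_)
  · exact (hf.1.norm.aemeasurable.pow_const _).aestronglyMeasurable.mul hg.1.norm
  · rw [Real.norm_of_nonneg (mul_nonneg (Real.rpow_nonneg (norm_nonneg _) _) (norm_nonneg _))]
    exact rpow_mul_le hp (norm_nonneg _) (norm_nonneg _)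

theorem holder (hp : 1 < p) [Fact (1 ≤ ENNReal.ofReal p)]
    (W V : Lp (Sp n) (ENNReal.ofReal p) μ) :
    ∫ x, ‖W x‖ ^ (p - 1) * ‖V x‖ ∂μ ≤ ‖W‖ ^ (p - 1) * ‖V‖ := by
  have hp1 : 0 < p - 1 := by linarith
  have hconj : (p / (p - 1)).HolderConjugate p := (Real.HolderConjugate.conjExponent hp).symm
  have hW : MemLp (fun x => ‖W x‖ ^ (p - 1)) (ENNReal.ofReal (p / (p - 1))) μ := by
    have := (Lp.memLp W).norm_rpow_div (ENNReal.ofReal (p - 1))
    rwa [← ENNReal.ofReal_div_of_pos hp1, ENNReal.toReal_ofReal hp1.le] at this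
  have h1 := integral_mul_le_Lp_mul_Lq_of_nonneg hconj (μ := μ) (f := fun x => ‖W x‖ ^ (p - 1))
    (g := fun x => ‖V x‖) (ae_of_all _ fun x => Real.rpow_nonneg (norm_nonneg _) _)
    (ae_of_all _ fun x => norm_nonneg _) hW (Lp.memLp V).norm
  refine h1.trans (le_of_eq ?_)
  have h2 : ∀ x, (‖W x‖ ^ (p - 1)) ^ (p / (p - 1)) = ‖W x‖ ^ p := by
    intro x
    rw [← Real.rpow_mul (norm_nonneg _), mul_div_cancel₀ _ hp1.ne']
  simp only [h2]
  rw [← norm_rpow_eq_j5491 hp W, ← norm_rpow_eq_j5491 hp V, ← Real.rpow_mul (norm_nonneg _),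
    ← Real.rpow_mul (norm_nonneg _)]
  have h3 : p * (1 / (p / (p - 1))) = p - 1 := by
    have : p ≠ 0 := by linarith
    field_simp
  have h4 : p * (1 / p) = 1 := by
    have : p ≠ 0 := by linarith
    field_simp
  rw [h3, h4, Real.rpow_one]

theorem abs_inner_le (hA : Op p α β μ A) (f g : Sp n → Sp n) :
    ∀ᵐ x ∂μ, ‖⟪A x (f x), g x⟫‖ ≤ β * (‖f x‖ ^ (p - 1) * ‖g x‖) := by
  filter_upwards [hA.bdd] with x hx
  calc ‖⟪A x (f x), g x⟫‖ ≤ ‖A x (f x)‖ * ‖g x‖ := norm_inner_le_norm _ _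
    _ ≤ (β * ‖f x‖ ^ (p - 1)) * ‖g x‖ := mul_le_mul_of_nonneg_right (hx _) (norm_nonneg _)
    _ = β * (‖f x‖ ^ (p - 1) * ‖g x‖) := by ring

theorem int_inner (hp : 1 < p) (hA : Op p α β μ A) {f g : Sp n → Sp n}
    (hf : MemLp f (ENNReal.ofReal p) μ) (hg : MemLp g (ENNReal.ofReal p) μ) :
    Integrable (fun x => ⟪A x (f x), g x⟫) μ :=
  Integrable.mono' ((int_bound hp hf hg).const_mul β) ((hA.meas f hf.1).inner hg.1)
    (abs_inner_le hA f g)

theorem exists_operator (hp : 1 < p) (hα : 0 < α) (hβ : 0 < β) [Fact (1 ≤ ENNReal.ofReal p)]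
    (hA : Op p α β μ A) :
    ∃ T : Lp (Sp n) (ENNReal.ofReal p) μ → (Lp (Sp n) (ENNReal.ofReal p) μ →L[ℝ] ℝ),
      (∀ W V, T W V = ∫ x, ⟪A x (W x), V x⟫ ∂μ) ∧
      (∀ V W, 0 ≤ (T V - T W) (V - W)) ∧
      (∀ W V : Lp (Sp n) (ENNReal.ofReal p) μ,
        Tendsto (fun t : ℝ => T (W + t • (V - W)) (V - W)) (𝓝[>] 0) (𝓝 (T W (V - W)))) ∧
      (∀ W V, |T W V| ≤ β * ‖W‖ ^ (p - 1) * ‖V‖) ∧
      (∀ W, α * ‖W‖ ^ p ≤ T W W) := by
  have hbd : ∀ W V : Lp (Sp n) (ENNReal.ofReal p) μ,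
      |∫ x, ⟪A x (W x), V x⟫ ∂μ| ≤ β * ‖W‖ ^ (p - 1) * ‖V‖ := by
    intro W V
    rw [← Real.norm_eq_abs]
    calc ‖∫ x, ⟪A x (W x), V x⟫ ∂μ‖ ≤ ∫ x, β * (‖W x‖ ^ (p - 1) * ‖V x‖) ∂μ :=
          norm_integral_le_of_norm_le ((int_bound hp (Lp.memLp W) (Lp.memLp V)).const_mul β)
            (abs_inner_le hA _ _)
      _ = β * ∫ x, ‖W x‖ ^ (p - 1) * ‖V x‖ ∂μ := integral_const_mul _ _
      _ ≤ β * (‖W‖ ^ (p - 1) * ‖V‖) := mul_le_mul_of_nonneg_left (holder hp W V) hβ.le
      _ = β * ‖W‖ ^ (p - 1) * ‖V‖ := by ring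
  let T : Lp (Sp n) (ENNReal.ofReal p) μ → (Lp (Sp n) (ENNReal.ofReal p) μ →L[ℝ] ℝ) := fun W =>
    LinearMap.mkContinuous
      { toFun := fun V => ∫ x, ⟪A x (W x), V x⟫ ∂μ
        map_add' := by
          intro V V'
          rw [← integral_add (int_inner hp hA (Lp.memLp W) (Lp.memLp V))
            (int_inner hp hA (Lp.memLp W) (Lp.memLp V'))]
          refine integral_congr_ae ?_
          filter_upwards [Lp.coeFn_add V V'] with x hx
          rw [hx, Pi.add_apply, inner_add_right]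
        map_smul' := by
          intro c V
          rw [RingHom.id_apply, smul_eq_mul, ← integral_const_mul]
          refine integral_congr_ae ?_
          filter_upwards [Lp.coeFn_smul c V] with x hx
          rw [hx, Pi.smul_apply, real_inner_smul_right] }
      (β * ‖W‖ ^ (p - 1)) (fun V => by
        rw [Real.norm_eq_abs]
        exact hbd W V)
  have hT : ∀ W V, T W V = ∫ x, ⟪A x (W x), V x⟫ ∂μ := fun W V => rfl
  refine ⟨T, hT, ?_, ?_, fun W V => by rw [hT]; exact hbd W V, ?_⟩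
  · intro V W
    rw [ContinuousLinearMap.sub_apply, hT, hT,
      ← integral_sub (int_inner hp hA (Lp.memLp _) (Lp.memLp _))
        (int_inner hp hA (Lp.memLp _) (Lp.memLp _))]
    refine integral_nonneg_of_ae ?_
    filter_upwards [Lp.coeFn_sub V W, hA.mono] with x hx h2
    rw [Pi.zero_apply, hx, Pi.sub_apply, ← inner_sub_left]
    exact h2 _ _
  · intro W V
    obtain ⟨Z, hZ⟩ : ∃ Z, Z = V - W := ⟨_, rfl⟩
    rw [← hZ]
    have h1 : ∀ t : ℝ, T (W + t • Z) Z = ∫ x, ⟪A x (W x + t • Z x), Z x⟫ ∂μ := by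
      intro t
      rw [hT]
      refine integral_congr_ae ?_
      filter_upwards [Lp.coeFn_add W (t • Z), Lp.coeFn_smul t Z] with x hx h2
      rw [hx, Pi.add_apply, h2, Pi.smul_apply]
    simp only [h1]
    rw [hT]
    refine tendsto_integral_filter_of_dominated_convergence
      (fun x => β * ((‖W x‖ + ‖Z x‖) ^ p + ‖Z x‖ ^ p)) ?_ ?_ ?_ ?_
    · exact Eventually.of_forall fun t => (hA.meas (fun x => W x + t • Z x)
        ((Lp.aestronglyMeasurable W).add ((Lp.aestronglyMeasurable Z).const_smul t))).inner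
        (Lp.aestronglyMeasurable Z)
    · have h2 : ∀ᶠ t : ℝ in 𝓝[>] 0, t ∈ Ioo (0 : ℝ) 1 := Ioo_mem_nhdsGT one_pos
      filter_upwards [h2] with t ht
      filter_upwards [abs_inner_le hA (fun x => W x + t • Z x) (fun x => Z x)] with x hx
      refine hx.trans (mul_le_mul_of_nonneg_left ?_ hβ.le)
      have h3 : ‖W x + t • Z x‖ ≤ ‖W x‖ + ‖Z x‖ := by
        refine (norm_add_le _ _).trans (add_le_add_right ?_ _)
        rw [norm_smul, Real.norm_of_nonneg ht.1.le]
        exact mul_le_of_le_one_left (norm_nonneg _) ht.2.le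
      exact (mul_le_mul_of_nonneg_right (Real.rpow_le_rpow (norm_nonneg _) h3 (by linarith))
        (norm_nonneg _)).trans (rpow_mul_le hp (add_nonneg (norm_nonneg _) (norm_nonneg _))
          (norm_nonneg _))
    · have h2 := int_rpow hp ((Lp.memLp W).norm.add (Lp.memLp Z).norm)
      refine (Integrable.add ?_ (int_rpow hp (Lp.memLp Z))).const_mul β
      refine h2.congr (ae_of_all _ fun x => ?_)
      simp only [Pi.add_apply]
      rw [Real.norm_of_nonneg (add_nonneg (norm_nonneg _) (norm_nonneg _))]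
    · filter_upwards [hA.cont] with x hx
      have h2 : Continuous (fun t : ℝ => ⟪A x (W x + t • Z x), Z x⟫) := by
        refine Continuous.inner (hx.comp ?_) continuous_const
        fun_prop
      have h3 := (h2.tendsto 0).mono_left (nhdsWithin_le_nhds (s := Ioi 0))
      simpa using h3
  · intro W
    rw [hT, norm_rpow_eq_j5491 hp, ← integral_const_mul]
    refine integral_mono_ae ((int_rpow hp (Lp.memLp W)).const_mul α)
      (int_inner hp hA (Lp.memLp _) (Lp.memLp _)) ?_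
    filter_upwards [hA.coer] with x hx
    exact hx _
end


end

section


/-! ### definition used below -/
/-! ### ALREADY PROVED elsewhere: leave these sorries -/
/-! ### ALREADY PROVED elsewhere: the monotone operator on `L^p(μ; ℝⁿ)` -/
section
variable {n : ℕ} {p α β : ℝ} {μ : Measure (Sp n)} {A : Sp n → Sp n → Sp n}

end

/-! ### TARGET: existence for the obstacle problem -/
section
variable {n : ℕ} {p α β Cd θ Cs lam Cp : ℝ} {μ : Measure (Sp n)} {A : Sp n → Sp n → Sp n} {D : Set (Sp n)}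

/-- Friedrichs inequality in `H0` of a bounded set -/
theorem friedrichs [IsFiniteMeasureOnCompacts μ] (hp : 1 < p) (hadm : Adm p μ Cd θ Cs lam Cp) (hDb : Bornology.IsBounded D) :
    ∃ C : ℝ, 0 ≤ C ∧ ∀ f F, H0 p μ D f F →
      eLpNorm f (ENNReal.ofReal p) μ ≤ ENNReal.ofReal C * eLpNorm F (ENNReal.ofReal p) μ := by
  have hp0 : 0 < p := by linarith
  obtain ⟨R0, hR0⟩ := hDb.subset_ball (0 : Sp n)
  set R := max R0 1 with hR
  have hRpos : 0 < R := lt_of_lt_of_le one_pos (le_max_right _ _)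
  have hDR : D ⊆ Metric.ball 0 R := hR0.trans (Metric.ball_subset_ball (le_max_left _ _))
  have hCs := hadm.Cs_pos
  have hK0 : 0 ≤ Cs * R ^ p := mul_nonneg hCs.le (Real.rpow_nonneg hRpos.le p)
  refine ⟨(Cs * R ^ p) ^ (1/p), Real.rpow_nonneg hK0 _, fun f F h => ?_⟩
  have h' : H0 p μ (Metric.ball 0 R) f F := h.mono hDR
  have hs := hadm.sob 0 R hRpos f F h'
  have hball : 0 < μ.real (Metric.ball (0 : Sp n) R) := by
    rw [Measure.real, ENNReal.toReal_pos_iff]
    exact ⟨hadm.pos 0 R hRpos, hadm.fin 0 R⟩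
  have hle : μ.real {y | f y ≠ 0} ≤ μ.real (Metric.ball (0 : Sp n) R) := by
    apply ENNReal.toReal_mono (hadm.fin 0 R).ne
    apply measure_mono_ae
    filter_upwards [H0.zero_outside hp h'] with x hx hx2
    by_contra hxb
    exact hx2 (hx hxb).1
  have hrat : (μ.real {y | f y ≠ 0} / μ.real (Metric.ball (0 : Sp n) R)) ^ θ ≤ 1 := by
    apply Real.rpow_le_one
    · positivity
    · rw [div_le_one hball]; exact hle
    · exact hadm.theta_pos.le
  have hF0 : 0 ≤ ∫ y, ‖F y‖ ^ p ∂μ := integral_nonneg (fun y => Real.rpow_nonneg (norm_nonneg _) _)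
  have hs2 : ∫ y, |f y| ^ p ∂μ ≤ Cs * R ^ p * ∫ y, ‖F y‖ ^ p ∂μ := by
    refine hs.trans ?_
    apply mul_le_mul_of_nonneg_right _ hF0
    calc Cs * R ^ p * (μ.real {y | f y ≠ 0} / μ.real (Metric.ball (0 : Sp n) R)) ^ θ
        ≤ Cs * R ^ p * 1 := mul_le_mul_of_nonneg_left hrat hK0
      _ = Cs * R ^ p := mul_one _
  have hq0 : ENNReal.ofReal p ≠ 0 := by
    simp only [ne_eq, ENNReal.ofReal_eq_zero, not_le]; exact hp0
  rw [h.mu.eLpNorm_eq_integral_rpow_norm hq0 ENNReal.ofReal_ne_top,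
    h.mU.eLpNorm_eq_integral_rpow_norm hq0 ENNReal.ofReal_ne_top,
    ← ENNReal.ofReal_mul (Real.rpow_nonneg hK0 _), ENNReal.toReal_ofReal hp0.le]
  apply ENNReal.ofReal_le_ofReal
  have hf0 : 0 ≤ ∫ y, ‖f y‖ ^ p ∂μ := integral_nonneg (fun y => Real.rpow_nonneg (norm_nonneg _) _)
  calc (∫ a, ‖f a‖ ^ p ∂μ) ^ p⁻¹ ≤ (Cs * R ^ p * ∫ y, ‖F y‖ ^ p ∂μ) ^ p⁻¹ := by
        apply Real.rpow_le_rpow hf0 hs2 (by positivity)
    _ = (Cs * R ^ p) ^ (1/p) * (∫ y, ‖F y‖ ^ p ∂μ) ^ p⁻¹ := by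
        rw [Real.mul_rpow hK0 hF0, one_div]

theorem obstacle_exists [IsFiniteMeasureOnCompacts μ] (hp : 1 < p) (hα : 0 < α) (hβ : 0 < β)
    (hA : Op p α β μ A) (hadm : Adm p μ Cd θ Cs lam Cp) (hDb : Bornology.IsBounded D)
    {ρ : Sp n → ℝ} (hρ : Cc D ρ) :
    ∃ (ω : Sp n → ℝ) (W : Sp n → Sp n), H0 p μ D ω W ∧ (∀ᵐ x ∂μ, ρ x ≤ ω x) ∧
      ∀ v V, H0 p μ D v V → (∀ᵐ x ∂μ, ρ x ≤ v x) → 0 ≤ ∫ x, ⟪A x (W x), V x - W x⟫ ∂μ := by
  have hp0 : 0 < p := by linarith
  have hfact : Fact (1 ≤ ENNReal.ofReal p) := ⟨by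
    rw [← ENNReal.ofReal_one]; exact ENNReal.ofReal_le_ofReal hp.le⟩
  obtain ⟨C, hC, hfr⟩ := friedrichs (D := D) hp hadm hDb
  obtain ⟨T, hT1, hT2, hT3, hT4, hT5⟩ := exists_operator hp hα hβ hA
  set K : Set (Lp (Sp n) (ENNReal.ofReal p) μ) :=
    {W | ∃ ω : Sp n → ℝ, H0 p μ D ω W ∧ ∀ᵐ x ∂μ, ρ x ≤ ω x} with hK
  have memK : ∀ (v : Sp n → ℝ) (V : Sp n → Sp n) (h : H0 p μ D v V), (∀ᵐ x ∂μ, ρ x ≤ v x) →
      h.mU.toLp V ∈ K := by
    intro v V h hv
    exact ⟨v, h.congr (ae_eq_refl v) h.mU.coeFn_toLp.symm, hv⟩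
  have hconv : Convex ℝ K := by
    intro W1 h1 W2 h2 a b ha hb hab
    obtain ⟨ω1, h1, h1'⟩ := h1
    obtain ⟨ω2, h2, h2'⟩ := h2
    refine ⟨fun x => a * ω1 x + b * ω2 x, ?_, ?_⟩
    · refine (H0.add hp.le (h1.const_mul a) (h2.const_mul b)).congr (ae_eq_refl _) ?_
      filter_upwards [Lp.coeFn_add (a • W1) (b • W2), Lp.coeFn_smul a W1, Lp.coeFn_smul b W2]
        with x e1 e2 e3
      rw [e1, Pi.add_apply, e2, e3]
      rfl
    · filter_upwards [h1', h2'] with x e1 e2
      have : ρ x = a * ρ x + b * ρ x := by rw [← add_mul, hab, one_mul]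
      rw [this]
      exact add_le_add (mul_le_mul_of_nonneg_left e1 ha) (mul_le_mul_of_nonneg_left e2 hb)
  have hclosed : IsClosed K := by
    apply IsSeqClosed.isClosed
    intro Wj W hWj hlim
    choose ω hω hωρ using hWj
    set w : ℕ → Lp ℝ (ENNReal.ofReal p) μ := fun j => (hω j).mu.toLp (ω j) with hw
    have hdist : ∀ i j, dist (w i) (w j) ≤ C * dist (Wj i) (Wj j) := by
      intro i j
      have hsub := hfr _ _ (H0.sub hp.le (hω i) (hω j))
      have e1 : edist (w i) (w j) = eLpNorm (fun x => ω i x - ω j x) (ENNReal.ofReal p) μ := by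
        rw [hw, Lp.edist_toLp_toLp]; rfl
      have e2 : edist (Wj i) (Wj j) = eLpNorm (fun x => Wj i x - Wj j x) (ENNReal.ofReal p) μ := by
        rw [Lp.edist_def]; rfl
      rw [← e1, ← e2, edist_dist, edist_dist, ← ENNReal.ofReal_mul hC] at hsub
      exact (ENNReal.ofReal_le_ofReal_iff (mul_nonneg hC dist_nonneg)).1 hsub
    have hcau : CauchySeq w := by
      have hc := hlim.cauchySeq
      rw [Metric.cauchySeq_iff] at hc ⊢
      intro ε hε
      obtain ⟨N, hN⟩ := hc (ε / (C + 1)) (by positivity)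
      refine ⟨N, fun m hm k hk => ?_⟩
      have h1 := hN m hm k hk
      have h2 := hdist m k
      have h3 : C * dist (Wj m) (Wj k) ≤ C * (ε / (C+1)) := mul_le_mul_of_nonneg_left h1.le hC
      have h4 : C * (ε / (C+1)) < ε := by
        rw [mul_div_assoc', div_lt_iff₀ (by positivity)]
        nlinarith
      linarith
    obtain ⟨w0, hw0⟩ := cauchySeq_tendsto_of_complete hcau
    refine ⟨w0, ?_, ?_⟩
    · apply H0.lim hp.le (Lp.memLp w0) (Lp.memLp W)
      intro ε hε
      have t1 : Tendsto (fun j => edist w0 (w j)) atTop (𝓝 0) := by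
        have := (tendsto_iff_edist_tendsto_0.1 hw0)
        simpa only [edist_comm] using this
      have t2 : Tendsto (fun j => edist W (Wj j)) atTop (𝓝 0) := by
        have := (tendsto_iff_edist_tendsto_0.1 hlim)
        simpa only [edist_comm] using this
      obtain ⟨j, hj1, hj2⟩ := exists_le_of_tendsto t1 t2 hε
      refine ⟨ω j, Wj j, hω j, ?_, ?_⟩
      · rw [Lp.edist_def] at hj1
        refine le_trans (le_of_eq ?_) hj1
        apply eLpNorm_congr_ae
        filter_upwards [(hω j).mu.coeFn_toLp] with x hx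
        simp only [Pi.sub_apply, hw]
        rw [hx]
      · rw [Lp.edist_def] at hj2
        exact hj2
    · have hρm : MemLp ρ (ENNReal.ofReal p) μ := hρ.memLp _
      have hle : ∀ j, hρm.toLp ρ ≤ w j := by
        intro j
        rw [← Lp.coeFn_le]
        filter_upwards [hρm.coeFn_toLp, (hω j).mu.coeFn_toLp, hωρ j] with x e1 e2 e3
        simp only [hw]
        rw [e1, e2]; exact e3
      have hle2 : hρm.toLp ρ ≤ w0 := ge_of_tendsto' hw0 hle
      rw [← Lp.coeFn_le] at hle2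
      filter_upwards [hle2, hρm.coeFn_toLp] with x e1 e2
      rw [← e2]; exact e1
  have hH0ρ : H0 p μ D ρ (gradient ρ) := H0.of_Cc hρ
  set V0 := hH0ρ.mU.toLp (gradient ρ) with hV0
  have hV0K : V0 ∈ K := memK _ _ hH0ρ (Eventually.of_forall fun x => le_rfl)
  obtain ⟨W, hWK, hW⟩ := vi_exists (interProp_Lp hp) T hT2 hT3 K hclosed hconv V0 hV0K
    (β * ‖V0‖ / α + 1) (by
      intro W _ hWR
      have h1 := hT5 W
      have h2 := hT4 W V0
      have h3 : T W (W - V0) = T W W - T W V0 := map_sub _ _ _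
      rw [h3]
      have hWpos : 0 < ‖W‖ := by
        have : 0 ≤ β * ‖V0‖ / α := by positivity
        linarith
      have h4 : ‖W‖ ^ p = ‖W‖ ^ (p - 1) * ‖W‖ := by
        rw [← Real.rpow_add_one hWpos.ne']; congr 1; ring
      have h5 : 0 < ‖W‖ ^ (p - 1) := Real.rpow_pos_of_pos hWpos _
      have h6 : β * ‖V0‖ < α * ‖W‖ := by
        have : β * ‖V0‖ / α < ‖W‖ := by linarith
        rw [div_lt_iff₀ hα] at this
        linarith
      have h7 := (abs_le.1 h2).2
      rw [h4] at h1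
      nlinarith [mul_lt_mul_of_pos_left h6 h5])
  obtain ⟨ω, hω, hωρ⟩ := hWK
  refine ⟨ω, W, hω, hωρ, fun v V hv hvρ => ?_⟩
  have h := hW _ (memK v V hv hvρ)
  rw [hT1] at h
  refine h.trans (le_of_eq ?_)
  apply integral_congr_ae
  filter_upwards [Lp.coeFn_sub (hv.mU.toLp V) W, hv.mU.coeFn_toLp] with x e1 e2
  rw [e1, Pi.sub_apply, e2]
end


end

section


/-! ### definition used below -/
/-! ### ALREADY PROVED elsewhere: leave these sorries -/
section Given
variable {n : ℕ} {D D' G G' K : Set (Sp n)} {p α β : ℝ} {μ : Measure (Sp n)} {φ ψ u v f g : Sp n → ℝ}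
  {U V F : Sp n → Sp n} {x : Sp n} {A : Sp n → Sp n → Sp n}

end Given

/-! ### TARGETS -/
section ObsProps
variable {n : ℕ} {p α β Cd θ Cs lam Cp : ℝ} {μ : Measure (Sp n)} {A : Sp n → Sp n → Sp n}
  {D G : Set (Sp n)} {ρ ω u : Sp n → ℝ} {W U : Sp n → Sp n}

theorem H0.pos [IsFiniteMeasureOnCompacts μ] (hp : 1 < p) (h : H0 p μ D u U) {k : ℝ} (hk : 0 ≤ k) :
    H0 p μ D (fun x => max (u x - k) 0) (fun x => (if k < u x then (1 : ℝ) else 0) • U x) := by
  obtain ⟨β, h1, h2, h3, h4, h5, h6, h7⟩ := exists_profile k hk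
  exact H0.chain_lim hp (β := fun s => max (s - k) 0) (b := fun s => if k < s then (1 : ℝ) else 0) (βk := β) h1 h2
    (C := 1) (fun j s => by rw [abs_of_nonneg (h4 j s).1]; exact (h4 j s).2) h5 h6 h

theorem Sup.sub_const [IsFiniteMeasureOnCompacts μ] (hp : 1 < p) (h : Sup A p μ G u U) (c : ℝ) :
    Sup A p μ G (fun x => u x - c) U := by
  refine ⟨?_, h.2⟩
  have := LH.sub hp h.1 (LH.const (G := G) (μ := μ) (p := p) c)
  simpa using this

theorem A_neg (hA : Op p α β μ A) : ∀ᵐ x ∂μ, ∀ ξ : Sp n, A x (-ξ) = - A x ξ := by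
  filter_upwards [hA.hom] with x hx ξ
  have := hx (-1) ξ (by norm_num)
  simpa using this

theorem Sub.const_sub [IsFiniteMeasureOnCompacts μ] (hp : 1 < p) (hA : Op p α β μ A)
    (h : Sub A p μ G u U) (c : ℝ) :
    Sup A p μ G (fun x => c - u x) (fun x => - U x) := by
  refine ⟨?_, ?_⟩
  · have := LH.sub hp (LH.const (G := G) (μ := μ) (p := p) c) h.1
    simpa using this
  · intro φ hφ hφ0
    have h1 := h.2 φ hφ hφ0
    have h2 : ∫ x, ⟪A x (-U x), gradient φ x⟫ ∂μ = - ∫ x, ⟪A x (U x), gradient φ x⟫ ∂μ := by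
      rw [← integral_neg]
      apply integral_congr_ae
      filter_upwards [A_neg hA] with x hx
      rw [hx, inner_neg_left]
    rw [h2]
    linarith

theorem Sup.mono_set [IsFiniteMeasureOnCompacts μ] (hp : 1 < p) {G' : Set (Sp n)}
    (h : Sup A p μ G u U) (hG' : IsOpen G') (hGG' : G' ⊆ G) : Sup A p μ G' u U :=
  ⟨LH.mono h.1 hGG' hp hG', fun φ hφ hφ0 => h.2 φ (hφ.mono hGG') hφ0⟩

theorem integrable_AWW (hp : 1 < p) (hA : Op p α β μ A) (hW : MemLp W (ENNReal.ofReal p) μ) :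
    Integrable (fun x => ⟪A x (W x), W x⟫) μ := by
  have hp0 : 0 < p := by linarith
  have h1 : Integrable (fun x => ‖W x‖ ^ p) μ := by
    have := hW.integrable_norm_rpow (by simp [hp0]) ENNReal.ofReal_ne_top
    rwa [ENNReal.toReal_ofReal hp0.le] at this
  apply (h1.const_mul β).mono
  · exact (hA.meas W hW.1).inner hW.1
  · filter_upwards [hA.bdd] with x hx
    have h2 := hx (W x)
    have h3 : ‖W x‖ ^ p = ‖W x‖ ^ (p - 1) * ‖W x‖ := by
      rcases (norm_nonneg (W x)).eq_or_lt with h0 | h0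
      · rw [← h0, Real.zero_rpow hp0.ne', mul_zero]
      · rw [← Real.rpow_add_one h0.ne']
        congr 1
        ring
    calc ‖⟪A x (W x), W x⟫‖ ≤ ‖A x (W x)‖ * ‖W x‖ := norm_inner_le_norm _ _
      _ ≤ (β * ‖W x‖ ^ (p - 1)) * ‖W x‖ := mul_le_mul_of_nonneg_right h2 (norm_nonneg _)
      _ = β * ‖W x‖ ^ p := by rw [h3]; ring
      _ ≤ ‖β * ‖W x‖ ^ p‖ := le_abs_self _

theorem Obs.le_const [IsFiniteMeasureOnCompacts μ] (hp : 1 < p) (hα : 0 < α) (hβ : 0 < β)
    (hA : Op p α β μ A) (hadm : Adm p μ Cd θ Cs lam Cp) (hDb : Bornology.IsBounded D)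
    (h : Obs A p μ D ρ ω W) {S : ℝ} (hS : 0 ≤ S) (hρ : ∀ x, ρ x ≤ S) : ∀ᵐ x ∂μ, ω x ≤ S := by
  have hp0 : 0 < p := by linarith
  have hg := H0.pos hp h.h0 hS
  have hv := H0.sub hp.le h.h0 hg
  have h1 := h.vi _ _ hv (by
    filter_upwards [h.ge] with x hx
    have h2 := hρ x
    rcases le_total (ω x) S with h3 | h3
    · rw [max_eq_right (by linarith)]; linarith
    · rw [max_eq_left (by linarith)]; linarith)
  have hint : Integrable (fun x => ⟪A x (W x), (if S < ω x then (1 : ℝ) else 0) • W x⟫) μ := by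
    have h2 := integrable_AWW hp hA h.h0.mU
    apply h2.mono
    · exact (hA.meas W h.h0.mU.1).inner hg.mU.1
    · filter_upwards with x
      split_ifs
      · rw [one_smul]
      · rw [zero_smul, inner_zero_right, norm_zero]; exact norm_nonneg _
  have h2 : ∫ x, ⟪A x (W x), (W x - (if S < ω x then (1 : ℝ) else 0) • W x) - W x⟫ ∂μ =
      - ∫ x, ⟪A x (W x), (if S < ω x then (1 : ℝ) else 0) • W x⟫ ∂μ := by
    rw [← integral_neg]
    apply integral_congr_ae
    filter_upwards with x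
    rw [← inner_neg_right]
    congr 1
    abel
  rw [h2] at h1
  have hnn : 0 ≤ᵐ[μ] fun x => ⟪A x (W x), (if S < ω x then (1 : ℝ) else 0) • W x⟫ := by
    filter_upwards [hA.coer] with x hx
    show 0 ≤ ⟪A x (W x), (if S < ω x then (1 : ℝ) else 0) • W x⟫
    split_ifs
    · rw [one_smul]
      exact le_trans (by positivity) (hx (W x))
    · rw [zero_smul, inner_zero_right]
  have h3 : ∫ x, ⟪A x (W x), (if S < ω x then (1 : ℝ) else 0) • W x⟫ ∂μ = 0 :=
    le_antisymm (by linarith) (integral_nonneg_of_ae hnn)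
  have h4 := (integral_eq_zero_iff_of_nonneg_ae hnn hint).mp h3
  have h5 : (fun x => (if S < ω x then (1 : ℝ) else 0) • W x) =ᵐ[μ] fun _ => (0 : Sp n) := by
    filter_upwards [h4, hA.coer] with x hx hc
    have hx' : ⟪A x (W x), (if S < ω x then (1 : ℝ) else 0) • W x⟫ = 0 := hx
    by_cases hS' : S < ω x
    · rw [if_pos hS', one_smul] at hx' ⊢
      have h6 := hc (W x)
      rw [hx'] at h6
      by_contra hne
      have h7 : 0 < ‖W x‖ := norm_pos_iff.mpr hne
      have : 0 < α * ‖W x‖ ^ p := by positivity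
      linarith
    · rw [if_neg hS', zero_smul]
  have h6 : H0 p μ D (fun x => max (ω x - S) 0) (fun _ => (0 : Sp n)) := hg.congr (Filter.EventuallyEq.refl _ _) h5
  obtain ⟨r, hr⟩ := hDb.subset_ball (0 : Sp n)
  have hr' : D ⊆ Metric.ball (0 : Sp n) (max r 1) := hr.trans (Metric.ball_subset_ball (le_max_left _ _))
  have h7 := hadm.sob 0 (max r 1) (lt_of_lt_of_le one_pos (le_max_right _ _)) _ _ (h6.mono hr')
  have h8 : ∫ y : Sp n, ‖(0 : Sp n)‖ ^ p ∂μ = 0 := by
    rw [norm_zero, Real.zero_rpow hp0.ne', integral_zero]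
  rw [h8, mul_zero] at h7
  have hint2 : Integrable (fun y => |max (ω y - S) 0| ^ p) μ := by
    have := h6.mu.integrable_norm_rpow (by simp [hp0]) ENNReal.ofReal_ne_top
    rw [ENNReal.toReal_ofReal hp0.le] at this
    exact this
  have hnn2 : 0 ≤ fun y => |max (ω y - S) 0| ^ p := fun y => by positivity
  have h9 := (integral_eq_zero_iff_of_nonneg hnn2 hint2).mp (le_antisymm h7 (integral_nonneg hnn2))
  filter_upwards [h9] with x hx
  have hx' : |max (ω x - S) 0| ^ p = 0 := hx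
  rw [Real.rpow_eq_zero (abs_nonneg _) hp0.ne', abs_eq_zero] at hx'
  have := le_max_left (ω x - S) 0
  linarith

theorem Obs.sup [IsFiniteMeasureOnCompacts μ] (hp : 1 < p) (h : Obs A p μ D ρ ω W) :
    Sup A p μ D ω W := by
  refine ⟨H0.toLH hp h.h0, ?_⟩
  intro φ hφ hφ0
  have h1 := h.vi _ _ (H0.add hp.le h.h0 (H0.of_Cc hφ)) (by
    filter_upwards [h.ge] with x hx
    have := hφ0 x
    linarith)
  simpa using h1

/-- smooth approximations of the indicator function of `(k, ∞)` -/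
noncomputable def gm (k : ℝ) (j : ℕ) (s : ℝ) : ℝ := 1 - Real.exp (-(BB ((j : ℝ) * (s - k))))

theorem gm_contDiff (k : ℝ) (j : ℕ) : ContDiff ℝ (⊤ : ℕ∞) (gm k j) := by
  have h1 : ContDiff ℝ (⊤ : ℕ∞) (fun s : ℝ => (j : ℝ) * (s - k)) := by fun_prop
  exact contDiff_const.sub (Real.contDiff_exp.comp (BB_contDiff.comp h1).neg)

theorem gm_hasDerivAt (k : ℝ) (j : ℕ) (s : ℝ) : HasDerivAt (gm k j)
    (Real.exp (-(BB ((j : ℝ) * (s - k)))) * (Real.smoothTransition ((j : ℝ) * (s - k)) * j)) s := by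
  have h1 : HasDerivAt (fun s : ℝ => (j : ℝ) * (s - k)) (j : ℝ) s := by
    simpa using ((hasDerivAt_id s).sub_const k).const_mul (j : ℝ)
  have h2 := (BB_hasDerivAt ((j : ℝ) * (s - k))).comp s h1
  have h3 := (h2.neg.exp).const_sub 1
  refine h3.congr_deriv ?_
  simp

theorem gm_deriv_bd (k : ℝ) (j : ℕ) (s : ℝ) : 0 ≤ deriv (gm k j) s ∧ deriv (gm k j) s ≤ j := by
  rw [(gm_hasDerivAt k j s).deriv]
  have h1 := Real.smoothTransition.nonneg ((j : ℝ) * (s - k))
  have h2 := Real.smoothTransition.le_one ((j : ℝ) * (s - k))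
  have h3 := BB_nonneg ((j : ℝ) * (s - k))
  have h4 : Real.exp (-(BB ((j : ℝ) * (s - k)))) ≤ 1 := Real.exp_le_one_iff.mpr (by linarith)
  have h5 := Real.exp_pos (-(BB ((j : ℝ) * (s - k))))
  refine ⟨by positivity, ?_⟩
  calc Real.exp (-(BB ((j : ℝ) * (s - k)))) * (Real.smoothTransition ((j : ℝ) * (s - k)) * j)
      ≤ 1 * (1 * j) := by gcongr
    _ = j := by ring

theorem gm_zero {k : ℝ} {j : ℕ} {s : ℝ} (h : s ≤ k) : gm k j s = 0 := by
  unfold gm
  rw [BB_nonpos (mul_nonpos_of_nonneg_of_nonpos (Nat.cast_nonneg j) (by linarith))]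
  simp

theorem gm_bd (k : ℝ) (j : ℕ) (s : ℝ) : 0 ≤ gm k j s ∧ gm k j s ≤ 1 := by
  unfold gm
  have h3 := BB_nonneg ((j : ℝ) * (s - k))
  have h4 : Real.exp (-(BB ((j : ℝ) * (s - k)))) ≤ 1 := Real.exp_le_one_iff.mpr (by linarith)
  have h5 := Real.exp_pos (-(BB ((j : ℝ) * (s - k))))
  constructor <;> linarith

theorem gm_le {k : ℝ} {j : ℕ} {s : ℝ} (h : k ≤ s) : gm k j s ≤ j * (s - k) := by
  unfold gm
  have h1 := Real.add_one_le_exp (-(BB ((j : ℝ) * (s - k))))
  have h2 := BB_le (x := (j : ℝ) * (s - k)) (mul_nonneg (Nat.cast_nonneg j) (by linarith))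
  linarith

theorem gm_tendsto (k s : ℝ) : Tendsto (fun j => gm k j s) atTop (𝓝 (if k < s then 1 else 0)) := by
  by_cases h : k < s
  · rw [if_pos h]
    unfold gm
    have h1 : Tendsto (fun j : ℕ => (j : ℝ) * (s - k)) atTop atTop :=
      tendsto_natCast_atTop_atTop.atTop_mul_const (by linarith)
    have h2 : Tendsto (fun j : ℕ => BB ((j : ℝ) * (s - k))) atTop atTop := by
      apply tendsto_atTop_mono (f := fun j : ℕ => (j : ℝ) * (s - k) - 1)
      · intro j; exact BB_ge _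
      · exact tendsto_atTop_add_const_right _ (-1) h1
    have h3 := (Real.tendsto_exp_neg_atTop_nhds_zero.comp h2).const_sub 1
    simpa using h3
  · rw [if_neg h]
    have : (fun j => gm k j s) = fun _ => 0 := by
      funext j; exact gm_zero (not_lt.mp h)
    rw [this]
    exact tendsto_const_nhds

theorem Obs.sub_above [IsFiniteMeasureOnCompacts μ] (hp : 1 < p) (hα : 0 < α) (hβ : 0 < β)
    (hA : Op p α β μ A) (h : Obs A p μ D ρ ω W) {k : ℝ} (hk : 0 ≤ k) (hG : IsOpen G)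
    (hρ : ∀ x ∈ G, ρ x ≤ k) :
    Sub A p μ G (fun x => max (ω x - k) 0) (fun x => (if k < ω x then (1 : ℝ) else 0) • W x) := by
  refine ⟨H0.toLH hp (H0.pos hp h.h0 hk), ?_⟩
  intro φ hφ hφ0
  obtain ⟨M, hM⟩ := hφ.comp.exists_bound_of_continuous hφ.cont
  have hM0 : 0 ≤ M := (norm_nonneg _).trans (hM 0)
  have hWm : AEStronglyMeasurable W μ := h.h0.mU.1
  have hωm : AEStronglyMeasurable ω μ := h.h0.mu.1
  have hflux : Integrable (fun x => ⟪A x (W x), gradient φ x⟫) μ := by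
    apply integrable_flux hp hA (H0.toLH hp h.h0 : LH p μ G ω W) hG hφ.comp hφ.supp (hφ.memLp_grad _)
    filter_upwards with x hx
    exact grad_zero_of_notMem hx
  have hAWW := integrable_AWW hp hA h.h0.mU
  -- inequality for each j
  have hj : ∀ j : ℕ, ∫ x, gm k j (ω x) * ⟪A x (W x), gradient φ x⟫ ∂μ ≤ 0 := by
    intro j
    have hch := H0.chain hp (gm_contDiff k j) (gm_zero hk) (C := (j : ℝ))
      (fun s => by rw [abs_of_nonneg (gm_deriv_bd k j s).1]; exact (gm_deriv_bd k j s).2) h.h0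
    have hmul := (H0.mul_Cc hp hch hφ).mono (D' := D) Set.inter_subset_left
    obtain ⟨t, ht⟩ : ∃ t : ℝ, t = 1 / (M * j + 1) := ⟨_, rfl⟩
    have htpos : 0 < t := by rw [ht]; positivity
    have htM : t * (M * j) ≤ 1 := by
      rw [ht, one_div, inv_mul_le_iff₀ (by positivity)]
      linarith
    have hv := H0.sub hp.le h.h0 (H0.const_mul t hmul)
    have h1 := h.vi _ _ hv (by
      filter_upwards [h.ge] with x hx
      have hφx := hφ0 x
      have hφM : φ x ≤ M := (le_abs_self _).trans (hM x)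
      by_cases hxG : x ∈ G
      · rcases le_or_gt (ω x) k with h2 | h2
        · rw [gm_zero h2, mul_zero, mul_zero, sub_zero]; exact hx
        · have h3 := gm_le (j := j) h2.le
          have h4 := (gm_bd k j (ω x)).1
          have h5 : φ x * gm k j (ω x) ≤ M * (j * (ω x - k)) := mul_le_mul hφM h3 h4 hM0
          have h6 : t * (φ x * gm k j (ω x)) ≤ t * (M * (j * (ω x - k))) := mul_le_mul_of_nonneg_left h5 htpos.le
          have h7 : t * (M * (j * (ω x - k))) = (t * (M * j)) * (ω x - k) := by ring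
          have h8 : (t * (M * j)) * (ω x - k) ≤ 1 * (ω x - k) := mul_le_mul_of_nonneg_right htM (by linarith)
          have h9 := hρ x hxG
          linarith
      · have : φ x = 0 := zero_of_notMem (fun hx' => hxG (hφ.supp hx'))
        rw [this, zero_mul, mul_zero, sub_zero]; exact hx)
    have h2 : ∫ x, ⟪A x (W x), (W x - t • (φ x • (deriv (gm k j) (ω x) • W x) + gm k j (ω x) • gradient φ x)) - W x⟫ ∂μ =
        (-t) * ∫ x, (φ x * deriv (gm k j) (ω x) * ⟪A x (W x), W x⟫ + gm k j (ω x) * ⟪A x (W x), gradient φ x⟫) ∂μ := by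
      rw [← integral_const_mul]
      apply integral_congr_ae
      filter_upwards with x
      have e1 : (W x - t • (φ x • (deriv (gm k j) (ω x) • W x) + gm k j (ω x) • gradient φ x)) - W x =
          (-t) • (φ x • (deriv (gm k j) (ω x) • W x) + gm k j (ω x) • gradient φ x) := by
        rw [neg_smul]; abel
      rw [e1, inner_smul_right, inner_add_right, inner_smul_right, inner_smul_right, inner_smul_right]
      ring
    rw [h2] at h1
    have hi2 : Integrable (fun x => gm k j (ω x) * ⟪A x (W x), gradient φ x⟫) μ := by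
      apply hflux.bdd_mul (c := 1)
      · exact (gm_contDiff k j).continuous.comp_aestronglyMeasurable hωm
      · filter_upwards with x
        rw [Real.norm_eq_abs, abs_of_nonneg (gm_bd k j _).1]; exact (gm_bd k j _).2
    have hdc : Continuous (deriv (gm k j)) := by
      have := gm_contDiff k j
      exact this.continuous_deriv (by simp)
    have hi1 : Integrable (fun x => φ x * deriv (gm k j) (ω x) * ⟪A x (W x), W x⟫) μ := by
      apply hAWW.bdd_mul (c := M * j)
      · exact (hφ.cont.aestronglyMeasurable).mul (hdc.comp_aestronglyMeasurable hωm)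
      · filter_upwards with x
        rw [norm_mul]
        apply mul_le_mul (hM x) _ (norm_nonneg _) hM0
        rw [Real.norm_eq_abs, abs_of_nonneg (gm_deriv_bd k j _).1]; exact (gm_deriv_bd k j _).2
    rw [integral_add hi1 hi2] at h1
    have h3 : 0 ≤ ∫ x, φ x * deriv (gm k j) (ω x) * ⟪A x (W x), W x⟫ ∂μ := by
      apply integral_nonneg_of_ae
      filter_upwards [hA.coer] with x hx
      have h4 : 0 ≤ ⟪A x (W x), W x⟫ := le_trans (by positivity) (hx (W x))
      exact mul_nonneg (mul_nonneg (hφ0 x) (gm_deriv_bd k j _).1) h4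
    by_contra hcon
    rw [not_le] at hcon
    have : 0 < t * (∫ x, φ x * deriv (gm k j) (ω x) * ⟪A x (W x), W x⟫ ∂μ + ∫ x, gm k j (ω x) * ⟪A x (W x), gradient φ x⟫ ∂μ) :=
      mul_pos htpos (by linarith)
    linarith
  -- limit
  have hlim : Tendsto (fun j : ℕ => ∫ x, gm k j (ω x) * ⟪A x (W x), gradient φ x⟫ ∂μ) atTop
      (𝓝 (∫ x, (if k < ω x then (1 : ℝ) else 0) * ⟪A x (W x), gradient φ x⟫ ∂μ)) := by
    apply tendsto_integral_of_dominated_convergence (fun x => ‖⟪A x (W x), gradient φ x⟫‖)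
    · intro j
      exact ((gm_contDiff k j).continuous.comp_aestronglyMeasurable hωm).mul hflux.1
    · exact hflux.norm
    · intro j
      filter_upwards with x
      rw [norm_mul]
      refine mul_le_of_le_one_left (norm_nonneg _) ?_
      rw [Real.norm_eq_abs, abs_of_nonneg (gm_bd k j _).1]; exact (gm_bd k j _).2
    · filter_upwards with x
      exact (gm_tendsto k (ω x)).mul_const _
  have hle := le_of_tendsto' hlim hj
  refine le_trans (le_of_eq ?_) hle
  apply integral_congr_ae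
  filter_upwards [hA.bdd] with x hx
  split_ifs with hk'
  · rw [one_smul, one_mul]
  · rw [zero_smul, zero_mul]
    have h1 := hx 0
    rw [norm_zero, Real.zero_rpow (by linarith), mul_zero] at h1
    have h2 : A x 0 = 0 := norm_le_zero_iff.mp h1
    rw [h2, inner_zero_left]

theorem Obs.harm [IsFiniteMeasureOnCompacts μ] (hp : 1 < p) (h : Obs A p μ D ρ ω W) (hG : IsOpen G)
    (hGD : G ⊆ D)
    (hρ : ∀ K : Set (Sp n), IsCompact K → K ⊆ G → ∃ c : ℝ, 0 < c ∧ ∀ᵐ x ∂μ, x ∈ K → ρ x + c ≤ ω x) :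
    ∀ φ, Cc G φ → ∫ x, ⟪A x (W x), gradient φ x⟫ ∂μ = 0 := by
  intro φ hφ
  obtain ⟨M, hM⟩ := hφ.comp.exists_bound_of_continuous hφ.cont
  have hM0 : 0 ≤ M := (norm_nonneg _).trans (hM 0)
  obtain ⟨c, hc, hcK⟩ := hρ (tsupport φ) hφ.comp hφ.supp
  obtain ⟨t, ht⟩ : ∃ t : ℝ, t = c / (M + 1) := ⟨_, rfl⟩
  have htpos : 0 < t := by rw [ht]; positivity
  have htM : t * M ≤ c := by
    rw [ht, div_mul_eq_mul_div, div_le_iff₀ (by positivity)]
    nlinarith
  have key : ∀ s : ℝ, |s| = t → 0 ≤ s * ∫ x, ⟪A x (W x), gradient φ x⟫ ∂μ := by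
    intro s hs
    have h1 := h.vi _ _ (H0.add hp.le h.h0 (H0.const_mul s (H0.of_Cc (hφ.mono hGD)))) (by
      filter_upwards [h.ge, hcK] with x hx hx2
      by_cases hxK : x ∈ tsupport φ
      · have h3 := hx2 hxK
        have h4 : |s * φ x| ≤ c := by
          rw [abs_mul, hs]
          exact (mul_le_mul_of_nonneg_left (hM x) htpos.le).trans htM
        have h5 := (abs_le.mp h4).1
        linarith
      · rw [zero_of_notMem hxK, mul_zero, add_zero]; exact hx)
    have h2 : ∫ x, ⟪A x (W x), (W x + s • gradient φ x) - W x⟫ ∂μ = s * ∫ x, ⟪A x (W x), gradient φ x⟫ ∂μ := by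
      rw [← integral_const_mul]
      apply integral_congr_ae
      filter_upwards with x
      rw [add_sub_cancel_left, inner_smul_right]
    rw [h2] at h1
    exact h1
  have h1 := key t (abs_of_pos htpos)
  have h2 := key (-t) (by rw [abs_neg, abs_of_pos htpos])
  have h3 : t * ∫ x, ⟪A x (W x), gradient φ x⟫ ∂μ = 0 := le_antisymm (by linarith) h1
  exact (mul_eq_zero.mp h3).resolve_left htpos.ne'

end ObsProps


end

section


/-! ### TARGET -/
/-- continuous representative -/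
theorem cont_rep {n : ℕ} {μ : Measure (Sp n)} (hpos : ∀ (x : Sp n) (r : ℝ), 0 < r → 0 < μ (Metric.ball x r))
    {D : Set (Sp n)} (hD : IsOpen D) (ω : Sp n → ℝ)
    (h : ∀ x ∈ D, ∀ e : ℝ, 0 < e → ∃ r > 0, ∃ c : ℝ, ∀ᵐ y ∂μ, y ∈ Metric.ball x r → c ≤ ω y ∧ ω y ≤ c + e) :
    ∃ ω' : Sp n → ℝ, ContinuousOn ω' D ∧ ∀ᵐ x ∂μ, x ∈ D → ω' x = ω x := by
  classical
  let S : Sp n → Set ℝ := fun x => {c | ∃ r > 0, ∀ᵐ y ∂μ, y ∈ Metric.ball x r → c ≤ ω y}
  let ω' : Sp n → ℝ := fun x => sSup (S x)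
  have hω' : ∀ x r c e, (∀ᵐ y ∂μ, y ∈ Metric.ball x r → c ≤ ω y ∧ ω y ≤ c + e) →
      ∀ z ∈ Metric.ball x r, c ≤ ω' z ∧ ω' z ≤ c + e := by
    intro x r c e hc z hz
    have hr' : 0 < r - dist z x := by
      rw [Metric.mem_ball] at hz
      linarith
    have hsub : Metric.ball z (r - dist z x) ⊆ Metric.ball x r := by
      apply Metric.ball_subset_ball'
      linarith
    have hmem : c ∈ S z := by
      refine ⟨r - dist z x, hr', ?_⟩
      filter_upwards [hc] with y hy hyz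
      exact (hy (hsub hyz)).1
    have hub : ∀ c' ∈ S z, c' ≤ c + e := by
      rintro c' ⟨ρ, hρ, hc'⟩
      have hball := hpos z (min ρ (r - dist z x)) (lt_min hρ hr')
      by_contra hlt
      push Not at hlt
      have hnull : μ (Metric.ball z (min ρ (r - dist z x))) = 0 := by
        have hboth : ∀ᵐ y ∂μ, y ∉ Metric.ball z (min ρ (r - dist z x)) := by
          filter_upwards [hc, hc'] with y hy hy' hyb
          have h1 := hy' (Metric.ball_subset_ball (min_le_left _ _) hyb)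
          have h2 := (hy (hsub (Metric.ball_subset_ball (min_le_right _ _) hyb))).2
          linarith
        exact measure_eq_zero_iff_ae_notMem.2 hboth
      exact hball.ne' hnull
    exact ⟨le_csSup ⟨c + e, hub⟩ hmem, csSup_le ⟨c, hmem⟩ hub⟩
  refine ⟨ω', ?_, ?_⟩
  · intro x hx
    apply ContinuousAt.continuousWithinAt
    rw [Metric.continuousAt_iff]
    intro e he
    obtain ⟨r, hr, c, hc⟩ := h x hx (e / 2) (by linarith)
    refine ⟨r, hr, fun z hz => ?_⟩
    have h1 := hω' x r c (e / 2) hc z hz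
    have h2 := hω' x r c (e / 2) hc x (Metric.mem_ball_self hr)
    rw [Real.dist_eq, abs_lt]
    constructor <;> linarith [h1.1, h1.2, h2.1, h2.2]
  · have key : ∀ k : ℕ, ∀ᵐ x ∂μ, x ∈ D → |ω' x - ω x| ≤ 1 / ((k : ℝ) + 1) := by
      intro k
      have hk : (0 : ℝ) < 1 / ((k : ℝ) + 1) := by positivity
      have hnull : μ {x | x ∈ D ∧ 1 / ((k : ℝ) + 1) < |ω' x - ω x|} = 0 := by
        apply measure_null_of_locally_null
        rintro x ⟨hx, -⟩
        obtain ⟨r, hr, c, hc⟩ := h x hx _ hk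
        refine ⟨{y | ¬ (y ∈ Metric.ball x r → c ≤ ω y ∧ ω y ≤ c + 1 / ((k : ℝ) + 1))}, ?_, hc⟩
        rw [mem_nhdsWithin]
        refine ⟨Metric.ball x r, Metric.isOpen_ball, Metric.mem_ball_self hr, ?_⟩
        rintro y ⟨hy1, -, hy2⟩ hy3
        have h1 := hω' x r c _ hc y hy1
        have h2 := hy3 hy1
        have h4 : |ω' y - ω y| ≤ 1 / ((k : ℝ) + 1) := by
          rw [abs_le]
          constructor <;> linarith [h1.1, h1.2, h2.1, h2.2]
        exact absurd hy2 (not_lt.2 h4)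
      have h5 := measure_eq_zero_iff_ae_notMem.1 hnull
      filter_upwards [h5] with x hx hxD
      by_contra hlt
      push Not at hlt
      exact hx ⟨hxD, hlt⟩
    filter_upwards [ae_all_iff.2 key] with x hx hxD
    have h1 : |ω' x - ω x| ≤ 0 := by
      refine ge_of_tendsto' tendsto_one_div_add_atTop_nhds_zero_nat (fun k => hx k hxD)
    have h2 := abs_nonneg (ω' x - ω x)
    have h3 : |ω' x - ω x| = 0 := le_antisymm h1 h2
    rw [abs_eq_zero] at h3
    linarith

/-- smooth approximation from below of a bounded lower semicontinuous function -/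
theorem lsc_approx {n : ℕ} {K : Set (Sp n)} (hK : IsCompact K) (u : Sp n → ℝ) (hu : LowerSemicontinuousOn u K)
    {m : ℝ} (hm0 : 0 ≤ m) (hm : ∀ x ∈ K, |u x| ≤ m) :
    ∃ f : ℕ → Sp n → ℝ, (∀ j, ContDiff ℝ (⊤ : ℕ∞) (f j)) ∧ (∀ j x, f j x ≤ f (j + 1) x) ∧
      (∀ j, ∀ x ∈ K, f j x ≤ u x) ∧ (∀ j x, -m - 1 ≤ f j x ∧ f j x ≤ m) ∧
      ∀ x ∈ K, Tendsto (fun j => f j x) atTop (𝓝 (u x)) := by
  classical
  rcases K.eq_empty_or_nonempty with rfl | hne
  · refine ⟨fun _ _ => -m, fun j => contDiff_const, fun _ _ => le_rfl, ?_, ?_, ?_⟩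
    · intro j x hx
      exact absurd hx (Set.notMem_empty x)
    · intro j x
      constructor <;> linarith
    · intro x hx
      exact absurd hx (Set.notMem_empty x)
  have : Nonempty K := hne.to_subtype
  let h : ℕ → Sp n → ℝ := fun k x => ⨅ y : K, (u y + k * dist x (y : Sp n))
  let g : ℕ → Sp n → ℝ := fun k x => min m (h k x)
  have hb : ∀ (k : ℕ) (x : Sp n) (y : K), -m ≤ u y + k * dist x (y : Sp n) := by
    intro k x y
    have h1 := (abs_le.1 (hm y y.2)).1
    have : 0 ≤ (k : ℝ) * dist x (y : Sp n) := by positivity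
    linarith
  have hbdd : ∀ (k : ℕ) (x : Sp n), BddBelow (Set.range fun y : K => u y + k * dist x (y : Sp n)) := by
    intro k x
    refine ⟨-m, ?_⟩
    rintro _ ⟨y, rfl⟩
    exact hb k x y
  have hle : ∀ (k : ℕ) (x : Sp n) (y : K), h k x ≤ u y + k * dist x (y : Sp n) := fun k x y => ciInf_le (hbdd k x) y
  have hge : ∀ (k : ℕ) x, -m ≤ h k x := fun k x => le_ciInf fun y => hb k x y
  have hlip : ∀ (k : ℕ) x x', h k x ≤ h k x' + k * dist x x' := by
    intro k x x'
    rw [← sub_le_iff_le_add]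
    refine le_ciInf fun y => ?_
    have h1 := hle k x y
    have h2 : (k : ℝ) * dist x (y : Sp n) ≤ k * (dist x x' + dist x' (y : Sp n)) :=
      mul_le_mul_of_nonneg_left (dist_triangle _ _ _) (by positivity)
    linarith
  have hhc : ∀ k, Continuous (h k) := by
    intro k
    have : LipschitzWith (k : ℝ≥0) (h k) := by
      apply LipschitzWith.of_dist_le_mul
      intro x x'
      rw [Real.dist_eq, abs_le]
      have h1 := hlip k x x'
      have h2 := hlip k x' x
      rw [dist_comm x' x] at h2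
      push_cast
      constructor <;> linarith
    exact this.continuous
  have hgc : ∀ k, Continuous (g k) := fun k => continuous_const.min (hhc k)
  have hg1 : ∀ k x, -m ≤ g k x := fun k x => le_min (by linarith) (hge k x)
  have hg2 : ∀ k x, g k x ≤ m := fun k x => min_le_left _ _
  have hg3 : ∀ k x, g k x ≤ g (k + 1) x := by
    intro k x
    refine min_le_min le_rfl ?_
    refine le_ciInf fun y => ?_
    refine (hle k x y).trans ?_
    push_cast
    have := dist_nonneg (x := x) (y := (y : Sp n))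
    linarith
  have hg4 : ∀ k, ∀ x ∈ K, g k x ≤ u x := by
    intro k x hx
    refine (min_le_right _ _).trans ?_
    have := hle k x ⟨x, hx⟩
    simpa using this
  have hg5 : ∀ x ∈ K, ∀ c < u x, ∀ᶠ k : ℕ in atTop, c ≤ g k x := by
    intro x hx c hc
    have h1 := hu x hx c hc
    rw [Filter.Eventually, Metric.mem_nhdsWithin_iff] at h1
    obtain ⟨d, hd, h2⟩ := h1
    obtain ⟨k0, hk0⟩ := exists_nat_ge ((c + m) / d)
    filter_upwards [eventually_ge_atTop k0] with k hk
    refine le_min ?_ ?_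
    · have := (abs_le.1 (hm x hx)).2
      linarith
    · refine le_ciInf fun y => ?_
      by_cases hxy : dist x (y : Sp n) < d
      · have h3 : c < u y := h2 ⟨by rw [Metric.mem_ball, dist_comm]; exact hxy, y.2⟩
        have : 0 ≤ (k : ℝ) * dist x (y : Sp n) := by positivity
        linarith
      · push Not at hxy
        have h3 := (abs_le.1 (hm y y.2)).1
        have h4 : c + m ≤ k * d := by
          have h5 : (c + m) / d ≤ k := hk0.trans (by exact_mod_cast hk)
          rwa [div_le_iff₀ hd] at h5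
        have h6 : (k : ℝ) * d ≤ k * dist x (y : Sp n) := mul_le_mul_of_nonneg_left hxy (by positivity)
        linarith
  -- smoothing
  have hη : ∀ k : ℕ, (0 : ℝ) < (1 / 2) ^ (k + 1) := fun k => by positivity
  have hex : ∀ k : ℕ, ∃ F : Sp n → ℝ, ContDiff ℝ (⊤ : ℕ∞) F ∧
      ∀ x, |F x - (g k x - 3 / 2 * (1 / 2) ^ (k + 1))| ≤ (1 / 2) ^ (k + 1) / 2 := by
    intro k
    have hc : Continuous fun x => g k x - 3 / 2 * (1 / 2 : ℝ) ^ (k + 1) := (hgc k).sub continuous_const
    obtain ⟨F, hF⟩ := hc.exists_contDiff_approx (⊤ : ℕ∞)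
      (ε := fun _ => (1 / 2 : ℝ) ^ (k + 1) / 2) continuous_const (fun _ => by positivity)
    refine ⟨F, hF.1, fun x => ?_⟩
    have := hF.2.1 x
    rw [Real.dist_eq] at this
    exact this.le
  choose F hF1 hF2 using hex
  have hup : ∀ k x, F k x ≤ g k x - (1 / 2) ^ (k + 1) := by
    intro k x
    have := (abs_le.1 (hF2 k x)).2
    linarith
  have hlo : ∀ k x, g k x - 2 * (1 / 2) ^ (k + 1) ≤ F k x := by
    intro k x
    have := (abs_le.1 (hF2 k x)).1
    linarith
  refine ⟨F, hF1, ?_, ?_, ?_, ?_⟩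
  · intro j x
    have h1 := hup j x
    have h2 := hlo (j + 1) x
    have h3 := hg3 j x
    have h4 : 2 * (1 / 2 : ℝ) ^ (j + 1 + 1) = (1 / 2) ^ (j + 1) := by
      rw [pow_succ (1 / 2 : ℝ) (j + 1)]
      ring
    linarith
  · intro j x hx
    have h1 := hup j x
    have h2 := hg4 j x hx
    have h3 := hη j
    linarith
  · intro j x
    have h1 := hup j x
    have h2 := hlo j x
    have h3 := hg1 j x
    have h4 := hg2 j x
    have h5 := hη j
    have h6 : 2 * (1 / 2 : ℝ) ^ (j + 1) ≤ 1 := by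
      have h7 : (1 / 2 : ℝ) ^ j ≤ 1 := pow_le_one₀ (by norm_num) (by norm_num)
      rw [pow_succ]
      linarith
    constructor <;> linarith
  · intro x hx
    rw [tendsto_order]
    constructor
    · intro c hc
      have h1 := hg5 x hx ((c + u x) / 2) (by linarith)
      have h2 : Tendsto (fun k : ℕ => 2 * (1 / 2 : ℝ) ^ (k + 1)) atTop (𝓝 0) := by
        have h3 : Tendsto (fun k : ℕ => (1 / 2 : ℝ) ^ k) atTop (𝓝 0) :=
          tendsto_pow_atTop_nhds_zero_of_lt_one (by norm_num) (by norm_num)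
        refine h3.congr fun k => ?_
        rw [pow_succ]
        ring
      have h3 : ∀ᶠ k : ℕ in atTop, 2 * (1 / 2 : ℝ) ^ (k + 1) < (u x - c) / 2 :=
        (tendsto_order.1 h2).2 _ (by linarith)
      filter_upwards [h1, h3] with k hk1 hk2
      have := hlo k x
      linarith
    · intro c hc
      refine Eventually.of_forall fun k => ?_
      have h1 := hup k x
      have h2 := hg4 k x hx
      have h3 := hη k
      linarith


end

end Pool.Agent.Helper533.Polar
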