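import Pool.Agent.Helper533.Polar.DGb
import Pool.Agent.Helper533.Polar.Obst
open MeasureTheory Filter Topology Set
open scoped ENNReal NNReal RealInnerProductSpace

namespace Pool.Agent.Helper533.Polar

section


/-! ### definition used below -/
/-! ### ALREADY PROVED elsewhere -/
/-! ### ALREADY PROVED elsewhere -/
section ObsProps
variable {n : ℕ} {p α β Cd θ Cs lam Cp : ℝ} {μ : Measure (Sp n)} {A : Sp n → Sp n → Sp n}
  {D G : Set (Sp n)} {ρ ω u : Sp n → ℝ} {W U : Sp n → Sp n}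

end ObsProps

/-! ### TARGETS -/
section Osc
variable {n : ℕ} {p α β Cd θ Cs lam Cp : ℝ}

/-- one step of the oscillation decay for the obstacle solution -/
theorem osc_step (hp : 1 < p) (hα : 0 < α) (hβ : 0 < β) (hlam : 1 ≤ lam) :
    ∃ δ : ℝ, 0 < δ ∧ δ < 1 ∧ ∀ (μ : Measure (Sp n)) [IsFiniteMeasureOnCompacts μ]
      (A : Sp n → Sp n → Sp n), Op p α β μ A → Adm p μ Cd θ Cs lam Cp → ∀ (D : Set (Sp n)),
      ∀ (ρ ω : Sp n → ℝ) (W : Sp n → Sp n), Obs A p μ D ρ ω W →
      ∀ (x : Sp n) (r : ℝ), 0 < r → Metric.ball x r ⊆ D → ∀ a b : ℝ, 0 ≤ a → a < b →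
      (∀ᵐ y ∂μ, y ∈ Metric.ball x r → a ≤ ω y ∧ ω y ≤ b) →
      (∀ y ∈ Metric.ball x r, ρ y ≤ (a + b) / 2) →
      ∃ a' b' : ℝ, a ≤ a' ∧ a' ≤ b' ∧ b' ≤ b ∧ b' - a' ≤ (1 - δ) * (b - a) ∧
        ∀ᵐ y ∂μ, y ∈ Metric.ball x (r / (4 * lam)) → a' ≤ ω y ∧ ω y ≤ b' := by
  obtain ⟨δ2, h1, h2, hDG⟩ := DG2 (n := n) (p := p) (α := α) (β := β) (Cd := Cd) (θ := θ)
    (Cs := Cs) (lam := lam) (Cp := Cp) hp hα hβ (γ := 1 / 2) (by norm_num)
  refine ⟨δ2 / 2, by positivity, by linarith, ?_⟩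
  intro μ _ A hA hadm D ρ ω W h x r hr hrD a b ha hab hω hρ
  have hlam0 : 0 < lam := by linarith
  set k : ℝ := (a + b) / 2 with hk
  set t : ℝ := (b - a) / 2 with ht
  have ht0 : 0 < t := by rw [ht]; linarith
  have hk0 : 0 ≤ k := by rw [hk]; linarith
  set r' : ℝ := r / (2 * lam) with hr'
  have hr'0 : 0 < r' := by rw [hr']; positivity
  have hball : Metric.ball x (2 * lam * r') ⊆ Metric.ball x r := by
    have : 2 * lam * r' = r := by rw [hr']; field_simp
    rw [this]
  have hhalf : r' / 2 = r / (4 * lam) := by rw [hr']; field_simp; norm_num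
  have hmeas : AEStronglyMeasurable ω μ := h.h0.mu.1
  have hfin : μ (Metric.ball x r') < ∞ := hadm.fin x r'
  set E1 : Set (Sp n) := {y | y ∈ Metric.ball x r' ∧ k ≤ ω y} with hE1
  set E2 : Set (Sp n) := {y | y ∈ Metric.ball x r' ∧ ω y < k} with hE2
  have hE1f : μ E1 ≠ ∞ := (lt_of_le_of_lt (measure_mono (fun y hy => hy.1)) hfin).ne
  have hE2f : μ E2 ≠ ∞ := (lt_of_le_of_lt (measure_mono (fun y hy => hy.1)) hfin).ne
  have hsum : μ.real (Metric.ball x r') ≤ μ.real E1 + μ.real E2 := by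
    have hsub : Metric.ball x r' ⊆ E1 ∪ E2 := by
      intro y hy
      by_cases hc : k ≤ ω y
      · exact Or.inl ⟨hy, hc⟩
      · exact Or.inr ⟨hy, not_le.1 hc⟩
    have hu : μ (E1 ∪ E2) ≠ ∞ :=
      (lt_of_le_of_lt (measure_mono (by
        rintro y (hy | hy)
        · exact hy.1
        · exact hy.1)) hfin).ne
    calc μ.real (Metric.ball x r') ≤ μ.real (E1 ∪ E2) := measureReal_mono hsub hu
      _ ≤ μ.real E1 + μ.real E2 := measureReal_union_le _ _
  have hdich : 1 / 2 * μ.real (Metric.ball x r') ≤ μ.real E1 ∨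
      1 / 2 * μ.real (Metric.ball x r') ≤ μ.real E2 := by
    by_contra hcon
    push Not at hcon
    linarith [hcon.1, hcon.2]
  rcases hdich with hc | hc
  · -- large values
    have hsup : Sup A p μ (Metric.ball x r) (fun y => ω y - a) W :=
      Sup.sub_const hp (Sup.mono_set hp (Obs.sup hp h) Metric.isOpen_ball hrD) a
    have hset : {y | y ∈ Metric.ball x r' ∧ t ≤ ω y - a} = E1 := by
      ext y
      simp only [hE1, Set.mem_setOf_eq, ht, hk]
      constructor
      · rintro ⟨h1, h2⟩; exact ⟨h1, by linarith⟩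
      · rintro ⟨h1, h2⟩; exact ⟨h1, by linarith⟩
    have := hDG μ A hA hadm (Metric.ball x r) Metric.isOpen_ball (fun y => ω y - a) W hsup
      (by filter_upwards [hω] with y hy hyb; linarith [(hy hyb).1]) x r' hr'0 hball t ht0
      (by rw [hset]; exact hc)
    refine ⟨a + δ2 * t, b, by nlinarith, by rw [ht]; nlinarith, le_refl _, by rw [ht]; nlinarith, ?_⟩
    filter_upwards [this, hω] with y hy1 hy2 hyb
    rw [← hhalf] at hyb
    have e1 := hy1 hyb
    have e2 : y ∈ Metric.ball x r := by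
      refine Metric.ball_subset_ball ?_ hyb
      rw [hhalf]
      exact div_le_self hr.le (by linarith)
    exact ⟨by linarith, (hy2 e2).2⟩
  · -- small values
    have hsub := Obs.sub_above hp hα hβ hA h hk0 (G := Metric.ball x r) Metric.isOpen_ball hρ
    have hsup := Sub.const_sub hp hA hsub (b - k)
    have hset : E2 ⊆ {y | y ∈ Metric.ball x r' ∧ t ≤ (b - k) - max (ω y - k) 0} := by
      rintro y ⟨h1, h2⟩
      refine ⟨h1, ?_⟩
      have : max (ω y - k) 0 = 0 := max_eq_right (by linarith)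
      rw [this, ht, hk]
      linarith
    have hf3 : μ {y | y ∈ Metric.ball x r' ∧ t ≤ (b - k) - max (ω y - k) 0} ≠ ∞ :=
      (lt_of_le_of_lt (measure_mono (fun y hy => hy.1)) hfin).ne
    have := hDG μ A hA hadm (Metric.ball x r) Metric.isOpen_ball _ _ hsup
      (by
        filter_upwards [hω] with y hy hyb
        have := (hy hyb).2
        have h3 : max (ω y - k) 0 ≤ b - k := max_le (by linarith) (by rw [hk]; linarith)
        linarith) x r' hr'0 hball t ht0
      (le_trans hc (measureReal_mono hset hf3))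
    refine ⟨a, b - δ2 * t, le_refl _, by rw [ht]; nlinarith, by nlinarith, by rw [ht]; nlinarith, ?_⟩
    filter_upwards [this, hω] with y hy1 hy2 hyb
    rw [← hhalf] at hyb
    have e1 := hy1 hyb
    have e2 : y ∈ Metric.ball x r := by
      refine Metric.ball_subset_ball ?_ hyb
      rw [hhalf]
      exact div_le_self hr.le (by linarith)
    have e3 : ω y - k ≤ max (ω y - k) 0 := le_max_left _ _
    exact ⟨(hy2 e2).1, by linarith⟩

/-- the essential oscillation of the obstacle solution tends to zero -/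
theorem osc_small (hp : 1 < p) (hα : 0 < α) (hβ : 0 < β) {μ : Measure (Sp n)}
    [IsFiniteMeasureOnCompacts μ] {A : Sp n → Sp n → Sp n} (hA : Op p α β μ A)
    (hadm : Adm p μ Cd θ Cs lam Cp) {D : Set (Sp n)} (hD : IsOpen D) {ρ ω : Sp n → ℝ}
    {W : Sp n → Sp n} (h : Obs A p μ D ρ ω W) (hρc : Continuous ρ) (hρ0 : ∀ x, 0 ≤ ρ x)
    {S : ℝ} (hS : ∀ᵐ x ∂μ, ω x ≤ S) :
    ∀ x ∈ D, ∀ e : ℝ, 0 < e → ∃ r > 0, ∃ c : ℝ,
      ∀ᵐ y ∂μ, y ∈ Metric.ball x r → c ≤ ω y ∧ ω y ≤ c + e := by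
  intro x hx e he
  have hlam : 1 ≤ lam := hadm.one_le_lam
  have hlam0 : 0 < lam := by linarith
  obtain ⟨δ, hδ0, hδ1, hstep⟩ := osc_step (n := n) (p := p) (α := α) (β := β) (Cd := Cd) (θ := θ)
    (Cs := Cs) (lam := lam) (Cp := Cp) hp hα hβ hlam
  obtain ⟨r1, hr1, hr1D⟩ := Metric.isOpen_iff.1 hD x hx
  obtain ⟨r2, hr2, hr2ρ⟩ := Metric.continuous_iff.1 hρc x (e / 8) (by positivity)
  set r0 : ℝ := min r1 r2 with hr0
  have hr0p : 0 < r0 := lt_min hr1 hr2
  have hr0D : Metric.ball x r0 ⊆ D := (Metric.ball_subset_ball (min_le_left _ _)).trans hr1D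
  have hr0ρ : ∀ y ∈ Metric.ball x r0, |ρ y - ρ x| < e / 8 := by
    intro y hy
    have := hr2ρ y (lt_of_lt_of_le (Metric.mem_ball.1 hy) (min_le_right _ _))
    rwa [Real.dist_eq] at this
  set T : ℝ := max S 0 + 1 with hT
  have hT0 : 0 < T := by
    have : 0 ≤ max S 0 := le_max_right _ _
    linarith
  have h4 : (1 : ℝ) ≤ 4 * lam := by linarith
  have hrj : ∀ j : ℕ, 0 < r0 / (4 * lam) ^ j := fun j => by positivity
  have hrj' : ∀ j : ℕ, r0 / (4 * lam) ^ j ≤ r0 := fun j =>
    div_le_self hr0p.le (one_le_pow₀ h4)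
  have key : ∀ j : ℕ, ∃ a b : ℝ, 0 ≤ a ∧ a ≤ b ∧
      (∀ᵐ y ∂μ, y ∈ Metric.ball x (r0 / (4 * lam) ^ j) → a ≤ ω y ∧ ω y ≤ b) ∧
      (b - a ≤ e ∨ b - a ≤ (1 - δ) ^ j * T) := by
    intro j
    induction j with
    | zero =>
      refine ⟨0, T, le_refl _, hT0.le, ?_, Or.inr (by simp)⟩
      filter_upwards [h.ge, hS] with y h1 h2 _
      refine ⟨le_trans (hρ0 y) h1, ?_⟩
      have : S ≤ max S 0 := le_max_left _ _
      linarith
    | succ j ih =>
      obtain ⟨a, b, ha, hab, hω, hor⟩ := ih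
      have hrs : r0 / (4 * lam) ^ (j + 1) = r0 / (4 * lam) ^ j / (4 * lam) := by
        rw [pow_succ, div_div]
      have hsubball : Metric.ball x (r0 / (4 * lam) ^ (j + 1)) ⊆
          Metric.ball x (r0 / (4 * lam) ^ j) := by
        apply Metric.ball_subset_ball
        rw [hrs]
        exact div_le_self (hrj j).le h4
      by_cases hbe : b - a ≤ e
      · refine ⟨a, b, ha, hab, ?_, Or.inl hbe⟩
        filter_upwards [hω] with y hy hyb
        exact hy (hsubball hyb)
      · have hba : b - a ≤ (1 - δ) ^ j * T := hor.resolve_left hbe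
        set a1 : ℝ := max a (ρ x - e / 8) with ha1
        have hω1 : ∀ᵐ y ∂μ, y ∈ Metric.ball x (r0 / (4 * lam) ^ j) → a1 ≤ ω y ∧ ω y ≤ b := by
          filter_upwards [hω, h.ge] with y h1 h2 hyb
          refine ⟨max_le (h1 hyb).1 ?_, (h1 hyb).2⟩
          have h3 := hr0ρ y (Metric.ball_subset_ball (hrj' j) hyb)
          have h4 := (abs_lt.1 h3).1
          linarith
        have ha1a : a ≤ a1 := le_max_left _ _
        by_cases hb1 : b - a1 ≤ e
        · refine ⟨min a1 b, b, le_min (ha.trans ha1a) (ha.trans hab), min_le_right _ _, ?_,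
            Or.inl ?_⟩
          · filter_upwards [hω1] with y h1 hyb
            exact ⟨(min_le_left _ _).trans (h1 (hsubball hyb)).1, (h1 (hsubball hyb)).2⟩
          · rcases le_total a1 b with h5 | h5
            · rw [min_eq_left h5]; exact hb1
            · rw [min_eq_right h5]; linarith
        · push Not at hb1
          have ha1b : a1 < b := by linarith
          have hρk : ∀ y ∈ Metric.ball x (r0 / (4 * lam) ^ j), ρ y ≤ (a1 + b) / 2 := by
            intro y hyb
            have h3 := hr0ρ y (Metric.ball_subset_ball (hrj' j) hyb)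
            have h4 := (abs_lt.1 h3).2
            have h5 : ρ x - e / 8 ≤ a1 := le_max_right _ _
            linarith
          obtain ⟨a', b', h6, h7, h8, h9, h10⟩ := hstep μ A hA hadm D ρ ω W h x
            (r0 / (4 * lam) ^ j) (hrj j) ((Metric.ball_subset_ball (hrj' j)).trans hr0D) a1 b
            (ha.trans ha1a) ha1b hω1 hρk
          refine ⟨a', b', ha.trans (ha1a.trans h6), h7, by rw [hrs]; exact h10, Or.inr ?_⟩
          calc b' - a' ≤ (1 - δ) * (b - a1) := h9
            _ ≤ (1 - δ) * (b - a) := by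
                apply mul_le_mul_of_nonneg_left _ (by linarith)
                linarith
            _ ≤ (1 - δ) * ((1 - δ) ^ j * T) := by
                apply mul_le_mul_of_nonneg_left hba (by linarith)
            _ = (1 - δ) ^ (j + 1) * T := by ring
  obtain ⟨j, hj⟩ := exists_pow_lt_of_lt_one (x := e / T) (by positivity) (y := 1 - δ) (by linarith)
  obtain ⟨a, b, ha, hab, hω, hor⟩ := key j
  refine ⟨r0 / (4 * lam) ^ j, hrj j, a, ?_⟩
  have hbe : b - a ≤ e := by
    rcases hor with h1 | h1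
    · exact h1
    · refine h1.trans ?_
      rw [lt_div_iff₀ hT0] at hj
      exact hj.le
  filter_upwards [hω] with y hy hyb
  exact ⟨(hy hyb).1, by linarith [(hy hyb).2]⟩

end Osc


end

section


/-! ### definition used below -/
/-! ### ALREADY PROVED elsewhere -/
/-! ### ALREADY PROVED elsewhere -/
section ObsProps
variable {n : ℕ} {p α β Cd θ Cs lam Cp : ℝ} {μ : Measure (Sp n)} {A : Sp n → Sp n → Sp n}
  {D G : Set (Sp n)} {ρ ω u : Sp n → ℝ} {W U : Sp n → Sp n}

end ObsProps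

/-! ### TARGETS -/
section BdryStep
variable {n : ℕ} {p α β Cd θ Cs lam Cp : ℝ}

/-- boundary estimate for the obstacle solution where the complement of `D` is thick and the obstacle vanishes -/
theorem boundary_step (hp : 1 < p) (hα : 0 < α) (hβ : 0 < β) {γ : ℝ} (hγ : 0 < γ) :
    ∃ δ : ℝ, 0 < δ ∧ δ < 1 ∧ ∀ (μ : Measure (Sp n)) [IsFiniteMeasureOnCompacts μ]
      (A : Sp n → Sp n → Sp n), Op p α β μ A → Adm p μ Cd θ Cs lam Cp → ∀ (D : Set (Sp n))
      (ρ ω : Sp n → ℝ) (W : Sp n → Sp n), Obs A p μ D ρ ω W → (∀ x, 0 ≤ ρ x) →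
      ∀ S : ℝ, 0 < S → (∀ᵐ x ∂μ, ω x ≤ S) →
      ∀ (y : Sp n) (r : ℝ), 0 < r → (∀ z ∈ Metric.ball y (2 * lam * r), ρ z = 0) →
      γ * μ.real (Metric.ball y r) ≤ μ.real {z | z ∈ Metric.ball y r ∧ z ∉ D} →
      ∀ᵐ z ∂μ, z ∈ Metric.ball y (r / 2) → ω z ≤ (1 - δ) * S := by
  obtain ⟨δ, hδ0, hδ1, H⟩ := DG2 (n := n) (p := p) (α := α) (β := β) (Cd := Cd) (θ := θ) (Cs := Cs)
    (lam := lam) (Cp := Cp) hp hα hβ hγ
  refine ⟨δ, hδ0, hδ1, ?_⟩
  intro μ _ A hA hadm D ρ ω W hobs hρ0 S hS hωS y r hr hρ hthick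
  have hsub := hobs.sub_above hp hα hβ hA (le_refl (0:ℝ)) (G := Metric.ball y (2 * lam * r))
    Metric.isOpen_ball (fun x hx => (hρ x hx).le)
  have hsup := Sub.const_sub hp hA hsub S
  have hz := H0.zero_outside hp hobs.h0
  have hs0 : ∀ᵐ x ∂μ, x ∈ Metric.ball y (2 * lam * r) → 0 ≤ S - max (ω x - 0) 0 := by
    filter_upwards [hωS] with x hx _
    have : max (ω x - 0) 0 ≤ S := max_le (by linarith) hS.le
    linarith
  have hmeas : γ * μ.real (Metric.ball y r) ≤
      μ.real {z | z ∈ Metric.ball y r ∧ S ≤ S - max (ω z - 0) 0} := by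
    refine hthick.trans ?_
    refine ENNReal.toReal_mono ?_ ?_
    · refine ne_top_of_le_ne_top (hadm.fin y r).ne (measure_mono ?_)
      intro z hz
      exact hz.1
    · refine measure_mono_ae ?_
      filter_upwards [hz] with z hz1 hz2
      refine ⟨hz2.1, ?_⟩
      have h0 : ω z = 0 := (hz1 hz2.2).1
      simp only [h0]
      simp
  have hfin := H μ A hA hadm _ Metric.isOpen_ball _ _ hsup hs0 y r hr (subset_refl _) S hS hmeas
  filter_upwards [hfin] with z hz1 hz2
  have h1 := hz1 hz2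
  have h2 : ω z - 0 ≤ max (ω z - 0) 0 := le_max_left _ _
  have h3 : (1 - δ) * S = S - δ * S := by ring
  rw [h3]
  linarith

/-- the complement of `{s < dist(., Ωᶜ)}` is thick -/
theorem thick_complement {μ : Measure (Sp n)} (hadm : Adm p μ Cd θ Cs lam Cp) {Ω : Set (Sp n)}
    (hΩ : IsOpen Ω) (hne : Ωᶜ.Nonempty) {s : ℝ} (hs : 0 < s) {y : Sp n} (hy : Metric.infDist y Ωᶜ ≤ s)
    {r : ℝ} (hr : 0 < r) (hrs : r ≤ 2 * s) :
    (Cd ^ 2)⁻¹ * μ.real (Metric.ball y r) ≤
      μ.real {z | z ∈ Metric.ball y r ∧ z ∉ {x | s < Metric.infDist x Ωᶜ}} := by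
  obtain ⟨z, hz, hzd⟩ := (hΩ.isClosed_compl).exists_infDist_eq_dist hne y
  rw [hzd] at hy
  obtain ⟨c, hcy, hcz⟩ : ∃ c : Sp n, dist c y ≤ r / 2 ∧ dist c z + r / 2 ≤ s := by
    by_cases h : dist y z ≤ r / 2
    · refine ⟨z, by rw [dist_comm]; exact h, by rw [dist_self]; linarith⟩
    · rw [not_le] at h
      have hd : 0 < dist y z := by linarith
      refine ⟨y + ((r / 2) / dist y z) • (z - y), ?_, ?_⟩
      · rw [dist_eq_norm, add_sub_cancel_left, norm_smul, Real.norm_of_nonneg (by positivity),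
          ← dist_eq_norm, dist_comm z y, div_mul_cancel₀ _ hd.ne']
      · have e : y + ((r / 2) / dist y z) • (z - y) - z = (1 - (r / 2) / dist y z) • (y - z) := by
          rw [sub_smul, one_smul, smul_sub, smul_sub]
          abel
        have h1 : (r / 2) / dist y z ≤ 1 := by rw [div_le_one hd]; exact h.le
        rw [dist_eq_norm, e, norm_smul, Real.norm_of_nonneg (by linarith), ← dist_eq_norm, sub_mul, one_mul,
          div_mul_cancel₀ _ hd.ne']
        linarith
  have hsub1 : Metric.ball c (r / 2) ⊆ {w | w ∈ Metric.ball y r ∧ w ∉ {x | s < Metric.infDist x Ωᶜ}} := by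
    intro w hw
    rw [Metric.mem_ball] at hw
    refine ⟨?_, ?_⟩
    · rw [Metric.mem_ball]
      have := dist_triangle w c y
      linarith
    · simp only [Set.mem_setOf_eq, not_lt]
      have h1 := Metric.infDist_le_dist_of_mem hz (x := w)
      have h2 := dist_triangle w c z
      linarith
  have hsub2 : Metric.ball y r ⊆ Metric.ball c (2 * (2 * (r / 2))) := by
    intro w hw
    rw [Metric.mem_ball] at hw ⊢
    have := dist_triangle_right w c y
    linarith
  have hCd : 0 < Cd := lt_of_lt_of_le one_pos hadm.one_le_Cd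
  have h1 : μ.real (Metric.ball y r) ≤ μ.real (Metric.ball c (2 * (2 * (r / 2)))) :=
    ENNReal.toReal_mono (hadm.fin _ _).ne (measure_mono hsub2)
  have h2 := hadm.dbl c (2 * (r / 2)) (by positivity)
  have h3 := hadm.dbl c (r / 2) (by positivity)
  have h4 : μ.real (Metric.ball c (r / 2)) ≤
      μ.real {w | w ∈ Metric.ball y r ∧ w ∉ {x | s < Metric.infDist x Ωᶜ}} := by
    refine ENNReal.toReal_mono ?_ (measure_mono hsub1)
    refine ne_top_of_le_ne_top (hadm.fin y r).ne (measure_mono ?_)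
    intro w hw
    exact hw.1
  have h5 : μ.real (Metric.ball y r) ≤ Cd ^ 2 * μ.real (Metric.ball c (r / 2)) := by
    calc μ.real (Metric.ball y r) ≤ Cd * μ.real (Metric.ball c (2 * (r / 2))) := h1.trans h2
      _ ≤ Cd * (Cd * μ.real (Metric.ball c (r / 2))) := mul_le_mul_of_nonneg_left h3 hCd.le
      _ = _ := by ring
  rw [inv_mul_le_iff₀ (by positivity)]
  exact h5.trans (mul_le_mul_of_nonneg_left h4 (by positivity))

end BdryStep


end

end Pool.Agent.Helper533.Polar
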