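import Pool.Agent.Helper533.Polar.AdmDef
open MeasureTheory Filter Topology Set
open scoped ENNReal NNReal RealInnerProductSpace

namespace Pool.Agent.Helper533.Polar

section


variable {n : ℕ} {D D' G G' K : Set (Sp n)} {p α β : ℝ} {μ : Measure (Sp n)} {φ ψ u v f g : Sp n → ℝ}
  {U V F : Sp n → Sp n} {x : Sp n} {A : Sp n → Sp n → Sp n}

/-- the gradient is in `L^p` of compact subsets -/
theorem LH.memLp_restrict (hp : 1 < p) (h : LH p μ G u U) (hG : IsOpen G) (hK : IsCompact K) (hKG : K ⊆ G) :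
    MemLp U (ENNReal.ofReal p) (μ.restrict K) ∧ MemLp u (ENNReal.ofReal p) (μ.restrict K) := by
  obtain ⟨η, hη, -, W, hW, hKW, hWG, hW1⟩ := exists_cutoff hK hG hKG
  have hH := h η hη
  constructor
  · refine (hH.mU.restrict K).ae_eq ?_
    filter_upwards [ae_restrict_mem hK.measurableSet] with x hx
    have h1 : η x = 1 := hW1 x (hKW hx)
    have h2 : gradient η x = 0 := grad_zero_of_const_on hW hW1 (hKW hx)
    rw [h1, h2, one_smul, smul_zero, add_zero]
  · refine (hH.mu.restrict K).ae_eq ?_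
    filter_upwards [ae_restrict_mem hK.measurableSet] with x hx
    have h1 : η x = 1 := hW1 x (hKW hx)
    rw [h1, one_mul]

theorem PolarAux.flux_memLp (hp : 1 < p) (hA : Op p α β μ A) {V : Sp n → Sp n}
    (hV : MemLp V (ENNReal.ofReal p) μ) :
    MemLp (fun x => A x (V x)) (ENNReal.ofReal p / ENNReal.ofReal (p - 1)) μ := by
  have h1 := hV.norm_rpow_div (ENNReal.ofReal (p - 1))
  rw [ENNReal.toReal_ofReal (by linarith)] at h1
  refine MemLp.of_le (h1.const_mul |β|) (hA.meas V hV.1) ?_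
  filter_upwards [hA.bdd] with x hx
  refine (hx (V x)).trans ?_
  have h2 : 0 ≤ ‖V x‖ ^ (p - 1) := Real.rpow_nonneg (norm_nonneg _) _
  rw [Real.norm_eq_abs, abs_mul, abs_abs, abs_of_nonneg h2]
  exact mul_le_mul_of_nonneg_right (le_abs_self β) h2

theorem PolarAux.holder (hp : 1 < p) :
    ENNReal.HolderTriple (ENNReal.ofReal p / ENNReal.ofReal (p - 1)) (ENNReal.ofReal p) 1 := by
  refine ⟨?_⟩
  have hp0 : 0 < p := by linarith
  have hp1 : 0 < p - 1 := by linarith
  rw [← ENNReal.ofReal_div_of_pos hp1, ← ENNReal.ofReal_inv_of_pos (by positivity),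
    ← ENNReal.ofReal_inv_of_pos hp0, ← ENNReal.ofReal_add (by positivity) (by positivity), inv_one,
    ← ENNReal.ofReal_one]
  congr 1
  field_simp
  ring

theorem PolarAux.flux_norm (hp : 1 < p) (hA : Op p α β μ A) {V H : Sp n → Sp n}
    (hV : MemLp V (ENNReal.ofReal p) μ) (hH : MemLp H (ENNReal.ofReal p) μ) :
    eLpNorm (fun x => ⟪A x (V x), H x⟫) 1 μ ≤
      eLpNorm (fun x => A x (V x)) (ENNReal.ofReal p / ENNReal.ofReal (p - 1)) μ *
        eLpNorm H (ENNReal.ofReal p) μ := by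
  haveI := PolarAux.holder hp
  have h1 := eLpNorm_le_eLpNorm_mul_eLpNorm_of_nnnorm (p := ENNReal.ofReal p / ENNReal.ofReal (p - 1))
    (q := ENNReal.ofReal p) (r := 1) (μ := μ) (PolarAux.flux_memLp hp hA hV).1 hH.1
    (fun a b => ⟪a, b⟫) 1 (Eventually.of_forall fun x => by
      rw [one_mul]
      exact nnnorm_inner_le_nnnorm (𝕜 := ℝ) (A x (V x)) (H x))
  simpa using h1

theorem PolarAux.flux_int (hp : 1 < p) (hA : Op p α β μ A) {V H : Sp n → Sp n}
    (hV : MemLp V (ENNReal.ofReal p) μ) (hH : MemLp H (ENNReal.ofReal p) μ) :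
    Integrable (fun x => ⟪A x (V x), H x⟫) μ := by
  rw [← memLp_one_iff_integrable]
  refine ⟨(hA.meas V hV.1).inner hH.1, ?_⟩
  refine lt_of_le_of_lt (PolarAux.flux_norm hp hA hV hH) ?_
  exact ENNReal.mul_lt_top (PolarAux.flux_memLp hp hA hV).2 hH.2

theorem PolarAux.ind (hp : 1 < p) (h : LH p μ G u U) (hG : IsOpen G)
    (hK : IsCompact K) (hKG : K ⊆ G) : MemLp (K.indicator U) (ENNReal.ofReal p) μ :=
  (memLp_indicator_iff_restrict hK.measurableSet).2 (LH.memLp_restrict hp h hG hK hKG).1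

theorem PolarAux.eqae {F : Sp n → Sp n} (hF0 : ∀ᵐ x ∂μ, x ∉ K → F x = 0) :
    (fun x => ⟪A x (K.indicator U x), F x⟫) =ᵐ[μ] fun x => ⟪A x (U x), F x⟫ := by
  filter_upwards [hF0] with x hx
  by_cases hxK : x ∈ K
  · rw [indicator_of_mem hxK]
  · rw [hx hxK, inner_zero_right, inner_zero_right]

/-- Hölder integrability of the flux against a field supported in a compact subset of `G` -/
theorem integrable_flux (hp : 1 < p) (hA : Op p α β μ A) (h : LH p μ G u U) (hG : IsOpen G)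
    (hK : IsCompact K) (hKG : K ⊆ G) (hF : MemLp F (ENNReal.ofReal p) μ)
    (hF0 : ∀ᵐ x ∂μ, x ∉ K → F x = 0) : Integrable (fun x => ⟪A x (U x), F x⟫) μ :=
  (PolarAux.flux_int hp hA (PolarAux.ind hp h hG hK hKG) hF).congr (PolarAux.eqae hF0)

/-- convergence of the flux integrals -/
theorem tendsto_flux (hp : 1 < p) (hA : Op p α β μ A) (h : LH p μ G u U) (hG : IsOpen G)
    (hK : IsCompact K) (hKG : K ⊆ G) (hF : MemLp F (ENNReal.ofReal p) μ)
    (hF0 : ∀ᵐ x ∂μ, x ∉ K → F x = 0) {Fj : ℕ → Sp n → Sp n}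
    (hFj : ∀ j, MemLp (Fj j) (ENNReal.ofReal p) μ) (hFj0 : ∀ j, ∀ᵐ x ∂μ, x ∉ K → Fj j x = 0)
    (hlim : Tendsto (fun j => eLpNorm (fun x => F x - Fj j x) (ENNReal.ofReal p) μ) atTop (𝓝 0)) :
    Tendsto (fun j => ∫ x, ⟪A x (U x), Fj j x⟫ ∂μ) atTop (𝓝 (∫ x, ⟪A x (U x), F x⟫ ∂μ)) := by
  have hV := PolarAux.ind hp h hG hK hKG
  have e1 : ∀ j, ∫ x, ⟪A x (U x), Fj j x⟫ ∂μ = ∫ x, ⟪A x (K.indicator U x), Fj j x⟫ ∂μ :=
    fun j => (integral_congr_ae (PolarAux.eqae (hFj0 j))).symm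
  have e2 : ∫ x, ⟪A x (U x), F x⟫ ∂μ = ∫ x, ⟪A x (K.indicator U x), F x⟫ ∂μ :=
    (integral_congr_ae (PolarAux.eqae hF0)).symm
  simp_rw [e1]
  rw [e2]
  refine tendsto_integral_of_L1' _ (PolarAux.flux_int hp hA hV hF).aestronglyMeasurable
    (Eventually.of_forall fun j => PolarAux.flux_int hp hA hV (hFj j)) ?_
  have hb : ∀ j, eLpNorm ((fun x => ⟪A x (K.indicator U x), Fj j x⟫) -
      fun x => ⟪A x (K.indicator U x), F x⟫) 1 μ ≤
      eLpNorm (fun x => A x (K.indicator U x)) (ENNReal.ofReal p / ENNReal.ofReal (p - 1)) μ *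
        eLpNorm (fun x => F x - Fj j x) (ENNReal.ofReal p) μ := by
    intro j
    have e : ((fun x => ⟪A x (K.indicator U x), Fj j x⟫) -
        fun x => ⟪A x (K.indicator U x), F x⟫) = - (fun x => ⟪A x (K.indicator U x), F x - Fj j x⟫) := by
      ext x
      simp only [Pi.sub_apply, Pi.neg_apply, inner_sub_right]
      ring
    rw [e, eLpNorm_neg]
    exact PolarAux.flux_norm hp hA hV (hF.sub (hFj j))
  have hfin : eLpNorm (fun x => A x (K.indicator U x)) (ENNReal.ofReal p / ENNReal.ofReal (p - 1)) μ ≠ ∞ :=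
    (PolarAux.flux_memLp hp hA hV).2.ne
  have hz := ENNReal.Tendsto.const_mul hlim (Or.inr hfin)
  rw [mul_zero] at hz
  exact tendsto_of_tendsto_of_tendsto_of_le_of_le tendsto_const_nhds hz (fun _ => zero_le) hb



end

section


variable {n : ℕ} {D D' G G' K : Set (Sp n)} {p α β : ℝ} {μ : Measure (Sp n)} {φ ψ u v f g : Sp n → ℝ}
  {U V F : Sp n → Sp n} {x : Sp n} {A : Sp n → Sp n → Sp n}

/-- nonnegative bounded-support `H0` functions whose gradient vanishes where they vanish can be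
approximated by nonnegative test functions supported in a fixed compact set -/
theorem LH.nonneg_approx [IsFiniteMeasureOnCompacts μ] (hp : 1 < p) (h : LH p μ G f F) (hG : IsOpen G)
    (hK : IsCompact K) (hKG : K ⊆ G) (hf : ∀ᵐ x ∂μ, 0 ≤ f x)
    (hf0 : ∀ᵐ x ∂μ, x ∉ K → f x = 0) (hF0 : ∀ᵐ x ∂μ, f x = 0 → F x = 0) :
    ∃ K' : Set (Sp n), IsCompact K' ∧ K ⊆ K' ∧ K' ⊆ G ∧ ∃ φ : ℕ → Sp n → ℝ, (∀ j, Cc G (φ j)) ∧
      (∀ j x, 0 ≤ φ j x) ∧ (∀ j x, x ∉ K' → φ j x = 0 ∧ gradient (φ j) x = 0) ∧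
      Tendsto (fun j => eLpNorm (fun x => F x - gradient (φ j) x) (ENNReal.ofReal p) μ) atTop (𝓝 0) := by
  have hFK : ∀ᵐ x ∂μ, x ∉ K → F x = 0 := by
    filter_upwards [hf0, hF0] with x h1 h2 h3
    exact h2 (h1 h3)
  have H : H0 p μ G f F := LH.toH0 h hG hK hKG hf0 hFK
  have hp' : (1 : ℝ≥0∞) ≤ ENNReal.ofReal p := by simpa using ENNReal.ofReal_le_ofReal hp.le
  have hq0 : ENNReal.ofReal p ≠ 0 := (lt_of_lt_of_le one_pos hp').ne'
  have hqt : ENNReal.ofReal p ≠ ∞ := ENNReal.ofReal_ne_top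
  obtain ⟨η, hη, hη01, W, hW, hKW, hWG, hηW⟩ := exists_cutoff hK hG hKG
  obtain ⟨φ, hφ, hφ1, hφ2, hφ3, hφ4⟩ := H.seq hp.le
  obtain ⟨β, hβs, hβ0, hβn, hβd, hβl, hβl', hβz⟩ := exists_profile 0 le_rfl
  obtain ⟨M, hM⟩ := hη.comp_grad.exists_bound_of_continuous hη.cont_grad
  have hβdc : ∀ k, Continuous (deriv (β k)) := fun k => (hβs k).continuous_deriv (by simp)
  have hβdiff : ∀ k, Differentiable ℝ (β k) := fun k => (hβs k).differentiable (by simp)
  have hlip : ∀ k s t, |β k s - β k t| ≤ |s - t| := by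
    intro k s t
    have := (convex_univ : Convex ℝ (univ : Set ℝ)).norm_image_sub_le_of_norm_deriv_le
      (f := β k) (C := 1) (x := t) (y := s) (fun x _ => hβdiff k x) (fun x _ => by
        rw [Real.norm_eq_abs, abs_le]
        exact ⟨by linarith [(hβd k x).1], (hβd k x).2⟩) (mem_univ _) (mem_univ _)
    simpa [Real.norm_eq_abs] using this
  obtain ⟨ψ, hψdef⟩ : ∃ ψ : ℕ → ℕ → Sp n → ℝ, ∀ k j, ψ k j = fun x => η x * β k (φ j x) :=
    ⟨_, fun _ _ => rfl⟩
  have hψ : ∀ k j, Cc G (ψ k j) := by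
    intro k j
    rw [hψdef]
    exact hη.mul_smooth ((hβs k).comp (hφ j).smooth)
  have hgrad : ∀ k j x, gradient (ψ k j) x =
      (η x * deriv (β k) (φ j x)) • gradient (φ j) x + β k (φ j x) • gradient η x := by
    intro k j x
    rw [hψdef]
    have h1 : DifferentiableAt ℝ (fun x => β k (φ j x)) x :=
      (hβdiff k (φ j x)).comp x ((hφ j).diff x)
    rw [grad_mul (hη.diff x) h1, grad_comp ((hφ j).diff x) (hβdiff k (φ j x)), smul_smul]
  -- measurability
  have mf : AEStronglyMeasurable f μ := H.mu.1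
  have mF : AEStronglyMeasurable F μ := H.mU.1
  have mη : AEStronglyMeasurable η μ := hη.cont.aestronglyMeasurable
  have mφ : ∀ j, AEStronglyMeasurable (φ j) μ := fun j => (hφ j).cont.aestronglyMeasurable
  have mgφ : ∀ j, AEStronglyMeasurable (gradient (φ j)) μ :=
    fun j => (hφ j).cont_grad.aestronglyMeasurable
  have mβf : ∀ k, AEStronglyMeasurable (fun x => deriv (β k) (f x)) μ :=
    fun k => (hβdc k).comp_aestronglyMeasurable mf
  have mβφ : ∀ k j, AEStronglyMeasurable (fun x => deriv (β k) (φ j x)) μ :=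
    fun k j => (hβdc k).comp_aestronglyMeasurable (mφ j)
  -- step 1
  have ha : Tendsto (fun k => eLpNorm (fun x => (1 - deriv (β k) (f x)) • F x)
      (ENNReal.ofReal p) μ) atTop (𝓝 0) := by
    apply Lp_dct hq0 hqt H.mU.norm
    · intro k
      exact (aestronglyMeasurable_const.sub (mβf k)).smul mF
    · intro k
      filter_upwards with x
      rw [norm_smul, Real.norm_eq_abs]
      have h1 : |1 - deriv (β k) (f x)| ≤ 1 := by
        rw [abs_le]
        constructor <;> linarith [(hβd k (f x)).1, (hβd k (f x)).2]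
      calc |1 - deriv (β k) (f x)| * ‖F x‖ ≤ 1 * ‖F x‖ :=
            mul_le_mul_of_nonneg_right h1 (norm_nonneg _)
        _ = ‖F x‖ := one_mul _
    · filter_upwards [hf, hF0] with x hx hx0
      rcases hx.lt_or_eq with h1 | h1
      · have h2 := hβl' (f x)
        rw [if_pos h1] at h2
        have h3 := (tendsto_const_nhds (x := (1 : ℝ))).sub h2
        rw [sub_self] at h3
        have h4 := h3.smul_const (F x)
        rwa [zero_smul] at h4
      · rw [hx0 h1.symm]
        simp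
  -- step 2
  have hb : ∀ k, Tendsto (fun j => eLpNorm (fun x => deriv (β k) (f x) • F x - gradient (ψ k j) x)
      (ENNReal.ofReal p) μ) atTop (𝓝 0) := by
    intro k
    have t1 : Tendsto (fun j => eLpNorm (fun x => (η x * (deriv (β k) (f x) -
        deriv (β k) (φ j x))) • F x) (ENNReal.ofReal p) μ) atTop (𝓝 0) := by
      apply Lp_dct hq0 hqt H.mU.norm
      · intro j
        exact (mη.mul ((mβf k).sub (mβφ k j))).smul mF
      · intro j
        filter_upwards with x
        rw [norm_smul, Real.norm_eq_abs, abs_mul]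
        have h1 : |deriv (β k) (f x) - deriv (β k) (φ j x)| ≤ 1 := by
          rw [abs_le]
          constructor <;> linarith [(hβd k (f x)).1, (hβd k (f x)).2, (hβd k (φ j x)).1,
            (hβd k (φ j x)).2]
        have h2 : |η x| ≤ 1 := by
          rw [abs_le]
          constructor <;> linarith [(hη01 x).1, (hη01 x).2]
        calc |η x| * |deriv (β k) (f x) - deriv (β k) (φ j x)| * ‖F x‖ ≤ 1 * 1 * ‖F x‖ := by
              gcongr
          _ = ‖F x‖ := by ring
      · filter_upwards [hφ3] with x hx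
        have h1 : Tendsto (fun j => deriv (β k) (φ j x)) atTop (𝓝 (deriv (β k) (f x))) :=
          ((hβdc k).tendsto _).comp hx
        have h2 := ((tendsto_const_nhds (x := deriv (β k) (f x))).sub h1).const_mul (η x)
        rw [sub_self, mul_zero] at h2
        have h4 := h2.smul_const (F x)
        rwa [zero_smul] at h4
    have t3 : Tendsto (fun j => ENNReal.ofReal M *
        eLpNorm (fun x => f x - φ j x) (ENNReal.ofReal p) μ) atTop (𝓝 0) := by
      have := ENNReal.Tendsto.const_mul (a := ENNReal.ofReal M) hφ1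
        (Or.inr ENNReal.ofReal_ne_top)
      rwa [mul_zero] at this
    have t := (t1.add hφ2).add t3
    rw [add_zero, add_zero] at t
    refine tendsto_of_tendsto_of_tendsto_of_le_of_le tendsto_const_nhds t (fun _ => zero_le) ?_
    intro j
    have e1 : eLpNorm (fun x => deriv (β k) (f x) • F x - gradient (ψ k j) x)
        (ENNReal.ofReal p) μ =
        eLpNorm (((fun x => (η x * (deriv (β k) (f x) - deriv (β k) (φ j x))) • F x) +
          (fun x => (η x * deriv (β k) (φ j x)) • (F x - gradient (φ j) x))) +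
          (fun x => (β k (f x) - β k (φ j x)) • gradient η x)) (ENNReal.ofReal p) μ := by
      apply eLpNorm_congr_ae
      filter_upwards [hf0, hFK] with x h1 h2
      have key : deriv (β k) (f x) • F x = (η x * deriv (β k) (f x)) • F x +
          β k (f x) • gradient η x := by
        by_cases hx : x ∈ K
        · rw [hηW x (hKW hx), grad_zero_of_const_on hW hηW (hKW hx), one_mul, smul_zero, add_zero]
        · rw [h1 hx, h2 hx, hβ0]
          simp
      rw [key, hgrad]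
      simp only [Pi.add_apply]
      rw [mul_sub, sub_smul, smul_sub, sub_smul]
      abel
    beta_reduce
    rw [e1]
    have hA1 : AEStronglyMeasurable (fun x => (η x * (deriv (β k) (f x) -
        deriv (β k) (φ j x))) • F x) μ := (mη.mul ((mβf k).sub (mβφ k j))).smul mF
    have hA2 : AEStronglyMeasurable (fun x => (η x * deriv (β k) (φ j x)) •
        (F x - gradient (φ j) x)) μ := (mη.mul (mβφ k j)).smul (mF.sub (mgφ j))
    have hA3 : AEStronglyMeasurable (fun x => (β k (f x) - β k (φ j x)) • gradient η x) μ :=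
      (((hβs k).continuous.comp_aestronglyMeasurable mf).sub
        ((hβs k).continuous.comp_aestronglyMeasurable (mφ j))).smul
        hη.cont_grad.aestronglyMeasurable
    refine (eLpNorm_add_le (hA1.add hA2) hA3 hp').trans ?_
    refine add_le_add ((eLpNorm_add_le hA1 hA2 hp').trans (add_le_add le_rfl ?_)) ?_
    · apply eLpNorm_mono
      intro x
      rw [norm_smul, Real.norm_eq_abs, abs_mul]
      have h1 : |deriv (β k) (φ j x)| ≤ 1 := by
        rw [abs_le]
        constructor <;> linarith [(hβd k (φ j x)).1, (hβd k (φ j x)).2]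
      have h2 : |η x| ≤ 1 := by
        rw [abs_le]
        constructor <;> linarith [(hη01 x).1, (hη01 x).2]
      calc |η x| * |deriv (β k) (φ j x)| * ‖F x - gradient (φ j) x‖
          ≤ 1 * 1 * ‖F x - gradient (φ j) x‖ := by gcongr
        _ = ‖F x - gradient (φ j) x‖ := by ring
    · apply eLpNorm_le_mul_eLpNorm_of_ae_le_mul
      filter_upwards with x
      rw [norm_smul, Real.norm_eq_abs, Real.norm_eq_abs, mul_comm]
      exact mul_le_mul (hM x) (hlip k _ _) (abs_nonneg _) ((norm_nonneg _).trans (hM x))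
  -- step 3
  have hex : ∀ m : ℕ, ∃ k j, eLpNorm (fun x => F x - gradient (ψ k j) x) (ENNReal.ofReal p) μ ≤
      ((m : ℝ≥0∞) + 1)⁻¹ := by
    intro m
    have hε : (0 : ℝ≥0∞) < ((m : ℝ≥0∞) + 1)⁻¹ / 2 := by
      apply ENNReal.div_pos
      · simp
      · simp
    obtain ⟨k, hk⟩ := (ha.eventually (ge_mem_nhds hε)).exists
    obtain ⟨j, hj⟩ := ((hb k).eventually (ge_mem_nhds hε)).exists
    refine ⟨k, j, ?_⟩
    have e : (fun x => F x - gradient (ψ k j) x) = (fun x => (1 - deriv (β k) (f x)) • F x) +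
        (fun x => deriv (β k) (f x) • F x - gradient (ψ k j) x) := by
      funext x
      simp only [Pi.add_apply]
      rw [sub_smul, one_smul]
      abel
    rw [e]
    refine (eLpNorm_add_le ((aestronglyMeasurable_const.sub (mβf k)).smul mF)
      (((mβf k).smul mF).sub (hψ k j).cont_grad.aestronglyMeasurable) hp').trans ?_
    calc _ ≤ ((m : ℝ≥0∞) + 1)⁻¹ / 2 + ((m : ℝ≥0∞) + 1)⁻¹ / 2 := add_le_add hk hj
      _ = ((m : ℝ≥0∞) + 1)⁻¹ := ENNReal.add_halves _
  choose k j hkj using hex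
  refine ⟨tsupport η, hη.comp, ?_, hη.supp, fun m => ψ (k m) (j m), fun m => hψ _ _, ?_, ?_, ?_⟩
  · intro x hx
    apply subset_tsupport
    rw [Function.mem_support, hηW x (hKW hx)]
    exact one_ne_zero
  · intro m x
    show 0 ≤ ψ (k m) (j m) x
    rw [hψdef]
    exact mul_nonneg (hη01 x).1 (hβn _ _)
  · intro m x hx
    have h1 : x ∉ tsupport (ψ (k m) (j m)) := by
      intro h2
      apply hx
      rw [hψdef] at h2
      exact tsupport_mul_subset_left h2
    exact ⟨zero_of_notMem h1, grad_zero_of_notMem h1⟩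
  · have hlim : Tendsto (fun j : ℕ => ((j : ℝ≥0∞) + 1)⁻¹) atTop (𝓝 0) := by
      have := (tendsto_add_atTop_iff_nat (f := fun j : ℕ => ((j : ℝ≥0∞))⁻¹) 1).2
        ENNReal.tendsto_inv_nat_nhds_zero
      simpa using this
    exact tendsto_of_tendsto_of_tendsto_of_le_of_le tendsto_const_nhds hlim (fun _ => zero_le) hkj


end

section


variable {n : ℕ} {D D' G G' K : Set (Sp n)} {p α β : ℝ} {μ : Measure (Sp n)} {φ ψ u v f g : Sp n → ℝ}
  {U V F : Sp n → Sp n} {x : Sp n} {A : Sp n → Sp n → Sp n}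

/-! the next four are ALREADY PROVED elsewhere,  -/
/-! TARGETS -/
/-- main test lemma -/
theorem Sup.test [IsFiniteMeasureOnCompacts μ] (hp : 1 < p) (hA : Op p α β μ A)
    (hs : Sup A p μ G u U) (h : LH p μ G f F) (hG : IsOpen G)
    (hK : IsCompact K) (hKG : K ⊆ G) (hf : ∀ᵐ x ∂μ, 0 ≤ f x)
    (hf0 : ∀ᵐ x ∂μ, x ∉ K → f x = 0) (hF0 : ∀ᵐ x ∂μ, f x = 0 → F x = 0) :
    0 ≤ ∫ x, ⟪A x (U x), F x⟫ ∂μ := by
  have hFK : ∀ᵐ x ∂μ, x ∉ K → F x = 0 := by
    filter_upwards [hf0, hF0] with x h1 h2 h3 using h2 (h1 h3)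
  have hFm : MemLp F (ENNReal.ofReal p) μ := (LH.toH0 h hG hK hKG hf0 hFK).mU
  obtain ⟨K', hK', hKK', hKG', φ, hφ, hφ0, hφK, hlim⟩ :=
    LH.nonneg_approx hp h hG hK hKG hf hf0 hF0
  have hFK' : ∀ᵐ x ∂μ, x ∉ K' → F x = 0 := by
    filter_upwards [hFK] with x h1 h2 using h1 (fun h3 => h2 (hKK' h3))
  have ht := tendsto_flux hp hA hs.1 hG hK' hKG' hFm hFK'
    (Fj := fun j => gradient (φ j)) (fun j => (hφ j).memLp_grad _)
    (fun j => Eventually.of_forall fun x hx => (hφK j x hx).2) hlim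
  exact ge_of_tendsto' ht fun j => hs.2 (φ j) (hφ j) (hφ0 j)

theorem Sub.test [IsFiniteMeasureOnCompacts μ] (hp : 1 < p) (hA : Op p α β μ A)
    (hs : Sub A p μ G u U) (h : LH p μ G f F) (hG : IsOpen G)
    (hK : IsCompact K) (hKG : K ⊆ G) (hf : ∀ᵐ x ∂μ, 0 ≤ f x)
    (hf0 : ∀ᵐ x ∂μ, x ∉ K → f x = 0) (hF0 : ∀ᵐ x ∂μ, f x = 0 → F x = 0) :
    ∫ x, ⟪A x (U x), F x⟫ ∂μ ≤ 0 := by
  have hFK : ∀ᵐ x ∂μ, x ∉ K → F x = 0 := by
    filter_upwards [hf0, hF0] with x h1 h2 h3 using h2 (h1 h3)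
  have hFm : MemLp F (ENNReal.ofReal p) μ := (LH.toH0 h hG hK hKG hf0 hFK).mU
  obtain ⟨K', hK', hKK', hKG', φ, hφ, hφ0, hφK, hlim⟩ :=
    LH.nonneg_approx hp h hG hK hKG hf hf0 hF0
  have hFK' : ∀ᵐ x ∂μ, x ∉ K' → F x = 0 := by
    filter_upwards [hFK] with x h1 h2 using h1 (fun h3 => h2 (hKK' h3))
  have ht := tendsto_flux hp hA hs.1 hG hK' hKG' hFm hFK'
    (Fj := fun j => gradient (φ j)) (fun j => (hφ j).memLp_grad _)
    (fun j => Eventually.of_forall fun x hx => (hφK j x hx).2) hlim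
  exact le_of_tendsto' ht fun j => hs.2 (φ j) (hφ j) (hφ0 j)


end

end Pool.Agent.Helper533.Polar
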